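import Pool.Agent.H5.SBC.Semi

/-!
Stable modules are bricks; over an infinite field, finitely many bricks in each dimension imply
that all classes in `K₀(proj A)` are classes of rigid complexes.
-/

namespace SBC

open Dem

variable {K A : Type} [Field K] [Ring A] [Algebra K A]

/-- stable modules are bricks -/
theorem brick_of_stab {x : FMod K A → ℤ} (hx : x ∈ K0 K A) {N : FMod K A} (hN : Stab x N)
    (hn : Nontrivial N) : Brick N := by
  refine ⟨hn, fun φ => ?_⟩
  by_cases hφ : φ = 0
  · exact Or.inl hφ
  · right
    have hker : LinearMap.ker φ ≠ ⊤ := fun h => hφ (LinearMap.ker_eq_top.1 h)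
    have hrange : LinearMap.range φ ≠ ⊥ := fun h => hφ (LinearMap.range_eq_bot.1 h)
    have h1 : x N = x (N.sub (LinearMap.ker φ)) + x (N.quo (LinearMap.ker φ)) :=
      K0_exact hx N _
    have h2 : x (N.quo (LinearMap.ker φ)) = x (N.sub (LinearMap.range φ)) :=
      K0_congr hx φ.quotKerEquivRange
    have h3 : x (N.sub (LinearMap.range φ)) ≤ 0 := by
      by_cases ht : LinearMap.range φ = ⊤
      · have h4 : x (N.sub (LinearMap.range φ)) = x N := by
          rw [ht]
          exact K0_congr hx (Submodule.topEquiv : (⊤ : Submodule A N) ≃ₗ[A] N)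
        rw [h4, hN.1]
      · exact (hN.2 _ hrange ht).le
    have h5 : LinearMap.ker φ = ⊥ := by
      by_contra hb
      have h6 := hN.2 _ hb hker
      rw [hN.1] at h1
      omega
    have hinj : Function.Injective φ := LinearMap.ker_eq_bot.1 h5
    exact ⟨hinj, surj_of_finrank_eq φ hinj rfl⟩

variable (K A) [Module.Finite K A]

/-- finitely many bricks in each dimension imply finitely many stable modules -/
theorem finStab_of_bricks (h : ∀ n : ℕ, ∃ l : List (FMod K A), ∀ B : FMod K A, Brick B →
    Module.finrank K B = n → ∃ N ∈ l, Nonempty (B ≃ₗ[A] N)) : FinStab K A := by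
  intro x hx n
  obtain ⟨l, hl⟩ := h n
  refine ⟨FMod.zero :: l, fun N hN hs => ?_⟩
  rcases subsingleton_or_nontrivial N with hs' | hn
  · refine ⟨FMod.zero, List.mem_cons_self, ⟨?_⟩⟩
    exact { toFun := fun _ => 0, map_add' := fun _ _ => (add_zero _).symm,
            map_smul' := fun _ _ => (smul_zero _).symm, invFun := fun _ => 0,
            left_inv := fun _ => Subsingleton.elim _ _,
            right_inv := fun _ => Subsingleton.elim (α := PUnit) _ _ }
  · obtain ⟨N', hN', e⟩ := hl N (brick_of_stab hx hs hn) hN
    exact ⟨N', List.mem_cons_of_mem _ hN', e⟩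

/-- **Infinite field.** All classes are rigid if and only if there are finitely many bricks in each
dimension. -/
theorem lr_iff (hK : Infinite K) : LR K A ↔ ∀ n : ℕ, ∃ l : List (FMod K A), ∀ B : FMod K A,
    Brick B → Module.finrank K B = n → ∃ N ∈ l, Nonempty (B ≃ₗ[A] N) :=
  ⟨fun h n => finitely_many_bricks K A h n, fun h => all_THB K A hK (finStab_of_bricks K A h)⟩

end SBC
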