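import Pool.Agent.H5.SBC.Targets

/-!
# Module NSR: numerical splittings and rigidity
-/

namespace SBC

open Dem

private theorem nsr_size_sum {K A : Type} [Field K] [Ring A] [Algebra K A] (f g : Cpx K A) :
    size (f.sum g) = size f + size g := by
  unfold size
  have h0 : Module.finrank K (f.sum g).P0 = Module.finrank K f.P0 + Module.finrank K g.P0 :=
    Module.finrank_prod
  have h1 : Module.finrank K (f.sum g).P1 = Module.finrank K f.P1 + Module.finrank K g.P1 :=
    Module.finrank_prod
  omega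

theorem sbc_NSR (K A : Type) [Field K] [Ring A] [Algebra K A] [Module.Finite K A]
    (hH : T_HOM K A) : T_NSR K A := by
  obtain ⟨h1, h2, h3, h4, h5, -⟩ := hH
  have hle : ∀ g h h' : Cpx K A, NSplit g h h' → ∀ L, hh h L ≤ hh g L ∧ ee h L ≤ ee g L := by
    intro g h h' hs L
    have a := hs.hh_eq L
    have b := hs.ee_eq L
    omega
  refine ⟨?_, ?_, ?_, ?_, ?_, ?_⟩
  · intro f g h h' hr hs
    rw [rigid_sum_iff] at hr ⊢
    obtain ⟨⟨r1, r2⟩, r3, r4⟩ := hr
    rw [van_iff_ee] at r2 r3
    rw [van_iff_ee, van_iff_ee]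
    refine ⟨⟨r1, ?_⟩, ?_, ?_⟩
    · have a := h5 f h
      have b := h5 f g
      have c := (hle g h h' hs (tau f)).1
      omega
    · have a := (hle g h h' hs f.H).2
      omega
    · rw [h3]
      have a := (hle g h h' hs h.H).2
      have b := h5 g h
      have c := (hle g h h' hs (tau g)).1
      have d := (h4 g).1 r4
      omega
  · intro g h h' hs
    refine ⟨fun L => ?_, fun L => ?_, ?_⟩
    · rw [hs.hh_eq, Nat.add_comm]
    · rw [hs.ee_eq, Nat.add_comm]
    · rw [hs.size_eq, Nat.add_comm]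
  · intro g h h' hs L
    have a := hs.hh_eq L
    have b := hs.ee_eq L
    rw [← hh_sub_ee, ← hh_sub_ee, ← hh_sub_ee, a, b]
    push_cast
    ring
  · intro g h h' hs Z hZ
    rw [← h1]
    have a := (hle g h h' hs Z).1
    omega
  · intro g hg L
    unfold size at hg
    have s0 : Subsingleton g.P0 := (subsingleton_iff g.P0).2 (by omega)
    have s1 : Subsingleton g.P1 := (subsingleton_iff g.P1).2 (by omega)
    have t0 : Subsingleton (g.P0 →ₗ[A] L) := ⟨fun a b => by
      ext x
      rw [Subsingleton.elim x 0, map_zero, map_zero]⟩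
    have t1 : Subsingleton (g.P1 →ₗ[A] L) := ⟨fun a b => by
      ext x
      rw [Subsingleton.elim x 0, map_zero, map_zero]⟩
    have u0 : hh g L = 0 := by
      unfold hh
      exact Module.finrank_zero_of_subsingleton
    have u1 : ee g L = 0 := by
      unfold ee
      exact Module.finrank_zero_of_subsingleton
    refine ⟨u0, u1, ?_⟩
    rw [← hh_sub_ee, u0, u1]
    rfl
  · intro g h h' h₁ h₂ hs hs'
    refine ⟨h₂.sum h', fun L => ?_, fun L => ?_, ?_⟩
    · rw [hs.hh_eq, hs'.hh_eq, hh_sum, Nat.add_assoc]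
    · rw [hs.ee_eq, hs'.ee_eq, ee_sum, Nat.add_assoc]
    · rw [hs.size_eq, hs'.size_eq, nsr_size_sum, Nat.add_assoc]

end SBC
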