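import Pool.Agent.H5.SBC.Targets

/-! # Stable brick conjecture: module BDD (helper88) -/

namespace SBC

open Dem

theorem sbc_BDD (K A : Type) [Field K] [Ring A] [Algebra K A] [Module.Finite K A]
    (h1 : T_KBD K A) : T_BDD K A := by
  intro f r D
  choose m hm x hx hmx using fun j : Fin r => D.ext (Pi.single j 1)
  have hval : ∀ j X, InW f X → (x j X : ℚ) = m j * D.d X j := by
    intro j X hX
    rw [hmx j X hX]
    congr 1
    rw [Finset.sum_eq_single j]
    · simp
    · intro b _ hb
      simp [Pi.single_eq_of_ne hb]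
    · intro hj
      exact absurd (Finset.mem_univ j) hj
  choose C hC using fun j => h1 (x j) (hx j)
  have hbd : ∀ j X, InW f X → |D.d X j| ≤ C j * Module.finrank K X := by
    intro j X hX
    have h2 : |(x j X : ℚ)| ≤ C j * Module.finrank K X := by exact_mod_cast hC j X
    rw [hval j X hX, abs_mul] at h2
    have h3 : (1 : ℚ) ≤ |(m j : ℚ)| := by
      rw [abs_of_pos (by exact_mod_cast hm j)]
      exact_mod_cast hm j
    calc |D.d X j| = 1 * |D.d X j| := (one_mul _).symm
      _ ≤ |(m j : ℚ)| * |D.d X j| := mul_le_mul_of_nonneg_right h3 (abs_nonneg _)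
      _ ≤ _ := h2
  refine ⟨⟨∑ j, (C j : ℝ) + 1, by positivity, ?_⟩, ?_⟩
  · intro X hX ζ
    have hfin : (0 : ℝ) ≤ Module.finrank K X := by positivity
    calc |wt D ζ X| ≤ ∑ j, |ζ j * (D.d X j : ℝ)| := Finset.abs_sum_le_sum_abs _ _
      _ ≤ ∑ j, ‖ζ‖ * ((C j : ℝ) * Module.finrank K X) := by
          refine Finset.sum_le_sum fun j _ => ?_
          rw [abs_mul]
          have h2 : |ζ j| ≤ ‖ζ‖ := norm_le_pi_norm ζ j
          have h3 : |(D.d X j : ℝ)| ≤ (C j : ℝ) * Module.finrank K X := by
            exact_mod_cast hbd j X hX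
          exact mul_le_mul h2 h3 (abs_nonneg _) (norm_nonneg _)
      _ = (∑ j, (C j : ℝ)) * ‖ζ‖ * Module.finrank K X := by
          rw [Finset.sum_mul, Finset.sum_mul]
          refine Finset.sum_congr rfl fun j _ => ?_
          ring
      _ ≤ (∑ j, (C j : ℝ) + 1) * ‖ζ‖ * Module.finrank K X := by
          have h4 : 0 ≤ ‖ζ‖ := norm_nonneg _
          gcongr
          linarith
  · intro n
    let S : Fin r → Set ℚ := fun j =>
      (fun z : ℤ => (z : ℚ) / m j) '' (Set.Icc (-((C j : ℤ) * n)) ((C j : ℤ) * n))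
    have hS : ∀ j, (S j).Finite := fun j => (Set.finite_Icc _ _).image _
    refine (Set.Finite.pi' hS).subset ?_
    rintro v ⟨X, hX, hn, rfl⟩ j
    refine ⟨x j X, ?_, ?_⟩
    · have h2 := hC j X
      have h3 : (C j : ℤ) * Module.finrank K X ≤ (C j : ℤ) * n := by
        have : (Module.finrank K X : ℤ) ≤ n := by exact_mod_cast hn
        exact mul_le_mul_of_nonneg_left this (by positivity)
      exact ⟨by linarith [neg_abs_le (x j X)], (le_abs_self _).trans (h2.trans h3)⟩
    · have hm0 : (m j : ℚ) ≠ 0 := by exact_mod_cast (hm j).ne'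
      simp only
      rw [hval j X hX]
      field_simp

end SBC
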