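import Pool.Agent.H5.SBC.Targets

/-!
Stable brick conjecture, module BRK: functorial finiteness of all torsion classes `T(M)` gives finitely many bricks
of each dimension.
-/

namespace SBC

open Dem

theorem sbc_BRK (K A : Type) [Field K] [Ring A] [Algebra K A] [Module.Finite K A]
    (hHOM : T_HOM K A) (hFUL : T_FUL K A) (hCHT : T_CHT K A) (hBDD : T_BDD K A) : T_BRK K A := by
  intro hall n
  obtain ⟨-, -, -, -, -, hee, hhh, -⟩ := hHOM
  obtain ⟨-, -, hful⟩ := hFUL
  obtain ⟨r, ⟨D⟩⟩ := hCHT (Cpx.zero : Cpx K A)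
  have hW : ∀ X : FMod K A, InW (Cpx.zero : Cpx K A) X := fun X =>
    ⟨hh_zero_left X, (van_iff_ee _ _).1 (van_zero_left X)⟩
  have hVfin := (hBDD (Cpx.zero : Cpx K A) r D).2 n
  set V : Set (Fin r → ℚ) := {v : Fin r → ℚ | ∃ X : FMod K A, InW (Cpx.zero : Cpx K A) X ∧
    Module.finrank K X ≤ n ∧ D.d X = v} with hV
  -- the classes of nonzero quotients
  let Q : FMod K A → Set (Fin r → ℚ) := fun B => {v | ∃ (X : FMod K A) (p : B →ₗ[A] X),
    Nontrivial X ∧ Function.Surjective p ∧ D.d X = v}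
  -- the key comparison
  have key1 : ∀ B B' : FMod K A, Q B' ⊆ Q B → ∀ Z, Hom0 B Z → Hom0 B' Z := by
    intro B B' hQ Z hZ
    obtain ⟨g, hg, hgZ⟩ := hall B
    have hB : ee g B = 0 := hful g hg B fun Z hZ => (hgZ Z).1 hZ
    have hZ0 : hh g Z = 0 := (hgZ Z).2 hZ
    obtain ⟨c, hc⟩ := D.res _ (cls_mem_K0 g)
    intro φ
    obtain ⟨I, p, i, hp, hi, rfl⟩ := exists_image φ
    rcases subsingleton_or_nontrivial I with hI | hI
    · ext x
      have h1 : p x = 0 := Subsingleton.elim _ _
      simp [h1]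
    · exfalso
      obtain ⟨X, q, hX, hq, hd⟩ := hQ ⟨I, p, hI, hp, rfl⟩
      have h1 : cls g X = cls g I := by
        have h2 := hc X (hW X)
        have h3 := hc I (hW I)
        rw [hd] at h2
        exact_mod_cast h2.trans h3.symm
      have h2 : ee g X = 0 := Nat.le_zero.1 ((hee g B X q hq).trans hB.le)
      have h3 : hh g X ≠ 0 := by
        intro h0
        have h4 := (hgZ X).1 h0 q
        obtain ⟨a, b, hab⟩ := hX
        obtain ⟨a', rfl⟩ := hq a
        obtain ⟨b', rfl⟩ := hq b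
        rw [h4] at hab
        exact hab rfl
      have h4 : hh g I = 0 := Nat.le_zero.1 ((hhh g I Z i hi).trans hZ0.le)
      have h5 := hh_sub_ee g X
      have h6 := hh_sub_ee g I
      omega
  have key : ∀ B B' : FMod K A, Brick B → Brick B' → Module.finrank K B = n →
      Module.finrank K B' = n → Q B = Q B' → Nonempty (B ≃ₗ[A] B') := by
    intro B B' hB hB' hn hn' hQ
    have h1 := key1 B B' hQ.ge
    have h2 := key1 B' B hQ.le
    have h3 : ¬ Hom0 B B' := by
      intro h
      have h4 := (h1 B' h).self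
      exact not_subsingleton_iff_nontrivial.2 hB'.1 h4
    unfold Hom0 at h3
    push_neg at h3
    obtain ⟨φ, hφ⟩ := h3
    obtain ⟨I, p, i, hp, hi, rfl⟩ := exists_image φ
    have hpne : p ≠ 0 := by
      rintro rfl
      exact hφ (LinearMap.comp_zero _)
    have h4 : ¬ Hom0 B' I := fun h => hpne (h2 I h p)
    unfold Hom0 at h4
    push_neg at h4
    obtain ⟨ψ, hψ⟩ := h4
    have h5 : i ∘ₗ ψ ≠ 0 := by
      intro h
      apply hψ
      ext x
      apply hi
      have := LinearMap.congr_fun h x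
      simpa using this
    have h6 := (hB'.2 (i ∘ₗ ψ)).resolve_left h5
    have hisurj : Function.Surjective i := by
      intro y
      obtain ⟨x, hx⟩ := h6.2 y
      exact ⟨ψ x, hx⟩
    have hsurj : Function.Surjective (i ∘ₗ p) := hisurj.comp hp
    have hinj : Function.Injective (i ∘ₗ p) := inj_of_finrank_eq (i ∘ₗ p) hsurj (hn.trans hn'.symm)
    exact ⟨LinearEquiv.ofBijective (i ∘ₗ p) ⟨hinj, hsurj⟩⟩
  -- the list
  classical
  have hfin : (𝒫 V).Finite := hVfin.finite_subsets
  let pick : Set (Fin r → ℚ) → FMod K A := fun T =>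
    if h : ∃ B : FMod K A, Brick B ∧ Module.finrank K B = n ∧ Q B = T then h.choose else FMod.zero
  refine ⟨hfin.toFinset.toList.map pick, fun B hB hn => ?_⟩
  have hex : ∃ B' : FMod K A, Brick B' ∧ Module.finrank K B' = n ∧ Q B' = Q B := ⟨B, hB, hn, rfl⟩
  refine ⟨pick (Q B), ?_, ?_⟩
  · rw [List.mem_map]
    refine ⟨Q B, ?_, rfl⟩
    rw [Finset.mem_toList, Set.Finite.mem_toFinset, Set.mem_powerset_iff]
    rintro v ⟨X, p, -, hp, rfl⟩
    exact ⟨X, hW X, (surj_finrank_le p hp).trans hn.le, rfl⟩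
  · have hspec := hex.choose_spec
    have hpick : pick (Q B) = hex.choose := by
      simp only [pick]
      rw [dif_pos hex]
    rw [hpick]
    exact key B hex.choose hB hspec.1 hn hspec.2.1 hspec.2.2.symm

end SBC
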