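import Pool.Agent.H5.SBC.Defs

/-!
Utilities on short exact sequences of finite-dimensional modules.
-/

namespace SBC

open Dem

variable {K A : Type} [Field K] [Ring A] [Algebra K A]

theorem ses_sub (L : FMod K A) (N : Submodule A L) :
    SES (X := L.sub N) (Y := L) (Z := L.quo N) N.subtype N.mkQ :=
  ⟨N.injective_subtype, N.mkQ_surjective, by rw [Submodule.range_subtype, Submodule.ker_mkQ]⟩

theorem exists_ker {Y Z : FMod K A} (p : Y →ₗ[A] Z) (hp : Function.Surjective p) :
    ∃ (X : FMod K A) (i : X →ₗ[A] Y), SES i p :=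
  ⟨Y.sub (LinearMap.ker p), (LinearMap.ker p).subtype, (LinearMap.ker p).injective_subtype, hp, by
    rw [Submodule.range_subtype]⟩

theorem exists_coker {X Y : FMod K A} (i : X →ₗ[A] Y) (hi : Function.Injective i) :
    ∃ (Z : FMod K A) (p : Y →ₗ[A] Z), SES i p :=
  ⟨Y.quo (LinearMap.range i), (LinearMap.range i).mkQ, hi, (LinearMap.range i).mkQ_surjective, by
    rw [Submodule.ker_mkQ]⟩

theorem exists_image {X Y : FMod K A} (φ : X →ₗ[A] Y) :
    ∃ (I : FMod K A) (p : X →ₗ[A] I) (i : I →ₗ[A] Y),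
      Function.Surjective p ∧ Function.Injective i ∧ i ∘ₗ p = φ :=
  ⟨Y.sub (LinearMap.range φ), φ.rangeRestrict, (LinearMap.range φ).subtype,
    φ.surjective_rangeRestrict, (LinearMap.range φ).injective_subtype, rfl⟩

section

variable {X Y Z : FMod K A} {i : X →ₗ[A] Y} {p : Y →ₗ[A] Z}

theorem SES.comp (h : SES i p) (x : X) : p (i x) = 0 := by
  have : i x ∈ LinearMap.ker p := h.exact ▸ ⟨x, rfl⟩
  exact this

theorem SES.comp_eq (h : SES i p) : p ∘ₗ i = 0 := LinearMap.ext fun x => h.comp x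

theorem SES.exists_of_zero (h : SES i p) {y : Y} (hy : p y = 0) : ∃ x, i x = y := by
  have : y ∈ LinearMap.range i := h.exact ▸ hy
  exact this

theorem SES.finrank (h : SES i p) :
    Module.finrank K Y = Module.finrank K X + Module.finrank K Z := by
  have h1 := LinearMap.finrank_range_add_finrank_ker (p.restrictScalars K)
  have h2 : Module.finrank K (LinearMap.range (p.restrictScalars K)) = Module.finrank K Z := by
    have h0 : LinearMap.range (p.restrictScalars K) = ⊤ := LinearMap.range_eq_top.2 h.surj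
    rw [h0, finrank_top]
  have h3 : Module.finrank K (LinearMap.ker (p.restrictScalars K)) = Module.finrank K X := by
    have h4 : LinearMap.ker (p.restrictScalars K) = LinearMap.range (i.restrictScalars K) := by
      ext y
      constructor
      · intro hy
        obtain ⟨x, hx⟩ := h.exists_of_zero (y := y) hy
        exact ⟨x, hx⟩
      · rintro ⟨x, rfl⟩
        exact h.comp x
    rw [h4]
    exact LinearMap.finrank_range_of_inj (f := i.restrictScalars K) h.inj
  omega

theorem SES.lift (h : SES i p) {L : FMod K A} (φ : L →ₗ[A] Y) (hφ : p ∘ₗ φ = 0) :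
    ∃ ψ : L →ₗ[A] X, i ∘ₗ ψ = φ := by
  let e : X →ₗ[A] LinearMap.range i := i.rangeRestrict
  have he : Function.Bijective e :=
    ⟨fun a b hab => h.inj (congrArg Subtype.val hab), i.surjective_rangeRestrict⟩
  let e' := LinearEquiv.ofBijective e he
  have hm : ∀ x, φ x ∈ LinearMap.range i := fun x => by
    rw [h.exact]
    exact LinearMap.congr_fun hφ x
  refine ⟨e'.symm.toLinearMap ∘ₗ φ.codRestrict (LinearMap.range i) hm, ?_⟩
  ext x
  have h1 : e' (e'.symm (φ.codRestrict (LinearMap.range i) hm x)) =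
      φ.codRestrict (LinearMap.range i) hm x := e'.apply_symm_apply _
  exact congrArg Subtype.val h1

theorem SES.desc (h : SES i p) {L : FMod K A} (φ : Y →ₗ[A] L) (hφ : φ ∘ₗ i = 0) :
    ∃ ψ : Z →ₗ[A] L, ψ ∘ₗ p = φ := by
  have hk : LinearMap.ker p ≤ LinearMap.ker φ := by
    rw [← h.exact]
    rintro _ ⟨x, rfl⟩
    exact LinearMap.congr_fun hφ x
  let q := (LinearMap.ker p).liftQ φ hk
  let e := p.quotKerEquivOfSurjective h.surj
  refine ⟨q ∘ₗ e.symm.toLinearMap, ?_⟩
  ext y
  have h1 : e.symm (p y) = (LinearMap.ker p).mkQ y := by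
    rw [LinearEquiv.symm_apply_eq]
    rfl
  change q (e.symm (p y)) = φ y
  rw [h1]
  rfl

/-- a quotient of the middle term is filtered by quotients of the ends -/
theorem SES.quo (h : SES i p) {Q : FMod K A} (q : Y →ₗ[A] Q) (hq : Function.Surjective q) :
    ∃ (Q' Q'' : FMod K A) (i' : Q' →ₗ[A] Q) (p' : Q →ₗ[A] Q'') (a : X →ₗ[A] Q')
      (c : Z →ₗ[A] Q''), SES i' p' ∧ Function.Surjective a ∧ Function.Surjective c ∧
        i' ∘ₗ a = q ∘ₗ i ∧ c ∘ₗ p = p' ∘ₗ q := by
  let N : Submodule A Q := LinearMap.range (q ∘ₗ i)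
  let p' : Q →ₗ[A] Q.quo N := N.mkQ
  obtain ⟨c, hc⟩ := h.desc (L := Q.quo N) (p' ∘ₗ q) (by
    ext x
    change N.mkQ ((q ∘ₗ i) x) = 0
    rw [Submodule.mkQ_apply, Submodule.Quotient.mk_eq_zero]
    exact ⟨x, rfl⟩)
  refine ⟨Q.sub N, Q.quo N, N.subtype, p', (q ∘ₗ i).rangeRestrict, c, ses_sub Q N,
    (q ∘ₗ i).surjective_rangeRestrict, ?_, rfl, hc⟩
  intro z
  obtain ⟨w, rfl⟩ := N.mkQ_surjective z
  obtain ⟨y, rfl⟩ := hq w
  exact ⟨p y, LinearMap.congr_fun hc y⟩

/-- a subobject of the middle term is filtered by subobjects of the ends -/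
theorem SES.sub (h : SES i p) {V : FMod K A} (j : V →ₗ[A] Y) (hj : Function.Injective j) :
    ∃ (V' V'' : FMod K A) (i' : V' →ₗ[A] V) (p' : V →ₗ[A] V'') (a : V' →ₗ[A] X)
      (c : V'' →ₗ[A] Z), SES i' p' ∧ Function.Injective a ∧ Function.Injective c ∧
        i ∘ₗ a = j ∘ₗ i' ∧ c ∘ₗ p' = p ∘ₗ j := by
  obtain ⟨I, p', c, hp', hc, hcp⟩ := exists_image (p ∘ₗ j)
  obtain ⟨V', i', h'⟩ := exists_ker p' hp'
  obtain ⟨a, ha⟩ := h.lift (j ∘ₗ i') (by
    rw [← LinearMap.comp_assoc, ← hcp, LinearMap.comp_assoc, h'.comp_eq, LinearMap.comp_zero])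
  refine ⟨V', I, i', p', a, c, h', ?_, hc, ha, hcp⟩
  intro x y hxy
  apply h'.inj
  apply hj
  have h1 := LinearMap.congr_fun ha x
  have h2 := LinearMap.congr_fun ha y
  have h3 : i (a x) = i (a y) := by rw [hxy]
  exact (h1.symm.trans h3).trans h2

/-- preimage of a subobject of `Z` -/
theorem SES.preimage (h : SES i p) {V : FMod K A} (j : V →ₗ[A] Z) (hj : Function.Injective j) :
    ∃ (Y' : FMod K A) (i' : X →ₗ[A] Y') (p' : Y' →ₗ[A] V) (j' : Y' →ₗ[A] Y),
      SES i' p' ∧ Function.Injective j' ∧ j' ∘ₗ i' = i ∧ p ∘ₗ j' = j ∘ₗ p' := by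
  let N : Submodule A Y := (LinearMap.range j).comap p
  let j' : Y.sub N →ₗ[A] Y := N.subtype
  let e := LinearEquiv.ofInjective j hj
  let p0 : Y.sub N →ₗ[A] LinearMap.range j :=
    (p ∘ₗ N.subtype).codRestrict (LinearMap.range j) fun y => y.2
  let p' : Y.sub N →ₗ[A] V := e.symm.toLinearMap ∘ₗ p0
  have hp' : ∀ y : Y.sub N, j (p' y) = p y.1 := by
    intro y
    have h1 : e (e.symm (p0 y)) = p0 y := e.apply_symm_apply _
    exact congrArg Subtype.val h1
  let i' : X →ₗ[A] Y.sub N := i.codRestrict N fun x => by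
    change p (i x) ∈ LinearMap.range j
    rw [h.comp]
    exact Submodule.zero_mem _
  refine ⟨Y.sub N, i', p', j', ⟨?_, ?_, ?_⟩, N.injective_subtype, rfl, ?_⟩
  · intro x y hxy
    exact h.inj (congrArg Subtype.val hxy)
  · intro v
    obtain ⟨y, hy⟩ := h.surj (j v)
    refine ⟨⟨y, ⟨v, hy.symm⟩⟩, hj ?_⟩
    rw [hp']
    exact hy
  · ext y
    constructor
    · rintro ⟨x, rfl⟩
      rw [LinearMap.mem_ker]
      apply hj
      rw [hp', map_zero]
      exact h.comp x
    · intro hy
      rw [LinearMap.mem_ker] at hy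
      have h1 := hp' y
      rw [hy, map_zero] at h1
      obtain ⟨x, hx⟩ := h.exists_of_zero h1.symm
      exact ⟨x, Subtype.ext hx⟩
  · ext y
    exact (hp' y).symm

/-- dividing out a subobject `X' ≤ X` from `X ≤ Y` -/
theorem SES.pushout (h : SES i p) {X' : FMod K A} (q : X →ₗ[A] X') (hq : Function.Surjective q) :
    ∃ (Y' : FMod K A) (i' : X' →ₗ[A] Y') (p' : Y' →ₗ[A] Z) (q' : Y →ₗ[A] Y'),
      SES i' p' ∧ Function.Surjective q' ∧ q' ∘ₗ i = i' ∘ₗ q ∧ p' ∘ₗ q' = p := by
  obtain ⟨U, u, hu⟩ := exists_ker q hq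
  have hinj : Function.Injective (i ∘ₗ u) := h.inj.comp hu.inj
  obtain ⟨Y', q', h'⟩ := exists_coker (i ∘ₗ u) hinj
  obtain ⟨i', hi'⟩ := hu.desc (q' ∘ₗ i) (by
    rw [LinearMap.comp_assoc]
    exact h'.comp_eq)
  obtain ⟨p', hp'⟩ := h'.desc p (by
    rw [← LinearMap.comp_assoc, h.comp_eq, LinearMap.zero_comp])
  refine ⟨Y', i', p', q', ⟨?_, ?_, ?_⟩, h'.surj, hi'.symm, hp'⟩
  · rw [injective_iff_map_eq_zero]
    intro a ha
    obtain ⟨x, rfl⟩ := hq a
    have h1 : q' (i x) = 0 := by
      rw [← ha]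
      exact (LinearMap.congr_fun hi' x).symm
    obtain ⟨v, hv⟩ := h'.exists_of_zero h1
    have h2 : u v = x := h.inj hv
    rw [← h2]
    exact hu.comp v
  · intro z
    obtain ⟨y, rfl⟩ := h.surj z
    exact ⟨q' y, LinearMap.congr_fun hp' y⟩
  · ext y
    constructor
    · rintro ⟨a, rfl⟩
      obtain ⟨x, rfl⟩ := hq a
      have h1 : i' (q x) = q' (i x) := LinearMap.congr_fun hi' x
      rw [LinearMap.mem_ker, h1]
      have h2 : p' (q' (i x)) = p (i x) := LinearMap.congr_fun hp' _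
      rw [h2, h.comp]
    · intro hy
      obtain ⟨w, rfl⟩ := h'.surj y
      have h2 : p' (q' w) = p w := LinearMap.congr_fun hp' _
      rw [LinearMap.mem_ker, h2] at hy
      obtain ⟨x, hx⟩ := h.exists_of_zero hy
      refine ⟨q x, ?_⟩
      have h1 : i' (q x) = q' (i x) := LinearMap.congr_fun hi' x
      rw [h1, hx]

end

theorem ses_left_zero {X Y Z : FMod K A} (i : X →ₗ[A] Y) (p : Y →ₗ[A] Z)
    (hX : Subsingleton X) (hp : Function.Bijective p) : SES i p := by
  refine ⟨fun a b _ => Subsingleton.elim a b, hp.2, ?_⟩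
  rw [LinearMap.ker_eq_bot.2 hp.1, LinearMap.range_eq_bot]
  ext x
  rw [Subsingleton.elim x 0, map_zero, map_zero]

theorem ses_right_zero {X Y Z : FMod K A} (i : X →ₗ[A] Y) (p : Y →ₗ[A] Z)
    (hZ : Subsingleton Z) (hi : Function.Bijective i) : SES i p := by
  refine ⟨hi.1, fun z => ⟨0, Subsingleton.elim _ _⟩, ?_⟩
  rw [LinearMap.range_eq_top.2 hi.2]
  symm
  rw [LinearMap.ker_eq_top]
  ext x
  exact Subsingleton.elim _ _

theorem surj_finrank_le {X Y : FMod K A} (p : X →ₗ[A] Y) (hp : Function.Surjective p) :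
    Module.finrank K Y ≤ Module.finrank K X :=
  LinearMap.finrank_le_finrank_of_surjective (f := p.restrictScalars K) hp

theorem inj_finrank_le {X Y : FMod K A} (p : X →ₗ[A] Y) (hp : Function.Injective p) :
    Module.finrank K X ≤ Module.finrank K Y :=
  LinearMap.finrank_le_finrank_of_injective (f := p.restrictScalars K) hp

theorem nontrivial_iff (X : FMod K A) : Nontrivial X ↔ 0 < Module.finrank K X :=
  Module.finrank_pos_iff.symm

theorem subsingleton_iff (X : FMod K A) : Subsingleton X ↔ Module.finrank K X = 0 :=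
  Module.finrank_zero_iff.symm

theorem surj_not_inj {X Y : FMod K A} (p : X →ₗ[A] Y) (hp : Function.Surjective p)
    (h : ¬ Function.Injective p) : Module.finrank K Y < Module.finrank K X := by
  refine lt_of_le_of_ne (surj_finrank_le p hp) fun he => h ?_
  exact (LinearMap.injective_iff_surjective_of_finrank_eq_finrank
    (f := p.restrictScalars K) he.symm).2 hp

theorem inj_not_surj {X Y : FMod K A} (p : X →ₗ[A] Y) (hp : Function.Injective p)
    (h : ¬ Function.Surjective p) : Module.finrank K X < Module.finrank K Y := by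
  refine lt_of_le_of_ne (inj_finrank_le p hp) fun he => h ?_
  exact (LinearMap.injective_iff_surjective_of_finrank_eq_finrank
    (f := p.restrictScalars K) he).1 hp

theorem inj_of_finrank_eq {X Y : FMod K A} (p : X →ₗ[A] Y) (hp : Function.Surjective p)
    (h : Module.finrank K X = Module.finrank K Y) : Function.Injective p :=
  (LinearMap.injective_iff_surjective_of_finrank_eq_finrank (f := p.restrictScalars K) h).2 hp

theorem surj_of_finrank_eq {X Y : FMod K A} (p : X →ₗ[A] Y) (hp : Function.Injective p)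
    (h : Module.finrank K X = Module.finrank K Y) : Function.Surjective p :=
  (LinearMap.injective_iff_surjective_of_finrank_eq_finrank (f := p.restrictScalars K) h).1 hp

theorem Hom0.of_surj {X Y Z : FMod K A} (p : X →ₗ[A] Y) (hp : Function.Surjective p)
    (h : Hom0 X Z) : Hom0 Y Z := by
  intro φ
  ext y
  obtain ⟨x, rfl⟩ := hp y
  exact LinearMap.congr_fun (h (φ ∘ₗ p)) x

theorem Hom0.of_inj {X Y Z : FMod K A} (i : Y →ₗ[A] Z) (hi : Function.Injective i)
    (h : Hom0 X Z) : Hom0 X Y := by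
  intro φ
  ext x
  apply hi
  rw [LinearMap.zero_apply, map_zero]
  exact LinearMap.congr_fun (h (i ∘ₗ φ)) x

theorem Hom0.self {X : FMod K A} (h : Hom0 X X) : Subsingleton X := by
  refine ⟨fun a b => ?_⟩
  have h1 : (LinearMap.id : X →ₗ[A] X) = 0 := h _
  have h2 : a = 0 := LinearMap.congr_fun h1 a
  have h3 : b = 0 := LinearMap.congr_fun h1 b
  rw [h2, h3]

theorem hom0_left {X Z : FMod K A} (h : Subsingleton X) : Hom0 X Z := by
  intro φ
  ext x
  rw [Subsingleton.elim x 0, map_zero, map_zero]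

theorem hom0_right {X Z : FMod K A} (h : Subsingleton Z) : Hom0 X Z := by
  intro φ
  ext x
  exact Subsingleton.elim _ _

end SBC
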