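import Pool.Agent.H5.SBC.Targets

/-!
# CAA (section 9, (A)): a ray-rational point gives Theorem C (helper59)
-/

set_option autoImplicit false

namespace SBC

open Dem

variable {K A : Type} [Field K] [Ring A] [Algebra K A]

/-- the trace is generated by the images of the cokernel -/
theorem caa_tr_hom0 [Module.Finite K A] (g : Cpx K A) (M Z : FMod K A) (h : Hom0 g.H Z)
    (φ : M.sub (tr g M) →ₗ[A] Z) : φ = 0 := by
  have key : ∀ x (hx : x ∈ tr g M), φ ⟨x, hx⟩ = 0 := by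
    intro x hx
    have hle : tr g M ≤ (LinearMap.ker φ).map (tr g M).subtype := by
      refine iSup_le fun ψ => ?_
      rintro _ ⟨y, rfl⟩
      have hψ : ψ.1 ∘ₗ g.d = 0 := ψ.2
      have hr := range_le_tr g M ψ.1 hψ
      -- the induced map on the cokernel
      let ψ' : g.P0 →ₗ[A] M.sub (tr g M) := ψ.1.codRestrict (tr g M) fun y => hr ⟨y, rfl⟩
      have hker : LinearMap.range g.d ≤ LinearMap.ker ψ' := by
        rintro _ ⟨x, rfl⟩
        rw [LinearMap.mem_ker]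
        apply Subtype.ext
        exact LinearMap.congr_fun hψ x
      let χ : g.H →ₗ[A] M.sub (tr g M) := (LinearMap.range g.d).liftQ ψ' hker
      have h0 : φ ∘ₗ χ = 0 := h _
      refine ⟨ψ' y, ?_, rfl⟩
      have h1 := LinearMap.congr_fun h0 ((LinearMap.range g.d).mkQ y)
      exact h1
    obtain ⟨y, hy1, hy2⟩ := hle hx
    have : y = ⟨x, hx⟩ := Subtype.ext hy2
    rw [← this]
    exact hy1
  ext x
  exact key x.1 x.2

/-- CAA -/
theorem sbc_CAA (K A : Type) [Field K] [Ring A] [Algebra K A] [Module.Finite K A]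
    (hRGG : T_RGG K A) (hRRB : T_RRB K A) (hFMM : T_FMM K A) (hOPN : T_OPN K A)
    (hLDP : T_LDP K A) (hDMM : T_DMM K A) (hRAT : T_RAT) (hWTA : T_WTA K A) (hLEC : T_LEC K A)
    (hHOM : T_HOM K A) (hWID : T_WID K A) (hSNU : T_SNU K A) (hLOC : T_LOC K A) : T_CAA K A := by
  intro hLR f r D hr hf M hM hMn ζm hmin hray hind
  obtain ⟨hadd, hlin, hcls, -, hinj⟩ := hWTA f r D
  obtain ⟨o1, o2, o3, o4, o5, o6, o7⟩ := hLEC f r D (fun N => N = M)
  obtain ⟨m1, m2, m3, m4, m5, m6, m7, m8⟩ := hHOM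
  have hww : ∀ X, wt D (0 : Fin r → ℝ) X = 0 := by
    intro X
    simp [wt]
  -- a rational point of the class
  obtain ⟨ζr, hζrP, hζrat⟩ : ∃ ζr ∈ Pcl D (fun N => N = M) (DM D M) ζm, IsRat ζr := by
    obtain ⟨ζ, ⟨hζ1, hζ2, hζ3⟩, c, hc, hrat⟩ := hray
    refine ⟨c • ζ, ⟨?_, smul_ne_zero hc.ne' hζ2, o5 c ζ ζm hc.le hζ3⟩, hrat⟩
    exact ((o7 c ζ M hc).2.1).2 hζ1
  obtain ⟨hζrM, hζr0, hζrle⟩ := hζrP
  obtain ⟨gr, m, hm, hrig, hgr⟩ := hRGG hLR f r D hf ζr hζrat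
  have hm' : (0 : ℝ) < m := by exact_mod_cast hm
  obtain ⟨r1, r2, -⟩ := hRRB f gr (wt D ζr) ((m : ℝ)⁻¹) hrig (inv_pos.2 hm') (fun X hX => by
    rw [hgr X hX, ← mul_assoc, inv_mul_cancel₀ hm'.ne', one_mul])
  have hex : ∃ X, InW f X ∧ cls gr X ≠ 0 := by
    by_contra hcon
    push Not at hcon
    apply hζr0
    refine hinj _ _ fun X hX => ?_
    rw [hww]
    have h1 := hgr X hX
    rw [hcon X hX] at h1
    have h2 : (m : ℝ) * wt D ζr X = 0 := by rw [← h1]; norm_num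
    rcases mul_eq_zero.1 h2 with h | h
    · exact absurd h hm'.ne'
    · exact h
  have hrig' := (rigid_sum_iff f gr).1 hrig
  have hgrr : gr.Rigid := hrig'.2.2
  -- the trace and the quotient
  have hMgr : ee f M = 0 ∧ ee gr M = 0 := (r2 M).1 hζrM
  set t : FMod K A := M.sub (tr gr M) with ht
  set Q : FMod K A := M.quo (tr gr M) with hQ
  have hses : SES (X := t) (Y := M) (Z := Q) (tr gr M).subtype (tr gr M).mkQ := ses_sub M (tr gr M)
  have hee_t : ee gr t = 0 := (van_iff_ee gr t).1 (van_tr hgrr M)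
  have hhh_t : hh gr t = hh gr M := hh_tr gr M
  have hsn := hSNU gr t M Q _ _ hses
  have hee_Q : ee gr Q = 0 := by have := hsn.2.2.1; omega
  have hhh_Q : hh gr Q = 0 := by
    have h1 := hsn.2.2.2.2
    rw [← hh_sub_ee, ← hh_sub_ee, ← hh_sub_ee] at h1
    have h2 := hMgr.2
    rw [hee_t, hhh_t, hee_Q, h2] at h1
    push_cast at h1
    omega
  have hfgr : Hom0 gr.H (tau f) := (m2 f gr.H).1 ((van_iff_ee f gr.H).1 hrig'.1.2)
  have hft : ee f t = 0 := (m2 f t).2 (caa_tr_hom0 gr M (tau f) hfgr)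
  have htW : InW f t := by
    refine ⟨?_, hft⟩
    have := m7 f t M (tr gr M).subtype (tr gr M).injective_subtype
    have := hM.1
    omega
  have hQW : InW f Q := (hWID.2.1 f t M Q _ _ hses).1 htW hM
  have hQW' : InW (f.sum gr) Q := (hWID.2.2.2.2 f gr Q).2 ⟨hQW, hhh_Q, hee_Q⟩
  obtain ⟨g, hgfull, hgQ⟩ := hind gr hrig hex Q hQW'
  -- the perpendicular of the class
  have hK : ∀ Z, hh g Z = 0 ↔ FF f (wt D ζr) Z ∧ Hom0 M Z := by
    intro Z
    rw [hgQ, r1, hh_sum, Nat.add_eq_zero_iff]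
    constructor
    · rintro ⟨⟨h1, h2⟩, h3⟩
      refine ⟨⟨h1, h2⟩, fun φ => ?_⟩
      have h4 : φ ∘ₗ (tr gr M).subtype = 0 := caa_tr_hom0 gr M Z ((m1 gr Z).1 h2) _
      obtain ⟨ψ, hψ⟩ := hses.desc φ h4
      rw [← hψ, h3 ψ, LinearMap.zero_comp]
    · rintro ⟨h1, h2⟩
      exact ⟨h1, h2.of_surj _ hses.surj⟩
  have hfeeQ : ee (f.sum gr) Q = 0 := hQW'.2
  obtain ⟨hrig3, hgQ0⟩ := hFMM (f.sum gr) g Q hrig hfeeQ hgfull hgQ
  have h3' := (rigid_sum_iff (f.sum gr) g).1 hrig3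
  have hfg : (f.sum g).Rigid := by
    rw [rigid_sum_iff]
    have h4 := h3'.1.2
    rw [van_sum] at h4
    have h5 : Van g (f.sum gr).H := h3'.2.1
    refine ⟨⟨hf, h4.1⟩, ?_, h3'.2.2⟩
    -- `ee g f.H = 0`
    rw [van_iff_ee, m2]
    obtain ⟨p, hp⟩ := exists_fst f gr
    exact ((m2 g _).1 ((van_iff_ee g _).1 h5)).of_surj p hp
  have hggr : Hom0 gr.H (tau g) := by
    have h5 : Van g (f.sum gr).H := h3'.2.1
    obtain ⟨p, hp⟩ := exists_snd f gr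
    exact ((m2 g _).1 ((van_iff_ee g _).1 h5)).of_surj p hp
  have hgt : ee g t = 0 := (m2 g t).2 (caa_tr_hom0 gr M (tau g) hggr)
  have hgM : ee g M = 0 := by
    have := (hSNU g t M Q _ _ hses).2.2.2.1
    omega
  -- the class of `g`
  obtain ⟨ζz, hζzrat, hζz⟩ := hcls g
  obtain ⟨z1, z2, z3⟩ := hRRB f g (wt D ζz) 1 hfg one_pos (fun X hX => by
    rw [one_mul, hζz X hX])
  have hFFz : ∀ Z, FF f (wt D ζz) Z ↔ hh g Z = 0 := by
    intro Z
    rw [z1]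
    exact ⟨fun h => h.2, fun h => ⟨(((hK Z).1 h).1).1, h⟩⟩
  have hζz0 : ζz ≠ 0 := by
    rintro rfl
    have h1 : FF f (wt D (0 : Fin r → ℝ)) M := ⟨hM.1, fun X i _ _ => by rw [hww]⟩
    have h2 := ((hK M).1 ((hFFz M).1 h1)).2
    exact not_subsingleton_iff_nontrivial.2 hMn h2.self
  have hζzM : ζz ∈ DM D M := (z2 M).2 ⟨hMgr.1, hgM⟩
  have hζzle : LEX D (fun N => N = M) ζz ζm := by
    refine o2 ζz ζr ζm ?_ hζrle
    intro Z hZ hperp
    exact (hFFz Z).2 ((hK Z).2 ⟨hZ, hperp M rfl⟩)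
  have hζzP : ζz ∈ Pcl D (fun N => N = M) (DM D M) ζm := ⟨hζzM, hζz0, hζzle⟩
  -- all weights near `ζz`
  obtain ⟨ρ, hρ, hopn⟩ := hOPN hLR f r D hf ζz hζzrat
  have hSSz : ∀ X, SS f (wt D ζz) X → Subsingleton X := by
    intro X hX
    have h1 := (hWID.2.2.2.2 f g X).1 ((z3 X).1 hX)
    exact hgfull.2 X h1.2.1 h1.2.2
  have hzero : ∀ (ζ : Fin r → ℝ) (X : FMod K A), Subsingleton X → wt D ζ X = 0 := by
    intro ζ X hX
    have hW : InW f X := hWID.2.2.2.1 f X hX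
    have h := hadd ζ X X X 0 0 hW hW hW (ses_left_zero 0 0 hX
      ⟨fun a b _ => Subsingleton.elim a b, fun a => ⟨0, Subsingleton.elim _ _⟩⟩)
    linarith
  obtain ⟨q, hqrat, hqn, hqli⟩ := hRAT.2.2 r hr ζz hζzrat hζz0 ρ hρ
  obtain ⟨n1, n2⟩ := hopn q hqn
  obtain ⟨l1, -, l3, -⟩ := hLOC f (wt D ζz) (wt D q) hf (hadd ζz) (hadd q) n1 n2
  have hqP : q ∈ Pcl D (fun N => N = M) (DM D M) ζm := by
    refine ⟨?_, ?_, ?_⟩
    · refine (l3 M).2 ⟨hζzM, fun X p hX _ => ?_⟩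
      rw [hzero q X (hSSz X hX)]
    · intro h0
      have h1 := hqli.ne_zero 1
      exact h1 h0
    · refine o2 q ζz ζm ?_ hζzle
      intro Z hZ _
      refine (l1 Z).2 ⟨hZ, fun X i hX _ => ?_⟩
      rw [hzero q X (hSSz X hX)]
  have hfin := hLDP hLR f r D (fun N => N = M) (DM D M) hf (hDMM f r D M hM) ζm hmin
    ⟨ζz, q, hζzP, hqP, hζzrat, hqrat, hqli⟩ ζz hζzP
  refine ⟨g, hgfull, fun Z => ⟨fun h => ?_, fun h => ?_⟩⟩
  · exact ⟨(((hK Z).1 h).1).1, ((hK Z).1 h).2⟩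
  · refine (hFFz Z).1 (hfin Z h.1 ?_)
    rintro N rfl
    exact h.2

end SBC
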