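import Pool.Agent.H5.SBC.Targets

/-! CAS (helper56): section 6, case 1: a minimal pair has only nilpotent compositions. -/

namespace SBC

open Dem

theorem sbc_CAS (K A : Type) [Field K] [Ring A] [Algebra K A] [Module.Finite K A]
    (hcsm : T_CSM K A) (hnsr : T_NSR K A) (hwta : T_WTA K A) : T_CAS K A := by
  intro f r D P hP a b ga gb hga hgb hli hmin α β
  by_contra hnil
  obtain ⟨h, a', b', hna, hnb, hsz⟩ := hcsm ga gb α β hnil
  obtain ⟨nr1, nr2, nr3, -, nr5, -⟩ := hnsr
  obtain ⟨-, wlin, wcls, -, wuniq⟩ := hwta f r D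
  obtain ⟨s, -, hs⟩ := wcls h
  obtain ⟨sa, -, hsa⟩ := wcls a'
  obtain ⟨sb, -, hsb⟩ := wcls b'
  have wadd : ∀ (ζ ξ : Fin r → ℝ) (X : FMod K A), wt D (ζ + ξ) X = wt D ζ X + wt D ξ X := by
    intro ζ ξ X
    have h1 := wlin 1 1 ζ ξ X
    rwa [one_smul, one_smul, one_mul, one_mul] at h1
  have wzero : ∀ X : FMod K A, wt D (0 : Fin r → ℝ) X = 0 := by
    intro X
    unfold wt
    simp
  have ha : a = s + sa := by
    refine wuniq _ _ fun X hX => ?_
    rw [wadd, ← hga.2.2 X hX, ← hs X hX, ← hsa X hX, nr3 ga h a' hna X]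
    push_cast
    ring
  have hb : b = s + sb := by
    refine wuniq _ _ fun X hX => ?_
    rw [wadd, ← hgb.2.2 X hX, ← hs X hX, ← hsb X hX, nr3 gb h b' hnb X]
    push_cast
    ring
  have hra : (f.sum a').Rigid := nr1 f ga a' h hga.1 (nr2 _ _ _ hna)
  have hrb : (f.sum b').Rigid := nr1 f gb b' h hgb.1 (nr2 _ _ _ hnb)
  have hrh : (f.sum h).Rigid := nr1 f ga h a' hga.1 hna
  have sza := hna.size_eq
  have szb := hnb.size_eq
  have hli' := LinearIndependent.pair_iff.1 hli
  by_cases hs0 : s = 0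
  · have ha' : a = sa := by rw [ha, hs0, zero_add]
    have hb' : b = sb := by rw [hb, hs0, zero_add]
    have h1 : Adm D P a a' := ⟨hra, hga.2.1, fun X hX => by rw [ha']; exact hsa X hX⟩
    have h2 : Adm D P b b' := ⟨hrb, hgb.2.1, fun X hX => by rw [hb']; exact hsb X hX⟩
    have h3 := hmin a b a' b' h1 h2 hli
    omega
  have hsP : s ∈ P := hP a hga.2.1 ga h a' s hga.1 hna hga.2.2 hs hs0
  have hsAdm : Adm D P s h := ⟨hrh, hsP, hs⟩
  by_cases hsb' : LinearIndependent ℝ ![s, b]
  · have h1 := hmin s b h gb hsAdm hgb hsb'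
    have h2 : size a' = 0 := by omega
    have h3 : sa = 0 := by
      refine wuniq _ _ fun X hX => ?_
      rw [← hsa X hX, (nr5 a' h2 X).2.2, wzero]
      norm_num
    have has : a = s := by rw [ha, h3, add_zero]
    have hsb0 : sb ≠ 0 := by
      intro h4
      have h5 : b = s := by rw [hb, h4, add_zero]
      have h6 := hli' 1 (-1) (by rw [has, h5]; simp)
      exact one_ne_zero h6.1
    have hsbP : sb ∈ P := hP b hgb.2.1 gb b' h sb hgb.1 (nr2 _ _ _ hnb) hgb.2.2 hsb hsb0
    have h7 : LinearIndependent ℝ ![a, sb] := by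
      rw [LinearIndependent.pair_iff]
      intro x y hxy
      have h8 : sb = b - a := by rw [hb, has]; abel
      rw [h8] at hxy
      have h9 := hli' (x - y) y (by rw [← hxy]; rw [sub_smul, smul_sub]; abel)
      exact ⟨by linarith [h9.1, h9.2], h9.2⟩
    have h8 := hmin a sb ga b' hga ⟨hrb, hsbP, hsb⟩ h7
    omega
  by_cases hsa' : LinearIndependent ℝ ![a, s]
  · have h1 := hmin a s ga h hga hsAdm hsa'
    have h2 : size b' = 0 := by omega
    have h3 : sb = 0 := by
      refine wuniq _ _ fun X hX => ?_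
      rw [← hsb X hX, (nr5 b' h2 X).2.2, wzero]
      norm_num
    have has : b = s := by rw [hb, h3, add_zero]
    have hsb0 : sa ≠ 0 := by
      intro h4
      have h5 : a = s := by rw [ha, h4, add_zero]
      have h6 := hli' 1 (-1) (by rw [has, h5]; simp)
      exact one_ne_zero h6.1
    have hsbP : sa ∈ P := hP a hga.2.1 ga a' h sa hga.1 (nr2 _ _ _ hna) hga.2.2 hsa hsb0
    have h7 : LinearIndependent ℝ ![sa, b] := by
      rw [LinearIndependent.pair_iff]
      intro x y hxy
      have h8 : sa = a - b := by rw [ha, has]; abel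
      rw [h8] at hxy
      have h9 := hli' x (y - x) (by rw [← hxy]; rw [sub_smul, smul_sub]; abel)
      exact ⟨h9.1, by linarith [h9.1, h9.2]⟩
    have h8 := hmin sa b a' gb ⟨hra, hsbP, hsa⟩ hgb h7
    omega
  -- `s` is proportional to both
  rw [LinearIndependent.pair_iff] at hsb' hsa'
  push Not at hsb' hsa'
  obtain ⟨x, y, hxy, hne⟩ := hsb'
  obtain ⟨u, v, huv, hne'⟩ := hsa'
  have hb0 : b ≠ 0 := by
    intro h0
    have h1 := hli' 0 1 (by rw [h0]; simp)
    exact one_ne_zero h1.2
  have ha0 : a ≠ 0 := by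
    intro h0
    have h1 := hli' 1 0 (by rw [h0]; simp)
    exact one_ne_zero h1.1
  have hx : x ≠ 0 := by
    intro h0
    rw [h0, zero_smul, zero_add] at hxy
    exact hne h0 ((smul_eq_zero.1 hxy).resolve_right hb0)
  have hv : v ≠ 0 := by
    intro h0
    rw [h0, zero_smul, add_zero] at huv
    exact hne' ((smul_eq_zero.1 huv).resolve_right ha0) h0
  have hy : y ≠ 0 := by
    intro h0
    rw [h0, zero_smul, add_zero] at hxy
    exact hx ((smul_eq_zero.1 hxy).resolve_right hs0)
  -- `v (x s + y b) = 0`, `x (u a + v s) = 0`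
  have h1 := hli' (x * u) (-(v * y)) (by
    have h2 : v • (x • s + y • b) = 0 := by rw [hxy, smul_zero]
    have h3 : x • (u • a + v • s) = 0 := by rw [huv, smul_zero]
    rw [smul_add, smul_smul, smul_smul] at h2 h3
    have h4 : (x * u) • a + -(v * y) • b =
        ((x * u) • a + (x * v) • s) - ((v * x) • s + (v * y) • b) := by
      rw [mul_comm v x, neg_smul]
      abel
    rw [h4, h2, h3, sub_zero])
  have h2 := h1.2
  rw [neg_eq_zero, mul_eq_zero] at h2
  rcases h2 with h2 | h2
  · exact hv h2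
  · exact hy h2

end SBC
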