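import Pool.Agent.H5.SBC.Targets

/-!
# CBO (section 9, (B1)): a non-semistable point gives a rational point (helper59)
-/

set_option autoImplicit false

namespace SBC

open Dem

variable {K A : Type} [Field K] [Ring A] [Algebra K A]

/-- positive values on modules of bounded dimension are bounded below -/
theorem cbo_gap {f : Cpx K A} {r : ℕ} (D : Chart f r) (n : ℕ)
    (hfin : {v : Fin r → ℚ | ∃ X : FMod K A, InW f X ∧ Module.finrank K X ≤ n ∧
      D.d X = v}.Finite) (ζ : Fin r → ℝ) :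
    ∃ c : ℝ, 0 < c ∧ ∀ X : FMod K A, InW f X → Module.finrank K X ≤ n → 0 < wt D ζ X →
      c ≤ wt D ζ X := by
  have key : ∀ V : Set (Fin r → ℚ), V.Finite → ∃ c : ℝ, 0 < c ∧ ∀ v ∈ V,
      0 < ∑ j, ζ j * (v j : ℝ) → c ≤ ∑ j, ζ j * (v j : ℝ) := by
    intro V hV
    induction V, hV using Set.Finite.induction_on with
    | empty => exact ⟨1, one_pos, fun v hv => absurd hv (Set.notMem_empty v)⟩
    | @insert a V _ _ ih =>
      obtain ⟨c, hc, h⟩ := ih
      by_cases ha : 0 < ∑ j, ζ j * (a j : ℝ)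
      · refine ⟨min c (∑ j, ζ j * (a j : ℝ)), lt_min hc ha, fun v hv hpos => ?_⟩
        rcases hv with rfl | hv
        · exact min_le_right _ _
        · exact (min_le_left _ _).trans (h v hv hpos)
      · refine ⟨c, hc, fun v hv hpos => ?_⟩
        rcases hv with rfl | hv
        · exact absurd hpos ha
        · exact h v hv hpos
  obtain ⟨c, hc, h⟩ := key _ hfin
  exact ⟨c, hc, fun X hX hn hpos => h (D.d X) ⟨X, hX, hn, rfl⟩ hpos⟩

/-- CBO -/
theorem sbc_CBO (K A : Type) [Field K] [Ring A] [Algebra K A] [Module.Finite K A]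
    (hTPR : T_TPR K A) (hRAD : T_RAD K A) (hFMM : T_FMM K A) (hBDD : T_BDD K A)
    (hRAT : T_RAT) (hWTA : T_WTA K A) (hLEC : T_LEC K A) (hSST : T_SST K A)
    (hHOM : T_HOM K A) (hCLO : T_CLO K A) (hDIM : T_DIM K A) : T_CBO K A := by
  intro hLR f r D hf M hM ζm hmin hex hind
  obtain ⟨ζ, ⟨hζM, hζ0, hζle⟩, hnSS⟩ := hex
  obtain ⟨hadd, hlin, hcls, hK0, -⟩ := hWTA f r D
  obtain ⟨o1, o2, -⟩ := hLEC f r D (fun N => N = M)
  obtain ⟨m1, m2, m3, m4, m5, m6, m7, m8⟩ := hHOM
  have hw := hadd ζ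
  obtain ⟨cTB, cTT, cFF, cFS⟩ := hCLO.1 f _ hw
  obtain ⟨⟨t1, t2, t3⟩, -⟩ := hTPR f _ hf hw
  -- the torsion part
  obtain ⟨N, Q, i, p, hses, hN, hQ⟩ := hRAD.1 (TT f (wt D ζ)) cTT M
  have hQFF : FF f (wt D ζ) Q := t3 Q hQ
  have hQTB : TB f (wt D ζ) Q := cTB.quo M Q p hses.surj hζM
  have hQW : InW f Q := ⟨hQFF.1, hQTB.1⟩
  have hNn : ¬ Subsingleton N := by
    intro hsub
    apply hnSS
    refine ⟨hζM, ?_⟩
    have hinj : Function.Injective p := by
      rw [injective_iff_map_eq_zero]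
      intro a ha
      obtain ⟨x, rfl⟩ := hses.exists_of_zero ha
      rw [Subsingleton.elim x 0, map_zero]
    exact cFF.sub M Q p hinj hQFF
  have hQlt : Module.finrank K Q < Module.finrank K M := by
    have h1 := hses.finrank
    have h2 : Module.finrank K N ≠ 0 := fun h => hNn ((subsingleton_iff N).2 h)
    omega
  obtain ⟨g, hgfull, hg⟩ := hind Q hQW hQlt
  obtain ⟨hrig, hgQ⟩ := hFMM f g Q hf hQW.2 hgfull hg
  obtain ⟨ζg, -, hζg⟩ := hcls g
  obtain ⟨η, -, hη⟩ := hK0 _ hDIM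
  obtain ⟨⟨C, hC, hbd⟩, hfinset⟩ := hBDD f r D
  set n : ℕ := Module.finrank K M with hn
  obtain ⟨c, hc, hgap⟩ := cbo_gap D n (hfinset n) ζ
  -- the constants
  set B : ℝ := ‖ζg‖ + ‖η‖ + 1 / C with hB
  have hB0 : 0 < B := by positivity
  have hζn : 0 < ‖ζ‖ := norm_pos_iff.2 hζ0
  obtain ⟨ε, hε, hε1, hε2⟩ : ∃ ε : ℝ, 0 < ε ∧ C * (ε * B) * n ≤ c ∧ ε * B < ‖ζ‖ := by
    refine ⟨min (c / (C * B * (n + 1))) (‖ζ‖ / (2 * B)), lt_min (by positivity) (by positivity),
      ?_, ?_⟩
    · have h1 : min (c / (C * B * (n + 1))) (‖ζ‖ / (2 * B)) ≤ c / (C * B * (n + 1)) :=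
        min_le_left _ _
      have h2 : C * (min (c / (C * B * (n + 1))) (‖ζ‖ / (2 * B)) * B) * n ≤
          C * (c / (C * B * (n + 1)) * B) * n := by
        gcongr
      refine h2.trans ?_
      have h3 : C * (c / (C * B * (n + 1)) * B) * n = c * (n / (n + 1)) := by
        field_simp
      rw [h3]
      have h4 : (n : ℝ) / (n + 1) ≤ 1 := by
        rw [div_le_one (by positivity)]
        linarith
      nlinarith
    · have h1 : min (c / (C * B * (n + 1))) (‖ζ‖ / (2 * B)) ≤ ‖ζ‖ / (2 * B) :=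
        min_le_right _ _
      have h2 : min (c / (C * B * (n + 1))) (‖ζ‖ / (2 * B)) * B ≤ ‖ζ‖ / (2 * B) * B :=
        mul_le_mul_of_nonneg_right h1 hB0.le
      have h3 : ‖ζ‖ / (2 * B) * B = ‖ζ‖ / 2 := by field_simp
      rw [h3] at h2
      linarith
  set δ : ℝ := ε / (2 * (n + 1)) with hδ
  have hδ0 : 0 < δ := by positivity
  have hδε : δ ≤ ε := by
    rw [hδ, div_le_iff₀ (by positivity)]
    have : (0 : ℝ) ≤ n := Nat.cast_nonneg _
    nlinarith
  have h2δ : 2 * δ * n ≤ ε := by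
    have h1 : δ * (2 * (n + 1)) = ε := by
      rw [hδ]; field_simp
    nlinarith
  set ξ : Fin r → ℝ := ζ + (ε • ζg - δ • η) with hξ
  obtain ⟨q, hqrat, -, hqn⟩ := hRAT.1 r 0 (fun i => i.elim0) ξ (fun i => i.elim0) (δ / C)
    (by positivity)
  set κ : Fin r → ℝ := q - ξ with hκ
  have hκ1 : C * ‖κ‖ ≤ δ := by
    have := (lt_div_iff₀ hC).1 hqn
    nlinarith
  have hκ2 : ‖κ‖ ≤ δ / C := hqn.le
  have hval : ∀ X : FMod K A, wt D q X = wt D ζ X + ε * wt D ζg X - δ * wt D η X + wt D κ X := by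
    intro X
    have e1 : q = (1 : ℝ) • ζ + (1 : ℝ) • (ε • ζg + (1 : ℝ) • ((-δ) • η + (1 : ℝ) • κ)) := by
      rw [hκ, hξ]
      simp only [one_smul, neg_smul]
      abel
    rw [e1]
    have e2 := hlin 1 1 ζ (ε • ζg + (1 : ℝ) • ((-δ) • η + (1 : ℝ) • κ)) X
    have e3 := hlin ε 1 ζg ((-δ) • η + (1 : ℝ) • κ) X
    have e4 := hlin (-δ) 1 η κ X
    rw [e2, e3, e4]
    ring
  have hdist : ‖q - ζ‖ ≤ ε * B := by
    have e1 : q - ζ = ε • ζg - δ • η + κ := by
      rw [hκ, hξ]; abel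
    rw [e1]
    have h1 : ‖ε • ζg - δ • η + κ‖ ≤ ε * ‖ζg‖ + δ * ‖η‖ + ‖κ‖ := by
      refine (norm_add_le _ _).trans ?_
      gcongr
      refine (norm_sub_le _ _).trans ?_
      rw [norm_smul, norm_smul, Real.norm_of_nonneg hε.le, Real.norm_of_nonneg hδ0.le]
    refine h1.trans ?_
    rw [hB]
    have h2 : δ * ‖η‖ ≤ ε * ‖η‖ := mul_le_mul_of_nonneg_right hδε (norm_nonneg _)
    have h3 : ‖κ‖ ≤ ε * (1 / C) := by
      refine hκ2.trans ?_
      rw [mul_one_div]
      gcongr
    linarith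
  have hzero : ∀ X : FMod K A, InW f X → Subsingleton X → wt D q X = 0 := by
    intro X hX hs
    have h1 := hbd X hX q
    rw [(subsingleton_iff X).1 hs] at h1
    simp only [Nat.cast_zero, mul_zero] at h1
    exact abs_nonpos_iff.1 h1
  have hκX : ∀ X : FMod K A, InW f X → |wt D κ X| ≤ δ * Module.finrank K X := by
    intro X hX
    refine (hbd X hX κ).trans ?_
    gcongr
  have hηX : ∀ X : FMod K A, InW f X → wt D η X = Module.finrank K X := by
    intro X hX
    rw [← hη X hX]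
    push_cast
    rfl
  refine ⟨q, ⟨⟨hM.2, ?_⟩, ?_, ?_⟩, 1, one_pos, by rw [one_smul]; exact hqrat⟩
  · -- `M` is in `TB`
    intro X π hX hπ
    by_cases hXs : Subsingleton X
    · rw [hzero X hX hXs]
    have hXn : Module.finrank K X ≤ n := surj_finrank_le π hπ
    have hXn' : (Module.finrank K X : ℝ) ≤ n := by exact_mod_cast hXn
    have h0 : 0 ≤ wt D ζ X := hζM.2 X π hX hπ
    rcases h0.lt_or_eq with hpos | hz
    · have h1 := hgap X hX hXn hpos
      have h2 : wt D q X = wt D ζ X + wt D (q - ζ) X := by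
        have := hlin 1 1 ζ (q - ζ) X
        rw [one_mul, one_mul, one_smul, one_smul, add_sub_cancel] at this
        exact this
      have h3 := hbd X hX (q - ζ)
      have h4 : C * ‖q - ζ‖ * Module.finrank K X ≤ C * (ε * B) * n := by
        gcongr
      have h5 := (abs_le.1 (h3.trans (h4.trans hε1))).1
      rw [h2]
      linarith
    · -- `X` is a quotient of `Q`
      have hXSS : SS f (wt D ζ) X :=
        (hSST f _ hw).2.2.2.2.2.2.2 M X π hζM hX hπ hz.symm
      have hNX : π ∘ₗ i = 0 := t1 N X hN hXSS.2 _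
      obtain ⟨ψ, hψ⟩ := hses.desc π hNX
      have hψs : Function.Surjective ψ := by
        intro x
        obtain ⟨y, hy⟩ := hπ x
        refine ⟨p y, ?_⟩
        have := LinearMap.congr_fun hψ y
        rw [← hy]
        exact this
      have hee : ee g X = 0 := by
        have := m6 g Q X ψ hψs
        omega
      have hhh : 1 ≤ hh g X := by
        by_contra hcon
        have h1 : hh g X = 0 := by omega
        have h2 := ((hg X).1 h1).2 ψ
        apply hXs
        refine ⟨fun a b => ?_⟩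
        obtain ⟨a', rfl⟩ := hψs a
        obtain ⟨b', rfl⟩ := hψs b
        rw [h2]
        rfl
      have hclsX : (1 : ℝ) ≤ wt D ζg X := by
        rw [← hζg X hX]
        have h1 := hh_sub_ee g X
        rw [hee] at h1
        have h2 : (1 : ℤ) ≤ cls g X := by
          rw [← h1]
          push_cast
          omega
        exact_mod_cast h2
      rw [hval, ← hz, hηX X hX]
      have h1 := (abs_le.1 (hκX X hX)).1
      have h3 : δ * Module.finrank K X ≤ δ * n := mul_le_mul_of_nonneg_left hXn' hδ0.le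
      have h4 : ε ≤ ε * wt D ζg X := by nlinarith
      linarith
  · -- nonzero
    intro h0
    rw [h0, zero_sub, norm_neg] at hdist
    linarith
  · -- below
    refine o2 q ζ ζm ?_ hζle
    intro Z hZ hperp
    have hMZ : Hom0 M Z := hperp M rfl
    have hQZ : Hom0 Q Z := hMZ.of_surj p hses.surj
    have hgZ : hh g Z = 0 := (hg Z).2 ⟨hZ.1, hQZ⟩
    refine ⟨hZ.1, fun X j hX hj => ?_⟩
    have h1 : wt D ζ X ≤ 0 := hZ.2 X j hX hj
    have h2 : hh g X = 0 := by
      have := m7 g X Z j hj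
      omega
    have h3 : wt D ζg X ≤ 0 := by
      rw [← hζg X hX]
      have h4 := hh_sub_ee g X
      rw [h2] at h4
      have h5 : cls g X ≤ 0 := by
        rw [← h4]
        push_cast
        omega
      exact_mod_cast h5
    rw [hval, hηX X hX]
    have h6 := (abs_le.1 (hκX X hX)).2
    have h7 : ε * wt D ζg X ≤ 0 := mul_nonpos_of_nonneg_of_nonpos hε.le h3
    linarith

end SBC
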