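import Pool.Agent.H5.SBC.Targets

/-!
Stable brick conjecture, module CCC: Theorem C by induction on the size of the chart and the dimension.
-/

namespace SBC

open Dem

theorem sbc_CCC (K A : Type) [Field K] [Ring A] [Algebra K A] [Module.Finite K A]
    (hCAA : T_CAA K A) (hCON : T_CON K A) (hCBO : T_CBO K A) (hSTE : T_STE K A)
    (hSTT : T_STT K A) (hMIN : T_MIN K A) (hDMM : T_DMM K A) (hCHT : T_CHT K A)
    (hCHR : T_CHR K A) (hRRC : T_RRC K A) (hSTL : T_STL K A) (hSTW : T_STW K A)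
    (hLEC : T_LEC K A) (hWTA : T_WTA K A) (hDIM : T_DIM K A) : T_CCC K A := by
  intro hLR
  suffices H : ∀ (r : ℕ) (f : Cpx K A), Nonempty (Chart f r) → f.Rigid → ∀ M : FMod K A,
      InW f M → Cst f M by
    intro f hf M hM
    obtain ⟨r, hD⟩ := hCHT f
    exact H r f hD hf M hM
  intro r
  induction r using Nat.strong_induction_on with
  | _ r ihr =>
  rintro f ⟨D⟩ hf
  suffices H2 : ∀ (n : ℕ) (M : FMod K A), Module.finrank K M = n → InW f M → Cst f M from
    fun M hM => H2 _ M rfl hM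
  intro n
  induction n using Nat.strong_induction_on with
  | _ n ihn =>
  intro M hn hM
  by_cases hMs : Subsingleton M
  · obtain ⟨-, g, hg, hgZ⟩ := hRRC hLR f hf
    exact ⟨f.sum g, hg, fun Z => ⟨fun h => ⟨(hgZ Z).1 h, hom0_left hMs⟩, fun h => (hgZ Z).2 h.1⟩⟩
  have hMn : Nontrivial M := not_subsingleton_iff_nontrivial.1 hMs
  have hMpos : 0 < Module.finrank K M := (nontrivial_iff M).1 hMn
  -- r = 0 is impossible
  rcases Nat.eq_zero_or_pos r with hr0 | hr0
  · subst hr0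
    obtain ⟨c, hc⟩ := D.res _ hDIM
    have h1 := hc M hM
    simp only [Finset.univ_eq_empty, Finset.sum_empty] at h1
    have h2 : (Module.finrank K M : ℤ) = 0 := by exact_mod_cast h1
    omega
  rcases (Nat.succ_le_of_lt hr0).eq_or_lt with hr1 | hr1
  · have hr1' : r = 1 := hr1.symm
    subst hr1'
    exact hCON hLR f D hf M hM hMn
  have hr2 : 2 ≤ r := hr1
  -- the weight `dim`
  obtain ⟨-, -, -, hwt4, -⟩ := hWTA f r D
  obtain ⟨ζ₀, -, hζ₀⟩ := hwt4 _ hDIM
  have hζ₀mem : ζ₀ ∈ DM D M := by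
    refine ⟨hM.2, fun X p hX hp => ?_⟩
    rw [← hζ₀ X hX]
    push_cast
    positivity
  have hζ₀ne : ζ₀ ≠ 0 := by
    rintro rfl
    have h1 := hζ₀ M hM
    have h2 : wt D (0 : Fin r → ℝ) M = 0 := by simp [wt]
    rw [h2] at h1
    have h3 : (Module.finrank K M : ℤ) = 0 := by exact_mod_cast h1
    omega
  have hdom : Dom D (fun N => N = M) (DM D M) := hDMM f r D M hM
  obtain ⟨ζm, hmin, -⟩ := hMIN f r D (fun N => N = M) (DM D M) hdom.closed hdom.smul ζ₀ hζ₀mem hζ₀ne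
  obtain ⟨hrefl, -⟩ := hLEC f r D (fun N => N = M)
  have hmem : ζm ∈ Pcl D (fun N => N = M) (DM D M) ζm := ⟨hmin.1, hmin.2.1, hrefl ζm⟩
  -- a ray rational point
  have hray : ∃ ζ ∈ Pcl D (fun N => N = M) (DM D M) ζm, RayRat ζ := by
    by_cases hB : ∃ ζ ∈ Pcl D (fun N => N = M) (DM D M) ζm, ¬ SS f (wt D ζ) M
    · exact hCBO hLR f r D hf M hM ζm hmin hB fun Q hQ hlt => ihn _ (by omega) Q rfl hQ
    · have hB' : ∀ ζ ∈ Pcl D (fun N => N = M) (DM D M) ζm, SS f (wt D ζ) M := by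
        intro ζ hζ
        by_contra h
        exact hB ⟨ζ, hζ, h⟩
      classical
      let Q : ℕ → Prop := fun j => ∃ ζ ∈ Pcl D (fun N => N = M) (DM D M) ζm,
        ∃ S'' : Fin j → FMod K A, StabList f (wt D ζ) S''
      have hbd : ∀ j, Q j → j ≤ r := by
        rintro j ⟨ζ, -, S'', hS''⟩
        exact (hSTW hLR f r D hf ζ j S'' hS''.1).2.2
      obtain ⟨j₀, hj₀⟩ : ∃ j, Q j := by
        obtain ⟨⟨k', S', hS'⟩, -⟩ := hSTL hLR f r D hf ζm
        exact ⟨k', ζm, hmem, S', hS'⟩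
      have hQmax : Q (Nat.findGreatest Q r) := Nat.findGreatest_spec (hbd j₀ hj₀) hj₀
      have hle_max : ∀ j, Q j → j ≤ Nat.findGreatest Q r := fun j hj =>
        Nat.le_findGreatest (hbd j hj) hj
      generalize hk'def : Nat.findGreatest Q r = k' at hQmax hle_max
      obtain ⟨ζs, hζs, S', hS'⟩ := hQmax
      refine hSTE hLR f r D (fun N => N = M) (DM D M) hf hdom ζm hmin ?_ ζs hζs k' S' hS' ?_
        (hSTT hLR f r D hf k' S')
      · rintro ζ hζ N rfl
        exact hB' ζ hζ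
      · intro ζ hζ j S'' hS''
        exact hle_max j ⟨ζ, hζ, S'', hS''⟩
  -- part (A)
  refine hCAA hLR f r D hr2 hf M hM hMn ζm hmin hray ?_
  intro g hg hX Q hQ
  obtain ⟨r', hr', hD'⟩ := hCHR f g r D hX
  exact ihr r' hr' (f.sum g) hD' hg Q hQ

end SBC
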