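import Pool.Agent.H5.SBC.Targets

/-! # Stable brick conjecture: module CHR (helper88) -/

namespace SBC

open Dem

/-- coordinates on the span of a family of rational vectors -/
theorem chr_coords {n : ℕ} (V : Submodule ℚ (Fin n → ℚ)) :
    ∃ (F : (Fin n → ℚ) →ₗ[ℚ] (Fin (Module.finrank ℚ V) → ℚ))
      (G : (Fin (Module.finrank ℚ V) → ℚ) →ₗ[ℚ] (Fin n → ℚ)),
      (∀ v ∈ V, G (F v) = v) ∧ ∀ y, ∃ v ∈ V, F v = y := by
  let b := Module.finBasis ℚ V
  let e : V ≃ₗ[ℚ] (Fin (Module.finrank ℚ V) → ℚ) := b.equivFun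
  obtain ⟨F, hF⟩ := LinearMap.exists_extend e.toLinearMap
  have hF' : ∀ v : V, F v.1 = e v := fun v => LinearMap.congr_fun hF v
  refine ⟨F, V.subtype ∘ₗ e.symm.toLinearMap, ?_, ?_⟩
  · intro v hv
    have h1 := hF' ⟨v, hv⟩
    simp only at h1
    rw [h1]
    simp
  · intro y
    refine ⟨(e.symm y).1, (e.symm y).2, ?_⟩
    rw [hF']
    simp

/-- a linear functional on `ℚ^n` is given by its coefficients -/
theorem chr_coeff {n : ℕ} (φ : (Fin n → ℚ) →ₗ[ℚ] ℚ) (v : Fin n → ℚ) :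
    φ v = ∑ j, φ (Pi.single j 1) * v j := by
  conv_lhs => rw [LinearMap.pi_apply_eq_sum_univ φ v]
  refine Finset.sum_congr rfl fun j _ => ?_
  rw [smul_eq_mul, mul_comm]
  congr 2
  funext i
  by_cases h : i = j
  · subst h
    simp
  · simp [Pi.single_eq_of_ne h, Ne.symm h]

/-- a chart from a family of vectors -/
theorem chr_chart {K A : Type} [Field K] [Ring A] [Algebra K A] {n : ℕ} (f : Cpx K A)
    (u : FMod K A → Fin n → ℚ) (V : Submodule ℚ (Fin n → ℚ))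
    (hV : V = Submodule.span ℚ {v | ∃ X, InW f X ∧ u X = v})
    (hadd : ∀ (X Y Z : FMod K A) (i : X →ₗ[A] Y) (p : Y →ₗ[A] Z),
      InW f X → InW f Y → InW f Z → SES i p → u Y = u X + u Z)
    (hres : ∀ x ∈ K0 K A, ∃ c : Fin n → ℚ, ∀ X, InW f X → (x X : ℚ) = ∑ j, c j * u X j)
    (hext : ∀ c : Fin n → ℚ, ∃ m : ℕ, 0 < m ∧ ∃ x ∈ K0 K A, ∀ X, InW f X →
      (x X : ℚ) = m * ∑ j, c j * u X j) :
    Nonempty (Chart f (Module.finrank ℚ V)) := by
  classical
  obtain ⟨F, G, hGF, hsurj⟩ := chr_coords V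
  have hmem : ∀ X, InW f X → u X ∈ V := fun X hX => by
    rw [hV]
    exact Submodule.subset_span ⟨X, hX, rfl⟩
  refine ⟨⟨fun X => F (u X), ?_, ?_, ?_, ?_⟩⟩
  · intro X Y Z i p hX hY hZ h
    rw [hadd X Y Z i p hX hY hZ h, map_add]
  · intro x hx
    obtain ⟨c, hc⟩ := hres x hx
    let φ : (Fin n → ℚ) →ₗ[ℚ] ℚ := ∑ j, c j • LinearMap.proj j
    have hφ : ∀ v, φ v = ∑ j, c j * v j := fun v => by
      simp [φ, LinearMap.sum_apply]
    refine ⟨fun j => (φ ∘ₗ G) (Pi.single j 1), fun X hX => ?_⟩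
    rw [hc X hX, ← hφ, ← chr_coeff (φ ∘ₗ G) (F (u X)), LinearMap.comp_apply, hGF _ (hmem X hX)]
  · intro c
    let ψ : (Fin (Module.finrank ℚ V) → ℚ) →ₗ[ℚ] ℚ := ∑ j, c j • LinearMap.proj j
    have hψ : ∀ v, ψ v = ∑ j, c j * v j := fun v => by
      simp [ψ, LinearMap.sum_apply]
    obtain ⟨m, hm, x, hx, hxm⟩ := hext fun j => (ψ ∘ₗ F) (Pi.single j 1)
    refine ⟨m, hm, x, hx, fun X hX => ?_⟩
    rw [hxm X hX, ← chr_coeff (ψ ∘ₗ F) (u X), LinearMap.comp_apply, hψ]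
  · intro ζ hζ
    -- the vanishing extends to the whole space
    let L : (Fin (Module.finrank ℚ V) → ℚ) →+ ℝ :=
      { toFun := fun y => ∑ j, ζ j * (y j : ℝ)
        map_zero' := by simp
        map_add' := fun y z => by
          simp only [Pi.add_apply, Rat.cast_add, mul_add, Finset.sum_add_distrib] }
    have hLs : ∀ (q : ℚ) y, L (q • y) = (q : ℝ) * L y := fun q y => by
      simp only [L, AddMonoidHom.coe_mk, ZeroHom.coe_mk, Pi.smul_apply, smul_eq_mul,
        Rat.cast_mul, Finset.mul_sum]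
      refine Finset.sum_congr rfl fun j _ => ?_
      ring
    have hV0 : ∀ v ∈ V, L (F v) = 0 := by
      intro v hv
      rw [hV] at hv
      induction hv using Submodule.span_induction with
      | mem v h =>
        obtain ⟨X, hX, rfl⟩ := h
        exact hζ X hX
      | zero => simp
      | add v w _ _ h1 h2 => rw [map_add, map_add, h1, h2, add_zero]
      | smul q v _ h1 => rw [map_smul, hLs, h1, mul_zero]
    funext j
    obtain ⟨v, hv, hFv⟩ := hsurj (Pi.single j 1)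
    have h1 := hV0 v hv
    rw [hFv] at h1
    simp only [L, AddMonoidHom.coe_mk, ZeroHom.coe_mk] at h1
    rw [Finset.sum_eq_single j] at h1
    · simpa using h1
    · intro i _ hi
      simp [Pi.single_eq_of_ne hi]
    · intro hj
      exact absurd (Finset.mem_univ j) hj

theorem sbc_CHR (K A : Type) [Field K] [Ring A] [Algebra K A] [Module.Finite K A]
    (h1 : T_WID K A) : T_CHR K A := by
  intro f g r D hg
  have hW : ∀ X, InW (f.sum g) X → InW f X ∧ InW g X := fun X hX => (h1.2.2.2.2 f g X).1 hX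
  let V : Submodule ℚ (Fin r → ℚ) := Submodule.span ℚ {v | ∃ X, InW (f.sum g) X ∧ D.d X = v}
  -- the class of `g`
  obtain ⟨c, hc⟩ := D.res (cls g) (cls_mem_K0 g)
  let φ : (Fin r → ℚ) →ₗ[ℚ] ℚ := ∑ j, c j • LinearMap.proj j
  have hφ : ∀ v, φ v = ∑ j, c j * v j := fun v => by
    simp [φ, LinearMap.sum_apply]
  have hVker : V ≤ LinearMap.ker φ := by
    refine Submodule.span_le.2 ?_
    rintro v ⟨X, hX, rfl⟩
    obtain ⟨h2, h3⟩ := hW X hX
    have h4 := hc X h2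
    have h5 := hh_sub_ee g X
    rw [h3.1, h3.2] at h5
    rw [SetLike.mem_coe, LinearMap.mem_ker, hφ, ← h4, ← h5]
    simp
  have hlt : V < ⊤ := by
    rw [lt_top_iff_ne_top]
    intro htop
    obtain ⟨X, hX, hne⟩ := hg
    apply hne
    have h2 : D.d X ∈ LinearMap.ker φ := hVker (htop ▸ Submodule.mem_top)
    rw [LinearMap.mem_ker, hφ, ← hc X hX] at h2
    exact_mod_cast h2
  refine ⟨Module.finrank ℚ V, ?_, chr_chart (f.sum g) D.d V rfl ?_ ?_ ?_⟩
  · have h2 := Submodule.finrank_lt (lt_top_iff_ne_top.1 hlt)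
    rwa [Module.finrank_fin_fun] at h2
  · intro X Y Z i p hX hY hZ h
    exact D.add X Y Z i p (hW X hX).1 (hW Y hY).1 (hW Z hZ).1 h
  · intro x hx
    obtain ⟨a, ha⟩ := D.res x hx
    exact ⟨a, fun X hX => ha X (hW X hX).1⟩
  · intro a
    obtain ⟨m, hm, x, hx, hxm⟩ := D.ext a
    exact ⟨m, hm, x, hx, fun X hX => hxm X (hW X hX).1⟩

end SBC
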