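import Pool.Agent.H5.SBC.Targets

/-!
Module CLA: Claim A, section (5.3).
-/

namespace SBC

open Dem Filter

private theorem cla_tendsto {r : ℕ} {ζ : ℕ → Fin r → ℝ} {ζ₀ : Fin r → ℝ}
    (h : Tendsto ζ atTop (nhds ζ₀)) (v : Fin r → ℚ) :
    Tendsto (fun j => ∑ k, ζ j k * (v k : ℝ)) atTop (nhds (∑ k, ζ₀ k * (v k : ℝ))) := by
  refine tendsto_finsetSum _ fun k _ => ?_
  exact (tendsto_pi_nhds.1 h k).mul_const _

theorem sbc_CLA (K A : Type) [Field K] [Ring A] [Algebra K A] [Module.Finite K A]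
    (bdd : T_BDD K A) (sst : T_SST K A) (wta : T_WTA K A) : T_CLA K A := by
  intro f r D 𝒳 ζ₀ ξ₀ ζ ξ hζ h0 hle hξ Z hZ hP
  obtain ⟨hZ1, hZ2⟩ := hZ
  have hadd := (wta f r D).1
  have hfin := (bdd f r D).2 (Module.finrank K Z)
  -- eventually negative values stay negative
  have hev : ∀ᶠ j in atTop, ∀ v ∈ {v : Fin r → ℚ | ∃ X : FMod K A, InW f X ∧
      Module.finrank K X ≤ Module.finrank K Z ∧ D.d X = v},
      ∑ k, ζ₀ k * (v k : ℝ) < 0 → ∑ k, ζ j k * (v k : ℝ) < 0 := by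
    rw [Filter.eventually_all_finite hfin]
    intro v _
    by_cases hv : ∑ k, ζ₀ k * (v k : ℝ) < 0
    · filter_upwards [(cla_tendsto hζ v).eventually_lt_const hv] with j hj _
      exact hj
    · exact Eventually.of_forall fun j h => absurd h hv
  have hFF : ∀ᶠ j in atTop, FF f (wt D (ζ j)) Z := by
    filter_upwards [hev] with j hj
    refine ⟨hZ1, fun X i hX hi => ?_⟩
    have h1 := hZ2 X i hX hi
    rcases lt_or_eq_of_le h1 with h2 | h2
    · exact (hj (D.d X) ⟨X, hX, inj_finrank_le i hi, rfl⟩ h2).le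
    · have h3 := (sst f (wt D ζ₀) (hadd ζ₀)).2.2.2.2.2.2.1 Z X i ⟨hZ1, hZ2⟩ hX hi h2
      exact (h0 j X h3).le
  refine ⟨hZ1, fun X i hX hi => ?_⟩
  refine le_of_tendsto (cla_tendsto hξ (D.d X)) ?_
  filter_upwards [hFF] with j hj
  exact (hle j Z hj hP).2 X i hX hi

end SBC
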