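import Pool.Agent.H5.SBC.Targets

namespace SBC

open Dem

theorem sbc_CLB (K A : Type) [Field K] [Ring A] [Algebra K A] [Module.Finite K A]
    (hSTQ : T_STQ K A) (hCLO : T_CLO K A) (hWTA : T_WTA K A) (hSST : T_SST K A) :
    T_CLB K A := by
  intro f r D k S ζ₁ ξ h1 hξ hle
  have hA1 := (hWTA f r D).1 ζ₁
  have hAξ := (hWTA f r D).1 ξ
  suffices H : ∀ (n : ℕ) (Z : FMod K A), Module.finrank K Z ≤ n → FF f (wt D ζ₁) Z →
      FF f (wt D ξ) Z from fun Z hZ => H _ Z le_rfl hZ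
  intro n
  induction n with
  | zero =>
    intro Z hn hZ
    exact ((hCLO.1 f _ hAξ).2.2.1).zero Z ((subsingleton_iff Z).2 (by omega))
  | succ n ih =>
    intro Z hn hZ
    by_cases hp : Perp (MemS S) Z
    · exact hle Z hZ hp
    · unfold Perp at hp
      push Not at hp
      obtain ⟨M, ⟨i, rfl⟩, hM⟩ := hp
      unfold Hom0 at hM
      push Not at hM
      obtain ⟨φ, hφ⟩ := hM
      have hinj : Function.Injective φ := (hSTQ f _ hA1).2.1 (S i) Z φ (h1 i) hZ hφ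
      obtain ⟨Q, p, hs⟩ := exists_coker φ hinj
      have hSS1 : SS f (wt D ζ₁) (S i) := (((hSST f _ hA1).2.2.2.2.1 (S i)).1 (h1 i)).1
      have hQ : FF f (wt D ζ₁) Q := (hSTQ f _ hA1).2.2.2.2.2 (S i) Z Q φ p hs hSS1 hZ
      have hpos : 0 < Module.finrank K (S i) := (nontrivial_iff _).1 (h1 i).2.1
      have hQ' : FF f (wt D ξ) Q := ih Q (by have := hs.finrank; omega) hQ
      exact ((hCLO.1 f _ hAξ).2.2.1).ext (S i) Z Q φ p hs (hξ i).2 hQ'

end SBC
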