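import Pool.Agent.H5.SBC.Targets

/-! CLO: closure properties. -/

namespace SBC

open Dem

section

variable {K A : Type} [Field K] [Ring A] [Algebra K A]

theorem clo_torsPerp (F : FMod K A → Prop) : TorsCls (fun Y : FMod K A => ∀ Z, F Z → Hom0 Y Z) where
  zero X hX Z _ := hom0_left hX
  quo X Y p hp h Z hZ := (h Z hZ).of_surj p hp
  ext X Y Z i p h h1 h2 W hW φ := by
    obtain ⟨ψ, hψ⟩ := h.desc φ (h1 W hW _)
    rw [← hψ, h2 W hW ψ, LinearMap.zero_comp]

theorem clo_tfPerp (𝒳 : FMod K A → Prop) : TFCls (Perp (K := K) (A := A) 𝒳) where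
  zero X hX M _ := hom0_right hX
  sub X Y i hi h M hM := (h M hM).of_inj i hi
  ext X Y Z i p h h1 h2 M hM φ := by
    obtain ⟨ψ, hψ⟩ := h.lift φ (h2 M hM _)
    rw [← hψ, h1 M hM ψ, LinearMap.comp_zero]

theorem clo_id_ses {X : FMod K A} (hX : Subsingleton X) :
    SES (LinearMap.id : X →ₗ[A] X) (LinearMap.id : X →ₗ[A] X) :=
  ses_left_zero _ _ hX Function.bijective_id

theorem clo_w_zero {f : Cpx K A} {w : FMod K A → ℝ} (hw : AddOn f w) {X : FMod K A}
    (hX : Subsingleton X) (hW : InW f X) : w X = 0 := by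
  have := hw X X X _ _ hW hW hW (clo_id_ses hX)
  linarith

end

theorem sbc_CLO (K A : Type) [Field K] [Ring A] [Algebra K A] [Module.Finite K A]
    (h1 : T_WID K A) (h2 : T_HOM K A) : T_CLO K A := by
  obtain ⟨hH, hT, -, -, -, hq, hi, h0⟩ := h2
  obtain ⟨-, hs, hiso, hz, -⟩ := h1
  have hee : ∀ f : Cpx K A, TorsCls (fun Y => ee f Y = 0) := by
    intro f
    have h3 := clo_torsPerp (fun Z : FMod K A => Z = tau f)
    refine ⟨fun X hX => (h0 f X hX).2, fun X Y p hp hX => ?_, fun X Y Z i p h hX hZ => ?_⟩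
    · have h4 := hq f X Y p hp
      have h5 : ee f X = 0 := hX
      show ee f Y = 0
      omega
    · show ee f Y = 0
      have hX' : ee f X = 0 := hX
      have hZ' : ee f Z = 0 := hZ
      rw [hT] at hX' hZ' ⊢
      exact h3.ext X Y Z i p h (by rintro W rfl; exact hX') (by rintro W rfl; exact hZ') _ rfl
  have hhh : ∀ f : Cpx K A, TFCls (fun Z => hh f Z = 0) := by
    intro f
    have h3 := clo_tfPerp (fun M : FMod K A => M = f.H)
    refine ⟨fun X hX => (h0 f X hX).1, fun X Y i hj hY => ?_, fun X Y Z i p h hX hZ => ?_⟩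
    · have h4 := hi f X Y i hj
      have h5 : hh f Y = 0 := hY
      show hh f X = 0
      omega
    · show hh f Y = 0
      have hX' : hh f X = 0 := hX
      have hZ' : hh f Z = 0 := hZ
      rw [hH] at hX' hZ' ⊢
      exact h3.ext X Y Z i p h (by rintro W rfl; exact hX') (by rintro W rfl; exact hZ') _ rfl
  have hTB : ∀ (f : Cpx K A) (w : FMod K A → ℝ), AddOn f w → TorsCls (TB f w) := by
    intro f w hw
    refine ⟨fun X hX => ?_, fun X Y p hp hX => ?_, fun X Y Z i p h hX hZ => ?_⟩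
    · refine ⟨(h0 f X hX).2, fun X' p hX' hp => ?_⟩
      have : Subsingleton X' := hp.subsingleton
      rw [clo_w_zero hw this hX']
    · exact ⟨(hee f).quo X Y p hp hX.1, fun X' q hX' hq' => hX.2 X' (q ∘ₗ p) hX' (hq'.comp hp)⟩
    · refine ⟨(hee f).ext X Y Z i p h hX.1 hZ.1, fun Q q hQ hqs => ?_⟩
      obtain ⟨Q', Q'', i', p', a, c, h', ha, hc, -, -⟩ := h.quo q hqs
      have e1 : InW f Q' := by
        have a1 := hq f X Q' a ha
        have a2 := hi f Q' Q i' h'.inj
        have a3 := hX.1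
        have a4 := hQ.1
        exact ⟨by omega, by omega⟩
      have e2 : InW f Q'' := (hs f Q' Q Q'' i' p' h').1 e1 hQ
      rw [hw Q' Q Q'' i' p' e1 hQ e2 h']
      exact add_nonneg (hX.2 Q' a e1 ha) (hZ.2 Q'' c e2 hc)
  have hTT : ∀ (f : Cpx K A) (w : FMod K A → ℝ), AddOn f w → TorsCls (TT f w) := by
    intro f w hw
    refine ⟨fun X hX => ?_, fun X Y p hp hX => ?_, fun X Y Z i p h hX hZ => ?_⟩
    · refine ⟨(h0 f X hX).2, fun X' p hX' hn hp => ?_⟩
      have : Subsingleton X' := hp.subsingleton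
      exact absurd hn (not_nontrivial X')
    · exact ⟨(hee f).quo X Y p hp hX.1, fun X' q hX' hn hq' =>
        hX.2 X' (q ∘ₗ p) hX' hn (hq'.comp hp)⟩
    · refine ⟨(hee f).ext X Y Z i p h hX.1 hZ.1, fun Q q hQ hn hqs => ?_⟩
      obtain ⟨Q', Q'', i', p', a, c, h', ha, hc, -, -⟩ := h.quo q hqs
      have e1 : InW f Q' := by
        have a1 := hq f X Q' a ha
        have a2 := hi f Q' Q i' h'.inj
        have a3 := hX.1
        have a4 := hQ.1
        exact ⟨by omega, by omega⟩
      have e2 : InW f Q'' := (hs f Q' Q Q'' i' p' h').1 e1 hQ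
      rw [hw Q' Q Q'' i' p' e1 hQ e2 h']
      have hfr := h'.finrank
      rw [nontrivial_iff] at hn
      rcases Nat.eq_zero_or_pos (Module.finrank K Q') with h3 | h3
      · have h4 : Subsingleton Q' := (subsingleton_iff Q').2 h3
        rw [clo_w_zero hw h4 e1, zero_add]
        exact hZ.2 Q'' c e2 ((nontrivial_iff Q'').2 (by omega)) hc
      · have h4 := hX.2 Q' a e1 ((nontrivial_iff Q').2 h3) ha
        rcases Nat.eq_zero_or_pos (Module.finrank K Q'') with h5 | h5
        · have h6 : Subsingleton Q'' := (subsingleton_iff Q'').2 h5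
          rw [clo_w_zero hw h6 e2, add_zero]
          exact h4
        · exact add_pos h4 (hZ.2 Q'' c e2 ((nontrivial_iff Q'').2 h5) hc)
  have hFF : ∀ (f : Cpx K A) (w : FMod K A → ℝ), AddOn f w → TFCls (FF f w) := by
    intro f w hw
    refine ⟨fun X hX => ?_, fun X Y j hj hY => ?_, fun X Y Z i p h hX hZ => ?_⟩
    · refine ⟨(h0 f X hX).1, fun X' j hX' hj => ?_⟩
      have : Subsingleton X' := hj.subsingleton
      rw [clo_w_zero hw this hX']
    · exact ⟨(hhh f).sub X Y j hj hY.1, fun X' q hX' hq' => hY.2 X' (j ∘ₗ q) hX' (hj.comp hq')⟩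
    · refine ⟨(hhh f).ext X Y Z i p h hX.1 hZ.1, fun V j hV hj => ?_⟩
      obtain ⟨V', V'', i', p', a, c, h', ha, hc, -, -⟩ := h.sub j hj
      have e2 : InW f V'' := by
        have a1 := hq f V V'' p' h'.surj
        have a2 := hi f V'' Z c hc
        have a3 := hV.2
        have a4 := hZ.1
        exact ⟨by omega, by omega⟩
      have e1 : InW f V' := (hs f V' V V'' i' p' h').2.1 hV e2
      rw [hw V' V V'' i' p' e1 hV e2 h']
      exact add_nonpos (hX.2 V' a e1 ha) (hZ.2 V'' c e2 hc)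
  have hFS : ∀ (f : Cpx K A) (w : FMod K A → ℝ), AddOn f w → TFCls (FS f w) := by
    intro f w hw
    refine ⟨fun X hX => ?_, fun X Y j hj hY => ?_, fun X Y Z i p h hX hZ => ?_⟩
    · refine ⟨(h0 f X hX).1, fun X' j hX' hn hj => ?_⟩
      have : Subsingleton X' := hj.subsingleton
      exact absurd hn (not_nontrivial X')
    · exact ⟨(hhh f).sub X Y j hj hY.1, fun X' q hX' hn hq' =>
        hY.2 X' (j ∘ₗ q) hX' hn (hj.comp hq')⟩
    · refine ⟨(hhh f).ext X Y Z i p h hX.1 hZ.1, fun V j hV hn hj => ?_⟩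
      obtain ⟨V', V'', i', p', a, c, h', ha, hc, -, -⟩ := h.sub j hj
      have e2 : InW f V'' := by
        have a1 := hq f V V'' p' h'.surj
        have a2 := hi f V'' Z c hc
        have a3 := hV.2
        have a4 := hZ.1
        exact ⟨by omega, by omega⟩
      have e1 : InW f V' := (hs f V' V V'' i' p' h').2.1 hV e2
      rw [hw V' V V'' i' p' e1 hV e2 h']
      have hfr := h'.finrank
      rw [nontrivial_iff] at hn
      rcases Nat.eq_zero_or_pos (Module.finrank K V') with h3 | h3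
      · have h4 : Subsingleton V' := (subsingleton_iff V').2 h3
        rw [clo_w_zero hw h4 e1, zero_add]
        exact hZ.2 V'' c e2 ((nontrivial_iff V'').2 (by omega)) hc
      · have h4 := hX.2 V' a e1 ((nontrivial_iff V').2 h3) ha
        rcases Nat.eq_zero_or_pos (Module.finrank K V'') with h5 | h5
        · have h6 : Subsingleton V'' := (subsingleton_iff V'').2 h5
          rw [clo_w_zero hw h6 e2, add_zero]
          exact h4
        · exact add_neg h4 (hZ.2 V'' c e2 ((nontrivial_iff V'').2 h5) hc)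
  refine ⟨fun f w hw => ⟨hTB f w hw, hTT f w hw, hFF f w hw, hFS f w hw⟩,
    fun f => ⟨hee f, hhh f⟩, clo_tfPerp, clo_torsPerp, ?_⟩
  rintro f w hw X Y ⟨e⟩
  have hwe : InW f X → w X = w Y := by
    intro hX
    have hY : InW f Y := hiso f X Y ⟨e⟩ hX
    have hs0 : Subsingleton (FMod.zero : FMod K A) := (inferInstance : Subsingleton PUnit)
    have hZ : InW f (FMod.zero : FMod K A) := hz f _ hs0
    have := hw X Y (FMod.zero : FMod K A) e.toLinearMap 0 hX hY hZ
      (ses_right_zero _ _ hs0 e.bijective)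
    rw [clo_w_zero hw hs0 hZ] at this
    linarith
  refine ⟨?_, ?_, ?_⟩
  · by_cases hX : InW f X
    · exact Or.inl (hwe hX)
    · exact Or.inr hX
  · rintro ⟨h3, h4⟩
    exact ⟨(hTB f w hw).quo X Y e.toLinearMap e.surjective h3,
      (hFF f w hw).sub Y X e.symm.toLinearMap e.symm.injective h4⟩
  · rintro ⟨h3, h4, h5, h6⟩
    refine ⟨hiso f X Y ⟨e⟩ h3, ?_, ?_, ?_⟩
    · rw [nontrivial_iff] at h4 ⊢
      exact h4.trans_le (inj_finrank_le e.toLinearMap e.injective)
    · rw [← hwe h3, h5]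
    · intro X' p hX' hn hp hinj
      refine h6 X' (p ∘ₗ e.toLinearMap) hX' hn (hp.comp e.surjective) fun h7 => hinj ?_
      intro a b hab
      obtain ⟨a', rfl⟩ := e.surjective a
      obtain ⟨b', rfl⟩ := e.surjective b
      rw [h7 (a₁ := a') (a₂ := b') hab]

end SBC
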