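import Pool.Agent.H5.SBC.Targets

/-!
Conversion between representations `A → End_K(K^d)` and finite-dimensional modules, and the
deduction of S03323 from the main results.
-/

namespace SBC

open Dem

variable {K A : Type} [Field K] [Ring A] [Algebra K A]

/-- the module of a representation -/
def ofRep {d : ℕ} (φ : A →ₐ[K] Module.End K (Fin d → K)) : FMod K A :=
  letI : Module A (Fin d → K) := Module.compHom (Fin d → K) φ.toRingHom
  { carrier := Fin d → K
    isAddCommGroup := inferInstance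
    isModule := Module.compHom (Fin d → K) φ.toRingHom
    isModuleK := inferInstance
    isScalarTower := ⟨fun k a v => by
      change φ (k • a) v = k • φ a v
      rw [map_smul]
      rfl⟩
    isFinite := inferInstance }

theorem ofRep_smul {d : ℕ} (φ : A →ₐ[K] Module.End K (Fin d → K)) (a : A) (v : ofRep φ) :
    a • v = φ a v := rfl

/-- a linear map between the modules of representations -/
theorem ofRep_equiv {d : ℕ} (φ ψ : A →ₐ[K] Module.End K (Fin d → K))
    (h : Nonempty (ofRep φ ≃ₗ[A] ofRep ψ)) :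
    ∃ g : (Fin d → K) ≃ₗ[K] (Fin d → K), ∀ (a : A) (v : Fin d → K), g (φ a v) = ψ a (g v) := by
  obtain ⟨e⟩ := h
  refine ⟨(e.restrictScalars K : ofRep φ ≃ₗ[K] ofRep ψ), fun a v => ?_⟩
  exact e.map_smul a v

/-- every module of dimension `n` comes from a representation on `K^n` -/
theorem exists_rep (N : FMod K A) (n : ℕ) (hn : Module.finrank K N = n) :
    ∃ φ : A →ₐ[K] Module.End K (Fin n → K), Nonempty (N ≃ₗ[A] ofRep φ) := by
  let e : N ≃ₗ[K] (Fin n → K) := LinearEquiv.ofFinrankEq _ _ (by rw [hn]; simp)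
  let φ : A →ₐ[K] Module.End K (Fin n → K) := (e.conjAlgEquiv K).toAlgHom.comp
    (Algebra.lsmul K K N)
  refine ⟨φ, ⟨{ e with
    map_smul' := fun a v => ?_ }⟩⟩
  change e (a • v) = φ a (e v)
  change e (a • v) = e (a • e.symm (e v))
  rw [e.symm_apply_apply]

theorem brick_ofRep {d : ℕ} (hd : 0 < d) (φ : A →ₐ[K] Module.End K (Fin d → K))
    (h : ∀ ψ : Module.End K (Fin d → K), (∀ a : A, ψ * φ a = φ a * ψ) →
      ∃ c : K, ψ = algebraMap K (Module.End K (Fin d → K)) c) : Brick (ofRep φ) := by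
  have : Nonempty (Fin d) := ⟨⟨0, hd⟩⟩
  constructor
  · change Nontrivial (Fin d → K)
    infer_instance
  · intro ψ
    let ψ' : Module.End K (Fin d → K) := (ψ.restrictScalars K : ofRep φ →ₗ[K] ofRep φ)
    obtain ⟨c, hc⟩ := h ψ' fun a => by
      refine LinearMap.ext fun v => ?_
      exact ψ.map_smul a v
    have hψ : ∀ v : Fin d → K, ψ v = c • v := fun v => by
      have := LinearMap.congr_fun hc v
      exact this
    by_cases hc0 : c = 0
    · left
      refine LinearMap.ext fun v => (hψ v).trans ?_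
      have h1 : ∀ u : Fin d → K, c • u = 0 := fun u => by rw [hc0, zero_smul]
      exact h1 v
    · right
      constructor
      · intro v w hvw
        have h1 : ∀ u u' : Fin d → K, c • u = c • u' → u = u' := fun u u' hu =>
          smul_right_injective _ hc0 hu
        exact h1 v w ((hψ v).symm.trans (hvw.trans (hψ w)))
      · intro v
        have h1 : ∀ u : Fin d → K, c • c⁻¹ • u = u := fun u => smul_inv_smul₀ hc0 u
        exact ⟨(c⁻¹ • (v : Fin d → K) : Fin d → K), (hψ _).trans (h1 v)⟩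

/-- stability is invariant under isomorphisms -/
theorem stab_iso {x : FMod K A → ℤ} (hx : x ∈ K0 K A) {N M : FMod K A} (e : N ≃ₗ[A] M)
    (h : Stab x N) : Stab x M := by
  refine ⟨by rw [← K0_congr hx e]; exact h.1, fun W hW hW' => ?_⟩
  have h1 := h.2 (W.comap e.toLinearMap) (fun h0 => hW ?_) (fun h0 => hW' ?_)
  · rw [← K0_congr hx (L := N.sub (W.comap e.toLinearMap)) (M := M.sub W) ?_]
    · exact h1
    · exact (e.submoduleMap (W.comap e.toLinearMap)).trans
        (LinearEquiv.ofEq _ _ (Submodule.map_comap_eq_of_surjective e.surjective W))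
  · rw [eq_bot_iff]
    intro w hw
    have h2 : e.symm w ∈ W.comap e.toLinearMap := by
      change e (e.symm w) ∈ W
      rw [e.apply_symm_apply]
      exact hw
    rw [h0] at h2
    have h3 : e.symm w = 0 := h2
    have h4 : w = 0 := by
      rw [← e.apply_symm_apply w, h3, map_zero]
    exact h4
  · rw [eq_top_iff]
    intro w _
    have h2 : e.symm w ∈ W.comap e.toLinearMap := by
      rw [h0]
      trivial
    have h3 : e (e.symm w) ∈ W := h2
    rwa [e.apply_symm_apply] at h3

theorem finrank_map_eq {d : ℕ} (φ : A →ₐ[K] Module.End K (Fin d → K)) (a : A)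
    (W : Submodule K (Fin d → K)) (W' : Submodule A (ofRep φ))
    (hW : ∀ v : Fin d → K, v ∈ W' ↔ v ∈ W) :
    Module.finrank K (W.map (φ a)) =
      Module.finrank K (LinearMap.range (Algebra.lsmul K K ((ofRep φ).sub W') a)) := by
  let ι : (ofRep φ).sub W' →ₗ[K] (Fin d → K) := (W'.subtype.restrictScalars K : _ →ₗ[K] ofRep φ)
  have hι : Function.Injective ι := W'.injective_subtype
  have h1 : W.map (φ a) =
      (LinearMap.range (Algebra.lsmul K K ((ofRep φ).sub W') a)).map ι := by
    ext v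
    constructor
    · rintro ⟨w, hw, rfl⟩
      refine ⟨a • (⟨w, (hW w).2 hw⟩ : (ofRep φ).sub W'), ⟨⟨w, (hW w).2 hw⟩, rfl⟩, rfl⟩
    · rintro ⟨_, ⟨w, rfl⟩, rfl⟩
      exact ⟨w.1, (hW _).1 w.2, rfl⟩
  rw [h1]
  exact (Submodule.equivMapOfInjective ι hι _).finrank_eq.symm

/-- from infinitely many stable modules to the conclusion of S03323 -/
theorem finStab_of (K A : Type) [Field K] [Ring A] [Algebra K A] [Module.Finite K A]
    (hIDM : T_IDM K A)
    (hno : ¬ ∃ (m : ℕ) (e : Fin m → A) (c : Fin m → ℤ), (∀ j, IsIdempotentElem (e j)) ∧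
        ∃ d : ℕ, ∃ f : ℕ → (A →ₐ[K] Module.End K (Fin d → K)),
          (∀ i j : ℕ, i ≠ j →
            ¬ ∃ g : (Fin d → K) ≃ₗ[K] (Fin d → K), ∀ (a : A) (v : Fin d → K),
              g (f i a v) = f j a (g v)) ∧
          ∀ i : ℕ,
            (∑ j : Fin m, c j *
              ((Module.finrank K ((⊤ : Submodule K (Fin d → K)).map (f i (e j))) : ℕ) : ℤ)) = 0 ∧
            ∀ W : Submodule K (Fin d → K), (∀ (a : A), ∀ v ∈ W, f i a v ∈ W) →
              W ≠ ⊥ → W ≠ ⊤ →
              (∑ j : Fin m, c j *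
                ((Module.finrank K (W.map (f i (e j))) : ℕ) : ℤ)) < 0) : FinStab K A := by
  classical
  intro x hx n
  by_contra hcon
  push Not at hcon
  have hsymm : Std.Symm (fun N N' : FMod K A => IsEmpty (N ≃ₗ[A] N')) :=
    ⟨fun N N' h => ⟨fun e => h.false e.symm⟩⟩
  obtain ⟨F, hF, hF'⟩ := exists_seq_of_forall_finset_exists'
    (fun N : FMod K A => Module.finrank K N = n ∧ Stab x N)
    (fun N N' : FMod K A => IsEmpty (N ≃ₗ[A] N')) (fun s _ => by
      obtain ⟨N, hN, hN', hN''⟩ := hcon s.toList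
      exact ⟨N, ⟨hN, hN'⟩, fun N' hs => ⟨fun e => (hN'' N' (by simpa using hs)).false e.symm⟩⟩)
  obtain ⟨N₀, m, e, c, hN₀, he, hsum⟩ := hIDM x hx
  have hrep : ∀ i, ∃ φ : A →ₐ[K] Module.End K (Fin n → K), Nonempty (F i ≃ₗ[A] ofRep φ) :=
    fun i => exists_rep (F i) n (hF i).1
  choose φ hφ using hrep
  apply hno
  refine ⟨m, e, c, he, n, φ, ?_, ?_⟩
  · rintro i j hij ⟨g, hg⟩
    have h1 : IsEmpty (F i ≃ₗ[A] F j) := hF' hij
    obtain ⟨a⟩ := hφ i
    obtain ⟨b⟩ := hφ j
    let g' : ofRep (φ i) ≃ₗ[A] ofRep (φ j) := { g with map_smul' := hg }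
    exact h1.false (a.trans (g'.trans b.symm))
  · intro i
    obtain ⟨a⟩ := hφ i
    have hs : Stab x (ofRep (φ i)) := stab_iso hx a (hF i).2
    have key : ∀ (W : Submodule K (Fin n → K)) (W' : Submodule A (ofRep (φ i))),
        (∀ v : Fin n → K, v ∈ W' ↔ v ∈ W) →
        (∑ j : Fin m, c j * ((Module.finrank K (W.map (φ i (e j))) : ℕ) : ℤ)) =
          (N₀ : ℤ) * x ((ofRep (φ i)).sub W') := by
      intro W W' hW
      rw [hsum]
      refine Finset.sum_congr rfl fun j _ => ?_
      rw [finrank_map_eq (φ i) (e j) W W' hW]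
    constructor
    · have h0 : ∀ v : Fin n → K, (v ∈ (⊤ : Submodule A (ofRep (φ i)))) ↔
          v ∈ (⊤ : Submodule K (Fin n → K)) := fun v => ⟨fun _ => trivial, fun _ => trivial⟩
      rw [key ⊤ ⊤ h0]
      have h2 : x ((ofRep (φ i)).sub ⊤) = x (ofRep (φ i)) :=
        K0_congr hx (Submodule.topEquiv : (⊤ : Submodule A (ofRep (φ i))) ≃ₗ[A] ofRep (φ i))
      rw [h2, hs.1, mul_zero]
    · intro W hW hW1 hW2
      let W' : Submodule A (ofRep (φ i)) :=
        { carrier := {v : Fin n → K | v ∈ W}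
          add_mem' := fun h h' => W.add_mem h h'
          zero_mem' := W.zero_mem
          smul_mem' := fun a v hv => hW a v hv }
      have hWW : ∀ v : Fin n → K, v ∈ W' ↔ v ∈ W := fun v => Iff.rfl
      rw [key W W' hWW]
      have h3 := hs.2 W' (fun h => hW1 ?_) (fun h => hW2 ?_)
      · have h4 : (0 : ℤ) < N₀ := by exact_mod_cast hN₀
        nlinarith
      · rw [eq_bot_iff]
        intro v hv
        have h5 : v ∈ W' := hv
        rw [h] at h5
        exact h5
      · rw [eq_top_iff]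
        intro v _
        have h5 : (v : ofRep (φ i)) ∈ (⊤ : Submodule A (ofRep (φ i))) := trivial
        rw [← h] at h5
        exact h5

/-- the frozen statement from the main results -/
theorem sbc_CNV (K : Type) [Field K] [IsAlgClosed K] (A : Type) [Ring A] [Algebra K A]
    [FiniteDimensional K A] (hTHB : T_THB K A) (hFFF : T_FFF K A) (hBRK : T_BRK K A)
    (hIDM : T_IDM K A) :
      (∃ d : ℕ, ∃ f : ℕ → (A →ₐ[K] Module.End K (Fin d → K)),
        (∀ i j : ℕ, i ≠ j →
          ¬ ∃ g : (Fin d → K) ≃ₗ[K] (Fin d → K), ∀ (a : A) (v : Fin d → K),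
            g (f i a v) = f j a (g v)) ∧
        ∀ i : ℕ, ∀ φ : Module.End K (Fin d → K), (∀ a : A, φ * f i a = f i a * φ) →
          ∃ c : K, φ = algebraMap K (Module.End K (Fin d → K)) c) →
      ∃ (m : ℕ) (e : Fin m → A) (c : Fin m → ℤ), (∀ j, IsIdempotentElem (e j)) ∧
        ∃ d : ℕ, ∃ f : ℕ → (A →ₐ[K] Module.End K (Fin d → K)),
          (∀ i j : ℕ, i ≠ j →
            ¬ ∃ g : (Fin d → K) ≃ₗ[K] (Fin d → K), ∀ (a : A) (v : Fin d → K),
              g (f i a v) = f j a (g v)) ∧
          ∀ i : ℕ,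
            (∑ j : Fin m, c j *
              ((Module.finrank K ((⊤ : Submodule K (Fin d → K)).map (f i (e j))) : ℕ) : ℤ)) = 0 ∧
            ∀ W : Submodule K (Fin d → K), (∀ (a : A), ∀ v ∈ W, f i a v ∈ W) →
              W ≠ ⊥ → W ≠ ⊤ →
              (∑ j : Fin m, c j *
                ((Module.finrank K (W.map (f i (e j))) : ℕ) : ℤ)) < 0 := by
  rintro ⟨d, f, hf, hb⟩
  by_contra hno
  have hFS : FinStab K A := finStab_of K A hIDM hno
  have hinf : Infinite K := IsAlgClosed.instInfinite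
  obtain ⟨l, hl⟩ := hBRK (hFFF (hTHB hinf hFS)) d
  have hd : 0 < d := by
    by_contra h0
    have h0' : d = 0 := by omega
    subst h0'
    exact hf 0 1 (by norm_num) ⟨LinearEquiv.refl K _, fun a v => Subsingleton.elim _ _⟩
  have h1 : ∀ i : ℕ, ∃ N : {N // N ∈ l}, Nonempty (ofRep (f i) ≃ₗ[A] N.1) := by
    intro i
    obtain ⟨N, hN, hN'⟩ := hl (ofRep (f i)) (brick_ofRep hd (f i) (hb i)) (by
      change Module.finrank K (Fin d → K) = d
      simp)
    exact ⟨⟨N, hN⟩, hN'⟩
  choose g hg using h1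
  have hfin : Finite {N // N ∈ l} := by
    classical
    exact List.finite_toSet l
  obtain ⟨i, j, hij, hgij⟩ := Finite.exists_ne_map_eq_of_infinite g
  obtain ⟨a⟩ := hg i
  obtain ⟨b⟩ := hg j
  rw [hgij] at a
  exact hf i j hij (ofRep_equiv (f i) (f j) ⟨a.trans b.symm⟩)

end SBC
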