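import Pool.Agent.H5.SBC.Targets

/-!
Module CON: Theorem C for charts of size one, section 9.
-/

namespace SBC

open Dem

section

variable {K A : Type} [Field K] [Ring A] [Algebra K A] [Module.Finite K A]

omit [Module.Finite K A] in
/-- a simple subobject -/
private theorem con_sub (f : Cpx K A) {I : FMod K A} (hI : InW f I) (hn : Nontrivial I) :
    ∃ (C : FMod K A) (i : C →ₗ[A] I), SimpW f C ∧ Function.Injective i := by
  classical
  let P : ℕ → Prop := fun n => ∃ (C : FMod K A) (i : C →ₗ[A] I), InW f C ∧ Nontrivial C ∧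
    Function.Injective i ∧ Module.finrank K C = n
  have hex : ∃ n, P n := ⟨_, I, LinearMap.id, hI, hn, fun a b h => h, rfl⟩
  obtain ⟨C, i, h1, h2, h3, h4⟩ := Nat.find_spec hex
  refine ⟨C, i, ⟨h1, h2, fun X j hX hX' hj => ?_⟩, h3⟩
  have h5 : Module.finrank K C ≤ Module.finrank K X := by
    rw [h4]
    exact Nat.find_min' hex ⟨X, i ∘ₗ j, hX, hX', h3.comp hj, rfl⟩
  exact surj_of_finrank_eq j hj (le_antisymm (inj_finrank_le j hj) h5)

/-- a simple quotient object -/
private theorem con_quo (wid : T_WID K A) (f : Cpx K A) {M : FMod K A} (hM : InW f M)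
    (hn : Nontrivial M) :
    ∃ (C : FMod K A) (p : M →ₗ[A] C), SimpW f C ∧ Function.Surjective p := by
  classical
  let P : ℕ → Prop := fun n => ∃ (C : FMod K A) (p : M →ₗ[A] C), InW f C ∧ Nontrivial C ∧
    Function.Surjective p ∧ Module.finrank K C = n
  have hex : ∃ n, P n := ⟨_, M, LinearMap.id, hM, hn, fun a => ⟨a, rfl⟩, rfl⟩
  obtain ⟨C, p, h1, h2, h3, h4⟩ := Nat.find_spec hex
  refine ⟨C, p, ⟨h1, h2, fun X j hX hX' hj => ?_⟩, h3⟩
  by_contra hs
  obtain ⟨Q, q, hq⟩ := exists_coker j hj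
  have hQ : InW f Q := ((wid.2.1 f X C Q j q hq).1) hX h1
  have hfr := hq.finrank
  have hlt := inj_not_surj j hj hs
  have hX0 := (nontrivial_iff X).1 hX'
  have hQn : Nontrivial Q := (nontrivial_iff Q).2 (by omega)
  have h5 : Module.finrank K C ≤ Module.finrank K Q := by
    rw [h4]
    exact Nat.find_min' hex ⟨Q, q ∘ₗ p, hQ, hQn, hq.surj.comp h3, rfl⟩
  omega

end

theorem sbc_CON (K A : Type) [Field K] [Ring A] [Algebra K A] [Module.Finite K A]
    (rrc : T_RRC K A) (son : T_SON K A) (wid : T_WID K A) (hom : T_HOM K A) (ful : T_FUL K A)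
    (dim : T_DIM K A) : T_CON K A := by
  intro hLR f D hf M hM hMn
  obtain ⟨g0, hg, hgee⟩ := (rrc hLR f hf).1
  refine ⟨f.sum g0, hg, fun Z => ⟨fun hZ => ?_, ?_⟩⟩
  · refine ⟨?_, ful.1 _ hg M Z ((hgee M).2 hM.2) hZ⟩
    rw [hh_sum] at hZ
    omega
  · rintro ⟨hZ, hMZ⟩
    rw [hom.1]
    intro φ
    by_contra hφ
    obtain ⟨I, p, i, hp, hi, hpi⟩ := exists_image φ
    have hIn : Nontrivial I := by
      rw [← not_subsingleton_iff_nontrivial]
      intro hs
      apply hφ
      rw [← hpi]
      refine LinearMap.ext fun x => ?_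
      change i (p x) = 0
      rw [Subsingleton.elim (p x) 0, map_zero]
    have h1 : ee (f.sum g0) (f.sum g0).H = 0 := (hom.2.2.1 _).1 hg.1
    have h2 : ee f (f.sum g0).H = 0 := (hgee _).1 h1
    have hI : InW f I := by
      constructor
      · have := hom.2.2.2.2.2.2.1 f I Z i hi
        omega
      · have := hom.2.2.2.2.2.1 f _ I p hp
        omega
    obtain ⟨C, q, hC, hq⟩ := con_quo wid f hM hMn
    obtain ⟨C', j, hC', hj⟩ := con_sub f hI hIn
    by_cases hiso : IsEmpty (C ≃ₗ[A] C')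
    · obtain ⟨x, hx, hxC, hx0⟩ := son hLR f hf C hC
      have h3 := hx0 C' hC' hiso
      obtain ⟨c, hc⟩ := D.res x hx
      obtain ⟨c', hc'⟩ := D.res _ dim
      have e1 := hc C hC.1
      have e2 := hc C' hC'.1
      have e3 := hc' C' hC'.1
      have hpos := (nontrivial_iff C').1 hC'.2.1
      rw [Fin.sum_univ_one] at e1 e2 e3
      rw [h3] at e2
      have h4 : (0 : ℚ) < c' 0 * D.d C' 0 := by
        rw [← e3]
        exact_mod_cast hpos
      have h5 : D.d C' 0 ≠ 0 := fun h => by
        rw [h, mul_zero] at h4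
        exact lt_irrefl _ h4
      have h6 : c 0 = 0 := by
        have : c 0 * D.d C' 0 = 0 := by
          rw [← e2]
          simp
        exact (mul_eq_zero.1 this).resolve_right h5
      rw [h6, zero_mul] at e1
      have h7 : x C = 0 := by exact_mod_cast e1
      omega
    · rw [not_isEmpty_iff] at hiso
      obtain ⟨e⟩ := hiso
      have h8 := hMZ (i ∘ₗ j ∘ₗ e.toLinearMap ∘ₗ q)
      have hCn : Nontrivial C := hC.2.1
      obtain ⟨a, ha⟩ := exists_ne (0 : C)
      obtain ⟨b, rfl⟩ := hq a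
      apply ha
      apply e.injective
      apply hj
      apply hi
      rw [map_zero, map_zero, map_zero]
      exact LinearMap.congr_fun h8 b

end SBC
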