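import Pool.Agent.H5.SBC.FIT

/-!
Module CSM (4.2): a common direct summand from a non-nilpotent composition.
-/

namespace SBC

open Dem

section

variable {K A : Type} [Field K] [Ring A] [Algebra K A]

theorem csm_pow_comm {M N : FMod K A} (a : M →ₗ[A] N) (b : N →ₗ[A] M) (n : ℕ) (x : M) :
    a (((b ∘ₗ a : Module.End A M) ^ n) x) = ((a ∘ₗ b : Module.End A N) ^ n) (a x) := by
  induction n generalizing x with
  | zero => rfl
  | succ n ih =>
    rw [pow_succ, pow_succ]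
    change a (((b ∘ₗ a : Module.End A M) ^ n) (b (a x))) =
      ((a ∘ₗ b : Module.End A N) ^ n) (a (b (a x)))
    rw [ih]

/-- the isomorphism between the Fitting images of `b a` and `a b` -/
theorem csm_equiv {M N : FMod K A} (a : M →ₗ[A] N) (b : N →ₗ[A] M) (n : ℕ)
    (h1 : IsCompl (LinearMap.ker ((b ∘ₗ a : Module.End A M) ^ n))
      (LinearMap.range ((b ∘ₗ a : Module.End A M) ^ n)))
    (h2 : IsCompl (LinearMap.ker ((a ∘ₗ b : Module.End A N) ^ n))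
      (LinearMap.range ((a ∘ₗ b : Module.End A N) ^ n))) (hn : 1 ≤ n) :
    ∃ e : LinearMap.range ((b ∘ₗ a : Module.End A M) ^ n) ≃ₗ[A]
      LinearMap.range ((a ∘ₗ b : Module.End A N) ^ n), ∀ x, (e x : N) = a (x : M) := by
  obtain ⟨m, rfl⟩ : ∃ m, n = m + 1 := ⟨n - 1, by omega⟩
  have hm : ∀ x ∈ LinearMap.range ((b ∘ₗ a : Module.End A M) ^ (m + 1)),
      a x ∈ LinearMap.range ((a ∘ₗ b : Module.End A N) ^ (m + 1)) := by
    rintro _ ⟨x, rfl⟩
    exact ⟨a x, (csm_pow_comm a b (m + 1) x).symm⟩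
  refine ⟨LinearEquiv.ofBijective (a.restrict hm) ⟨?_, ?_⟩, fun x => rfl⟩
  · rw [injective_iff_map_eq_zero]
    rintro ⟨x, hx⟩ h0
    have h3 : a x = 0 := congrArg Subtype.val h0
    have h4 : x ∈ LinearMap.ker ((b ∘ₗ a : Module.End A M) ^ (m + 1)) := by
      rw [LinearMap.mem_ker, pow_succ]
      change ((b ∘ₗ a : Module.End A M) ^ m) (b (a x)) = 0
      rw [h3, map_zero, map_zero]
    have h5 : x ∈ (⊥ : Submodule A M) := h1.disjoint.le_bot ⟨h4, hx⟩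
    exact Subtype.ext h5
  · rintro ⟨y, ⟨z, rfl⟩⟩
    -- write `z` as `k + range`
    have hz : z ∈ LinearMap.ker ((a ∘ₗ b : Module.End A N) ^ (m + 1)) ⊔
        LinearMap.range ((a ∘ₗ b : Module.End A N) ^ (m + 1)) := by
      rw [h2.sup_eq_top]
      exact Submodule.mem_top
    obtain ⟨k, hk, _, ⟨w, rfl⟩, rfl⟩ := Submodule.mem_sup.1 hz
    rw [LinearMap.mem_ker] at hk
    refine ⟨⟨((b ∘ₗ a : Module.End A M) ^ (m + 1)) (b (((a ∘ₗ b : Module.End A N) ^ m) w)),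
      ⟨_, rfl⟩⟩, ?_⟩
    apply Subtype.ext
    change a (((b ∘ₗ a : Module.End A M) ^ (m + 1)) (b (((a ∘ₗ b : Module.End A N) ^ m) w))) =
      ((a ∘ₗ b : Module.End A N) ^ (m + 1)) (k + ((a ∘ₗ b : Module.End A N) ^ (m + 1)) w)
    rw [csm_pow_comm, map_add, hk, zero_add]
    congr 1
    rw [pow_succ']
    rfl

end

theorem sbc_CSM (K A : Type) [Field K] [Ring A] [Algebra K A] [Module.Finite K A] :
    T_CSM K A := by
  intro ga gb α β hnil
  obtain ⟨a1, a0, ha, hα⟩ := fit_lift ga gb α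
  obtain ⟨b1, b0, hb, hβ⟩ := fit_lift gb ga β
  have n1 := fit_noeth ga.P1
  have n2 := fit_noeth ga.P0
  have n3 := fit_noeth gb.P1
  have n4 := fit_noeth gb.P0
  have r1 := fit_artin ga.P1
  have r2 := fit_artin ga.P0
  have r3 := fit_artin gb.P1
  have r4 := fit_artin gb.P0
  have e1 := LinearMap.eventually_isCompl_ker_pow_range_pow (R := A) (M := ga.P1)
    (b1 ∘ₗ a1 : Module.End A ga.P1)
  have e2 := LinearMap.eventually_isCompl_ker_pow_range_pow (R := A) (M := ga.P0)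
    (b0 ∘ₗ a0 : Module.End A ga.P0)
  have e3 := LinearMap.eventually_isCompl_ker_pow_range_pow (R := A) (M := gb.P1)
    (a1 ∘ₗ b1 : Module.End A gb.P1)
  have e4 := LinearMap.eventually_isCompl_ker_pow_range_pow (R := A) (M := gb.P0)
    (a0 ∘ₗ b0 : Module.End A gb.P0)
  obtain ⟨n, ⟨⟨⟨⟨c1, c2⟩, c3⟩, c4⟩, hn⟩⟩ :=
    ((((e1.and e2).and e3).and e4).and (Filter.eventually_ge_atTop 1)).exists
  have ua : ∀ x, ga.d ((b1 ∘ₗ a1 : Module.End A ga.P1) x) =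
      (b0 ∘ₗ a0 : Module.End A ga.P0) (ga.d x) := by
    intro x
    change ga.d (b1 (a1 x)) = b0 (a0 (ga.d x))
    rw [hb, ha]
  have ub : ∀ x, gb.d ((a1 ∘ₗ b1 : Module.End A gb.P1) x) =
      (a0 ∘ₗ b0 : Module.End A gb.P0) (gb.d x) := by
    intro x
    change gb.d (a1 (b1 x)) = a0 (b0 (gb.d x))
    rw [ha, hb]
  have da1 : ∀ x ∈ LinearMap.range ((b1 ∘ₗ a1 : Module.End A ga.P1) ^ n),
      ga.d x ∈ LinearMap.range ((b0 ∘ₗ a0 : Module.End A ga.P0) ^ n) := by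
    rintro _ ⟨x, rfl⟩
    exact ⟨ga.d x, (fit_pow ga _ _ ua n x).symm⟩
  have da2 : ∀ x ∈ LinearMap.ker ((b1 ∘ₗ a1 : Module.End A ga.P1) ^ n),
      ga.d x ∈ LinearMap.ker ((b0 ∘ₗ a0 : Module.End A ga.P0) ^ n) := by
    intro x hx
    rw [LinearMap.mem_ker] at hx ⊢
    rw [← fit_pow ga _ _ ua n x, hx, map_zero]
  have db1 : ∀ x ∈ LinearMap.range ((a1 ∘ₗ b1 : Module.End A gb.P1) ^ n),
      gb.d x ∈ LinearMap.range ((a0 ∘ₗ b0 : Module.End A gb.P0) ^ n) := by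
    rintro _ ⟨x, rfl⟩
    exact ⟨gb.d x, (fit_pow gb _ _ ub n x).symm⟩
  have db2 : ∀ x ∈ LinearMap.ker ((a1 ∘ₗ b1 : Module.End A gb.P1) ^ n),
      gb.d x ∈ LinearMap.ker ((a0 ∘ₗ b0 : Module.End A gb.P0) ^ n) := by
    intro x hx
    rw [LinearMap.mem_ker] at hx ⊢
    rw [← fit_pow gb _ _ ub n x, hx, map_zero]
  have hsa := fitSub_split ga _ _ _ _ c1.symm c2.symm da1 da2
  have hsb := fitSub_split gb _ _ _ _ c3.symm c4.symm db1 db2
  obtain ⟨f1, hf1⟩ := csm_equiv a1 b1 n c1 c3 hn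
  obtain ⟨f0, hf0⟩ := csm_equiv a0 b0 n c2 c4 hn
  obtain ⟨i1, i2, i3⟩ := fit_iso (fitSub ga _ _ _ _ c1.symm c2.symm da1)
    (fitSub gb _ _ _ _ c3.symm c4.symm db1) f1 f0 (by
      intro x
      apply Subtype.ext
      change gb.d (f1 x) = (f0 ⟨ga.d x, _⟩ : gb.P0)
      rw [hf0, hf1]
      exact ha _)
  refine ⟨_, _, fitSub gb _ _ _ _ c3 c4 db2, hsa, ⟨fun L => ?_, fun L => ?_, ?_⟩, ?_⟩
  · rw [i1]
    exact hsb.hh_eq L
  · rw [i2]
    exact hsb.ee_eq L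
  · rw [i3]
    exact hsb.size_eq
  · have hz : LinearMap.range ((b0 ∘ₗ a0 : Module.End A ga.P0) ^ n) ≠ ⊥ := by
      intro hz
      apply hnil
      refine ⟨n, ?_⟩
      ext x
      have h1 := fit_pow_mk ga (β ∘ₗ α) (b0 ∘ₗ a0) (by
        intro x
        change (LinearMap.range ga.d).mkQ (b0 (a0 x)) = β (α ((LinearMap.range ga.d).mkQ x))
        rw [hβ, hα]) n x
      have h2 : ((b0 ∘ₗ a0 : Module.End A ga.P0) ^ n) x = 0 := by
        have : ((b0 ∘ₗ a0 : Module.End A ga.P0) ^ n) x ∈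
          LinearMap.range ((b0 ∘ₗ a0 : Module.End A ga.P0) ^ n) := ⟨x, rfl⟩
        rw [hz] at this
        exact this
      rw [h2, map_zero] at h1
      exact h1.symm
    have : Nontrivial (LinearMap.range ((b0 ∘ₗ a0 : Module.End A ga.P0) ^ n)) :=
      Submodule.nontrivial_iff_ne_bot.2 hz
    have h3 : 0 < Module.finrank K (LinearMap.range ((b0 ∘ₗ a0 : Module.End A ga.P0) ^ n)) :=
      Module.finrank_pos
    exact Nat.lt_of_lt_of_le h3 (Nat.le_add_right _ _)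

end SBC
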