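import Pool.Agent.H5.SBC.Targets

namespace SBC

open Dem

variable {K A : Type} [Field K] [Ring A] [Algebra K A]

private theorem dmm_cont {f : Cpx K A} {r : ℕ} (D : Chart f r) (X : FMod K A) :
    Continuous fun ζ : Fin r → ℝ => wt D ζ X := by
  unfold wt
  fun_prop

private theorem dmm_add {f : Cpx K A} {r : ℕ} (D : Chart f r) (X : FMod K A)
    (a b : Fin r → ℝ) : wt D (a + b) X = wt D a X + wt D b X := by
  unfold wt
  rw [← Finset.sum_add_distrib]
  exact Finset.sum_congr rfl fun j _ => by simp [add_mul]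

private theorem dmm_smul {f : Cpx K A} {r : ℕ} (D : Chart f r) (X : FMod K A)
    (c : ℝ) (a : Fin r → ℝ) : wt D (c • a) X = c * wt D a X := by
  unfold wt
  rw [Finset.mul_sum]
  exact Finset.sum_congr rfl fun j _ => by simp [mul_assoc]

theorem sbc_DMM (K A : Type) [Field K] [Ring A] [Algebra K A] [Module.Finite K A]
    (hRRB : T_RRB K A) (hNSR : T_NSR K A) : T_DMM K A := by
  intro f r D M hM
  refine ⟨?_, ?_, ?_, ?_, ?_, ?_, ?_⟩
  · have : DM D M = ⋂ (X : FMod K A) (p : M →ₗ[A] X) (_ : InW f X) (_ : Function.Surjective p),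
        {ζ : Fin r → ℝ | 0 ≤ wt D ζ X} := by
      ext ζ
      simp only [DM, TB, Set.mem_setOf_eq, Set.mem_iInter]
      exact ⟨fun h => h.2, fun h => ⟨hM.2, h⟩⟩
    rw [this]
    exact isClosed_iInter fun X => isClosed_iInter fun p => isClosed_iInter fun _ =>
      isClosed_iInter fun _ => isClosed_le continuous_const (dmm_cont D X)
  · intro a ha b hb
    refine ⟨hM.2, fun X p hX hp => ?_⟩
    rw [dmm_add]
    exact add_nonneg (ha.2 X p hX hp) (hb.2 X p hX hp)
  · intro c hc a ha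
    refine ⟨hM.2, fun X p hX hp => ?_⟩
    rw [dmm_smul]
    exact mul_nonneg hc (ha.2 X p hX hp)
  · rintro N rfl
    exact hM
  · rintro ζ hζ N rfl
    exact hζ
  · intro ζ hζ
    exact (hζ M rfl).1
  · intro g h h' _ hfg hs ζ ξ hζ hξ hmem
    have h1 := (hRRB f g (wt D ζ) 1 hfg one_pos fun X hX => by rw [one_mul, hζ X hX]).2.1 M
    have h2 := h1.1 hmem
    have h3 := hNSR.1 f g h h' hfg hs
    have h4 := (hRRB f h (wt D ξ) 1 h3 one_pos fun X hX => by rw [one_mul, hξ X hX]).2.1 M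
    refine h4.2 ⟨h2.1, ?_⟩
    have h5 := hs.ee_eq M
    omega

end SBC
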