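import Pool.Agent.H5.SBC.Targets

namespace SBC

open Dem

variable {K A : Type} [Field K] [Ring A] [Algebra K A]

private theorem dms_cont {f : Cpx K A} {r : ℕ} (D : Chart f r) (X : FMod K A) :
    Continuous fun ζ : Fin r → ℝ => wt D ζ X := by
  unfold wt
  fun_prop

private theorem dms_add {f : Cpx K A} {r : ℕ} (D : Chart f r) (X : FMod K A)
    (a b : Fin r → ℝ) : wt D (a + b) X = wt D a X + wt D b X := by
  unfold wt
  rw [← Finset.sum_add_distrib]
  exact Finset.sum_congr rfl fun j _ => by simp [add_mul]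

private theorem dms_smul {f : Cpx K A} {r : ℕ} (D : Chart f r) (X : FMod K A)
    (c : ℝ) (a : Fin r → ℝ) : wt D (c • a) X = c * wt D a X := by
  unfold wt
  rw [Finset.mul_sum]
  exact Finset.sum_congr rfl fun j _ => by simp [mul_assoc]

theorem sbc_DMS (K A : Type) [Field K] [Ring A] [Algebra K A] [Module.Finite K A]
    (hRRB : T_RRB K A) (hNSR : T_NSR K A) : T_DMS K A := by
  intro f r D k S hS
  refine ⟨?_, ?_, ?_, ?_, ?_, ?_, ?_⟩
  · have : DS D S = ⋂ i : Fin k,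
        ((⋂ (X : FMod K A) (p : S i →ₗ[A] X) (_ : InW f X) (_ : Function.Surjective p),
          {ζ : Fin r → ℝ | 0 ≤ wt D ζ X}) ∩
        (⋂ (X : FMod K A) (p : X →ₗ[A] S i) (_ : InW f X) (_ : Function.Injective p),
          {ζ : Fin r → ℝ | wt D ζ X ≤ 0})) := by
      ext ζ
      simp only [DS, SS, TB, FF, Set.mem_setOf_eq, Set.mem_iInter, Set.mem_inter_iff]
      exact ⟨fun h i => ⟨(h i).1.2, (h i).2.2⟩,
        fun h i => ⟨⟨(hS i).2, (h i).1⟩, ⟨(hS i).1, (h i).2⟩⟩⟩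
    rw [this]
    refine isClosed_iInter fun i => IsClosed.inter ?_ ?_
    · exact isClosed_iInter fun X => isClosed_iInter fun p => isClosed_iInter fun _ =>
        isClosed_iInter fun _ => isClosed_le continuous_const (dms_cont D X)
    · exact isClosed_iInter fun X => isClosed_iInter fun p => isClosed_iInter fun _ =>
        isClosed_iInter fun _ => isClosed_le (dms_cont D X) continuous_const
  · intro a ha b hb i
    refine ⟨⟨(hS i).2, fun X p hX hp => ?_⟩, ⟨(hS i).1, fun X p hX hp => ?_⟩⟩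
    · rw [dms_add]
      exact add_nonneg ((ha i).1.2 X p hX hp) ((hb i).1.2 X p hX hp)
    · rw [dms_add]
      exact add_nonpos ((ha i).2.2 X p hX hp) ((hb i).2.2 X p hX hp)
  · intro c hc a ha i
    refine ⟨⟨(hS i).2, fun X p hX hp => ?_⟩, ⟨(hS i).1, fun X p hX hp => ?_⟩⟩
    · rw [dms_smul]
      exact mul_nonneg hc ((ha i).1.2 X p hX hp)
    · rw [dms_smul]
      exact mul_nonpos_of_nonneg_of_nonpos hc ((ha i).2.2 X p hX hp)
  · rintro N ⟨i, rfl⟩
    exact hS i
  · rintro ζ hζ N ⟨i, rfl⟩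
    exact (hζ i).1
  · intro ζ hζ i
    exact hζ (S i) ⟨i, rfl⟩
  · intro g h h' _ hfg hs ζ ξ hζ hξ hmem i
    have h1 := hRRB f g (wt D ζ) 1 hfg one_pos fun X hX => by rw [one_mul, hζ X hX]
    have h3 := hNSR.1 f g h h' hfg hs
    have h4 := hRRB f h (wt D ξ) 1 h3 one_pos fun X hX => by rw [one_mul, hξ X hX]
    have h2 := (h1.2.1 (S i)).1 (hmem i).1
    have h2' := (h1.1 (S i)).1 (hmem i).2
    have h5 := hs.ee_eq (S i)
    have h6 := hs.hh_eq (S i)
    refine ⟨(h4.2.1 (S i)).2 ⟨h2.1, ?_⟩, (h4.1 (S i)).2 ⟨h2'.1, ?_⟩⟩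
    · omega
    · omega

end SBC
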