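import Pool.Agent.H3.Dem.Planes

/-!
Definitions for the stable brick conjecture (MP_e14618_al, frozen statement S03323).
Everything is relative to a base complex `f` (two-term complex of projectives).
-/

namespace SBC

open Dem

section

variable {K A : Type} [Field K] [Ring A] [Algebra K A]

/-- a short exact sequence `0 → X → Y → Z → 0` -/
structure SES {X Y Z : FMod K A} (i : X →ₗ[A] Y) (p : Y →ₗ[A] Z) : Prop where
  inj : Function.Injective i
  surj : Function.Surjective p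
  exact : LinearMap.range i = LinearMap.ker p

/-- `Hom(Y, Z) = 0` -/
def Hom0 (Y Z : FMod K A) : Prop := ∀ φ : Y →ₗ[A] Z, φ = 0

/-- `X` is in the wide subcategory `W_f` -/
def InW (f : Cpx K A) (X : FMod K A) : Prop := hh f X = 0 ∧ ee f X = 0

/-- `w` is additive on short exact sequences in `W_f` -/
def AddOn (f : Cpx K A) (w : FMod K A → ℝ) : Prop :=
  ∀ (X Y Z : FMod K A) (i : X →ₗ[A] Y) (p : Y →ₗ[A] Z),
    InW f X → InW f Y → InW f Z → SES i p → w Y = w X + w Z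

/-- `ee f Y = 0` and all quotients of `Y` in `W_f` have weight `≥ 0` -/
def TB (f : Cpx K A) (w : FMod K A → ℝ) (Y : FMod K A) : Prop :=
  ee f Y = 0 ∧ ∀ (X : FMod K A) (p : Y →ₗ[A] X), InW f X → Function.Surjective p → 0 ≤ w X

/-- `ee f Y = 0` and all nonzero quotients of `Y` in `W_f` have weight `> 0` -/
def TT (f : Cpx K A) (w : FMod K A → ℝ) (Y : FMod K A) : Prop :=
  ee f Y = 0 ∧ ∀ (X : FMod K A) (p : Y →ₗ[A] X), InW f X → Nontrivial X →
    Function.Surjective p → 0 < w X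

/-- `hh f Z = 0` and all subobjects of `Z` in `W_f` have weight `≤ 0` -/
def FF (f : Cpx K A) (w : FMod K A → ℝ) (Z : FMod K A) : Prop :=
  hh f Z = 0 ∧ ∀ (X : FMod K A) (i : X →ₗ[A] Z), InW f X → Function.Injective i → w X ≤ 0

/-- `hh f Z = 0` and all nonzero subobjects of `Z` in `W_f` have weight `< 0` -/
def FS (f : Cpx K A) (w : FMod K A → ℝ) (Z : FMod K A) : Prop :=
  hh f Z = 0 ∧ ∀ (X : FMod K A) (i : X →ₗ[A] Z), InW f X → Nontrivial X →
    Function.Injective i → w X < 0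

/-- `w`-semistable objects -/
def SS (f : Cpx K A) (w : FMod K A → ℝ) (X : FMod K A) : Prop := TB f w X ∧ FF f w X

/-- `w`-stable objects of `W_f` -/
def ST (f : Cpx K A) (w : FMod K A → ℝ) (C : FMod K A) : Prop :=
  InW f C ∧ Nontrivial C ∧ w C = 0 ∧ ∀ (X : FMod K A) (p : C →ₗ[A] X), InW f X → Nontrivial X →
    Function.Surjective p → ¬ Function.Injective p → 0 < w X

/-- simple objects of the abelian category `W_f` -/
def SimpW (f : Cpx K A) (C : FMod K A) : Prop :=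
  InW f C ∧ Nontrivial C ∧ ∀ (X : FMod K A) (i : X →ₗ[A] C), InW f X → Nontrivial X →
    Function.Injective i → Function.Surjective i

/-- torsion classes -/
structure TorsCls (T : FMod K A → Prop) : Prop where
  zero : ∀ X : FMod K A, Subsingleton X → T X
  quo : ∀ (X Y : FMod K A) (p : X →ₗ[A] Y), Function.Surjective p → T X → T Y
  ext : ∀ (X Y Z : FMod K A) (i : X →ₗ[A] Y) (p : Y →ₗ[A] Z), SES i p → T X → T Z → T Y

/-- torsion-free classes -/
structure TFCls (F : FMod K A → Prop) : Prop where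
  zero : ∀ X : FMod K A, Subsingleton X → F X
  sub : ∀ (X Y : FMod K A) (i : X →ₗ[A] Y), Function.Injective i → F Y → F X
  ext : ∀ (X Y Z : FMod K A) (i : X →ₗ[A] Y) (p : Y →ₗ[A] Z), SES i p → F X → F Z → F Y

/-- rigid with `W_g = 0` -/
def Full (g : Cpx K A) : Prop :=
  g.Rigid ∧ ∀ X : FMod K A, hh g X = 0 → ee g X = 0 → Subsingleton X

/-- the size of a complex -/
noncomputable def size (f : Cpx K A) : ℕ := Module.finrank K f.P0 + Module.finrank K f.P1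

/-- numerical splitting `g = h ⊕ h'` -/
structure NSplit (g h h' : Cpx K A) : Prop where
  hh_eq : ∀ L, hh g L = hh h L + hh h' L
  ee_eq : ∀ L, ee g L = ee h L + ee h' L
  size_eq : size g = size h + size h'

/-- `Hom(M, Z) = 0` for all `M` in the class -/
def Perp (𝒳 : FMod K A → Prop) (Z : FMod K A) : Prop := ∀ M, 𝒳 M → Hom0 M Z

/-- the class with the members `S i` -/
def MemS {k : ℕ} (S : Fin k → FMod K A) (M : FMod K A) : Prop := ∃ i, S i = M

/-- the objects with a filtration with subquotients isomorphic to some `S i` -/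
def Filt {k : ℕ} (S : Fin k → FMod K A) (X : FMod K A) : Prop :=
  ∀ P : FMod K A → Prop, (∀ Y : FMod K A, Subsingleton Y → P Y) →
    (∀ (Y : FMod K A) (i : Fin k), Nonempty (Y ≃ₗ[A] S i) → P Y) →
    (∀ (X Y Z : FMod K A) (i : X →ₗ[A] Y) (p : Y →ₗ[A] Z), SES i p → P X → P Z → P Y) → P X

/-- pairwise non-isomorphic `w`-stables -/
def StabFam (f : Cpx K A) (w : FMod K A → ℝ) {k : ℕ} (S : Fin k → FMod K A) : Prop :=
  (∀ i, ST f w (S i)) ∧ ∀ i j, i ≠ j → IsEmpty (S i ≃ₗ[A] S j)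

/-- a complete list of the `w`-stables, without repetitions -/
def StabList (f : Cpx K A) (w : FMod K A → ℝ) {k : ℕ} (S : Fin k → FMod K A) : Prop :=
  StabFam f w S ∧ ∀ C, ST f w C → ∃ i, Nonempty (C ≃ₗ[A] S i)

/-- A chart of `W_f`: a rational dimension vector. -/
structure Chart (f : Cpx K A) (r : ℕ) where
  /-- the dimension vector -/
  d : FMod K A → Fin r → ℚ
  add : ∀ (X Y Z : FMod K A) (i : X →ₗ[A] Y) (p : Y →ₗ[A] Z),
    InW f X → InW f Y → InW f Z → SES i p → d Y = d X + d Z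
  res : ∀ x ∈ K0 K A, ∃ c : Fin r → ℚ, ∀ X, InW f X → (x X : ℚ) = ∑ j, c j * d X j
  ext : ∀ c : Fin r → ℚ, ∃ m : ℕ, 0 < m ∧ ∃ x ∈ K0 K A, ∀ X, InW f X →
    (x X : ℚ) = m * ∑ j, c j * d X j
  nondeg : ∀ ζ : Fin r → ℝ, (∀ X, InW f X → ∑ j, ζ j * (d X j : ℝ) = 0) → ζ = 0

/-- the weight with coordinates `ζ` -/
def wt {f : Cpx K A} {r : ℕ} (D : Chart f r) (ζ : Fin r → ℝ) (X : FMod K A) : ℝ :=
  ∑ j, ζ j * (D.d X j : ℝ)

/-- `ζ' ≤ ζ` relative to `𝒳`: `F_𝒳(ζ) ⊆ F(ζ')` -/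
def LEX {f : Cpx K A} {r : ℕ} (D : Chart f r) (𝒳 : FMod K A → Prop) (ζ' ζ : Fin r → ℝ) : Prop :=
  ∀ Z, FF f (wt D ζ) Z → Perp 𝒳 Z → FF f (wt D ζ') Z

/-- the admissible cones of weights -/
structure Dom {f : Cpx K A} {r : ℕ} (D : Chart f r) (𝒳 : FMod K A → Prop)
    (DD : Set (Fin r → ℝ)) : Prop where
  closed : IsClosed DD
  add : ∀ a ∈ DD, ∀ b ∈ DD, a + b ∈ DD
  smul : ∀ (c : ℝ), 0 ≤ c → ∀ a ∈ DD, c • a ∈ DD
  inW : ∀ M, 𝒳 M → InW f M
  tb : ∀ ζ ∈ DD, ∀ M, 𝒳 M → TB f (wt D ζ) M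
  ss : ∀ ζ, (∀ M, 𝒳 M → SS f (wt D ζ) M) → ζ ∈ DD
  up : ∀ g h h' : Cpx K A, f.Rigid → (f.sum g).Rigid → NSplit g h h' → ∀ ζ ξ : Fin r → ℝ,
    (∀ X, InW f X → (cls g X : ℝ) = wt D ζ X) → (∀ X, InW f X → (cls h X : ℝ) = wt D ξ X) →
    ζ ∈ DD → ξ ∈ DD

/-- `ζm` is a minimal element of `DD \ 0` -/
def MinPt {f : Cpx K A} {r : ℕ} (D : Chart f r) (𝒳 : FMod K A → Prop) (DD : Set (Fin r → ℝ))
    (ζm : Fin r → ℝ) : Prop :=
  ζm ∈ DD ∧ ζm ≠ 0 ∧ ∀ ζ ∈ DD, ζ ≠ 0 → LEX D 𝒳 ζ ζm → LEX D 𝒳 ζm ζ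

/-- the class of `ζm` -/
def Pcl {f : Cpx K A} {r : ℕ} (D : Chart f r) (𝒳 : FMod K A → Prop) (DD : Set (Fin r → ℝ))
    (ζm : Fin r → ℝ) : Set (Fin r → ℝ) :=
  {ζ | ζ ∈ DD ∧ ζ ≠ 0 ∧ LEX D 𝒳 ζ ζm}

/-- the cone of all weights for which `M` is in `TB` -/
def DM {f : Cpx K A} {r : ℕ} (D : Chart f r) (M : FMod K A) : Set (Fin r → ℝ) :=
  {ζ | TB f (wt D ζ) M}

/-- the cone of all weights for which all `S i` are semistable -/
def DS {f : Cpx K A} {r : ℕ} (D : Chart f r) {k : ℕ} (S : Fin k → FMod K A) :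
    Set (Fin r → ℝ) :=
  {ζ | ∀ i, SS f (wt D ζ) (S i)}

end

/-- rational vectors -/
def IsRat {r : ℕ} (ζ : Fin r → ℝ) : Prop := ∃ q : Fin r → ℚ, ∀ j, ζ j = (q j : ℝ)

/-- vectors on rational rays -/
def RayRat {r : ℕ} (ζ : Fin r → ℝ) : Prop := ∃ c : ℝ, 0 < c ∧ IsRat (c • ζ)

/-- every class in `K₀(proj A)` is the class of a rigid complex -/
def LR (K A : Type) [Field K] [Ring A] [Algebra K A] : Prop :=
  ∀ x ∈ K0 K A, ∃ f : Cpx K A, f.Rigid ∧ ∀ L, cls f L = x L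

/-- stable modules for an additive function `x` -/
def Stab {K A : Type} [Field K] [Ring A] [Algebra K A] (x : FMod K A → ℤ) (N : FMod K A) : Prop :=
  x N = 0 ∧ ∀ N' : Submodule A N, N' ≠ ⊥ → N' ≠ ⊤ → x (N.sub N') < 0

/-- for every `x` in `K₀(proj A)` and every dimension there are finitely many stable modules -/
def FinStab (K A : Type) [Field K] [Ring A] [Algebra K A] : Prop :=
  ∀ x ∈ K0 K A, ∀ n : ℕ, ∃ l : List (FMod K A), ∀ N : FMod K A, Module.finrank K N = n →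
    Stab x N → ∃ N' ∈ l, Nonempty (N ≃ₗ[A] N')

/-- bricks -/
def Brick {K A : Type} [Field K] [Ring A] [Algebra K A] (B : FMod K A) : Prop :=
  Nontrivial B ∧ ∀ φ : B →ₗ[A] B, φ = 0 ∨ Function.Bijective φ

end SBC
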