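import Pool.Agent.H5.SBC.Targets

namespace SBC

open Dem

theorem sbc_FFF (K A : Type) [Field K] [Ring A] [Algebra K A] [Module.Finite K A]
    (hCCC : T_CCC K A) : T_FFF K A := by
  intro hLR M
  have h1 : ∀ L : FMod K A, hh (Cpx.zero : Cpx K A) L = 0 := fun L => hh_zero_left L
  have h2 : ∀ L : FMod K A, ee (Cpx.zero : Cpx K A) L = 0 := fun L =>
    (van_iff_ee _ _).1 (van_zero_left L)
  obtain ⟨g, hg, hg'⟩ := hCCC hLR Cpx.zero (van_zero_left _) M ⟨h1 M, h2 M⟩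
  exact ⟨g, hg, fun Z => ⟨fun h => ((hg' Z).1 h).2, fun h => (hg' Z).2 ⟨h1 Z, h⟩⟩⟩

end SBC
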