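import Pool.Agent.H5.SBC.Targets

namespace SBC

open Dem

theorem sbc_FIL (K A : Type) [Field K] [Ring A] [Algebra K A] [Module.Finite K A]
    (hWID : T_WID K A) (hCLO : T_CLO K A) (hSST : T_SST K A) : T_FIL K A := by
  intro f w hw k S
  refine ⟨fun h X hX => ?_, fun h h0 X hX => ?_, fun X hX Z hZ => ?_⟩
  · refine hX (SS f w) (fun Y hY => (hSST f w hw).2.1 Y hY) ?_ ?_
    · rintro Y i ⟨e⟩
      exact (hCLO.2.2.2.2 f w hw (S i) Y ⟨e.symm⟩).2.1 (h i)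
    · intro X Y Z i p hs hX hZ
      exact ((hSST f w hw).2.2.1 X Y Z i p hs).2 hX hZ
  · refine hX (fun Y => InW f Y ∧ w Y = 0) ?_ ?_ ?_
    · intro Y hY
      have h1 := (hSST f w hw).2.1 Y hY
      exact (hSST f w hw).1 Y h1
    · rintro Y i ⟨e⟩
      have h1 : InW f Y := hWID.2.2.1 f (S i) Y ⟨e.symm⟩ (h i)
      refine ⟨h1, ?_⟩
      rcases (hCLO.2.2.2.2 f w hw Y (S i) ⟨e⟩).1 with h2 | h2
      · rw [h2, h0]
      · exact absurd h1 h2
    · intro X Y Z i p hs hX hZ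
      have h1 : InW f Y := (hWID.2.1 f X Y Z i p hs).2.2.1 hX.1 hZ.1
      refine ⟨h1, ?_⟩
      rw [hw X Y Z i p hX.1 h1 hZ.1 hs, hX.2, hZ.2, add_zero]
  · refine hX (fun Y => Hom0 Y Z) (fun Y hY => hom0_left hY) ?_ ?_
    · rintro Y i ⟨e⟩
      exact Hom0.of_surj e.symm.toLinearMap e.symm.surjective (hZ (S i) ⟨i, rfl⟩)
    · intro X Y W i p hs hX hW φ
      have h1 : φ ∘ₗ i = 0 := hX _
      obtain ⟨ψ, hψ⟩ := hs.desc φ h1
      rw [← hψ, hW ψ, LinearMap.zero_comp]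

end SBC
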