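import Pool.Agent.H5.SBC.Targets

/-!
Module FIT (4.1): the Fitting decomposition of two-term complexes.
-/

namespace SBC

open Dem

section

variable {K A : Type} [Field K] [Ring A] [Algebra K A]

theorem fit_hh_le (g g' : Cpx K A) (u1 : g.P1 →ₗ[A] g'.P1) (u0 : g.P0 →ₗ[A] g'.P0)
    (hc : g'.d ∘ₗ u1 = u0 ∘ₗ g.d) (hs : Function.Surjective u0) (L : FMod K A) :
    hh g' L ≤ hh g L := by
  refine LinearMap.finrank_le_finrank_of_injective (f := ({
      toFun := fun φ => ⟨φ.1 ∘ₗ u0, by
        have h := φ.2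
        rw [LinearMap.mem_ker] at h ⊢
        rw [pull_apply] at h ⊢
        rw [LinearMap.comp_assoc, ← hc, ← LinearMap.comp_assoc, h, LinearMap.zero_comp]⟩
      map_add' := fun _ _ => by ext; rfl
      map_smul' := fun _ _ => by ext; rfl } :
        LinearMap.ker (pull g' L) →ₗ[K] LinearMap.ker (pull g L))) ?_
  intro φ ψ h
  apply Subtype.ext
  ext x
  obtain ⟨y, rfl⟩ := hs x
  exact LinearMap.congr_fun (congrArg Subtype.val h) y

theorem fit_iso (g g' : Cpx K A) (e1 : g.P1 ≃ₗ[A] g'.P1) (e0 : g.P0 ≃ₗ[A] g'.P0)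
    (hc : ∀ x, g'.d (e1 x) = e0 (g.d x)) :
    (∀ L, hh g L = hh g' L) ∧ (∀ L, ee g L = ee g' L) ∧ size g = size g' := by
  have h1 : ∀ L, hh g L = hh g' L := by
    intro L
    apply le_antisymm
    · apply fit_hh_le g' g e1.symm.toLinearMap e0.symm.toLinearMap ?_ e0.symm.surjective
      ext x
      change g.d (e1.symm x) = e0.symm (g'.d x)
      rw [LinearEquiv.eq_symm_apply, ← hc, LinearEquiv.apply_symm_apply]
    · exact fit_hh_le g g' e1.toLinearMap e0.toLinearMap (LinearMap.ext hc) e0.surjective L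
  refine ⟨h1, ?_, ?_⟩
  · intro L
    have a := hh_sub_ee g L
    have b := hh_sub_ee g' L
    have c := h1 L
    have d : cls g L = cls g' L := by
      unfold cls hd
      rw [(LinearEquiv.congrLeft L K e0).finrank_eq, (LinearEquiv.congrLeft L K e1).finrank_eq]
    omega
  · unfold size
    rw [(e0.restrictScalars K).finrank_eq, (e1.restrictScalars K).finrank_eq]

/-- a direct summand of a two-term complex -/
@[reducible] def fitSub (g : Cpx K A) (N1 N1' : Submodule A g.P1) (N0 N0' : Submodule A g.P0)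
    (h1 : IsCompl N1 N1') (h0 : IsCompl N0 N0') (hd : ∀ x ∈ N1, g.d x ∈ N0) : Cpx K A where
  P1 := g.P1.sub N1
  P0 := g.P0.sub N0
  proj1 := by
    have := g.proj1
    exact Module.Projective.of_split N1.subtype (N1.projectionOnto N1' h1)
      (LinearMap.ext fun x => N1.projectionOnto_apply_left h1 x)
  proj0 := by
    have := g.proj0
    exact Module.Projective.of_split N0.subtype (N0.projectionOnto N0' h0)
      (LinearMap.ext fun x => N0.projectionOnto_apply_left h0 x)
  d := g.d.restrict hd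

theorem fitSub_split (g : Cpx K A) (N1 N1' : Submodule A g.P1) (N0 N0' : Submodule A g.P0)
    (h1 : IsCompl N1 N1') (h0 : IsCompl N0 N0') (hd : ∀ x ∈ N1, g.d x ∈ N0)
    (hd' : ∀ x ∈ N1', g.d x ∈ N0') :
    NSplit g (fitSub g N1 N1' N0 N0' h1 h0 hd)
      (fitSub g N1' N1 N0' N0 h1.symm h0.symm hd') := by
  obtain ⟨a, b, c⟩ := fit_iso
    ((fitSub g N1 N1' N0 N0' h1 h0 hd).sum (fitSub g N1' N1 N0' N0 h1.symm h0.symm hd')) g
    (Submodule.prodEquivOfIsCompl N1 N1' h1) (Submodule.prodEquivOfIsCompl N0 N0' h0) (by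
      rintro ⟨x, y⟩
      rw [Submodule.coe_prodEquivOfIsCompl', Submodule.coe_prodEquivOfIsCompl', map_add]
      rfl)
  refine ⟨fun L => ?_, fun L => ?_, ?_⟩
  · rw [← a, hh_sum]
  · rw [← b, ee_sum]
  · rw [← c]
    unfold size
    change Module.finrank K (N0 × N0') + Module.finrank K (N1 × N1') = 
      (Module.finrank K N0 + Module.finrank K N1) + (Module.finrank K N0' + Module.finrank K N1')
    rw [Module.finrank_prod, Module.finrank_prod]
    omega

/-- lifting a map of cokernels to a map of complexes -/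
theorem fit_lift (g g' : Cpx K A) (φ : g.H →ₗ[A] g'.H) :
    ∃ (u1 : g.P1 →ₗ[A] g'.P1) (u0 : g.P0 →ₗ[A] g'.P0), (∀ x, g'.d (u1 x) = u0 (g.d x)) ∧
      ∀ x, (LinearMap.range g'.d).mkQ (u0 x) = φ ((LinearMap.range g.d).mkQ x) := by
  have p0 := g.proj0
  have p1 := g.proj1
  obtain ⟨u0, hu0⟩ := Module.projective_lifting_property (LinearMap.range g'.d).mkQ
    (φ ∘ₗ (LinearMap.range g.d).mkQ) (LinearMap.range g'.d).mkQ_surjective
  have h0 : ∀ x, (LinearMap.range g'.d).mkQ (u0 x) = φ ((LinearMap.range g.d).mkQ x) :=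
    fun x => LinearMap.congr_fun hu0 x
  have hm : ∀ x, (u0 ∘ₗ g.d) x ∈ LinearMap.range g'.d := by
    intro x
    rw [← Submodule.Quotient.mk_eq_zero, ← Submodule.mkQ_apply]
    change (LinearMap.range g'.d).mkQ (u0 (g.d x)) = 0
    rw [h0]
    have : (LinearMap.range g.d).mkQ (g.d x) = 0 := by
      rw [Submodule.mkQ_apply, Submodule.Quotient.mk_eq_zero]
      exact ⟨x, rfl⟩
    rw [this, map_zero]
  obtain ⟨u1, hu1⟩ := Module.projective_lifting_property g'.d.rangeRestrict
    ((u0 ∘ₗ g.d).codRestrict (LinearMap.range g'.d) hm) g'.d.surjective_rangeRestrict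
  refine ⟨u1, u0, fun x => ?_, h0⟩
  exact congrArg Subtype.val (LinearMap.congr_fun hu1 x)

theorem fit_noeth (M : FMod K A) : IsNoetherian A M := isNoetherian_of_tower K inferInstance

theorem fit_artin (M : FMod K A) : IsArtinian A M := isArtinian_of_tower K inferInstance

theorem fit_pow (g : Cpx K A) (u1 : Module.End A g.P1) (u0 : Module.End A g.P0)
    (h : ∀ x, g.d (u1 x) = u0 (g.d x)) (n : ℕ) (x : g.P1) :
    g.d ((u1 ^ n) x) = (u0 ^ n) (g.d x) := by
  induction n generalizing x with
  | zero => rfl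
  | succ n ih =>
    rw [pow_succ, pow_succ]
    change g.d ((u1 ^ n) (u1 x)) = (u0 ^ n) (u0 (g.d x))
    rw [ih, h]

theorem fit_pow_mk (g : Cpx K A) (φ : Module.End A g.H) (u0 : Module.End A g.P0)
    (h : ∀ x, (LinearMap.range g.d).mkQ (u0 x) = φ ((LinearMap.range g.d).mkQ x)) (n : ℕ)
    (x : g.P0) :
    (LinearMap.range g.d).mkQ ((u0 ^ n) x) = (φ ^ n) ((LinearMap.range g.d).mkQ x) := by
  induction n generalizing x with
  | zero => rfl
  | succ n ih =>
    rw [pow_succ, pow_succ]
    change (LinearMap.range g.d).mkQ ((u0 ^ n) (u0 x)) = (φ ^ n) (φ ((LinearMap.range g.d).mkQ x))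
    rw [ih, h]

end

theorem sbc_FIT (K A : Type) [Field K] [Ring A] [Algebra K A] [Module.Finite K A] :
    T_FIT K A := by
  intro h φ
  obtain ⟨u1, u0, hu, hφ⟩ := fit_lift h h φ
  have n1 := fit_noeth h.P1
  have n0 := fit_noeth h.P0
  have a1 := fit_artin h.P1
  have a0 := fit_artin h.P0
  have e1 := LinearMap.eventually_isCompl_ker_pow_range_pow (R := A) (M := h.P1) u1
  have e0 := LinearMap.eventually_isCompl_ker_pow_range_pow (R := A) (M := h.P0) u0
  obtain ⟨n, ⟨hn1, hn0⟩, hnp⟩ := ((e1.and e0).and (Filter.eventually_ge_atTop 1)).exists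
  have c1 : ∀ x ∈ LinearMap.range (u1 ^ n : Module.End A h.P1),
      h.d x ∈ LinearMap.range (u0 ^ n : Module.End A h.P0) := by
    rintro _ ⟨x, rfl⟩
    exact ⟨h.d x, (fit_pow h u1 u0 hu n x).symm⟩
  have c2 : ∀ x ∈ LinearMap.ker (u1 ^ n : Module.End A h.P1),
      h.d x ∈ LinearMap.ker (u0 ^ n : Module.End A h.P0) := by
    intro x hx
    rw [LinearMap.mem_ker] at hx ⊢
    rw [← fit_pow h u1 u0 hu n x, hx, map_zero]
  have hs := fitSub_split h _ _ _ _ hn1.symm hn0.symm c1 c2
  by_cases hz : LinearMap.range (u0 ^ n : Module.End A h.P0) = ⊥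
  · right; left
    refine ⟨n, ?_⟩
    ext x
    have h1 := fit_pow_mk h φ u0 hφ n x
    have h2 : (u0 ^ n) x = 0 := by
      have : (u0 ^ n) x ∈ LinearMap.range (u0 ^ n : Module.End A h.P0) := ⟨x, rfl⟩
      rw [hz] at this
      exact this
    rw [h2, map_zero] at h1
    exact h1.symm
  · have hpos : 0 < Module.finrank K (LinearMap.range (u0 ^ n : Module.End A h.P0)) := by
      have : Nontrivial (LinearMap.range (u0 ^ n : Module.End A h.P0)) :=
        Submodule.nontrivial_iff_ne_bot.2 hz
      exact Module.finrank_pos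
    by_cases hk : LinearMap.ker (u1 ^ n : Module.End A h.P1) = ⊥ ∧
        LinearMap.ker (u0 ^ n : Module.End A h.P0) = ⊥
    · left
      have hsur : Function.Surjective (u0 ^ n) := by
        have h1 := hn0.sup_eq_top
        rw [hk.2, bot_sup_eq] at h1
        exact LinearMap.range_eq_top.1 h1
      have hφs : Function.Surjective φ := by
        have : Function.Surjective (φ ^ n) := by
          intro y
          obtain ⟨z, rfl⟩ := (LinearMap.range h.d).mkQ_surjective y
          obtain ⟨w, rfl⟩ := hsur z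
          exact ⟨_, (fit_pow_mk h φ u0 hφ n w).symm⟩
        intro y
        obtain ⟨z, hz⟩ := this y
        obtain ⟨m, rfl⟩ : ∃ m, n = m + 1 := ⟨n - 1, by omega⟩
        rw [pow_succ'] at hz
        exact ⟨_, hz⟩
      exact ⟨inj_of_finrank_eq φ hφs rfl, hφs⟩
    · right; right
      refine ⟨_, _, hs, ?_, ?_⟩
      · rw [hs.size_eq]
        have : 0 < Module.finrank K (LinearMap.ker (u0 ^ n : Module.End A h.P0)) +
            Module.finrank K (LinearMap.ker (u1 ^ n : Module.End A h.P1)) := by
          rcases not_and_or.1 hk with h' | h'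
          · have : Nontrivial (LinearMap.ker (u1 ^ n : Module.End A h.P1)) :=
              Submodule.nontrivial_iff_ne_bot.2 h'
            have := Module.finrank_pos (R := K) (M := LinearMap.ker (u1 ^ n : Module.End A h.P1))
            omega
          · have : Nontrivial (LinearMap.ker (u0 ^ n : Module.End A h.P0)) :=
              Submodule.nontrivial_iff_ne_bot.2 h'
            have := Module.finrank_pos (R := K) (M := LinearMap.ker (u0 ^ n : Module.End A h.P0))
            omega
        exact Nat.lt_add_of_pos_right this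
      · rw [hs.size_eq]
        exact Nat.lt_add_of_pos_left (by
          have : 0 < Module.finrank K (LinearMap.range (u0 ^ n : Module.End A h.P0)) +
            Module.finrank K (LinearMap.range (u1 ^ n : Module.End A h.P1)) := by omega
          exact this)

end SBC
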