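import Pool.Agent.H5.SBC.Targets

namespace SBC

open Dem

theorem sbc_FMM (K A : Type) [Field K] [Ring A] [Algebra K A] [Module.Finite K A]
    (hHOM : T_HOM K A) : T_FMM K A := by
  intro f g M hf hM hg h
  obtain ⟨h1, h2, h3, h4, h5, h6, h7, h8⟩ := hHOM
  have hgr : hh g (tau g) = 0 := (h4 g).1 hg.1
  have hfr : hh f (tau f) = 0 := (h4 f).1 hf
  obtain ⟨ha, hb⟩ := (h (tau g)).1 hgr
  have hc : hh g (tau f) = 0 := (h (tau f)).2 ⟨hfr, (h2 f M).1 hM⟩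
  refine ⟨?_, (h2 g M).2 hb⟩
  rw [rigid_sum_iff]
  refine ⟨⟨hf, ?_⟩, ⟨?_, hg.1⟩⟩
  · rw [van_iff_ee, h5]
    exact hc
  · rw [van_iff_ee, h5]
    exact ha

end SBC
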