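import Pool.Agent.H5.SBC.Targets

/-!
# Module FUL: full complexes
-/

namespace SBC

open Dem

theorem sbc_FUL (K A : Type) [Field K] [Ring A] [Algebra K A] [Module.Finite K A]
    (hW : T_WID K A) (hH : T_HOM K A) : T_FUL K A := by
  obtain ⟨w1, -⟩ := hW
  obtain ⟨h1, h2, h3, h4, -⟩ := hH
  refine ⟨?_, ?_, ?_⟩
  · intro g hg Y Z hY hZ φ
    obtain ⟨I, p, i, hI, hp, hi, rfl⟩ := w1 g Y Z φ hY hZ
    have hs : Subsingleton I := hg.2 I hI.1 hI.2
    ext y
    have : p y = 0 := Subsingleton.elim _ _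
    rw [LinearMap.comp_apply, this, map_zero, LinearMap.zero_apply]
  · intro g hg Z hZ
    exact (h1 g Z).2 (hZ g.H ((h3 g).1 hg.1))
  · intro g hg Y hY
    exact (h2 g Y).2 (hY (tau g) ((h4 g).1 hg.1))

end SBC
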