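import Pool.Agent.H5.SBC.Targets

/-! GEN (helper56): section 6 of the proof. -/

namespace SBC

open Dem

theorem sbc_GEN (K A : Type) [Field K] [Ring A] [Algebra K A] [Module.Finite K A]
    (htrt : T_TRT K A) (hrad : T_RAD K A) (hclo : T_CLO K A) (hhom : T_HOM K A) :
    T_GEN K A := by
  intro f ga gb 𝒳 hr h𝒳 hZZ Z hfZ hpZ
  obtain ⟨hom1, hom2, -, -, hom5, -, -, -⟩ := hhom
  obtain ⟨⟨-, hr1⟩, hr2, hr3⟩ := (rigid_sum_iff f gb).1 hr
  -- the torsion class `T'`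
  let F : FMod K A → Prop := fun Z => hh f Z = 0 ∧ Perp 𝒳 Z
  have hT' : TorsCls (fun Y : FMod K A => ∀ Z, F Z → Hom0 Y Z) := hclo.2.2.2.1 F
  have hFt : F (tau gb) := by
    refine ⟨?_, fun M hM => (hom2 gb M).1 (h𝒳 M hM)⟩
    rw [← hom5]
    exact (van_iff_ee gb f.H).1 hr2
  have hee : ∀ Y : FMod K A, (∀ Z, F Z → Hom0 Y Z) → ee gb Y = 0 := fun Y hY =>
    (hom2 gb Y).2 (hY _ hFt)
  have hT'' := htrt gb _ hr3 hT' hee
  have hquo : ∀ Y : FMod K A, (∀ Z, F Z → Hom0 Y Z) →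
      (fun Y : FMod K A => ∀ Z, F Z → Hom0 Y Z) (Y.quo (tr gb Y)) := fun Y hY =>
    hT'.quo Y (Y.quo (tr gb Y)) (tr gb Y).mkQ (tr gb Y).mkQ_surjective hY
  obtain ⟨N, Q, i, p, hs, hN, hQ⟩ := hrad.1 _ hT'' ga.H
  have h1 : hh f Q = 0 := by
    rw [hom1]
    exact hQ f.H (hquo f.H fun Z hZ => (hom1 f Z).1 hZ.1)
  have h2 : Perp 𝒳 Q := fun M hM => hQ M (hquo M fun Z hZ => hZ.2 M hM)
  have h3 : hh gb Q = 0 := by
    rw [hom1]
    refine hQ gb.H (hT'.zero _ ?_)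
    have htop : tr gb gb.H = ⊤ := by
      rw [eq_top_iff]
      have h4 := range_le_tr gb gb.H (LinearMap.range gb.d).mkQ (by
        refine LinearMap.ext fun x => ?_
        change (LinearMap.range gb.d).mkQ (gb.d x) = 0
        rw [Submodule.mkQ_apply, Submodule.Quotient.mk_eq_zero]
        exact ⟨x, rfl⟩)
      rwa [Submodule.range_mkQ] at h4
    change Subsingleton (gb.H ⧸ tr gb gb.H)
    exact Submodule.Quotient.subsingleton_iff.2 htop
  have h5 : Hom0 ga.H Q := (hom1 ga Q).1 (hZZ Q h1 h3 h2)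
  have h6 : Subsingleton Q := (h5.of_surj p hs.surj).self
  -- so `i` is onto
  have h7 : Function.Surjective i := by
    intro x
    exact hs.exists_of_zero (Subsingleton.elim _ _)
  have h8 := hT''.quo N ga.H i h7 hN
  exact h8 Z ⟨hfZ, hpZ⟩

end SBC
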