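import Pool.Agent.H5.SBC.Targets

/-! HOM: `hh` and `ee` as Hom spaces. -/

namespace SBC

open Dem

section

variable {K A : Type} [Field K] [Ring A] [Algebra K A]

theorem hom_hd_zero (Y Z : FMod K A) : hd Y Z = 0 ↔ Hom0 Y Z := by
  unfold hd Hom0
  rw [Module.finrank_zero_iff]
  constructor
  · intro h φ
    exact Subsingleton.elim _ _
  · intro h
    exact ⟨fun a b => by rw [h a, h b]⟩

theorem hom_pre_le {X Y : FMod K A} (p : X →ₗ[A] Y) (hp : Function.Surjective p) (N : FMod K A) :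
    hd Y N ≤ hd X N := by
  unfold hd
  refine LinearMap.finrank_le_finrank_of_injective (f := ({
    toFun := fun φ => φ ∘ₗ p
    map_add' := fun _ _ => rfl
    map_smul' := fun _ _ => rfl } : (Y →ₗ[A] N) →ₗ[K] (X →ₗ[A] N))) ?_
  intro φ ψ h
  refine LinearMap.ext fun y => ?_
  obtain ⟨x, rfl⟩ := hp y
  exact LinearMap.congr_fun h x

theorem hom_comp_le {X Y : FMod K A} (i : X →ₗ[A] Y) (hi : Function.Injective i) (M : FMod K A) :
    hd M X ≤ hd M Y := by
  unfold hd
  refine LinearMap.finrank_le_finrank_of_injective (f := ({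
    toFun := fun φ => i ∘ₗ φ
    map_add' := fun φ ψ => by
      refine LinearMap.ext fun x => ?_
      exact map_add i _ _
    map_smul' := fun c φ => by
      refine LinearMap.ext fun x => ?_
      exact i.map_smul_of_tower c (φ x) } : (M →ₗ[A] X) →ₗ[K] (M →ₗ[A] Y))) ?_
  intro φ ψ h
  refine LinearMap.ext fun x => ?_
  exact hi (LinearMap.congr_fun h x)

end

theorem sbc_HOM (K A : Type) [Field K] [Ring A] [Algebra K A] [Module.Finite K A] :
    T_HOM K A := by
  have e1 : ∀ (f : Cpx K A) (Z : FMod K A), hh f Z = 0 ↔ Hom0 f.H Z := fun f Z => by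
    rw [← hd_H, hom_hd_zero]
  have e2 : ∀ (f : Cpx K A) (Y : FMod K A), ee f Y = 0 ↔ Hom0 Y (tau f) := fun f Y => by
    rw [← hd_tau, hom_hd_zero]
  have e3 : ∀ f : Cpx K A, f.Rigid ↔ ee f f.H = 0 := fun f => by
    rw [← van_iff_ee]
    rfl
  have e5 : ∀ f g : Cpx K A, ee f g.H = hh g (tau f) := fun f g => by
    rw [← hd_tau, hd_H]
  refine ⟨e1, e2, e3, ?_, e5, ?_, ?_, ?_⟩
  · intro f
    rw [e3, e5]
  · intro f X Y p hp
    rw [← hd_tau, ← hd_tau]
    exact hom_pre_le p hp _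
  · intro f X Y i hi
    rw [← hd_H, ← hd_H]
    exact hom_comp_le i hi _
  · intro f X hX
    rw [e1, e2]
    exact ⟨hom0_right hX, hom0_left hX⟩

end SBC
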