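import Pool.Agent.H5.SBC.Targets

/-! # Stable brick conjecture: module KBD (helper88) -/

namespace SBC

open Dem

theorem sbc_KBD (K A : Type) [Field K] [Ring A] [Algebra K A] [Module.Finite K A] :
    T_KBD K A := by
  intro x hx
  unfold K0 at hx
  induction hx using AddSubgroup.closure_induction with
  | mem x h =>
    obtain ⟨P, -, h⟩ := h
    refine ⟨Module.finrank K P, fun L => ?_⟩
    rw [h L]
    have h1 : hd P L ≤ Module.finrank K (P →ₗ[K] L) := by
      unfold hd
      exact LinearMap.finrank_le_finrank_of_injective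
        (f := LinearMap.restrictScalarsₗ K A P L K) (LinearMap.restrictScalars_injective K)
    rw [Module.finrank_linearMap] at h1
    have h2 : |((hd P L : ℕ) : ℤ)| = ((hd P L : ℕ) : ℤ) := abs_of_nonneg (by positivity)
    rw [h2]
    exact_mod_cast h1
  | zero => exact ⟨0, fun L => by simp⟩
  | add x y _ _ h1 h2 =>
    obtain ⟨C1, h1⟩ := h1
    obtain ⟨C2, h2⟩ := h2
    refine ⟨C1 + C2, fun L => ?_⟩
    have h3 := h1 L
    have h4 := h2 L
    calc |(x + y) L| ≤ |x L| + |y L| := abs_add_le _ _
      _ ≤ C1 * Module.finrank K L + C2 * Module.finrank K L := add_le_add h3 h4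
      _ = ((C1 + C2 : ℕ) : ℤ) * Module.finrank K L := by push_cast; ring
  | neg x _ h1 =>
    obtain ⟨C1, h1⟩ := h1
    refine ⟨C1, fun L => ?_⟩
    rw [Pi.neg_apply, abs_neg]
    exact h1 L

end SBC
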