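import Pool.Agent.H5.SBC.Targets

/-! LDD (helper56): Lemma D (section 6). -/

namespace SBC

open Dem

theorem sbc_LDD (K A : Type) [Field K] [Ring A] [Algebra K A] [Module.Finite K A]
    (hcas : T_CAS K A) (hgen : T_GEN K A) (hnil : T_NIL K A) (hrrb : T_RRB K A)
    (hhom : T_HOM K A) : T_LDD K A := by
  classical
  intro f r D 𝒳 P hf h𝒳 hlex htb hsum hex ζ hζ Z hZ hpZ
  -- a pair with minimal total size
  have hexn : ∃ n : ℕ, ∃ (a b : Fin r → ℝ) (ga gb : Cpx K A), Adm D P a ga ∧ Adm D P b gb ∧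
      LinearIndependent ℝ ![a, b] ∧ size ga + size gb = n := by
    obtain ⟨a, b, ga, gb, h1, h2, h3⟩ := hex
    exact ⟨_, a, b, ga, gb, h1, h2, h3, rfl⟩
  obtain ⟨a, b, ga, gb, hga, hgb, hli, hn⟩ := Nat.find_spec hexn
  have hmin : ∀ (a' b' : Fin r → ℝ) (ga' gb' : Cpx K A), Adm D P a' ga' → Adm D P b' gb' →
      LinearIndependent ℝ ![a', b'] → size ga + size gb ≤ size ga' + size gb' := by
    intro a' b' ga' gb' h1 h2 h3
    rw [hn]
    exact Nat.find_min' hexn ⟨a', b', ga', gb', h1, h2, h3, rfl⟩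
  have hnilp := hcas f r D P hsum a b ga gb hga hgb hli hmin
  -- the two classes
  have hA := hrrb f ga (wt D a) 1 hga.1 one_pos (fun X hX => by rw [one_mul, hga.2.2 X hX])
  have hB := hrrb f gb (wt D b) 1 hgb.1 one_pos (fun X hX => by rw [one_mul, hgb.2.2 X hX])
  have key : ∀ (a b : Fin r → ℝ) (ga gb : Cpx K A), Adm D P a ga → Adm D P b gb →
      (∀ Z, FF f (wt D a) Z ↔ hh f Z = 0 ∧ hh ga Z = 0) →
      (∀ Z, FF f (wt D b) Z ↔ hh f Z = 0 ∧ hh gb Z = 0) →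
      (∀ Y, TB f (wt D b) Y ↔ ee f Y = 0 ∧ ee gb Y = 0) →
      Hom0 (ga.H.quo (tr gb ga.H)) Z := by
    intro a b ga gb hga hgb hFa hFb hTb
    refine hgen f ga gb 𝒳 hgb.1 (fun M hM => ((hTb M).1 (htb b hgb.2.1 M hM)).2) ?_ Z hZ hpZ
    intro Z' h1 h2 h3
    have h4 : FF f (wt D b) Z' := (hFb Z').2 ⟨h1, h2⟩
    have h5 : FF f (wt D a) Z' := hlex b hgb.2.1 a hga.2.1 Z' h4 h3
    exact ((hFa Z').1 h5).2
  have h1 := key a b ga gb hga hgb hA.1 hB.1 hB.2.1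
  have h2 := key b a gb ga hgb hga hB.1 hA.1 hA.2.1
  have h3 : Hom0 ga.H Z := hnil ga gb Z h1 h2 hnilp
  have h4 : hh ga Z = 0 := (hhom.1 ga Z).2 h3
  have h5 : FF f (wt D a) Z := (hA.1 Z).2 ⟨hZ, h4⟩
  exact hlex a hga.2.1 ζ hζ Z h5 hpZ

end SBC
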