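import Pool.Agent.H5.SBC.Targets

/-!
# Module LDP: Lemma D for the class of a minimal point
-/

namespace SBC

open Dem

theorem sbc_LDP (K A : Type) [Field K] [Ring A] [Algebra K A] [Module.Finite K A]
    (hLDD : T_LDD K A) (hRGG : T_RGG K A) (hLEC : T_LEC K A) (hRRB : T_RRB K A)
    (hNSR : T_NSR K A) (hWTA : T_WTA K A) : T_LDP K A := by
  intro hLR f r D 𝒳 DD hf hD ζm hm hab
  obtain ⟨a, b, ha, hb, ra, rb, hlin⟩ := hab
  obtain ⟨e1, e2, -, -, e5, -⟩ := hLEC f r D 𝒳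
  obtain ⟨-, w2, -⟩ := hWTA f r D
  have hsm : ∀ (c : ℝ) (ζ : Fin r → ℝ) (X : FMod K A), wt D (c • ζ) X = c * wt D ζ X := by
    intro c ζ X
    have h := w2 c 0 ζ 0 X
    rw [zero_smul, add_zero, zero_mul, add_zero] at h
    exact h
  have hscale : ∀ (a : Fin r → ℝ), a ∈ Pcl D 𝒳 DD ζm → IsRat a →
      ∃ (m : ℕ) (ga : Cpx K A), 0 < m ∧ Adm D (Pcl D 𝒳 DD ζm) ((m : ℝ) • a) ga := by
    intro a ha ra
    obtain ⟨g, m, hm0, hr, hc⟩ := hRGG hLR f r D hf a ra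
    refine ⟨m, g, hm0, hr, ?_, fun X hX => by rw [hsm, hc X hX]⟩
    have hmR : (0 : ℝ) < m := by exact_mod_cast hm0
    exact ⟨hD.smul m hmR.le a ha.1, smul_ne_zero hmR.ne' ha.2.1, e5 m a ζm hmR.le ha.2.2⟩
  refine hLDD f r D 𝒳 (Pcl D 𝒳 DD ζm) hf hD.inW ?_ ?_ ?_ ?_
  · intro ζ hζ ζ' hζ'
    exact e2 _ _ _ hζ'.2.2 (hm.2.2 ζ hζ.1 hζ.2.1 hζ.2.2)
  · intro ζ hζ M hM
    exact hD.tb ζ hζ.1 M hM
  · intro ζ hζ g h h' ξ hr hs hcg hch hξ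
    refine ⟨hD.up g h h' hf hr hs ζ ξ hcg hch hζ.1, hξ, ?_⟩
    intro Z hZ hP
    have h1 : FF f (wt D ζ) Z := hζ.2.2 Z hZ hP
    have hr' : (f.sum h).Rigid := hNSR.1 f g h h' hr hs
    have h2 := ((hRRB f g (wt D ζ) 1 hr one_pos
      (fun X hX => by rw [one_mul, hcg X hX])).1 Z).1 h1
    refine ((hRRB f h (wt D ξ) 1 hr' one_pos
      (fun X hX => by rw [one_mul, hch X hX])).1 Z).2 ⟨h2.1, ?_⟩
    have h3 := hs.hh_eq Z
    omega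
  · obtain ⟨m, ga, hm0, hga⟩ := hscale a ha ra
    obtain ⟨n, gb, hn0, hgb⟩ := hscale b hb rb
    refine ⟨(m : ℝ) • a, (n : ℝ) • b, ga, gb, hga, hgb, ?_⟩
    rw [LinearIndependent.pair_iff] at hlin ⊢
    intro s t hst
    rw [smul_smul, smul_smul] at hst
    have h1 := hlin _ _ hst
    have hmR : (m : ℝ) ≠ 0 := by exact_mod_cast hm0.ne'
    have hnR : (n : ℝ) ≠ 0 := by exact_mod_cast hn0.ne'
    exact ⟨(mul_eq_zero.1 h1.1).resolve_right hmR, (mul_eq_zero.1 h1.2).resolve_right hnR⟩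

end SBC
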