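import Pool.Agent.H5.SBC.Targets

/-!
Module LEC: properties of the order, scaling.
-/

namespace SBC

open Dem Filter

section

variable {K A : Type} [Field K] [Ring A] [Algebra K A]

theorem lec_wt_add {f : Cpx K A} {r : ℕ} (D : Chart f r) (a b : Fin r → ℝ) (X : FMod K A) :
    wt D (a + b) X = wt D a X + wt D b X := by
  simp only [wt, Pi.add_apply, add_mul, Finset.sum_add_distrib]

theorem lec_wt_smul {f : Cpx K A} {r : ℕ} (D : Chart f r) (c : ℝ) (a : Fin r → ℝ)
    (X : FMod K A) : wt D (c • a) X = c * wt D a X := by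
  simp only [wt, Pi.smul_apply, smul_eq_mul, Finset.mul_sum, mul_assoc]

theorem lec_cont {f : Cpx K A} {r : ℕ} (D : Chart f r) (X : FMod K A) :
    Continuous (fun ζ : Fin r → ℝ => wt D ζ X) := by
  unfold wt
  fun_prop

end

theorem sbc_LEC (K A : Type) [Field K] [Ring A] [Algebra K A] [Module.Finite K A] :
    T_LEC K A := by
  intro f r D 𝒳
  have hFF : ∀ (c : ℝ) (ζ : Fin r → ℝ) (Z : FMod K A), 0 < c →
      (FF f (wt D (c • ζ)) Z ↔ FF f (wt D ζ) Z) := by
    intro c ζ Z hc
    unfold FF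
    refine and_congr_right fun _ => forall_congr' fun X => forall_congr' fun i =>
      forall_congr' fun _ => forall_congr' fun _ => ?_
    rw [lec_wt_smul]
    constructor
    · intro h
      by_contra hcon
      push Not at hcon
      exact absurd (mul_pos hc hcon) (not_lt.mpr h)
    · intro h
      exact mul_nonpos_of_nonneg_of_nonpos hc.le h
  have hTB : ∀ (c : ℝ) (ζ : Fin r → ℝ) (Z : FMod K A), 0 < c →
      (TB f (wt D (c • ζ)) Z ↔ TB f (wt D ζ) Z) := by
    intro c ζ Z hc
    unfold TB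
    refine and_congr_right fun _ => forall_congr' fun X => forall_congr' fun i =>
      forall_congr' fun _ => forall_congr' fun _ => ?_
    rw [lec_wt_smul]
    exact mul_nonneg_iff_of_pos_left hc
  have hST : ∀ (c : ℝ) (ζ : Fin r → ℝ) (Z : FMod K A), 0 < c →
      (ST f (wt D (c • ζ)) Z ↔ ST f (wt D ζ) Z) := by
    intro c ζ Z hc
    unfold ST
    refine and_congr_right fun _ => and_congr_right fun _ => and_congr ?_ ?_
    · rw [lec_wt_smul]
      simp [hc.ne']
    · refine forall_congr' fun X => forall_congr' fun i =>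
        forall_congr' fun _ => forall_congr' fun _ => forall_congr' fun _ =>
          forall_congr' fun _ => ?_
      rw [lec_wt_smul]
      exact mul_pos_iff_of_pos_left hc
  refine ⟨fun ζ Z h _ => h, fun a b c h1 h2 Z h3 h4 => h1 Z (h2 Z h3 h4) h4, ?_, ?_, ?_, ?_, ?_⟩
  · intro ζ
    have : {ζ' | LEX D 𝒳 ζ' ζ} = ⋂ (Z : FMod K A) (_ : FF f (wt D ζ) Z) (_ : Perp 𝒳 Z)
        (X : FMod K A) (i : X →ₗ[A] Z) (_ : InW f X) (_ : Function.Injective i),
        {ζ' : Fin r → ℝ | wt D ζ' X ≤ 0} := by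
      ext ζ'
      simp only [Set.mem_iInter]
      constructor
      · intro h Z h1 h2 X i h3 h4
        exact (h Z h1 h2).2 X i h3 h4
      · intro h Z h1 h2
        exact ⟨h1.1, fun X i h3 h4 => h Z h1 h2 X i h3 h4⟩
    rw [this]
    refine isClosed_iInter fun Z => isClosed_iInter fun _ => isClosed_iInter fun _ =>
      isClosed_iInter fun X => isClosed_iInter fun i => isClosed_iInter fun _ =>
      isClosed_iInter fun _ => ?_
    exact isClosed_le (lec_cont D X) continuous_const
  · intro a b ζ h1 h2 Z h3 h4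
    refine ⟨h3.1, fun X i h5 h6 => ?_⟩
    rw [lec_wt_add]
    exact add_nonpos ((h1 Z h3 h4).2 X i h5 h6) ((h2 Z h3 h4).2 X i h5 h6)
  · intro c a ζ hc h1 Z h3 h4
    refine ⟨h3.1, fun X i h5 h6 => ?_⟩
    rw [lec_wt_smul]
    exact mul_nonpos_of_nonneg_of_nonpos hc ((h1 Z h3 h4).2 X i h5 h6)
  · intro c a ζ hc
    unfold LEX
    simp only [hFF c ζ _ hc]
  · intro c ζ Z hc
    refine ⟨hFF c ζ Z hc, hTB c ζ Z hc, ?_, hST c ζ Z hc⟩
    unfold SS
    rw [hFF c ζ Z hc, hTB c ζ Z hc]

end SBC
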