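import Pool.Agent.H5.SBC.Targets

/-! LFT (helper56): lifting of maps from the cokernel. -/

namespace SBC

open Dem

theorem lft_factor {K A : Type} [Field K] [Ring A] [Algebra K A] (f : Cpx K A) (L : FMod K A)
    (g : f.P0 →ₗ[A] L) (hg : g ∘ₗ f.d = 0) :
    ∃ ψ : f.H →ₗ[A] L, ψ ∘ₗ (LinearMap.range f.d).mkQ = g := by
  have hb : LinearMap.range f.d ≤ LinearMap.ker g := by
    rintro _ ⟨x, rfl⟩
    exact LinearMap.congr_fun hg x
  exact ⟨(LinearMap.range f.d).liftQ g hb, (LinearMap.range f.d).liftQ_mkQ g hb⟩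

theorem lft_mk {K A : Type} [Field K] [Ring A] [Algebra K A] (f : Cpx K A) :
    ((LinearMap.range f.d).mkQ : f.P0 →ₗ[A] f.H) ∘ₗ f.d = 0 := by
  ext x
  change (LinearMap.range f.d).mkQ (f.d x) = 0
  rw [Submodule.mkQ_apply, Submodule.Quotient.mk_eq_zero]
  exact ⟨x, rfl⟩

theorem lft_ext {K A : Type} [Field K] [Ring A] [Algebra K A] (f : Cpx K A) (L : FMod K A)
    (φ ψ : f.H →ₗ[A] L)
    (h : φ ∘ₗ (LinearMap.range f.d).mkQ = ψ ∘ₗ (LinearMap.range f.d).mkQ) : φ = ψ := by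
  refine LinearMap.ext fun x => ?_
  obtain ⟨y, rfl⟩ := (LinearMap.range f.d).mkQ_surjective x
  exact LinearMap.congr_fun h y

theorem sbc_LFT (K A : Type) [Field K] [Ring A] [Algebra K A] [Module.Finite K A] :
    T_LFT K A := by
  intro f X Y Z i p h
  constructor
  · intro hX φ
    have hv : Van f X := (van_iff_ee f X).2 hX
    have := f.proj0
    obtain ⟨g, hg⟩ := Module.projective_lifting_property p
      (φ ∘ₗ (LinearMap.range f.d).mkQ : f.P0 →ₗ[A] Z) h.surj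
    obtain ⟨u, hu⟩ := h.lift (L := f.P1) (g ∘ₗ f.d) (by
      rw [← LinearMap.comp_assoc, hg, LinearMap.comp_assoc, lft_mk, LinearMap.comp_zero])
    obtain ⟨v, hv'⟩ := hv u
    rw [pull_apply] at hv'
    obtain ⟨ψ, hψ⟩ := lft_factor f Y (g - i ∘ₗ v) (by
      rw [LinearMap.sub_comp, LinearMap.comp_assoc, hv', hu, sub_self])
    refine ⟨ψ, lft_ext f Z _ _ ?_⟩
    rw [LinearMap.comp_assoc, hψ, LinearMap.comp_sub, hg, ← LinearMap.comp_assoc, h.comp_eq,
      LinearMap.zero_comp, sub_zero]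
  · intro hl hY
    rw [← van_iff_ee]
    have hv : Van f Y := (van_iff_ee f Y).2 hY
    intro g
    obtain ⟨k, hk⟩ := hv (i ∘ₗ g)
    rw [pull_apply] at hk
    obtain ⟨φ, hφ⟩ := lft_factor f Z (p ∘ₗ k) (by
      rw [LinearMap.comp_assoc, hk, ← LinearMap.comp_assoc, h.comp_eq, LinearMap.zero_comp])
    obtain ⟨ψ, hψ⟩ := hl φ
    obtain ⟨u, hu⟩ := h.lift (L := f.P0) (k - ψ ∘ₗ (LinearMap.range f.d).mkQ) (by
      rw [LinearMap.comp_sub, ← LinearMap.comp_assoc, hψ, hφ, sub_self])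
    refine ⟨u, ?_⟩
    rw [pull_apply]
    refine LinearMap.ext fun x => h.inj ?_
    have h1 := LinearMap.congr_fun hu (f.d x)
    have h2 := LinearMap.congr_fun hk x
    have h3 := LinearMap.congr_fun (lft_mk f) x
    change i (u (f.d x)) = k (f.d x) - ψ ((LinearMap.range f.d).mkQ (f.d x)) at h1
    change (LinearMap.range f.d).mkQ (f.d x) = 0 at h3
    change k (f.d x) = i (g x) at h2
    rw [h3, map_zero, sub_zero, h2] at h1
    exact h1

end SBC
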