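import Pool.Agent.H5.SBC.Targets

/-!
# Module LOC: local description of the torsion pairs
-/

namespace SBC

open Dem

theorem sbc_LOC (K A : Type) [Field K] [Ring A] [Algebra K A] [Module.Finite K A]
    (hT : T_TPR K A) (hC : T_CLO K A) (hS : T_SST K A) : T_LOC K A := by
  intro f w₁ w' hf ha₁ ha' hF hT'
  obtain ⟨⟨t1, t2, t3⟩, t4, t5, t6⟩ := hT f w' hf ha'
  obtain ⟨c1, c2, c3, c4⟩ := hC.1 f w' ha'
  obtain ⟨d1, d2, d3, d4⟩ := hC.1 f w₁ ha₁
  obtain ⟨s1, -⟩ := hS f w₁ ha₁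
  -- weight of a zero module
  have hz : ∀ X : FMod K A, Subsingleton X → InW f X → w' X = 0 := by
    intro X hX hI
    have h := ha' X X X LinearMap.id LinearMap.id hI hI hI
      (ses_left_zero _ _ hX Function.bijective_id)
    linarith
  have hTT : ∀ Y, TT f w' Y → TB f w' Y := by
    intro Y hY
    refine ⟨hY.1, fun X p hX hp => ?_⟩
    rcases subsingleton_or_nontrivial X with h | h
    · exact (hz X h hX).ge
    · exact (hY.2 X p hX h hp).le
  have hFS : ∀ Z, FS f w' Z → FF f w' Z := by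
    intro Y hY
    refine ⟨hY.1, fun X p hX hp => ?_⟩
    rcases subsingleton_or_nontrivial X with h | h
    · exact (hz X h hX).le
    · exact (hY.2 X p hX h hp).le
  have zero_of : ∀ (Y Z : FMod K A) (φ : Y →ₗ[A] Z),
      (∀ (I : FMod K A) (p : Y →ₗ[A] I) (i : I →ₗ[A] Z), Function.Surjective p →
        Function.Injective i → Nontrivial I → False) → φ = 0 := by
    intro Y Z φ h
    obtain ⟨I, p, i, hp, hi, rfl⟩ := exists_image φ
    rcases subsingleton_or_nontrivial I with hI | hI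
    · ext y
      have : p y = 0 := Subsingleton.elim _ _
      rw [LinearMap.comp_apply, this, map_zero, LinearMap.zero_apply]
    · exact (h I p i hp hi hI).elim
  refine ⟨fun Z => ⟨fun h => ⟨hF Z h, fun X i hX hi => h.2 X i (s1 X hX).1 hi⟩, ?_⟩,
    fun Z => ⟨fun h => ⟨hF Z (hFS Z h), fun X i hX hn hi => h.2 X i (s1 X hX).1 hn hi⟩, ?_⟩,
    fun Y => ⟨fun h => ⟨hT' Y h, fun X p hX hp => h.2 X p (s1 X hX).1 hp⟩, ?_⟩,
    fun Y => ⟨fun h => ⟨hT' Y (hTT Y h), fun X p hX hn hp => h.2 X p (s1 X hX).1 hn hp⟩, ?_⟩⟩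
  · rintro ⟨h1, h2⟩
    refine t3 Z fun Y hY φ => zero_of Y Z φ fun I p i hp hi hn => ?_
    have hI : TT f w' I := c2.quo Y I p hp hY
    have hSS : SS f w₁ I := ⟨hT' I (hTT I hI), d3.sub I Z i hi h1⟩
    have e1 := h2 I i hSS hi
    have e2 := hI.2 I LinearMap.id (s1 I hSS).1 hn Function.surjective_id
    linarith
  · rintro ⟨h1, h2⟩
    refine t6 Z fun Y hY φ => zero_of Y Z φ fun I p i hp hi hn => ?_
    have hI : TB f w' I := c1.quo Y I p hp hY
    have hSS : SS f w₁ I := ⟨hT' I hI, d3.sub I Z i hi h1⟩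
    have e1 := h2 I i hSS hn hi
    have e2 := hI.2 I LinearMap.id (s1 I hSS).1 Function.surjective_id
    linarith
  · rintro ⟨h1, h2⟩
    refine t5 Y fun Z hZ φ => zero_of Y Z φ fun I p i hp hi hn => ?_
    have hI : FS f w' I := c4.sub I Z i hi hZ
    have hSS : SS f w₁ I := ⟨d1.quo Y I p hp h1, hF I (hFS I hI)⟩
    have e1 := h2 I p hSS hp
    have e2 := hI.2 I LinearMap.id (s1 I hSS).1 hn Function.injective_id
    linarith
  · rintro ⟨h1, h2⟩
    refine t2 Y fun Z hZ φ => zero_of Y Z φ fun I p i hp hi hn => ?_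
    have hI : FF f w' I := c3.sub I Z i hi hZ
    have hSS : SS f w₁ I := ⟨d1.quo Y I p hp h1, hF I hI⟩
    have e1 := h2 I p hSS hn hp
    have e2 := hI.2 I LinearMap.id (s1 I hSS).1 Function.injective_id
    linarith

end SBC
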