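import Pool.Agent.H5.SBC.Targets

/-!
LSA (7.1), by helper74.
-/

namespace SBC

open Dem

section

variable {K A : Type} [Field K] [Ring A] [Algebra K A]

theorem lsa_d_zero {f : Cpx K A} {r : ℕ} (D : Chart f r) (hW : T_WID K A) (X : FMod K A)
    (hX : Subsingleton X) : D.d X = 0 := by
  have h1 := hW.2.2.2.1 f X hX
  have h2 := D.add X X X LinearMap.id LinearMap.id h1 h1 h1
    (ses_left_zero _ _ hX Function.bijective_id)
  have h3 : D.d X + 0 = D.d X + D.d X := by rw [add_zero]; exact h2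
  exact (add_left_cancel h3).symm

theorem lsa_d_iso {f : Cpx K A} {r : ℕ} (D : Chart f r) (hW : T_WID K A) {X Y : FMod K A}
    (e : X ≃ₗ[A] Y) (hX : InW f X) : D.d X = D.d Y := by
  have hY := hW.2.2.1 f X Y ⟨e⟩ hX
  obtain ⟨Z, p, hp⟩ := exists_coker e.toLinearMap e.injective
  have hZ : Subsingleton Z := by
    refine ⟨fun a b => ?_⟩
    obtain ⟨y, rfl⟩ := hp.surj a
    obtain ⟨y', rfl⟩ := hp.surj b
    have h1 : p (e (e.symm y)) = 0 := hp.comp _
    have h2 : p (e (e.symm y')) = 0 := hp.comp _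
    rw [e.apply_symm_apply] at h1 h2
    rw [h1, h2]
  have h1 := D.add X Y Z e.toLinearMap p hX hY (hW.2.2.2.1 f Z hZ) hp
  rw [h1, lsa_d_zero D hW Z hZ, add_zero]

theorem lsa_span {f : Cpx K A} {r : ℕ} (D : Chart f r) (hW : T_WID K A) {k : ℕ}
    (S : Fin k → FMod K A) (hS : ∀ i, InW f (S i)) (X : FMod K A) (hX : Filt S X) :
    InW f X ∧ D.d X ∈ Submodule.span ℚ (Set.range fun i => D.d (S i)) := by
  refine hX (fun X => InW f X ∧ D.d X ∈ Submodule.span ℚ (Set.range fun i => D.d (S i)))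
    ?_ ?_ ?_
  · intro Y hY
    refine ⟨hW.2.2.2.1 f Y hY, ?_⟩
    rw [lsa_d_zero D hW Y hY]
    exact Submodule.zero_mem _
  · rintro Y i ⟨e⟩
    have h1 : InW f Y := hW.2.2.1 f (S i) Y ⟨e.symm⟩ (hS i)
    refine ⟨h1, ?_⟩
    rw [lsa_d_iso D hW e h1]
    exact Submodule.subset_span ⟨i, rfl⟩
  · intro X Y Z i p hip hX hZ
    have h1 : InW f Y := (hW.2.1 f X Y Z i p hip).2.2.1 hX.1 hZ.1
    refine ⟨h1, ?_⟩
    rw [D.add X Y Z i p hX.1 h1 hZ.1 hip]
    exact Submodule.add_mem _ hX.2 hZ.2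

theorem lsa_wt_span {f : Cpx K A} {r : ℕ} (D : Chart f r) {k : ℕ} (S : Fin k → FMod K A)
    (ζ : Fin r → ℝ) (h : ∀ i, wt D ζ (S i) = 0) (v : Fin r → ℚ)
    (hv : v ∈ Submodule.span ℚ (Set.range fun i => D.d (S i))) :
    ∑ j, ζ j * (v j : ℝ) = 0 := by
  induction hv using Submodule.span_induction with
  | mem x hx =>
    obtain ⟨i, rfl⟩ := hx
    exact h i
  | zero => simp
  | add x y _ _ hx hy =>
    simp only [Pi.add_apply, Rat.cast_add, mul_add, Finset.sum_add_distrib, hx, hy, add_zero]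
  | smul c x _ hx =>
    have : ∀ j, ζ j * (((c • x) j : ℚ) : ℝ) = (c : ℝ) * (ζ j * (x j : ℝ)) := by
      intro j
      simp only [Pi.smul_apply, smul_eq_mul, Rat.cast_mul]
      ring
    simp only [this, ← Finset.mul_sum, hx, mul_zero]

end

theorem sbc_LSA (K A : Type) [Field K] [Ring A] [Algebra K A] [Module.Finite K A]
    (hSTW : T_STW K A) (hSTQ : T_STQ K A) (hWTA : T_WTA K A)
    (hCLO : T_CLO K A) (hWID : T_WID K A) : T_LSA K A := by
  intro hLR f r D hf k' k'' S' S'' ζ₀ ζ hS' hS'' hk hss i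
  have hadd := (hWTA f r D).1
  have hind := (hSTW hLR f r D hf ζ₀ k' S' hS').2.1
  have hS''W : ∀ j, InW f (S'' j) := fun j => (hS''.1.1 j).1
  -- the classes of `S'` are in the span of those of `S''`
  have hmem : ∀ i, D.d (S' i) ∈ Submodule.span ℚ (Set.range fun j => D.d (S'' j)) := fun i =>
    (lsa_span D hWID S'' hS''W (S' i)
      ((hSTQ f (wt D ζ) (hadd ζ)).2.2.2.1 k'' S'' hS'' (S' i) (hss i))).2
  have hle : Submodule.span ℚ (Set.range fun i => D.d (S' i)) ≤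
      Submodule.span ℚ (Set.range fun j => D.d (S'' j)) := by
    rw [Submodule.span_le]
    rintro _ ⟨i, rfl⟩
    exact hmem i
  have hfr : Module.finrank ℚ (Submodule.span ℚ (Set.range fun i => D.d (S' i))) = k' := by
    rw [finrank_span_eq_card hind, Fintype.card_fin]
  have hfr' : Module.finrank ℚ (Submodule.span ℚ (Set.range fun j => D.d (S'' j))) ≤ k'' := by
    have := finrank_range_le_card (R := ℚ) (fun j => D.d (S'' j))
    rw [Fintype.card_fin] at this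
    exact this
  have heq : Submodule.span ℚ (Set.range fun i => D.d (S' i)) =
      Submodule.span ℚ (Set.range fun j => D.d (S'' j)) :=
    Submodule.eq_of_le_of_finrank_le hle (by omega)
  have hz : ∀ i, wt D ζ₀ (S' i) = 0 := fun i => (hS'.1 i).2.2.1
  have hz'' : ∀ j, wt D ζ₀ (S'' j) = 0 := by
    intro j
    refine lsa_wt_span D S' ζ₀ hz _ ?_
    rw [heq]
    exact Submodule.subset_span ⟨j, rfl⟩
  obtain ⟨C, p, hC, hp⟩ := ((hSTQ f (wt D ζ) (hadd ζ)).1 (S' i) (hss i) (hS'.1 i).2.1).1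
  obtain ⟨j, ⟨e⟩⟩ := hS''.2 C hC
  by_cases hinj : Function.Injective p
  · let e' : S' i ≃ₗ[A] C := LinearEquiv.ofBijective p ⟨hinj, hp⟩
    exact (hCLO.2.2.2.2 f (wt D ζ) (hadd ζ) C (S' i) ⟨e'.symm⟩).2.2 hC
  · exfalso
    have h1 := (hS'.1 i).2.2.2 C p hC.1 hC.2.1 hp hinj
    have h2 : wt D ζ₀ C = wt D ζ₀ (S'' j) := by
      unfold wt
      rw [lsa_d_iso D hWID e hC.1]
    rw [h2, hz'' j] at h1
    exact lt_irrefl _ h1

end SBC
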