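import Pool.Agent.H5.SBC.Targets

/-!
LSB (7.2), by helper74.
-/

namespace SBC

open Dem

section

variable {K A : Type} [Field K] [Ring A] [Algebra K A]

theorem lsb_cont {f : Cpx K A} {r : ℕ} (D : Chart f r) (X : FMod K A) :
    Continuous fun ζ : Fin r → ℝ => wt D ζ X := by
  unfold wt
  exact continuous_finsetSum _ fun j _ => (continuous_apply j).mul continuous_const

theorem lsb_closed {f : Cpx K A} {r : ℕ} (D : Chart f r) (X : FMod K A) :
    IsClosed {ζ : Fin r → ℝ | SS f (wt D ζ) X} := by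
  have h1 : IsClosed {ζ : Fin r → ℝ | TB f (wt D ζ) X} := by
    simp only [TB, Set.ofPred_and, Set.ofPred_forall]
    refine IsClosed.inter isClosed_const ?_
    refine isClosed_iInter fun Y => isClosed_iInter fun p => isClosed_iInter fun _ =>
      isClosed_iInter fun _ => ?_
    exact isClosed_le continuous_const (lsb_cont D Y)
  have h2 : IsClosed {ζ : Fin r → ℝ | FF f (wt D ζ) X} := by
    simp only [FF, Set.ofPred_and, Set.ofPred_forall]
    refine IsClosed.inter isClosed_const ?_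
    refine isClosed_iInter fun Y => isClosed_iInter fun p => isClosed_iInter fun _ =>
      isClosed_iInter fun _ => ?_
    exact isClosed_le (lsb_cont D Y) continuous_const
  exact h1.inter h2

end

theorem sbc_LSB (K A : Type) [Field K] [Ring A] [Algebra K A] [Module.Finite K A]
    (hLSA : T_LSA K A) (hNAP : T_NAP K A) (hSTO : T_STO K A) (hSTL : T_STL K A)
    (hLEC : T_LEC K A) (hWTA : T_WTA K A) (hSST : T_SST K A) : T_LSB K A := by
  intro hLR f r D 𝒳 DD hf hdom ζm hm ζ₀ hζ₀ k' S' hS' hmax ζ hζ hz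
  have hadd := (hWTA f r D).1
  have hlin := (hWTA f r D).2.1
  obtain ⟨-, -, -, hLadd, hLsm, -, -⟩ := hLEC f r D 𝒳
  let z : ℝ → Fin r → ℝ := fun t => (1 - t) • ζ₀ + t • ζ
  have hzc : Continuous z := by
    refine continuous_pi fun j => ?_
    change Continuous fun t : ℝ => (1 - t) * ζ₀ j + t * ζ j
    fun_prop
  have hz0 : ∀ t i, wt D (z t) (S' i) = 0 := by
    intro t i
    change wt D ((1 - t) • ζ₀ + t • ζ) (S' i) = 0
    rw [hlin, hz i, (hS'.1.1 i).2.2.1, mul_zero, mul_zero, add_zero]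
  -- the segment is in `P`
  have hP : ∀ t, 0 ≤ t → t ≤ 1 → z t ∈ Pcl D 𝒳 DD ζm := by
    intro t ht0 ht1
    refine ⟨hdom.add _ (hdom.smul _ (by linarith) _ hζ₀.1) _ (hdom.smul _ ht0 _ hζ.1), ?_,
      hLadd _ _ _ (hLsm _ _ _ (by linarith) hζ₀.2.2) (hLsm _ _ _ ht0 hζ.2.2)⟩
    intro h0
    have h0' : (1 - t) • ζ₀ + t • ζ = 0 := h0
    rcases eq_or_lt_of_le ht0 with h | h
    · rw [← h, sub_zero, one_smul, zero_smul, add_zero] at h0'
      exact hζ₀.2.1 h0'
    · have h1 : -ζ = ((1 - t) / t) • ζ₀ := by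
        have h2 : t • ζ = -((1 - t) • ζ₀) := by
          rw [eq_neg_iff_add_eq_zero, add_comm]
          exact h0'
        have h3 : ζ = t⁻¹ • (t • ζ) := by
          rw [smul_smul, inv_mul_cancel₀ h.ne', one_smul]
        rw [h3, h2, smul_neg, neg_neg, smul_smul]
        congr 1
        field_simp
      have h4 : 0 ≤ (1 - t) / t := div_nonneg (by linarith) h.le
      refine hNAP f r D 𝒳 DD hf hdom ζm hm ζ hζ ⟨?_, ?_, ?_⟩
      · rw [h1]
        exact hdom.smul _ h4 _ hζ₀.1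
      · rw [neg_ne_zero]
        exact hζ.2.1
      · rw [h1]
        exact hLsm _ _ _ h4 hζ₀.2.2
  have hst : ∀ t, 0 ≤ t → t ≤ 1 → (∀ i, SS f (wt D (z t)) (S' i)) →
      ∀ i, ST f (wt D (z t)) (S' i) := by
    intro t ht0 ht1 hss
    obtain ⟨k'', S'', hS''⟩ := (hSTL hLR f r D hf (z t)).1
    exact hLSA hLR f r D hf k' k'' S' S'' ζ₀ (z t) hS'.1 hS''
      (hmax _ (hP t ht0 ht1) k'' S'' hS'') hss
  let s : Set ℝ := {t | ∀ i, SS f (wt D (z t)) (S' i)}
  have hs : IsClosed s := by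
    have : s = ⋂ i, z ⁻¹' {ξ | SS f (wt D ξ) (S' i)} := by
      ext t
      simp [s]
    rw [this]
    exact isClosed_iInter fun i => (lsb_closed D (S' i)).preimage hzc
  have h0s : (0 : ℝ) ∈ s := by
    intro i
    have h1 : z 0 = ζ₀ := by
      change (1 - (0 : ℝ)) • ζ₀ + (0 : ℝ) • ζ = ζ₀
      rw [sub_zero, one_smul, zero_smul, add_zero]
    rw [h1]
    exact (((hSST f (wt D ζ₀) (hadd ζ₀)).2.2.2.2.1 (S' i)).1 (hS'.1.1 i)).1
  have hsub : Set.Icc (0 : ℝ) 1 ⊆ s := by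
    refine IsClosed.Icc_subset_of_forall_exists_gt (hs.inter isClosed_Icc) h0s ?_
    rintro t ⟨hts, ht0, ht1⟩ y hy
    obtain ⟨ρ, hρ, hρ'⟩ := hSTO f r D k' S' (z t) (hst t ht0 ht1.le hts)
    have hc : ∀ᶠ u in nhds t, ‖z u - z t‖ < ρ := by
      have h1 : Filter.Tendsto (fun u => ‖z u - z t‖) (nhds t) (nhds 0) := by
        have h2 : Continuous fun u => ‖z u - z t‖ := (hzc.sub continuous_const).norm
        have h3 := h2.tendsto t
        simp only [sub_self, norm_zero] at h3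
        exact h3
      exact h1.eventually (gt_mem_nhds hρ)
    have hc' : ∀ᶠ u in nhdsWithin t (Set.Ioi t), ‖z u - z t‖ < ρ ∧ u ∈ Set.Ioc t y := by
      refine (hc.filter_mono nhdsWithin_le_nhds).and ?_
      exact Ioc_mem_nhdsGT hy
    obtain ⟨u, hu1, hu2⟩ := hc'.exists
    refine ⟨u, ?_, hu2⟩
    intro i
    exact (((hSST f (wt D (z u)) (hadd _)).2.2.2.2.1 (S' i)).1
      (hρ' (z u) hu1 (hz0 u) i)).1
  have h1 := hst 1 zero_le_one le_rfl (hsub ⟨zero_le_one, le_rfl⟩)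
  have h2 : z 1 = ζ := by
    change (1 - (1 : ℝ)) • ζ₀ + (1 : ℝ) • ζ = ζ
    rw [sub_self, zero_smul, one_smul, zero_add]
  rw [h2] at h1
  exact h1

end SBC
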