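import Pool.Agent.H5.SBC.Targets

/-!
LSC (7.3), by helper74.
-/

namespace SBC

open Dem Filter

section

variable {K A : Type} [Field K] [Ring A] [Algebra K A]

theorem lsc_cont {f : Cpx K A} {r : ℕ} (D : Chart f r) (X : FMod K A) :
    Continuous fun ζ : Fin r → ℝ => wt D ζ X := by
  unfold wt
  exact continuous_finsetSum _ fun j _ => (continuous_apply j).mul continuous_const

theorem lsc_closed {f : Cpx K A} {r : ℕ} (D : Chart f r) (X : FMod K A) :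
    IsClosed {ζ : Fin r → ℝ | SS f (wt D ζ) X} := by
  have h1 : IsClosed {ζ : Fin r → ℝ | TB f (wt D ζ) X} := by
    simp only [TB, Set.ofPred_and, Set.ofPred_forall]
    refine IsClosed.inter isClosed_const ?_
    refine isClosed_iInter fun Y => isClosed_iInter fun p => isClosed_iInter fun _ =>
      isClosed_iInter fun _ => ?_
    exact isClosed_le continuous_const (lsc_cont D Y)
  have h2 : IsClosed {ζ : Fin r → ℝ | FF f (wt D ζ) X} := by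
    simp only [FF, Set.ofPred_and, Set.ofPred_forall]
    refine IsClosed.inter isClosed_const ?_
    refine isClosed_iInter fun Y => isClosed_iInter fun p => isClosed_iInter fun _ =>
      isClosed_iInter fun _ => ?_
    exact isClosed_le (lsc_cont D Y) continuous_const
  exact h1.inter h2

end

theorem sbc_LSC (K A : Type) [Field K] [Ring A] [Algebra K A] [Module.Finite K A]
    (hLSB : T_LSB K A) (hSTO : T_STO K A) (hPUR : T_PUR K A) (hCLB : T_CLB K A)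
    (hCLA : T_CLA K A) (hFIL : T_FIL K A) (hSTQ : T_STQ K A) (hLEC : T_LEC K A)
    (hRAT : T_RAT) (hWTA : T_WTA K A) (hSST : T_SST K A) : T_LSC K A := by
  intro hLR f r D 𝒳 DD hf hdom ζm hm hss ζ₀ hζ₀ k' S' hS' hmax
  have hadd := (hWTA f r D).1
  obtain ⟨-, hLtr, -, -, -, -, -⟩ := hLEC f r D 𝒳
  obtain ⟨-, -, -, -, hMsm, -, hMsc⟩ := hLEC f r D (MemS S')
  obtain ⟨ρ₀, hρ₀, hρ₀'⟩ := hSTO f r D k' S' ζ₀ hS'.1.1
  -- weights with the list `S'` are nonzero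
  have hne : ∀ ζ, StabList f (wt D ζ) S' → ζ ≠ 0 := by
    rintro ζ hζ rfl
    apply hζ₀.2.1
    apply D.nondeg
    intro X hX
    have h1 : SS f (wt D 0) X := by
      have h0 : ∀ Y, wt D 0 Y = 0 := fun Y => by
        unfold wt
        simp
      refine ⟨⟨hX.2, fun Y p _ _ => (h0 Y).ge⟩, ⟨hX.1, fun Y i _ _ => (h0 Y).le⟩⟩
    exact ((hFIL f (wt D ζ₀) (hadd ζ₀) k' S').2.1 (fun i => (hS'.1.1 i).1)
      (fun i => (hS'.1.1 i).2.2.1) X ((hSTQ f (wt D 0) (hadd 0)).2.2.2.1 k' S' hζ X h1)).2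
  by_contra hcon
  -- the sequences
  have hex : ∀ n : ℕ, ∃ ζ ξ : Fin r → ℝ, ‖ζ - ζ₀‖ < 2 / ((n : ℝ) + 1) ∧
      (∀ i, wt D ζ (S' i) = 0) ∧ (∀ i, ST f (wt D ζ) (S' i)) ∧
      ‖ξ‖ = 1 ∧ (∀ i, SS f (wt D ξ) (S' i)) ∧ LEX D (MemS S') ξ ζ ∧
      ¬ ∀ i, ST f (wt D ξ) (S' i) := by
    intro n
    have hn : (0 : ℝ) < 1 / ((n : ℝ) + 1) := by positivity
    obtain ⟨q, hq, hq0, hqn⟩ := hRAT.1 r k' (fun i => D.d (S' i)) ζ₀
      (fun i => (hS'.1.1 i).2.2.1) (min (1 / ((n : ℝ) + 1)) ρ₀) (lt_min hn hρ₀)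
    have hqST := hρ₀' q (lt_of_lt_of_le hqn (min_le_right _ _)) hq0
    obtain ⟨ζ, hζr, hζn, hζl, -⟩ := hPUR hLR f r D hf q hq k' S' ⟨hqST, hS'.1.2⟩ _ hn
    have h1 : ∃ ξ : Fin r → ℝ, ξ ≠ 0 ∧ (∀ i, SS f (wt D ξ) (S' i)) ∧ LEX D (MemS S') ξ ζ ∧
        ¬ ∀ i, ST f (wt D ξ) (S' i) := by
      by_contra hno
      push Not at hno
      exact hcon ⟨ζ, hζr, hne ζ hζl, hζl, hno⟩
    obtain ⟨ξ, hξ0, hξs, hξl, hξn⟩ := h1
    have hnp : 0 < ‖ξ‖ := norm_pos_iff.2 hξ0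
    refine ⟨ζ, ‖ξ‖⁻¹ • ξ, ?_, fun i => (hζl.1.1 i).2.2.1, hζl.1.1, ?_, ?_, ?_, ?_⟩
    · have h2 : ζ - ζ₀ = (ζ - q) + (q - ζ₀) := by abel
      rw [h2]
      have h3 := norm_add_le (ζ - q) (q - ζ₀)
      have h4 : ‖q - ζ₀‖ < 1 / ((n : ℝ) + 1) := lt_of_lt_of_le hqn (min_le_left _ _)
      have h5 : (2 : ℝ) / ((n : ℝ) + 1) = 1 / ((n : ℝ) + 1) + 1 / ((n : ℝ) + 1) := by ring
      linarith
    · rw [norm_smul, norm_inv, norm_norm, inv_mul_cancel₀ hnp.ne']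
    · intro i
      exact ((hMsc _ ξ (S' i) (inv_pos.2 hnp)).2.2.1).2 (hξs i)
    · exact hMsm _ _ _ (inv_nonneg.2 hnp.le) hξl
    · intro hall
      exact hξn fun i => ((hMsc _ ξ (S' i) (inv_pos.2 hnp)).2.2.2).1 (hall i)
  choose ζs ξs hζn hζ0 hζST hξn hξSS hξL hξnot using hex
  have hζlim : Tendsto ζs atTop (nhds ζ₀) := by
    rw [tendsto_iff_norm_sub_tendsto_zero]
    refine squeeze_zero (fun n => norm_nonneg _) (fun n => (hζn n).le) ?_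
    have h1 : Tendsto (fun n : ℕ => (1 : ℝ) / ((n : ℝ) + 1)) atTop (nhds 0) :=
      tendsto_one_div_add_atTop_nhds_zero_nat
    have h2 := h1.const_mul 2
    rw [mul_zero] at h2
    refine h2.congr fun n => ?_
    ring
  have hmem : ∀ n, ξs n ∈ Metric.sphere (0 : Fin r → ℝ) 1 := fun n => by
    rw [mem_sphere_zero_iff_norm]
    exact hξn n
  obtain ⟨ξ, hξ, φ, hφ, hφl⟩ := (isCompact_sphere (0 : Fin r → ℝ) 1).tendsto_subseq hmem
  have hξ0 : ξ ≠ 0 := by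
    intro h
    rw [mem_sphere_zero_iff_norm, h, norm_zero] at hξ
    exact zero_ne_one hξ
  have hξS : ∀ i, SS f (wt D ξ) (S' i) := fun i =>
    (lsc_closed D (S' i)).mem_of_tendsto hφl (Eventually.of_forall fun n => hξSS (φ n) i)
  have hfilt : ∀ X, SS f (wt D ζ₀) X → Filt S' X := fun X hX =>
    (hSTQ f (wt D ζ₀) (hadd ζ₀)).2.2.2.1 k' S' hS' X hX
  have hLξ : LEX D 𝒳 ξ ζ₀ := by
    refine hCLA f r D 𝒳 ζ₀ ξ (fun n => ζs (φ n)) (fun n => ξs (φ n))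
      (hζlim.comp hφ.tendsto_atTop) ?_ ?_ hφl
    · intro n X hX
      exact ((hFIL f (wt D (ζs (φ n))) (hadd _) k' S').2.1 (fun i => (hS'.1.1 i).1)
        (hζ0 (φ n)) X (hfilt X hX)).2
    · intro n Z hZ _
      exact hCLB f r D k' S' (ζs (φ n)) (ξs (φ n)) (hζST (φ n)) (hξSS (φ n)) (hξL (φ n)) Z hZ
  have hξP : ξ ∈ Pcl D 𝒳 DD ζm := by
    refine ⟨hdom.ss ξ fun M hM => ?_, hξ0, hLtr _ _ _ hLξ hζ₀.2.2⟩
    exact (hFIL f (wt D ξ) (hadd _) k' S').1 hξS M (hfilt M (hss ζ₀ hζ₀ M hM))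
  have hξw : ∀ i, wt D ξ (S' i) = 0 := fun i => ((hSST f (wt D ξ) (hadd ξ)).1 _ (hξS i)).2
  have hξST := hLSB hLR f r D 𝒳 DD hf hdom ζm hm ζ₀ hζ₀ k' S' hS' hmax ξ hξP hξw
  obtain ⟨ρ, hρ, hρ'⟩ := hSTO f r D k' S' ξ hξST
  have hev : ∀ᶠ n in atTop, ‖ξs (φ n) - ξ‖ < ρ := by
    have h1 := (tendsto_iff_norm_sub_tendsto_zero.1 hφl)
    exact h1.eventually (gt_mem_nhds hρ)
  obtain ⟨n, hn⟩ := hev.exists
  exact hξnot (φ n) (hρ' _ hn fun i =>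
    ((hSST f (wt D (ξs (φ n))) (hadd _)).1 _ (hξSS (φ n) i)).2)

end SBC
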