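import Pool.Agent.H5.SBC.Targets

/-!
Module MIN: minimal elements.
-/

namespace SBC

open Dem Filter

theorem sbc_MIN (K A : Type) [Field K] [Ring A] [Algebra K A] [Module.Finite K A]
    (hLEC : T_LEC K A) : T_MIN K A := by
  intro f r D 𝒳 DD hcl hcone ζ₀ hζ₀ hne₀
  obtain ⟨hrefl, htrans, hclosed, -, hsmul, -, -⟩ := hLEC f r D 𝒳
  let α := {ζ : Fin r → ℝ // ζ ∈ DD ∧ ζ ≠ 0 ∧ LEX D 𝒳 ζ ζ₀}
  have hzorn : ∃ m : α, ∀ a : α, LEX D 𝒳 a.1 m.1 → LEX D 𝒳 m.1 a.1 := by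
    refine exists_maximal_of_chains_bounded (r := fun a b : α => LEX D 𝒳 b.1 a.1) ?_ ?_
    · intro c hc
      rcases c.eq_empty_or_nonempty with rfl | hcne
      · exact ⟨⟨ζ₀, hζ₀, hne₀, hrefl ζ₀⟩, by simp⟩
      · have : Nonempty c := hcne.to_subtype
        let Kc : c → Set (Fin r → ℝ) := fun a =>
          (DD ∩ Metric.sphere 0 1) ∩ {ζ | LEX D 𝒳 ζ a.1.1}
        have hcompact : ∀ a, IsCompact (Kc a) := fun a =>
          ((isCompact_sphere (0 : Fin r → ℝ) 1).inter_left hcl).inter_right (hclosed _)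
        have hnonempty : ∀ a, (Kc a).Nonempty := by
          intro a
          have h1 := a.1.2
          have hn : 0 < ‖a.1.1‖ := norm_pos_iff.mpr h1.2.1
          refine ⟨‖a.1.1‖⁻¹ • a.1.1, ⟨hcone _ (by positivity) _ h1.1, ?_⟩, ?_⟩
          · rw [mem_sphere_zero_iff_norm, norm_smul, norm_inv, norm_norm, inv_mul_cancel₀ hn.ne']
          · exact hsmul _ _ _ (by positivity) (hrefl _)
        have hdir : Directed (· ⊇ ·) Kc := by
          intro a b
          rcases eq_or_ne a b with rfl | hab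
          · exact ⟨a, subset_rfl, subset_rfl⟩
          · rcases hc a.2 b.2 (fun h => hab (Subtype.ext h)) with h | h
            · exact ⟨b, fun ζ hζ => ⟨hζ.1, htrans _ _ _ hζ.2 h⟩, subset_rfl⟩
            · exact ⟨a, subset_rfl, fun ζ hζ => ⟨hζ.1, htrans _ _ _ hζ.2 h⟩⟩
        obtain ⟨ζ, hζ⟩ := IsCompact.nonempty_iInter_of_directed_nonempty_isCompact_isClosed Kc hdir
          hnonempty hcompact (fun a => (hcompact a).isClosed)
        rw [Set.mem_iInter] at hζ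
        obtain ⟨a₀⟩ := this
        have h0 := hζ a₀
        have hne : ζ ≠ 0 := by
          rintro rfl
          have := h0.1.2
          simp at this
        refine ⟨⟨ζ, h0.1.1, hne, htrans _ _ _ h0.2 a₀.1.2.2.2⟩, fun a ha => (hζ ⟨a, ha⟩).2⟩
    · intro a b c h1 h2
      exact htrans _ _ _ h2 h1
  obtain ⟨m, hm⟩ := hzorn
  refine ⟨m.1, ⟨m.2.1, m.2.2.1, fun ζ hζ hne hle => ?_⟩, m.2.2.2⟩
  exact hm ⟨ζ, hζ, hne, htrans _ _ _ hle m.2.2.2⟩ hle

end SBC
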