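import Pool.Agent.H5.SBC.Targets

namespace SBC

open Dem

variable {K A : Type} [Field K] [Ring A] [Algebra K A]

private theorem nap_neg {f : Cpx K A} {r : ℕ} (D : Chart f r) (X : FMod K A)
    (a : Fin r → ℝ) : wt D (-a) X = - wt D a X := by
  unfold wt
  rw [← Finset.sum_neg_distrib]
  exact Finset.sum_congr rfl fun j _ => by simp

private theorem nap_zero {f : Cpx K A} {w : FMod K A → ℝ} (hw : AddOn f w)
    (hWID : T_WID K A) [Module.Finite K A] (X : FMod K A) (hX : Subsingleton X) : w X = 0 := by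
  have hW : InW f X := hWID.2.2.2.1 f X hX
  have := hw X X X LinearMap.id LinearMap.id hW hW hW
    (ses_left_zero _ _ hX Function.bijective_id)
  linarith

theorem sbc_NAP (K A : Type) [Field K] [Ring A] [Algebra K A] [Module.Finite K A]
    (hTPR : T_TPR K A) (hRAD : T_RAD K A) (hWID : T_WID K A) (hWTA : T_WTA K A)
    (hCLO : T_CLO K A) (hHOM : T_HOM K A) : T_NAP K A := by
  intro f r D 𝒳 DD hf hDom ζm hmin ζ hζ hnζ
  have hle : LEX D 𝒳 ζm ζ := hmin.2.2 ζ hζ.1 hζ.2.1 hζ.2.2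
  have hle' : LEX D 𝒳 ζm (-ζ) := hmin.2.2 (-ζ) hnζ.1 hnζ.2.1 hnζ.2.2
  have hge : LEX D 𝒳 ζ ζm := hζ.2.2
  have hge' : LEX D 𝒳 (-ζ) ζm := hnζ.2.2
  -- F_X(zeta) = F_X(-zeta)
  have hF : ∀ Z, (FF f (wt D ζ) Z ∧ Perp 𝒳 Z) ↔ (FF f (wt D (-ζ)) Z ∧ Perp 𝒳 Z) := by
    intro Z
    constructor
    · rintro ⟨h1, h2⟩
      exact ⟨hge' Z (hle Z h1 h2) h2, h2⟩
    · rintro ⟨h1, h2⟩
      exact ⟨hge Z (hle' Z h1 h2) h2, h2⟩
  have hadd : ∀ ξ, AddOn f (wt D ξ) := (hWTA f r D).1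
  have hTF : TFCls (fun Z => FF f (wt D ζ) Z ∧ Perp 𝒳 Z) := by
    have h1 := (hCLO.1 f (wt D ζ) (hadd ζ)).2.2.1
    have h2 := hCLO.2.2.1 𝒳
    exact ⟨fun X hX => ⟨h1.zero X hX, h2.zero X hX⟩,
      fun X Y i hi hY => ⟨h1.sub X Y i hi hY.1, h2.sub X Y i hi hY.2⟩,
      fun X Y Z i p hs hX hZ => ⟨h1.ext X Y Z i p hs hX.1 hZ.1, h2.ext X Y Z i p hs hX.2 hZ.2⟩⟩
  have hTB : ∀ ξ, ξ ∈ DD → ∀ N, (∀ Z, (FF f (wt D ξ) Z ∧ Perp 𝒳 Z) → Hom0 N Z) →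
      TB f (wt D ξ) N := by
    intro ξ hξ N hN
    have hT := (hTPR f (wt D ξ) hf (hadd ξ)).2
    apply hT.2.1 N
    intro Z hZ
    apply hN Z
    refine ⟨⟨hZ.1, fun X i hX hi => ?_⟩, fun M hM => ?_⟩
    · rcases subsingleton_or_nontrivial X with hX0 | hX0
      · exact (nap_zero (hadd ξ) hWID X hX0).le
      · exact (hZ.2 X i hX hX0 hi).le
    · exact hT.1 M Z (hDom.tb ξ hξ M hM) hZ
  apply hζ.2.1
  apply D.nondeg ζ
  intro X0 hX0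
  show wt D ζ X0 = 0
  obtain ⟨N, Q, i, p, hs, hQ, hN⟩ := hRAD.2 _ hTF X0
  have hQ' : FF f (wt D (-ζ)) Q ∧ Perp 𝒳 Q := (hF Q).1 hQ
  have hNW : InW f N := by
    refine ⟨?_, ?_⟩
    · have := hHOM.2.2.2.2.2.2.1 f N X0 i hs.inj
      have h0 := hX0.1
      omega
    · exact (hWID.2.1 f N X0 Q i p hs).2.2.2.2 hQ.1.1 hX0.2
  have hQW : InW f Q := by
    refine ⟨hQ.1.1, ?_⟩
    have := hHOM.2.2.2.2.2.1 f X0 Q p hs.surj
    have h0 := hX0.2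
    omega
  have e1 : 0 ≤ wt D ζ N :=
    (hTB ζ hζ.1 N hN).2 N LinearMap.id hNW Function.surjective_id
  have e2 : 0 ≤ wt D (-ζ) N :=
    (hTB (-ζ) hnζ.1 N (fun Z hZ => hN Z ((hF Z).2 hZ))).2 N LinearMap.id hNW
      Function.surjective_id
  have e3 : wt D ζ Q ≤ 0 := hQ.1.2 Q LinearMap.id hQW Function.injective_id
  have e4 : wt D (-ζ) Q ≤ 0 := hQ'.1.2 Q LinearMap.id hQW Function.injective_id
  rw [nap_neg] at e2 e4
  have e5 := hadd ζ N X0 Q i p hNW hX0 hQW hs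
  linarith

end SBC
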