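import Pool.Agent.H5.SBC.Targets

/-! Module OPN of the board sbc_modules (helper88): openness. -/

namespace SBC

open Dem

private theorem opn_wt_sub {K A : Type} [Field K] [Ring A] [Algebra K A] {f : Cpx K A} {r : ℕ}
    (D : Chart f r) (a b : Fin r → ℝ) (X : FMod K A) :
    wt D (a - b) X = wt D a X - wt D b X := by
  unfold wt
  rw [← Finset.sum_sub_distrib]
  exact Finset.sum_congr rfl fun j _ => by rw [Pi.sub_apply]; ring

private theorem opn_num {C m a b x y t d e : ℝ} (hC : 0 < C) (hm : 0 < m) (ha : 0 ≤ a) (hb : 0 ≤ b)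
    (hda : d ≤ a + b) (he0 : 0 ≤ e) (he : e < 1 / (m * C * (a + b + 1)))
    (hxy : |x - y| ≤ C * e * d) (h1 : 1 ≤ m * t * y) (h2 : t * x ≤ 0) (ht : |t| = 1) : False := by
  have h3 : C * e * d ≤ C * e * (a + b) := by
    apply mul_le_mul_of_nonneg_left hda; positivity
  have h4 : e * (m * C * (a + b + 1)) < 1 := by
    rwa [lt_div_iff₀ (by positivity)] at he
  have h5 : |t * y - t * x| ≤ C * e * d := by
    rw [← mul_sub, abs_mul, ht, one_mul, abs_sub_comm]; exact hxy
  have h6 : t * y ≤ C * e * (a + b) := by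
    have := le_abs_self (t * y - t * x)
    linarith
  have h7 : m * (t * y) ≤ m * (C * e * (a + b)) := mul_le_mul_of_nonneg_left h6 hm.le
  have h8 : 0 ≤ e * (m * C) := by positivity
  nlinarith

theorem sbc_OPN (K A : Type) [Field K] [Ring A] [Algebra K A] [Module.Finite K A]
    (h1 : T_RGG K A) (h2 : T_RRB K A) (h3 : T_WID K A) (h4 : T_HOM K A) (h5 : T_BDD K A) :
    T_OPN K A := by
  intro hLR f r D hf ζ₁ hq
  obtain ⟨g, m, hm, hfg, hcls⟩ := h1 hLR f r D hf ζ₁ hq
  obtain ⟨⟨C, hC, hCb⟩, -⟩ := h5 f r D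
  obtain ⟨hw1, -, -, -, -⟩ := h3
  obtain ⟨ho1, ho2, ho3, ho4, ho5, ho6, ho7, -⟩ := h4
  have hmR : (0 : ℝ) < m := by exact_mod_cast hm
  have hrs := (rigid_sum_iff f g).1 hfg
  have hfgH : ee f g.H = 0 := (van_iff_ee _ _).1 hrs.1.2
  have hgfH : ee g f.H = 0 := (van_iff_ee _ _).1 hrs.2.1
  have hg : g.Rigid := hrs.2.2
  have hgH : ee g g.H = 0 := (ho3 g).1 hg
  have hgt : hh g (tau g) = 0 := (ho4 g).1 hg
  have hft : hh f (tau g) = 0 := by rw [← ho5 g f]; exact hgfH
  have hrrb := h2 f g (wt D ζ₁) (1 / m) hfg (by positivity) (fun X hX => by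
    rw [hcls X hX]; field_simp)
  set a : ℝ := ((Module.finrank K g.H : ℕ) : ℝ) with ha
  set b : ℝ := ((Module.finrank K (tau g) : ℕ) : ℝ) with hb
  have ha0 : 0 ≤ a := by positivity
  have hb0 : 0 ≤ b := by positivity
  refine ⟨1 / (m * C * (a + b + 1)), by positivity, fun ζ' hζ => ⟨fun Z hZ => ?_, fun Y hY => ?_⟩⟩
  · rw [hrrb.1 Z]
    refine ⟨hZ.1, ?_⟩
    by_contra hne
    have hn0 : ¬ Hom0 g.H Z := fun h => hne ((ho1 g Z).2 h)
    unfold Hom0 at hn0
    push Not at hn0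
    obtain ⟨φ, hφ⟩ := hn0
    obtain ⟨I, p, i, hI, hp, hi, hip⟩ := hw1 f g.H Z φ hfgH hZ.1
    have he0 : ee g I = 0 := Nat.le_zero.1 ((ho6 g g.H I p hp).trans hgH.le)
    have hh1 : hh g I ≠ 0 := by
      intro h0
      have hp0 := (ho1 g I).1 h0 p
      apply hφ
      rw [← hip, hp0, LinearMap.comp_zero]
    have hc : (1 : ℤ) ≤ cls g I := by
      rw [← hh_sub_ee, he0]
      have := Nat.one_le_iff_ne_zero.2 hh1
      push_cast
      omega
    have hcR : (1 : ℝ) ≤ m * wt D ζ₁ I := by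
      rw [← hcls I hI]; exact_mod_cast hc
    have hle := hZ.2 I i hI hi
    have hdim : (Module.finrank K I : ℝ) ≤ a + b := by
      have h6 : (Module.finrank K I : ℝ) ≤ a := by
        rw [ha]; exact_mod_cast surj_finrank_le p hp
      linarith
    have hb1 := hCb I hI (ζ' - ζ₁)
    rw [opn_wt_sub] at hb1
    exact opn_num (t := 1) hC hmR ha0 hb0 hdim (norm_nonneg _) hζ hb1
      (by linarith) (by linarith) (by simp)
  · rw [hrrb.2.1 Y]
    refine ⟨hY.1, ?_⟩
    by_contra hne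
    have hn0 : ¬ Hom0 Y (tau g) := fun h => hne ((ho2 g Y).2 h)
    unfold Hom0 at hn0
    push Not at hn0
    obtain ⟨φ, hφ⟩ := hn0
    obtain ⟨I, p, i, hI, hp, hi, hip⟩ := hw1 f Y (tau g) φ hY.1 hft
    have hh0 : hh g I = 0 := Nat.le_zero.1 ((ho7 g I (tau g) i hi).trans hgt.le)
    have he1 : ee g I ≠ 0 := by
      intro h0
      have hi0 := (ho2 g I).1 h0 i
      apply hφ
      rw [← hip, hi0, LinearMap.zero_comp]
    have hc : cls g I ≤ (-1 : ℤ) := by
      rw [← hh_sub_ee, hh0]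
      have := Nat.one_le_iff_ne_zero.2 he1
      push_cast
      omega
    have hcR : m * wt D ζ₁ I ≤ (-1 : ℝ) := by
      rw [← hcls I hI]; exact_mod_cast hc
    have hle := hY.2 I p hI hp
    have hdim : (Module.finrank K I : ℝ) ≤ a + b := by
      have h6 : (Module.finrank K I : ℝ) ≤ b := by
        rw [hb]; exact_mod_cast inj_finrank_le i hi
      linarith
    have hb1 := hCb I hI (ζ' - ζ₁)
    rw [opn_wt_sub] at hb1
    exact opn_num (t := -1) hC hmR ha0 hb0 hdim (norm_nonneg _) hζ hb1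
      (by linarith) (by linarith) (by simp)

end SBC
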