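import Pool.Agent.H5.SBC.Targets

/-!
# Module PUN: stability near a rational weight
-/

namespace SBC

open Dem

theorem sbc_PUN (K A : Type) [Field K] [Ring A] [Algebra K A] [Module.Finite K A]
    (hO : T_OPN K A) (hL : T_LOC K A) (hQ : T_STQ K A) (hFil : T_FIL K A) (hS : T_SST K A)
    (hWT : T_WTA K A) : T_PUN K A := by
  intro hLR f r D hf ζ₁ hrat k S hStab
  obtain ⟨ρ, hρ, hρ'⟩ := hO hLR f r D hf ζ₁ hrat
  refine ⟨ρ, hρ, fun ζ' hζ' hz => ?_⟩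
  obtain ⟨o1, o2⟩ := hρ' ζ' hζ'
  obtain ⟨w1, -⟩ := hWT f r D
  obtain ⟨l1, -, l3, -⟩ := hL f (wt D ζ₁) (wt D ζ') hf (w1 ζ₁) (w1 ζ') o1 o2
  have hInW : ∀ i, InW f (S i) := fun i => (hStab.1.1 i).1
  have hzero : ∀ X, SS f (wt D ζ₁) X → wt D ζ' X = 0 := by
    intro X hX
    have h1 := (hQ f (wt D ζ₁) (w1 ζ₁)).2.2.2.1 k S hStab X hX
    exact ((hFil f (wt D ζ') (w1 ζ') k S).2.1 hInW hz X h1).2
  have hFF : ∀ Z, FF f (wt D ζ') Z ↔ FF f (wt D ζ₁) Z := by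
    intro Z
    rw [l1]
    exact ⟨fun h => h.1, fun h => ⟨h, fun X i hX _ => (hzero X hX).le⟩⟩
  have hTB : ∀ Y, TB f (wt D ζ') Y ↔ TB f (wt D ζ₁) Y := by
    intro Z
    rw [l3]
    exact ⟨fun h => h.1, fun h => ⟨h, fun X i hX _ => (hzero X hX).ge⟩⟩
  have hSS : ∀ X, SS f (wt D ζ') X ↔ SS f (wt D ζ₁) X := by
    intro X
    unfold SS
    rw [hFF, hTB]
  have hST : ∀ X, ST f (wt D ζ') X ↔ ST f (wt D ζ₁) X := by
    intro X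
    rw [(hS f (wt D ζ') (w1 ζ')).2.2.2.2.1, (hS f (wt D ζ₁) (w1 ζ₁)).2.2.2.2.1]
    simp only [hSS]
  refine ⟨hFF, hTB, ⟨fun i => (hST _).2 (hStab.1.1 i), hStab.1.2⟩, fun C hC => ?_⟩
  exact hStab.2 C ((hST C).1 hC)

end SBC
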