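import Pool.Agent.H5.SBC.Targets

/-!
# PUR (4.7): pure rational weights (helper59)
-/

set_option autoImplicit false

namespace SBC

open Dem

variable {K A : Type} [Field K] [Ring A] [Algebra K A]

/-- additive weights vanish on zero modules -/
theorem pur_zero {f : Cpx K A} {w : FMod K A → ℝ} (hw : AddOn f w) {X : FMod K A}
    (hX : Subsingleton X) (hW : InW f X) : w X = 0 := by
  have h := hw X X X 0 0 hW hW hW (ses_left_zero 0 0 hX
    ⟨fun a b _ => Subsingleton.elim a b, fun a => ⟨0, Subsingleton.elim _ _⟩⟩)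
  linarith

/-- weights which are nonpositive on the members are nonpositive on filtered objects -/
theorem pur_filt {f : Cpx K A} {w : FMod K A → ℝ} (hw : AddOn f w) [Module.Finite K A]
    (hWID : T_WID K A) (hCLO : T_CLO K A) {k : ℕ} (S : Fin k → FMod K A)
    (hS : ∀ i, InW f (S i)) (hneg : ∀ i, w (S i) ≤ 0) (X : FMod K A) (hX : Filt S X) :
    InW f X ∧ w X ≤ 0 := by
  refine hX (fun X => InW f X ∧ w X ≤ 0) ?_ ?_ ?_
  · intro Y hY
    have hW : InW f Y := hWID.2.2.2.1 f Y hY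
    exact ⟨hW, (pur_zero hw hY hW).le⟩
  · intro Y i hY
    have hW : InW f Y := hWID.2.2.1 f (S i) Y (hY.map LinearEquiv.symm) (hS i)
    refine ⟨hW, ?_⟩
    rcases (hCLO.2.2.2.2 f w hw Y (S i) hY).1 with h | h
    · rw [h]; exact hneg i
    · exact absurd hW h
  · rintro X Y Z i p hses ⟨hX1, hX2⟩ ⟨hZ1, hZ2⟩
    have hY : InW f Y := (hWID.2.1 f X Y Z i p hses).2.2.1 hX1 hZ1
    refine ⟨hY, ?_⟩
    rw [hw X Y Z i p hX1 hY hZ1 hses]
    linarith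

/-- PUR -/
theorem sbc_PUR (K A : Type) [Field K] [Ring A] [Algebra K A] [Module.Finite K A]
    (hSTW : T_STW K A) (hLOC : T_LOC K A) (hOPN : T_OPN K A) (hSTL : T_STL K A)
    (hSST : T_SST K A) (hSTQ : T_STQ K A) (hWTA : T_WTA K A) (hCLO : T_CLO K A)
    (hWID : T_WID K A) : T_PUR K A := by
  classical
  intro hLR f r D hf ζ₁ hζ₁ k S hS ρ hρ
  obtain ⟨hadd, hlin, -, -, -⟩ := hWTA f r D
  obtain ⟨⟨k₀, S₀, hS₀⟩, -⟩ := hSTL hLR f r D hf ζ₁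
  obtain ⟨⟨c, hc⟩, -, -⟩ := hSTW hLR f r D hf ζ₁ k₀ S₀ hS₀.1
  obtain ⟨ρ', hρ', hopn⟩ := hOPN hLR f r D hf ζ₁ hζ₁
  -- the members of the complete list which are not in `S`
  obtain ⟨J, hJ⟩ : ∃ J : Fin k₀ → Prop, ∀ i, J i ↔ ∀ j, IsEmpty (S₀ i ≃ₗ[A] S j) :=
    ⟨_, fun _ => Iff.rfl⟩
  set v : Fin r → ℝ := fun j => ∑ i with J i, (c i j : ℝ) with hv
  obtain ⟨δ, hδ0, hδ⟩ : ∃ δ : ℚ, 0 < δ ∧ (δ : ℝ) * ‖v‖ < min ρ ρ' := by
    have hmin : 0 < min ρ ρ' := lt_min hρ hρ'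
    have h1 : 0 < min ρ ρ' / (‖v‖ + 1) := by positivity
    obtain ⟨δ, h2, h3⟩ := exists_rat_btwn h1
    refine ⟨δ, by exact_mod_cast h2, ?_⟩
    rw [lt_div_iff₀ (by positivity)] at h3
    have h4 : (0 : ℝ) < δ := h2
    nlinarith [norm_nonneg v]
  have hδ0' : (0 : ℝ) < δ := by exact_mod_cast hδ0
  set ζ₂ : Fin r → ℝ := (1 : ℝ) • ζ₁ + (-(δ : ℝ)) • v with hζ₂
  have hdist : ‖ζ₂ - ζ₁‖ = δ * ‖v‖ := by
    have : ζ₂ - ζ₁ = (-(δ : ℝ)) • v := by rw [hζ₂, one_smul]; abel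
    rw [this, norm_smul, norm_neg, Real.norm_of_nonneg hδ0'.le]
  have hrat : IsRat ζ₂ := by
    obtain ⟨q, hq⟩ := hζ₁
    refine ⟨fun j => q j - δ * ∑ i with J i, c i j, fun j => ?_⟩
    rw [hζ₂]
    simp only [Pi.add_apply, Pi.smul_apply, smul_eq_mul, hv, hq]
    push_cast
    ring
  -- values of the new weight
  have hval : ∀ X : FMod K A, wt D ζ₂ X = wt D ζ₁ X - δ * wt D v X := by
    intro X
    rw [hζ₂, hlin]
    ring
  have hvX : ∀ X : FMod K A, wt D v X = ∑ i with J i, ((∑ j, c i j * D.d X j : ℚ) : ℝ) := by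
    intro X
    unfold wt
    simp only [hv, Finset.sum_mul]
    rw [Finset.sum_comm]
    refine Finset.sum_congr rfl fun i _ => ?_
    push_cast
    rfl
  have hvS : ∀ i, (J i → 0 < wt D v (S₀ i)) ∧ (¬ J i → wt D v (S₀ i) = 0) := by
    intro i
    rw [hvX]
    constructor
    · intro hi
      rw [Finset.sum_eq_single_of_mem i (by rw [Finset.mem_filter]; exact ⟨Finset.mem_univ _, hi⟩)
        (fun i' _ hne => by rw [(hc i').2 i hne.symm]; norm_num)]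
      exact_mod_cast (hc i).1
    · intro hi
      refine Finset.sum_eq_zero fun i' hi' => ?_
      rw [Finset.mem_filter] at hi'
      have hne : i ≠ i' := by
        rintro rfl
        exact hi hi'.2
      rw [(hc i').2 i hne]
      norm_num
  have hw₁ := hadd ζ₁
  have hw₂ := hadd ζ₂
  have hS₀SS : ∀ i, SS f (wt D ζ₁) (S₀ i) := fun i =>
    (((hSST f _ hw₁).2.2.2.2.1 (S₀ i)).1 (hS₀.1.1 i)).1
  have hS₀W : ∀ i, InW f (S₀ i) ∧ wt D ζ₁ (S₀ i) = 0 := fun i =>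
    (hSST f _ hw₁).1 _ (hS₀SS i)
  have hS₀val : ∀ i, wt D ζ₂ (S₀ i) = - (δ * wt D v (S₀ i)) := by
    intro i
    rw [hval, (hS₀W i).2]
    ring
  have hS₀neg : ∀ i, wt D ζ₂ (S₀ i) ≤ 0 := by
    intro i
    rw [hS₀val]
    by_cases hi : J i
    · have := (hvS i).1 hi
      have := mul_pos hδ0' this
      linarith
    · rw [(hvS i).2 hi]
      simp
  -- nonpositive on semistable objects
  have hneg : ∀ X, SS f (wt D ζ₁) X → wt D ζ₂ X ≤ 0 := by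
    intro X hX
    exact (pur_filt hw₂ hWID hCLO S₀ (fun i => (hS₀W i).1) hS₀neg X
      ((hSTQ f _ hw₁).2.2.2.1 k₀ S₀ hS₀ X hX)).2
  have hnear : ‖ζ₂ - ζ₁‖ < ρ' := by
    rw [hdist]
    exact lt_of_lt_of_le hδ (min_le_right _ _)
  obtain ⟨hFF, hTB⟩ := hopn ζ₂ hnear
  obtain ⟨l1, -, l3, -⟩ := hLOC f (wt D ζ₁) (wt D ζ₂) hf hw₁ hw₂ hFF hTB
  have hFFeq : ∀ Z, FF f (wt D ζ₂) Z ↔ FF f (wt D ζ₁) Z := by
    intro Z
    rw [l1]
    exact ⟨fun h => h.1, fun h => ⟨h, fun X i hX _ => hneg X hX⟩⟩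
  have hSST₁ := hSST f _ hw₁
  have hSST₂ := hSST f _ hw₂
  -- semistable objects of the new weight
  have hSSiff : ∀ X, SS f (wt D ζ₂) X ↔ SS f (wt D ζ₁) X ∧ wt D ζ₂ X = 0 := by
    intro X
    constructor
    · intro h
      exact ⟨⟨hTB X h.1, hFF X h.2⟩, (hSST₂.1 X h).2⟩
    · rintro ⟨h1, h2⟩
      have hXW := (hSST₁.1 X h1).1
      refine ⟨(l3 X).2 ⟨h1.1, ?_⟩, (hFFeq X).2 h1.2⟩
      intro X' p hX' hp
      obtain ⟨N, i, hses⟩ := exists_ker p hp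
      have hX'W := hSST₁.1 X' hX'
      have hNW : InW f N := (hWID.2.1 f N X X' i p hses).2.1 hXW hX'W.1
      have hN1 : wt D ζ₁ N = 0 := by
        have := hw₁ N X X' i p hNW hXW hX'W.1 hses
        rw [(hSST₁.1 X h1).2, hX'W.2] at this
        linarith
      have hNSS : SS f (wt D ζ₁) N := ((hSST₁.2.2.1 N X X' i p hses).1 h1 hNW hN1).1
      have h3 := hw₂ N X X' i p hNW hXW hX'W.1 hses
      have h4 := hneg N hNSS
      rw [h2] at h3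
      linarith
  refine ⟨ζ₂, hrat, ?_, ⟨⟨?_, hS.2⟩, ?_⟩, hFFeq⟩
  · rw [hdist]
    exact lt_of_lt_of_le hδ (min_le_left _ _)
  · -- the members of `S` are stable
    intro j
    have hst := hS.1 j
    obtain ⟨i, ⟨e⟩⟩ := hS₀.2 (S j) hst
    have hi : ¬ J i := by
      rw [hJ]
      intro h
      exact (h j).elim' e.symm
    have hSSj : SS f (wt D ζ₁) (S j) := ((hSST₁.2.2.2.2.1 (S j)).1 hst).1
    have hW := (hSST₁.1 _ hSSj).1
    have h0 : wt D ζ₂ (S j) = 0 := by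
      rcases (hCLO.2.2.2.2 f _ hw₂ (S j) (S₀ i) ⟨e⟩).1 with h | h
      · rw [h, hS₀val, (hvS i).2 hi]
        simp
      · exact absurd hW h
    rw [hSST₂.2.2.2.2.1]
    refine ⟨(hSSiff _).2 ⟨hSSj, h0⟩, ((hSST₁.2.2.2.2.1 (S j)).1 hst).2.1, ?_⟩
    intro X i' hX hXn hi'
    exact ((hSST₁.2.2.2.2.1 (S j)).1 hst).2.2 X i' ((hSSiff X).1 hX).1 hXn hi'
  · -- the list is complete
    intro C hC
    obtain ⟨hCSS, hCn, hCsub⟩ := (hSST₂.2.2.2.2.1 C).1 hC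
    obtain ⟨hCSS₁, hC0⟩ := (hSSiff C).1 hCSS
    obtain ⟨-, C', i', hC'st, hi'⟩ := (hSTQ f _ hw₁).1 C hCSS₁ hCn
    obtain ⟨hC'SS, hC'n, -⟩ := (hSST₁.2.2.2.2.1 C').1 hC'st
    obtain ⟨Q, p, hses⟩ := exists_coker i' hi'
    have hC'W := hSST₁.1 C' hC'SS
    have hCW := (hSST₁.1 C hCSS₁).1
    have hQSS : SS f (wt D ζ₁) Q := ((hSST₁.2.2.1 C' C Q i' p hses).1 hCSS₁ hC'W.1 hC'W.2).2
    have hQW := (hSST₁.1 Q hQSS).1
    have h3 := hw₂ C' C Q i' p hC'W.1 hCW hQW hses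
    have h4 := hneg C' hC'SS
    have h5 := hneg Q hQSS
    have hC'0 : wt D ζ₂ C' = 0 := by
      rw [hC0] at h3
      linarith
    have hsurj := hCsub C' i' ((hSSiff C').2 ⟨hC'SS, hC'0⟩) hC'n hi'
    have e1 : C' ≃ₗ[A] C := LinearEquiv.ofBijective i' ⟨hi', hsurj⟩
    obtain ⟨i, ⟨e2⟩⟩ := hS₀.2 C' hC'st
    have hi : ¬ J i := by
      intro h
      have h6 := (hvS i).1 h
      have h7 : wt D ζ₂ (S₀ i) = 0 := by
        rcases (hCLO.2.2.2.2 f _ hw₂ C' (S₀ i) ⟨e2⟩).1 with h | h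
        · rw [← h, hC'0]
        · exact absurd hC'W.1 h
      rw [hS₀val] at h7
      have := mul_pos hδ0' h6
      linarith
    rw [hJ] at hi
    push Not at hi
    obtain ⟨j, ⟨e3⟩⟩ := hi
    exact ⟨j, ⟨(e1.symm.trans e2).trans e3⟩⟩

end SBC
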