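import Pool.Agent.H5.SBC.Targets

/-! RAD: torsion radicals. -/

namespace SBC

open Dem

theorem rad_max {P : ℕ → Prop} (b : ℕ) (hb : ∀ n, P n → n ≤ b) (h0 : P 0) :
    ∃ n, P n ∧ ∀ m, P m → m ≤ n := by
  have hne : {n | P n}.Nonempty := ⟨0, h0⟩
  have hbd : BddAbove {n | P n} := ⟨b, fun n hn => hb n hn⟩
  exact ⟨sSup {n | P n}, Nat.sSup_mem hne hbd, fun m hm => le_csSup hbd hm⟩

theorem sbc_RAD (K A : Type) [Field K] [Ring A] [Algebra K A] [Module.Finite K A] :
    T_RAD K A := by
  refine ⟨?_, ?_⟩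
  · intro T hT L
    obtain ⟨n, ⟨N, i, hi, hN, hn⟩, hmax⟩ := rad_max (P := fun n => ∃ (N : FMod K A)
        (i : N →ₗ[A] L), Function.Injective i ∧ T N ∧ Module.finrank K N = n)
      (Module.finrank K L) (by
        rintro n ⟨N, i, hi, -, rfl⟩
        exact inj_finrank_le i hi) (by
        have hs : Subsingleton (FMod.zero : FMod K A) :=
          (inferInstance : Subsingleton PUnit)
        exact ⟨FMod.zero, 0, fun a b _ => Subsingleton.elim a b, hT.zero _ hs,
          (subsingleton_iff _).1 hs⟩)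
    obtain ⟨Q, p, h⟩ := exists_coker i hi
    refine ⟨N, Q, i, p, h, hN, fun Y hY φ => ?_⟩
    obtain ⟨I, a, j, ha, hj, hja⟩ := exists_image φ
    have hI : T I := hT.quo _ _ a ha hY
    obtain ⟨Y', i', p', j', h', hj', -, -⟩ := h.preimage j hj
    have h1 := hmax _ ⟨Y', j', hj', hT.ext _ _ _ i' p' h' hN hI, rfl⟩
    have h2 := h'.finrank
    have h3 : Module.finrank K I = 0 := by omega
    have h4 : Subsingleton I := (subsingleton_iff I).2 h3
    rw [← hja]
    ext y
    change j (a y) = 0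
    rw [Subsingleton.elim (a y) 0, map_zero]
  · intro F hF L
    obtain ⟨n, ⟨Q, p, hp, hQ, hn⟩, hmax⟩ := rad_max (P := fun n => ∃ (Q : FMod K A)
        (p : L →ₗ[A] Q), Function.Surjective p ∧ F Q ∧ Module.finrank K Q = n)
      (Module.finrank K L) (by
        rintro n ⟨Q, p, hp, -, rfl⟩
        exact surj_finrank_le p hp) (by
        have hs : Subsingleton (FMod.zero : FMod K A) :=
          (inferInstance : Subsingleton PUnit)
        exact ⟨FMod.zero, 0, fun a => ⟨0, Subsingleton.elim _ _⟩, hF.zero _ hs,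
          (subsingleton_iff _).1 hs⟩)
    obtain ⟨N, i, h⟩ := exists_ker p hp
    refine ⟨N, Q, i, p, h, hQ, fun Z hZ φ => ?_⟩
    obtain ⟨I, a, j, ha, hj, hja⟩ := exists_image φ
    have hI : F I := hF.sub _ _ j hj hZ
    obtain ⟨Y', i', p', q', h', hq', -, -⟩ := h.pushout a ha
    have h1 := hmax _ ⟨Y', q', hq', hF.ext _ _ _ i' p' h' hI hQ, rfl⟩
    have h2 := h'.finrank
    have h3 : Module.finrank K I = 0 := by omega
    have h4 : Subsingleton I := (subsingleton_iff I).2 h3
    rw [← hja]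
    ext y
    change j (a y) = 0
    rw [Subsingleton.elim (a y) 0, map_zero]

end SBC
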