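import Pool.Agent.H5.SBC.Targets

/-! Module RAT of the board sbc_modules (helper88): rational approximation. -/

namespace SBC

open Dem

private theorem rat_geninv {k r : ℕ} (A : Matrix (Fin k) (Fin r) ℚ) :
    ∃ G : Matrix (Fin r) (Fin k) ℚ, A * G * A = A := by
  classical
  set f : (Fin r → ℚ) →ₗ[ℚ] (Fin k → ℚ) := Matrix.toLin' A with hf
  obtain ⟨s, hs⟩ := f.rangeRestrict.exists_rightInverse_of_surjective f.range_rangeRestrict
  obtain ⟨g, hg⟩ := LinearMap.exists_extend s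
  have key : f ∘ₗ g ∘ₗ f = f := by
    refine LinearMap.ext fun x => ?_
    have h1 : g (f x) = s (f.rangeRestrict x) := by
      rw [← hg]; rfl
    have h2 := LinearMap.congr_fun hs (f.rangeRestrict x)
    have h3 := congrArg Subtype.val h2
    simp only [LinearMap.comp_apply, LinearMap.id_apply] at h3 ⊢
    rw [h1]
    exact h3
  refine ⟨LinearMap.toMatrix' g, ?_⟩
  have := congrArg LinearMap.toMatrix' key
  rw [LinearMap.toMatrix'_comp, LinearMap.toMatrix'_comp, hf, LinearMap.toMatrix'_toLin'] at this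
  rw [Matrix.mul_assoc]
  exact this

private theorem rat_near {r : ℕ} (ζ : Fin r → ℝ) (ε : ℝ) (he : 0 < ε) :
    ∃ q : Fin r → ℚ, ‖(fun j => (q j : ℝ)) - ζ‖ < ε := by
  have : ∀ j, ∃ q : ℚ, |ζ j - (q : ℝ)| < ε := fun j => exists_rat_near (ζ j) he
  choose q hq using this
  refine ⟨q, ?_⟩
  rw [pi_norm_lt_iff he]
  intro j
  rw [Pi.sub_apply, Real.norm_eq_abs, abs_sub_comm]
  exact hq j

private theorem rat_one (r k : ℕ) (v : Fin k → Fin r → ℚ) (ζ : Fin r → ℝ)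
    (hz : ∀ i, ∑ j, ζ j * (v i j : ℝ) = 0) (ε : ℝ) (he : 0 < ε) :
    ∃ q : Fin r → ℝ, IsRat q ∧ (∀ i, ∑ j, q j * (v i j : ℝ) = 0) ∧ ‖q - ζ‖ < ε := by
  classical
  set A : Matrix (Fin k) (Fin r) ℚ := Matrix.of v with hA
  obtain ⟨G, hG⟩ := rat_geninv A
  set P : Matrix (Fin r) (Fin r) ℚ := 1 - G * A with hP
  have hAP : A * P = 0 := by
    rw [hP, Matrix.mul_sub, Matrix.mul_one, ← Matrix.mul_assoc, hG, sub_self]
  set c : ℚ →+* ℝ := Rat.castHom ℝ with hc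
  set PR : Matrix (Fin r) (Fin r) ℝ := P.map c with hPR
  have hAz : (A.map c).mulVec ζ = 0 := by
    ext i
    rw [Matrix.mulVec, dotProduct, Pi.zero_apply, ← hz i]
    exact Finset.sum_congr rfl fun j _ => by simp [hA, hc, mul_comm]
  have hPz : PR.mulVec ζ = ζ := by
    rw [hPR, hP, Matrix.map_sub c (fun a b => map_sub c a b), Matrix.map_mul, Matrix.sub_mulVec,
      ← Matrix.mulVec_mulVec, hAz, Matrix.mulVec_zero, sub_zero,
      Matrix.map_one c (map_zero c) (map_one c), Matrix.one_mulVec]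
  have hcont : Continuous fun x : Fin r → ℝ => PR.mulVec x :=
    Continuous.matrix_mulVec continuous_const continuous_id
  have := Metric.continuousAt_iff.1 (hcont.continuousAt (x := ζ)) ε he
  obtain ⟨δ, hd, h⟩ := this
  obtain ⟨q₀, hq₀⟩ := rat_near ζ δ hd
  have h1 := h (x := fun j => (q₀ j : ℝ)) (by rw [dist_eq_norm]; exact hq₀)
  rw [dist_eq_norm, hPz] at h1
  have hcast : PR.mulVec (fun j => (q₀ j : ℝ)) = fun j => ((P.mulVec q₀ j : ℚ) : ℝ) := by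
    ext j
    simp [hPR, Matrix.mulVec, dotProduct, hc]
  refine ⟨PR.mulVec (fun j => (q₀ j : ℝ)), ⟨P.mulVec q₀, fun j => by rw [hcast]⟩, fun i => ?_, h1⟩
  rw [hcast]
  have h2 : A.mulVec (P.mulVec q₀) = 0 := by
    rw [Matrix.mulVec_mulVec, hAP, Matrix.zero_mulVec]
  have h3 := congrFun h2 i
  rw [Matrix.mulVec, dotProduct, Pi.zero_apply] at h3
  have h4 := congrArg (fun x : ℚ => (x : ℝ)) h3
  simp only [hA, Matrix.of_apply, Rat.cast_sum, Rat.cast_mul, Rat.cast_zero] at h4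
  rw [← h4]
  exact Finset.sum_congr rfl fun j _ => mul_comm _ _

private theorem rat_pert {r : ℕ} (ζ₁ q' : Fin r → ℝ) (h1 : IsRat ζ₁) (h2 : IsRat q') (h0 : ζ₁ ≠ 0)
    (hn : ∀ a : ℝ, a • ζ₁ ≠ q') (ε : ℝ) (he : 0 < ε) :
    ∃ δ : ℚ, IsRat (ζ₁ + (δ : ℝ) • q') ∧ ‖(ζ₁ + (δ : ℝ) • q') - ζ₁‖ < ε ∧
      LinearIndependent ℝ ![ζ₁, ζ₁ + (δ : ℝ) • q'] := by
  obtain ⟨δ, hd1, hd2⟩ := exists_rat_btwn (show (0 : ℝ) < ε / (‖q'‖ + 1) by positivity)
  have hd1' : (0 : ℝ) < (δ : ℝ) := hd1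
  obtain ⟨a1, ha1⟩ := h1
  obtain ⟨a2, ha2⟩ := h2
  refine ⟨δ, ⟨fun j => a1 j + δ * a2 j, fun j => ?_⟩, ?_, ?_⟩
  · simp [ha1 j, ha2 j]
  · rw [add_sub_cancel_left, norm_smul, Real.norm_eq_abs, abs_of_pos hd1']
    have h3 : (δ : ℝ) * (‖q'‖ + 1) < ε := by
      rwa [lt_div_iff₀ (by positivity)] at hd2
    nlinarith [norm_nonneg q']
  · rw [LinearIndependent.pair_iff' h0]
    intro a h
    apply hn ((a - 1) / δ)
    have h4 : (δ : ℝ) • q' = (a - 1) • ζ₁ := by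
      rw [sub_smul, one_smul, h, add_sub_cancel_left]
    rw [div_eq_inv_mul, mul_smul, ← h4, smul_smul, inv_mul_cancel₀ hd1'.ne', one_smul]

private theorem rat_two (r k : ℕ) (v : Fin k → Fin r → ℚ) (ζ : Fin r → ℝ)
    (hz : ∀ i, ∑ j, ζ j * (v i j : ℝ) = 0) (hr : ¬ RayRat ζ) (ζ₁ : Fin r → ℝ) (h1 : IsRat ζ₁)
    (h0 : ζ₁ ≠ 0) (hz1 : ∀ i, ∑ j, ζ₁ j * (v i j : ℝ) = 0) (ε : ℝ) (he : 0 < ε) :
    ∃ q : Fin r → ℝ, IsRat q ∧ (∀ i, ∑ j, q j * (v i j : ℝ) = 0) ∧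
      ‖q - ζ₁‖ < ε ∧ LinearIndependent ℝ ![ζ₁, q] := by
  have hns : ζ ∉ (Submodule.span ℝ {ζ₁} : Submodule ℝ (Fin r → ℝ)) := by
    intro h
    obtain ⟨c, hc⟩ := Submodule.mem_span_singleton.1 h
    obtain ⟨a1, ha1⟩ := h1
    rcases lt_trichotomy c 0 with hlt | heq | hgt
    · refine hr ⟨(-c)⁻¹, inv_pos.2 (by linarith), fun j => - a1 j, fun j => ?_⟩
      rw [← hc, smul_smul]
      have : (-c)⁻¹ * c = -1 := by
        rw [inv_neg, neg_mul, inv_mul_cancel₀ hlt.ne]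
      rw [this, Pi.smul_apply, ha1 j]
      simp
    · refine hr ⟨1, one_pos, fun _ => 0, fun j => ?_⟩
      rw [← hc, heq]
      simp
    · refine hr ⟨c⁻¹, inv_pos.2 hgt, a1, fun j => ?_⟩
      rw [← hc, smul_smul, inv_mul_cancel₀ hgt.ne', one_smul]
      exact ha1 j
  have hcl : IsClosed ((Submodule.span ℝ {ζ₁} : Submodule ℝ (Fin r → ℝ)) : Set (Fin r → ℝ)) :=
    Submodule.closed_of_finiteDimensional _
  obtain ⟨η, hη, hb⟩ := Metric.isOpen_iff.1 hcl.isOpen_compl ζ hns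
  obtain ⟨q', hq1, hq2, hq3⟩ := rat_one r k v ζ hz η hη
  have hq4 : ∀ a : ℝ, a • ζ₁ ≠ q' := by
    intro a ha
    have : q' ∈ ((Submodule.span ℝ {ζ₁} : Submodule ℝ (Fin r → ℝ)) : Set (Fin r → ℝ))ᶜ :=
      hb (by rw [Metric.mem_ball, dist_eq_norm]; exact hq3)
    exact this (Submodule.mem_span_singleton.2 ⟨a, ha⟩)
  obtain ⟨δ, hd1, hd2, hd3⟩ := rat_pert ζ₁ q' h1 hq1 h0 hq4 ε he
  refine ⟨_, hd1, fun i => ?_, hd2, hd3⟩
  have : ∀ j, (ζ₁ + (δ : ℝ) • q') j * (v i j : ℝ) =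
      ζ₁ j * (v i j : ℝ) + (δ : ℝ) * (q' j * (v i j : ℝ)) := fun j => by
    simp only [Pi.add_apply, Pi.smul_apply, smul_eq_mul]; ring
  rw [Finset.sum_congr rfl fun j _ => this j, Finset.sum_add_distrib, ← Finset.mul_sum, hz1 i,
    hq2 i]
  simp

private theorem rat_three (r : ℕ) (h2 : 2 ≤ r) (ζ₁ : Fin r → ℝ) (h1 : IsRat ζ₁) (h0 : ζ₁ ≠ 0)
    (ε : ℝ) (he : 0 < ε) :
    ∃ q : Fin r → ℝ, IsRat q ∧ ‖q - ζ₁‖ < ε ∧ LinearIndependent ℝ ![ζ₁, q] := by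
  classical
  have hex : ∃ i : Fin r, ∀ a : ℝ, a • ζ₁ ≠ Pi.single i 1 := by
    by_contra hcon
    push Not at hcon
    obtain ⟨a, ha⟩ := hcon ⟨0, by omega⟩
    obtain ⟨b, hb⟩ := hcon ⟨1, by omega⟩
    have h3 := congrFun ha ⟨0, by omega⟩
    have h4 := congrFun ha ⟨1, by omega⟩
    have h5 := congrFun hb ⟨1, by omega⟩
    simp at h3 h4 h5
    rcases h4 with h4 | h4
    · rw [h4] at h3; simp at h3
    · rw [h4] at h5; simp at h5
  obtain ⟨i, hi⟩ := hex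
  obtain ⟨δ, hd1, hd2, hd3⟩ := rat_pert ζ₁ (Pi.single i 1) h1
    ⟨Pi.single i 1, fun j => by
      by_cases h : j = i
      · subst h; simp
      · simp [Pi.single_eq_of_ne h]⟩ h0 hi ε he
  exact ⟨_, hd1, hd2, hd3⟩

theorem sbc_RAT : T_RAT :=
  ⟨rat_one, rat_two, rat_three⟩

end SBC
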