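import Pool.Agent.H5.SBC.Targets

/-!
RGG: rational weights come from rigid complexes.
-/

namespace SBC

open Dem

theorem sbc_RGG (K A : Type) [Field K] [Ring A] [Algebra K A] [Module.Finite K A]
    (hA : T_RRA K A) : T_RGG K A := by
  intro hLR f r D hf ζ hζ
  obtain ⟨q, hq⟩ := hζ
  obtain ⟨m, hm, x, hx, he⟩ := D.ext q
  obtain ⟨g, hg, hc⟩ := hA hLR f hf x hx
  refine ⟨g, m, hm, hg, fun X hX => ?_⟩
  rw [hc X hX]
  have h1 := he X hX
  have h2 : ((x X : ℚ) : ℝ) = ((m * ∑ j, q j * D.d X j : ℚ) : ℝ) := by rw [h1]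
  unfold wt
  rw [show ((x X : ℤ) : ℝ) = ((x X : ℚ) : ℝ) by norm_cast, h2]
  push_cast
  simp_rw [hq]

end SBC
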