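import Pool.Agent.H5.SBC.Targets

/-!
RRA (3.4): every element of `K₀` is the class of a complex compatible with `f`, on `W_f`.
-/

namespace SBC

open Dem

variable {K A : Type} [Field K] [Ring A] [Algebra K A]

private theorem rra_image {X Y : FMod K A} (h : ¬ Hom0 X Y) :
    ∃ (I : FMod K A) (p : X →ₗ[A] I) (i : I →ₗ[A] Y),
      Function.Surjective p ∧ Function.Injective i ∧ p ≠ 0 ∧ i ≠ 0 ∧ Nontrivial I := by
  unfold Hom0 at h
  push Not at h
  obtain ⟨φ, hφ⟩ := h
  obtain ⟨I, p, i, hp, hi, he⟩ := exists_image φ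
  refine ⟨I, p, i, hp, hi, ?_, ?_, ?_⟩
  · rintro rfl
    exact hφ (by rw [← he, LinearMap.comp_zero])
  · rintro rfl
    exact hφ (by rw [← he, LinearMap.zero_comp])
  · by_contra hn
    rw [not_nontrivial_iff_subsingleton] at hn
    apply hφ
    rw [← he]
    ext x
    change i (p x) = 0
    rw [Subsingleton.elim (p x) 0, map_zero]

theorem sbc_RRA (K A : Type) [Field K] [Ring A] [Algebra K A] [Module.Finite K A]
    (hH : T_HOM K A) (hB : T_KBD K A) : T_RRA K A := by
  intro hLR f hf x hx
  obtain ⟨m1, m2, m3, m4, m5, m6, m7, m8⟩ := hH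
  obtain ⟨C, hC⟩ := hB x hx
  let N : ℕ := C * (Module.finrank K f.H + Module.finrank K (tau f)) + 1
  obtain ⟨h, hh1, hcls⟩ := hLR (N • cls f + x)
    ((K0 K A).add_mem ((K0 K A).nsmul_mem (cls_mem_K0 f) N) hx)
  have hcls' : ∀ L, cls h L = (N : ℤ) * cls f L + x L := by
    intro L
    rw [hcls L]
    simp
  have hff := (m3 f).1 hf
  have hft := (m4 f).1 hf
  have hhh := (m3 h).1 hh1
  have hht := (m4 h).1 hh1
  have e1 : ee h f.H = 0 := by
    by_contra hne
    rw [m2] at hne
    obtain ⟨I, p, i, hp, hi, hp0, hi0, hIn⟩ := rra_image hne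
    have a1 : hh f I ≠ 0 := fun h0 => hp0 ((m1 f I).1 h0 p)
    have a2 : ee f I = 0 := by
      have := m6 f f.H I p hp
      omega
    have a3 : hh h I = 0 := by
      have := m7 h I (tau h) i hi
      omega
    have a4 := hh_sub_ee f I
    have a5 := hh_sub_ee h I
    have a6 := hcls' I
    have a7 := hC I
    have a8 : Module.finrank K I ≤ Module.finrank K f.H := surj_finrank_le p hp
    have a9 : |x I| ≤ (C : ℤ) * (Module.finrank K f.H + Module.finrank K (tau f)) := by
      refine a7.trans ?_
      have : C * Module.finrank K I ≤ C * (Module.finrank K f.H + Module.finrank K (tau f)) :=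
        Nat.mul_le_mul_left C (by omega)
      exact_mod_cast this
    have a10 : (N : ℤ) = (C : ℤ) * (Module.finrank K f.H + Module.finrank K (tau f)) + 1 := by
      simp [N]
    have a11 : (1 : ℤ) ≤ cls f I := by
      rw [← a4, a2]
      have : 1 ≤ hh f I := Nat.one_le_iff_ne_zero.2 a1
      push_cast
      linarith [(Nat.cast_le (α := ℤ)).2 this]
    have a12 : (N : ℤ) * 1 ≤ N * cls f I := mul_le_mul_of_nonneg_left a11 (by positivity)
    have a13 : cls h I ≤ 0 := by
      rw [← a5, a3]
      simp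
    have a14 := (abs_le.1 a9).1
    linarith
  have e2 : ee f h.H = 0 := by
    by_contra hne
    rw [m2] at hne
    obtain ⟨I, p, i, hp, hi, hp0, hi0, hIn⟩ := rra_image hne
    have a1 : hh f I = 0 := by
      have := m7 f I (tau f) i hi
      omega
    have a2 : ee f I ≠ 0 := fun h0 => hi0 ((m2 f I).1 h0 i)
    have a3 : ee h I = 0 := by
      have := m6 h h.H I p hp
      omega
    have a4 := hh_sub_ee f I
    have a5 := hh_sub_ee h I
    have a6 := hcls' I
    have a7 := hC I
    have a8 : Module.finrank K I ≤ Module.finrank K (tau f) := inj_finrank_le i hi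
    have a9 : |x I| ≤ (C : ℤ) * (Module.finrank K f.H + Module.finrank K (tau f)) := by
      refine a7.trans ?_
      have : C * Module.finrank K I ≤ C * (Module.finrank K f.H + Module.finrank K (tau f)) :=
        Nat.mul_le_mul_left C (by omega)
      exact_mod_cast this
    have a10 : (N : ℤ) = (C : ℤ) * (Module.finrank K f.H + Module.finrank K (tau f)) + 1 := by
      simp [N]
    have a11 : cls f I ≤ -1 := by
      rw [← a4, a1]
      have : 1 ≤ ee f I := Nat.one_le_iff_ne_zero.2 a2
      push_cast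
      linarith [(Nat.cast_le (α := ℤ)).2 this]
    have a12 : (N : ℤ) * cls f I ≤ N * (-1) := mul_le_mul_of_nonneg_left a11 (by positivity)
    have a13 : 0 ≤ cls h I := by
      rw [← a5, a3]
      simp
    have a14 := (abs_le.1 a9).2
    linarith
  refine ⟨h, ?_, fun X hX => ?_⟩
  · exact (rigid_sum_iff f h).2 ⟨⟨hf, (van_iff_ee f h.H).2 e2⟩, ⟨(van_iff_ee h f.H).2 e1, hh1⟩⟩
  · rw [hcls' X]
    have := hh_sub_ee f X
    rw [hX.1, hX.2] at this
    have h0 : cls f X = 0 := by
      rw [← this]
      simp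
    rw [h0]
    simp

end SBC
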