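import Pool.Agent.H5.SBC.Targets

/-!
RRB (3.5): the torsion pairs of the class of a compatible rigid complex.
-/

namespace SBC

open Dem

variable {K A : Type} [Field K] [Ring A] [Algebra K A]

private theorem rrb_not {X Y : FMod K A} (h : ¬ Hom0 X Y) : ∃ φ : X →ₗ[A] Y, φ ≠ 0 := by
  unfold Hom0 at h
  push Not at h
  exact h

private theorem rrb_ne {X Y I : FMod K A} {φ : X →ₗ[A] Y} (h : φ ≠ 0) {p : X →ₗ[A] I}
    {i : I →ₗ[A] Y} (he : i ∘ₗ p = φ) : p ≠ 0 ∧ i ≠ 0 := by
  constructor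
  · rintro rfl
    exact h (by rw [← he, LinearMap.comp_zero])
  · rintro rfl
    exact h (by rw [← he, LinearMap.zero_comp])

theorem sbc_RRB (K A : Type) [Field K] [Ring A] [Algebra K A] [Module.Finite K A]
    (hW : T_WID K A) (hH : T_HOM K A) : T_RRB K A := by
  intro f g w m hr hm hw
  obtain ⟨m1, m2, m3, m4, m5, m6, m7, m8⟩ := hH
  obtain ⟨⟨r1, r2⟩, ⟨r3, r4⟩⟩ := (rigid_sum_iff f g).1 hr
  rw [van_iff_ee] at r2 r3
  have hg := (m3 g).1 r4
  have hgt := (m4 g).1 r4
  have key1 : ∀ Z, FF f w Z ↔ hh f Z = 0 ∧ hh g Z = 0 := by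
    intro Z
    constructor
    · intro hZ
      refine ⟨hZ.1, ?_⟩
      by_contra hne
      rw [m1] at hne
      obtain ⟨φ, hφ⟩ := rrb_not hne
      obtain ⟨I, p, i, hI, hp, hi, he⟩ := hW.1 f g.H Z φ r2 hZ.1
      have a0 := rrb_ne hφ he
      have a1 : hh g I ≠ 0 := fun h0 => a0.1 ((m1 g I).1 h0 p)
      have a2 : ee g I = 0 := by
        have := m6 g g.H I p hp
        omega
      have a3 := hh_sub_ee g I
      have a4 : (1 : ℤ) ≤ cls g I := by omega
      have a5 : (1 : ℝ) ≤ (cls g I : ℝ) := by exact_mod_cast a4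
      have a6 := hZ.2 I i hI hi
      rw [hw I hI] at a6
      nlinarith
    · rintro ⟨h1, h2⟩
      refine ⟨h1, fun X i hX hi => ?_⟩
      rw [hw X hX]
      have a1 := m7 g X Z i hi
      have a3 := hh_sub_ee g X
      have a4 : cls g X ≤ 0 := by omega
      have a5 : (cls g X : ℝ) ≤ 0 := by exact_mod_cast a4
      nlinarith
  have key2 : ∀ Y, TB f w Y ↔ ee f Y = 0 ∧ ee g Y = 0 := by
    intro Y
    constructor
    · intro hY
      refine ⟨hY.1, ?_⟩
      by_contra hne
      rw [m2] at hne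
      obtain ⟨φ, hφ⟩ := rrb_not hne
      have b1 : hh f (tau g) = 0 := by rw [← m5 g f, r3]
      obtain ⟨I, p, i, hI, hp, hi, he⟩ := hW.1 f Y (tau g) φ hY.1 b1
      have a0 := rrb_ne hφ he
      have a1 : ee g I ≠ 0 := fun h0 => a0.2 ((m2 g I).1 h0 i)
      have a2 : hh g I = 0 := by
        have := m7 g I (tau g) i hi
        omega
      have a3 := hh_sub_ee g I
      have a4 : cls g I ≤ -1 := by omega
      have a5 : (cls g I : ℝ) ≤ -1 := by exact_mod_cast a4
      have a6 := hY.2 I p hI hp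
      rw [hw I hI] at a6
      nlinarith
    · rintro ⟨h1, h2⟩
      refine ⟨h1, fun X p hX hp => ?_⟩
      rw [hw X hX]
      have a1 := m6 g Y X p hp
      have a3 := hh_sub_ee g X
      have a4 : 0 ≤ cls g X := by omega
      have a5 : (0 : ℝ) ≤ (cls g X : ℝ) := by exact_mod_cast a4
      exact mul_nonneg hm.le a5
  refine ⟨key1, key2, fun X => ?_⟩
  unfold SS
  rw [key1, key2, hW.2.2.2.2 f g X]
  unfold InW
  tauto

end SBC
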