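import Pool.Agent.H5.SBC.Targets

/-!
RRC (3.6): the full complexes `g_+`, `g_-`.
-/

namespace SBC

open Dem

theorem sbc_RRC (K A : Type) [Field K] [Ring A] [Algebra K A] [Module.Finite K A]
    (hA : T_RRA K A) (hB : T_RRB K A) (hW : T_WID K A) (hD : T_DIM K A) : T_RRC K A := by
  intro hLR f hf
  constructor
  · obtain ⟨g, hg, hc⟩ := hA hLR f hf _ hD
    have hB' := hB f g (fun X => (Module.finrank K X : ℝ)) 1 hg one_pos (fun X hX => by
      rw [hc X hX, one_mul]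
      simp)
    refine ⟨g, ⟨hg, fun X h1 h2 => ?_⟩, fun Y => ⟨fun h => ?_, fun h => ?_⟩⟩
    · have hX := (hW.2.2.2.2 f g X).1 ⟨h1, h2⟩
      have h3 := hc X hX.1
      have h4 := hh_sub_ee g X
      rw [hX.2.1, hX.2.2, h3] at h4
      rw [subsingleton_iff]
      simpa using h4.symm
    · rw [ee_sum] at h
      omega
    · have h3 := ((hB'.2.1 Y).1 ⟨h, fun X _ _ _ => Nat.cast_nonneg _⟩).2
      rw [ee_sum, h, h3]
  · obtain ⟨g, hg, hc⟩ := hA hLR f hf _ ((K0 K A).neg_mem hD)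
    have hB' := hB f g (fun X => -(Module.finrank K X : ℝ)) 1 hg one_pos (fun X hX => by
      rw [hc X hX, one_mul]
      simp)
    refine ⟨g, ⟨hg, fun X h1 h2 => ?_⟩, fun Z => ⟨fun h => ?_, fun h => ?_⟩⟩
    · have hX := (hW.2.2.2.2 f g X).1 ⟨h1, h2⟩
      have h3 := hc X hX.1
      have h4 := hh_sub_ee g X
      rw [hX.2.1, hX.2.2, h3] at h4
      rw [subsingleton_iff]
      simpa using h4.symm
    · rw [hh_sum] at h
      omega
    · have h3 := ((hB'.1 Z).1 ⟨h, fun X _ _ _ => neg_nonpos.2 (Nat.cast_nonneg _)⟩).2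
      rw [hh_sum, h, h3]

end SBC
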