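import Pool.Agent.H5.SBC.Targets

/-! SNU: numerics of a short exact sequence. -/

namespace SBC

open Dem

section

variable {K A : Type} [Field K] [Ring A] [Algebra K A]

/-- composition with `p` -/
def snu_comp (M : FMod K A) {Y Z : FMod K A} (p : Y →ₗ[A] Z) :
    (M →ₗ[A] Y) →ₗ[K] (M →ₗ[A] Z) where
  toFun φ := p ∘ₗ φ
  map_add' φ ψ := by
    refine LinearMap.ext fun x => ?_
    exact map_add p _ _
  map_smul' c φ := by
    refine LinearMap.ext fun x => ?_
    exact p.map_smul_of_tower c (φ x)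

/-- precomposition with `i` -/
def snu_pre (N : FMod K A) {X Y : FMod K A} (i : X →ₗ[A] Y) :
    (Y →ₗ[A] N) →ₗ[K] (X →ₗ[A] N) where
  toFun φ := φ ∘ₗ i
  map_add' φ ψ := by
    refine LinearMap.ext fun x => ?_
    rfl
  map_smul' c φ := by
    refine LinearMap.ext fun x => ?_
    rfl

variable {X Y Z : FMod K A} {i : X →ₗ[A] Y} {p : Y →ₗ[A] Z}

theorem snu_ker_comp (h : SES i p) (M : FMod K A) :
    LinearMap.ker (snu_comp M p) = LinearMap.range (snu_comp M i) := by
  ext φ
  constructor
  · intro hφ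
    obtain ⟨ψ, hψ⟩ := h.lift φ hφ
    exact ⟨ψ, hψ⟩
  · rintro ⟨ψ, rfl⟩
    rw [LinearMap.mem_ker]
    refine LinearMap.ext fun x => ?_
    exact h.comp (ψ x)

theorem snu_ker_pre (h : SES i p) (N : FMod K A) :
    LinearMap.ker (snu_pre N i) = LinearMap.range (snu_pre N p) := by
  ext φ
  constructor
  · intro hφ
    obtain ⟨ψ, hψ⟩ := h.desc φ hφ
    exact ⟨ψ, hψ⟩
  · rintro ⟨ψ, rfl⟩
    rw [LinearMap.mem_ker]
    refine LinearMap.ext fun x => ?_
    change ψ (p (i x)) = 0
    rw [h.comp, map_zero]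

theorem snu_comp_inj (h : Function.Injective i) (M : FMod K A) :
    Function.Injective (snu_comp M i) := by
  intro φ ψ hφ
  refine LinearMap.ext fun x => h ?_
  exact LinearMap.congr_fun hφ x

theorem snu_pre_inj (h : Function.Surjective p) (N : FMod K A) :
    Function.Injective (snu_pre N p) := by
  intro φ ψ hφ
  refine LinearMap.ext fun z => ?_
  obtain ⟨y, rfl⟩ := h z
  exact LinearMap.congr_fun hφ y

theorem snu_left (h : SES i p) (M : FMod K A) :
    hd M X ≤ hd M Y ∧ hd M Y ≤ hd M X + hd M Z := by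
  have h1 := LinearMap.finrank_range_add_finrank_ker (snu_comp M p)
  rw [snu_ker_comp h] at h1
  have h2 := LinearMap.finrank_range_of_inj (snu_comp_inj h.inj M)
  have h3 := Submodule.finrank_le (LinearMap.range (snu_comp M p))
  unfold hd
  omega

theorem snu_right (h : SES i p) (N : FMod K A) :
    hd Z N ≤ hd Y N ∧ hd Y N ≤ hd X N + hd Z N := by
  have h1 := LinearMap.finrank_range_add_finrank_ker (snu_pre N i)
  rw [snu_ker_pre h] at h1
  have h2 := LinearMap.finrank_range_of_inj (snu_pre_inj h.surj N)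
  have h3 := Submodule.finrank_le (LinearMap.range (snu_pre N i))
  unfold hd
  omega

theorem snu_proj (h : SES i p) (P : FMod K A) (hP : Module.Projective A P) :
    hd P Y = hd P X + hd P Z := by
  have h1 := LinearMap.finrank_range_add_finrank_ker (snu_comp P p)
  rw [snu_ker_comp h] at h1
  have h2 := LinearMap.finrank_range_of_inj (snu_comp_inj h.inj P)
  have h4 : Function.Surjective (snu_comp P p) := fun ψ =>
    Module.projective_lifting_property p ψ h.surj
  rw [LinearMap.range_eq_top.2 h4, finrank_top] at h1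
  unfold hd
  omega

end

theorem sbc_SNU (K A : Type) [Field K] [Ring A] [Algebra K A] [Module.Finite K A] :
    T_SNU K A := by
  intro f X Y Z i p h
  obtain ⟨h1, h2⟩ := snu_left h f.H
  obtain ⟨h3, h4⟩ := snu_right h (tau f)
  rw [hd_H, hd_H] at h1
  rw [hd_H, hd_H, hd_H] at h2
  rw [hd_tau, hd_tau] at h3
  rw [hd_tau, hd_tau, hd_tau] at h4
  refine ⟨h1, h2, h3, h4, ?_⟩
  have h5 := snu_proj h f.P0 f.proj0
  have h6 := snu_proj h f.P1 f.proj1
  unfold cls
  rw [h5, h6]
  push_cast
  ring

end SBC
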