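import Pool.Agent.H5.SBC.Targets

/-!
Module SON (4.4): the separating class of a simple object.
-/

namespace SBC

open Dem

section

variable {K A : Type} [Field K] [Ring A] [Algebra K A]

/-- `C ⊕ C'` is generated by any object mapping onto both non-isomorphic simples -/
theorem son_surj (hWID : ∀ (f : Cpx K A) (X Y Z : FMod K A) (i : X →ₗ[A] Y) (p : Y →ₗ[A] Z),
      SES i p → InW f Y → InW f Z → InW f X)
    (f : Cpx K A) (C C' I : FMod K A) (hC : SimpW f C) (hC' : SimpW f C')
    (hiso : IsEmpty (C ≃ₗ[A] C')) (hI : InW f I) (j : I →ₗ[A] C.prod C')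
    (hj : Function.Injective j) (h1 : Function.Surjective (LinearMap.fst A C C' ∘ₗ j))
    (h2 : Function.Surjective (LinearMap.snd A C C' ∘ₗ j)) : Function.Surjective j := by
  let p1 : I →ₗ[A] C := LinearMap.fst A C C' ∘ₗ j
  let p2 : I →ₗ[A] C' := LinearMap.snd A C C' ∘ₗ j
  obtain ⟨N, i, hN⟩ := exists_ker (Y := I) (Z := C) p1 h1
  have hNW : InW f N := hWID f N I C i p1 hN hI hC.1
  have hinj : Function.Injective (p2 ∘ₗ i) := by
    rw [injective_iff_map_eq_zero]
    intro x hx
    apply hN.inj
    apply hj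
    rw [map_zero, map_zero]
    have e1 : (j (i x)).1 = 0 := hN.comp x
    have e2 : (j (i x)).2 = 0 := hx
    exact Prod.ext e1 e2
  rcases subsingleton_or_nontrivial N with hs | hn
  · exfalso
    have hp1 : Function.Injective p1 := by
      rw [injective_iff_map_eq_zero]
      intro x hx
      obtain ⟨n, rfl⟩ := hN.exists_of_zero hx
      rw [Subsingleton.elim n 0, map_zero]
    let e := LinearEquiv.ofBijective p1 ⟨hp1, h1⟩
    let q : C →ₗ[A] C' := p2 ∘ₗ e.symm.toLinearMap
    have hq : Function.Surjective q := h2.comp e.symm.surjective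
    obtain ⟨M, k, hM⟩ := exists_ker q hq
    have hMW : InW f M := hWID f M C C' k q hM hC.1 hC'.1
    rcases subsingleton_or_nontrivial M with hs' | hn'
    · apply hiso.false
      refine LinearEquiv.ofBijective q ⟨?_, hq⟩
      rw [injective_iff_map_eq_zero]
      intro x hx
      obtain ⟨n, rfl⟩ := hM.exists_of_zero hx
      rw [Subsingleton.elim n 0, map_zero]
    · have hk := hC.2.2 M k hMW hn' hM.inj
      have hq0 : ∀ x, q x = 0 := by
        intro x
        obtain ⟨m, rfl⟩ := hk x
        exact hM.comp m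
      have := hC'.2.1
      obtain ⟨y, hy⟩ := exists_ne (0 : C')
      obtain ⟨x, rfl⟩ := hq y
      exact hy (hq0 x)
  · have hs2 := hC'.2.2 N (p2 ∘ₗ i) hNW hn hinj
    have d1 := hN.finrank
    have d2 := le_antisymm (surj_finrank_le (p2 ∘ₗ i) hs2) (inj_finrank_le (p2 ∘ₗ i) hinj)
    apply surj_of_finrank_eq j hj
    have d3 : Module.finrank K (C.prod C') = Module.finrank K C + Module.finrank K C' :=
      Module.finrank_prod
    rw [d3]
    omega

end

theorem sbc_SON (K A : Type) [Field K] [Ring A] [Algebra K A] [Module.Finite K A]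
    (hRRC : T_RRC K A) (hFIT : T_FIT K A) (hLFT : T_LFT K A) (hWID : T_WID K A)
    (hHOM : T_HOM K A) : T_SON K A := by
  intro hLR f hf C hC
  obtain ⟨⟨g0, hfull, hee⟩, -⟩ := hRRC hLR f hf
  obtain ⟨hom1, hom2, hom3, hom4, hom5, hom6, hom7, hom8⟩ := hHOM
  obtain ⟨wid1, wid2, wid3, wid4, wid5⟩ := hWID
  -- the minimal complex
  let Q : Cpx K A → Prop := fun h => (∀ Z, hh (f.sum g0) Z = 0 → hh h Z = 0) ∧
    (∀ Y, ee (f.sum g0) Y = 0 → ee h Y = 0)
  have hQ : ∀ h h₁ h₂ : Cpx K A, NSplit h h₁ h₂ → Q h → Q h₁ ∧ Q h₂ := by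
    intro h h₁ h₂ hs hq
    refine ⟨⟨fun Z hZ => ?_, fun Y hY => ?_⟩, ⟨fun Z hZ => ?_, fun Y hY => ?_⟩⟩
    · have := hs.hh_eq Z
      rw [hq.1 Z hZ] at this
      omega
    · have := hs.ee_eq Y
      rw [hq.2 Y hY] at this
      omega
    · have := hs.hh_eq Z
      rw [hq.1 Z hZ] at this
      omega
    · have := hs.ee_eq Y
      rw [hq.2 Y hY] at this
      omega
  have hC0 : hh (f.sum g0) C ≠ 0 := by
    intro h0
    have h1 : ee (f.sum g0) C = 0 := (hee C).2 hC.1.2
    have h2 := hfull.2 C h0 h1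
    exact not_subsingleton_iff_nontrivial.2 hC.2.1 h2
  have hex : ∃ n, ∃ h : Cpx K A, Q h ∧ hh h C ≠ 0 ∧ size h = n :=
    ⟨_, f.sum g0, ⟨fun _ h => h, fun _ h => h⟩, hC0, rfl⟩
  classical
  obtain ⟨h, hqh, hhC, hsize⟩ := Nat.find_spec hex
  have hmin : ∀ h' : Cpx K A, Q h' → size h' < size h → hh h' C = 0 := by
    intro h' hq' hlt
    by_contra hne
    exact Nat.find_min hex (hsize ▸ hlt) ⟨h', hq', hne, rfl⟩
  refine ⟨cls h, cls_mem_K0 h, ?_, ?_⟩
  · have h1 := hh_sub_ee h C
    have h2 : ee h C = 0 := hqh.2 C ((hee C).2 hC.1.2)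
    omega
  · intro C' hC' hiso
    have h2 : ee h C' = 0 := hqh.2 C' ((hee C').2 hC'.1.2)
    have h1 := hh_sub_ee h C'
    by_contra hne
    have hh' : hh h C' ≠ 0 := by
      intro h0
      apply hne
      omega
    have ha : ∃ a : h.H →ₗ[A] C, a ≠ 0 := by
      by_contra hno
      push Not at hno
      exact hhC ((hom1 h C).2 hno)
    have hb : ∃ b : h.H →ₗ[A] C', b ≠ 0 := by
      by_contra hno
      push Not at hno
      exact hh' ((hom1 h C').2 hno)
    obtain ⟨a, ha⟩ := ha
    obtain ⟨b, hb⟩ := hb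
    -- `ee f h.H = 0`
    have hef : ee f h.H = 0 := by
      rw [hom5 f h]
      apply hqh.1
      rw [← hom5 f (f.sum g0)]
      rw [← hee]
      exact (hom3 _).1 hfull.1
    have hsurj : ∀ D : FMod K A, SimpW f D → ∀ φ : h.H →ₗ[A] D, φ ≠ 0 →
        Function.Surjective φ := by
      intro D hD φ hφ
      obtain ⟨I, p, i, hI, hp, hi, hip⟩ := wid1 f h.H D φ hef hD.1.1
      have hn : Nontrivial I := by
        rcases subsingleton_or_nontrivial I with hs | hn
        · exfalso
          apply hφ
          rw [← hip]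
          refine LinearMap.ext fun x => ?_
          change i (p x) = 0
          rw [Subsingleton.elim (p x) 0, map_zero]
        · exact hn
      have hi' := hD.2.2 I i hI hn hi
      rw [← hip]
      exact hi'.comp hp
    have hsa := hsurj C hC a ha
    have hsb := hsurj C' hC' b hb
    have hprod : InW f (C.prod C') := by
      refine (wid2 f C (C.prod C') C' (LinearMap.inl A C C') (LinearMap.snd A C C')
        ⟨LinearMap.inl_injective, LinearMap.snd_surjective, ?_⟩).2.2.1 hC.1 hC'.1
      exact LinearMap.range_inl A C C'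
    let ab : h.H →ₗ[A] C.prod C' := LinearMap.prod a b
    obtain ⟨I, p, i, hI, hp, hi, hip⟩ := wid1 f h.H (C.prod C') ab hef hprod.1
    have hi' : Function.Surjective i := by
      refine son_surj (fun f X Y Z i p hs hY hZ => (wid2 f X Y Z i p hs).2.1 hY hZ)
        f C C' I hC hC' hiso hI i hi ?_ ?_
      · have e1 : (LinearMap.fst A C C' ∘ₗ i) ∘ₗ p = a := by
          rw [LinearMap.comp_assoc, hip]
          rfl
        have e2 : Function.Surjective ((LinearMap.fst A C C' ∘ₗ i) ∘ₗ p) := by
          rw [e1]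
          exact hsa
        exact Function.Surjective.of_comp e2
      · have e1 : (LinearMap.snd A C C' ∘ₗ i) ∘ₗ p = b := by
          rw [LinearMap.comp_assoc, hip]
          rfl
        have e2 : Function.Surjective ((LinearMap.snd A C C' ∘ₗ i) ∘ₗ p) := by
          rw [e1]
          exact hsb
        exact Function.Surjective.of_comp e2
    have hab : Function.Surjective ab := by
      have e1 : Function.Surjective (i ∘ₗ p) := hi'.comp hp
      rw [hip] at e1
      exact e1
    obtain ⟨L, l, hL⟩ := exists_ker ab hab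
    have hfL : ee f L = 0 := (wid2 f L h.H (C.prod C') l ab hL).2.2.2.2 hprod.1 hef
    have hhL : ee h L = 0 := hqh.2 L ((hee L).2 hfL)
    obtain ⟨ψ, hψ⟩ := (hLFT h L h.H (C.prod C') l ab hL).1 hhL (LinearMap.prod a 0)
    have ea : a ∘ₗ ψ = a := by
      refine LinearMap.ext fun x => ?_
      exact congrArg Prod.fst (LinearMap.congr_fun hψ x)
    have eb : b ∘ₗ ψ = 0 := by
      refine LinearMap.ext fun x => ?_
      exact congrArg Prod.snd (LinearMap.congr_fun hψ x)
    rcases hFIT h ψ with hbij | hnil | ⟨h₁, h₂, hs, hl1, hl2⟩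
    · apply hb
      refine LinearMap.ext fun x => ?_
      obtain ⟨y, rfl⟩ := hbij.2 x
      exact LinearMap.congr_fun eb y
    · obtain ⟨n, hn⟩ := hnil
      apply ha
      have : ∀ m : ℕ, ∀ x, a ((ψ ^ m) x) = a x := by
        intro m
        induction m with
        | zero => intro x; rfl
        | succ m ih =>
          intro x
          rw [pow_succ']
          change a (ψ ((ψ ^ m) x)) = a x
          rw [← ih x]
          exact LinearMap.congr_fun ea _
      refine LinearMap.ext fun x => ?_
      rw [← this n x, hn]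
      change a 0 = 0
      rw [map_zero]
    · have q := hQ h h₁ h₂ hs hqh
      have m1 := hmin h₁ q.1 hl1
      have m2 := hmin h₂ q.2 hl2
      have := hs.hh_eq C
      rw [m1, m2] at this
      exact hhC this

end SBC
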