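import Pool.Agent.H5.SBC.Targets

/-!
SST (3.3): semistable and stable objects.
-/

namespace SBC

open Dem

variable {K A : Type} [Field K] [Ring A] [Algebra K A]

private theorem sst_zero (hW : T_WID K A) {f : Cpx K A} {w : FMod K A → ℝ} (hw : AddOn f w)
    (X : FMod K A) (hX : Subsingleton X) : w X = 0 := by
  have h1 : InW f X := hW.2.2.2.1 f X hX
  have h2 := hw X X X LinearMap.id LinearMap.id h1 h1 h1
    (ses_right_zero _ _ hX Function.bijective_id)
  linarith

private theorem sst_seven (hW : T_WID K A) (hC : T_CLO K A) {f : Cpx K A} {w : FMod K A → ℝ}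
    (hw : AddOn f w) (Z X : FMod K A) (i : X →ₗ[A] Z) (hZ : FF f w Z) (hX : InW f X)
    (hi : Function.Injective i) (h0 : w X = 0) : SS f w X := by
  refine ⟨⟨hX.2, fun X' q hX' hq => ?_⟩, (hC.1 f w hw).2.2.1.sub X Z i hi hZ⟩
  obtain ⟨N, j, hs⟩ := exists_ker q hq
  have hN : InW f N := (hW.2.1 f N X X' j q hs).2.1 hX hX'
  have h1 := hw N X X' j q hN hX hX' hs
  have h2 := hZ.2 N (i ∘ₗ j) hN (hi.comp hs.inj)
  linarith

private theorem sst_eight (hW : T_WID K A) (hC : T_CLO K A) {f : Cpx K A} {w : FMod K A → ℝ}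
    (hw : AddOn f w) (Y X : FMod K A) (p : Y →ₗ[A] X) (hY : TB f w Y) (hX : InW f X)
    (hp : Function.Surjective p) (h0 : w X = 0) : SS f w X := by
  refine ⟨(hC.1 f w hw).1.quo Y X p hp hY, hX.1, fun V j hV hj => ?_⟩
  obtain ⟨Q, q, hs⟩ := exists_coker j hj
  have hQ : InW f Q := (hW.2.1 f V X Q j q hs).1 hV hX
  have h1 := hw V X Q j q hV hX hQ hs
  have h2 := hY.2 Q (q ∘ₗ p) hQ (hs.surj.comp hp)
  linarith

private theorem sst_one {f : Cpx K A} {w : FMod K A → ℝ} (C : FMod K A) (h : SS f w C) :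
    InW f C ∧ w C = 0 := by
  have h1 : InW f C := ⟨h.2.1, h.1.1⟩
  have h2 := h.1.2 C LinearMap.id h1 Function.surjective_id
  have h3 := h.2.2 C LinearMap.id h1 Function.injective_id
  exact ⟨h1, le_antisymm h3 h2⟩

private theorem sst_three (hW : T_WID K A) (hC : T_CLO K A) {f : Cpx K A} {w : FMod K A → ℝ}
    (hw : AddOn f w) (X Y Z : FMod K A) (i : X →ₗ[A] Y) (p : Y →ₗ[A] Z) (hs : SES i p)
    (hY : SS f w Y) (hX : InW f X) (h0 : w X = 0) : SS f w X ∧ SS f w Z := by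
  have h1 := sst_one Y hY
  have hZ : InW f Z := (hW.2.1 f X Y Z i p hs).1 hX h1.1
  have h2 := hw X Y Z i p hX h1.1 hZ hs
  refine ⟨sst_seven hW hC hw Y X i hY.2 hX hs.inj h0,
    sst_eight hW hC hw Y Z p hY.1 hZ hs.surj ?_⟩
  linarith [h1.2]

private theorem sst_nontriv_ker {X Y Z : FMod K A} {i : X →ₗ[A] Y} {p : Y →ₗ[A] Z} (hs : SES i p)
    (h : ¬ Function.Injective p) : Nontrivial X := by
  by_contra hn
  rw [not_nontrivial_iff_subsingleton] at hn
  apply h
  rw [← LinearMap.ker_eq_bot, ← hs.exact, LinearMap.range_eq_bot]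
  ext x
  rw [Subsingleton.elim x 0, map_zero, map_zero]

private theorem sst_nontriv_coker {X Y Z : FMod K A} {i : X →ₗ[A] Y} {p : Y →ₗ[A] Z}
    (hs : SES i p) (h : ¬ Function.Surjective i) : Nontrivial Z := by
  by_contra hn
  rw [not_nontrivial_iff_subsingleton] at hn
  apply h
  intro y
  obtain ⟨x, hx⟩ := hs.exists_of_zero (y := y) (Subsingleton.elim _ _)
  exact ⟨x, hx⟩

private theorem sst_not_inj {X Y Z : FMod K A} {i : X →ₗ[A] Y} {p : Y →ₗ[A] Z} (hs : SES i p)
    (h : Nontrivial X) : ¬ Function.Injective p := by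
  intro hp
  obtain ⟨x, hx⟩ := exists_ne (0 : X)
  apply hx
  apply hs.inj
  apply hp
  rw [hs.comp, map_zero, map_zero]

private theorem sst_six (hW : T_WID K A) {f : Cpx K A} {w : FMod K A → ℝ}
    (hw : AddOn f w) (C : FMod K A) (hC : ST f w C) (X : FMod K A) (i : X →ₗ[A] C) (hX : InW f X)
    (hn : Nontrivial X) (hi : Function.Injective i) (hs : ¬ Function.Surjective i) : w X < 0 := by
  obtain ⟨Q, q, hq⟩ := exists_coker i hi
  have hQ : InW f Q := (hW.2.1 f X C Q i q hq).1 hX hC.1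
  have h1 := hw X C Q i q hX hC.1 hQ hq
  have h2 := hC.2.2.2 Q q hQ (sst_nontriv_coker hq hs) hq.surj (sst_not_inj hq hn)
  linarith [hC.2.2.1]

private theorem sst_st_ss (hW : T_WID K A) (hC : T_CLO K A) {f : Cpx K A} {w : FMod K A → ℝ}
    (hw : AddOn f w) (C : FMod K A) (h : ST f w C) : SS f w C := by
  have hTB : TB f w C := by
    refine ⟨h.1.2, fun X p hX hp => ?_⟩
    by_cases hx : Subsingleton X
    · exact (sst_zero hW hw X hx).ge
    · have hn : Nontrivial X := not_subsingleton_iff_nontrivial.1 hx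
      by_cases hi : Function.Injective p
      · have he := (hC.2.2.2.2 f w hw C X ⟨LinearEquiv.ofBijective p ⟨hi, hp⟩⟩).1
        rcases he with he | he
        · rw [← he, h.2.2.1]
        · exact absurd h.1 he
      · exact (h.2.2.2 X p hX hn hp hi).le
  exact sst_seven hW hC hw C C LinearMap.id ⟨h.1.1, fun X i hX hi => by
    obtain ⟨Q, q, hq⟩ := exists_coker i hi
    have hQ : InW f Q := (hW.2.1 f X C Q i q hq).1 hX h.1
    have h1 := hw X C Q i q hX h.1 hQ hq
    have h2 := hTB.2 Q q hQ hq.surj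
    linarith [h.2.2.1]⟩ h.1 Function.injective_id h.2.2.1

theorem sbc_SST (K A : Type) [Field K] [Ring A] [Algebra K A] [Module.Finite K A]
    (hW : T_WID K A) (hC : T_CLO K A) : T_SST K A := by
  intro f w hw
  refine ⟨fun C h => sst_one C h, fun C h => ?_, fun X Y Z i p hs => ⟨?_, ?_⟩, ?_, ?_, ?_, ?_, ?_⟩
  · exact ⟨(hC.1 f w hw).1.zero C h, (hC.1 f w hw).2.2.1.zero C h⟩
  · exact fun hY hX h0 => sst_three hW hC hw X Y Z i p hs hY hX h0
  · exact fun hX hZ => ⟨(hC.1 f w hw).1.ext X Y Z i p hs hX.1 hZ.1,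
      (hC.1 f w hw).2.2.1.ext X Y Z i p hs hX.2 hZ.2⟩
  · intro X Y φ hX hY
    obtain ⟨I, p, i, hI, hp, hi, hφ⟩ := hW.1 f X Y φ hX.1 hY.1
    exact ⟨I, p, i, ⟨(hC.1 f w hw).1.quo X I p hp hX, (hC.1 f w hw).2.2.1.sub I Y i hi hY⟩,
      hp, hi, hφ⟩
  · intro C
    constructor
    · intro h
      have hS := sst_st_ss hW hC hw C h
      refine ⟨hS, h.2.1, fun X i hX hn hi => ?_⟩
      by_contra hs
      have h1 := sst_six hW hw C h X i (sst_one X hX).1 hn hi hs
      linarith [(sst_one X hX).2]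
    · rintro ⟨hS, hn, h⟩
      have h1 := sst_one C hS
      refine ⟨h1.1, hn, h1.2, fun X p hX hnX hp hi => ?_⟩
      have h2 := hS.1.2 X p hX hp
      refine lt_of_le_of_ne h2 fun h3 => ?_
      obtain ⟨N, j, hs⟩ := exists_ker p hp
      have hN : InW f N := (hW.2.1 f N C X j p hs).2.1 h1.1 hX
      have h4 := hw N C X j p hN h1.1 hX hs
      have h5 : SS f w N := (sst_three hW hC hw N C X j p hs hS hN (by linarith [h1.2])).1
      have h6 := h N j h5 (sst_nontriv_ker hs hi) hs.inj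
      obtain ⟨x, hx⟩ := exists_ne (0 : X)
      obtain ⟨c, rfl⟩ := hp x
      obtain ⟨n, rfl⟩ := h6 c
      exact hx (hs.comp n)
  · exact fun C hC' X i hX hn hi hs => sst_six hW hw C hC' X i hX hn hi hs
  · exact fun Z X i hZ hX hi h0 => sst_seven hW hC hw Z X i hZ hX hi h0
  · exact fun Y X p hY hX hp h0 => sst_eight hW hC hw Y X p hY hX hp h0

end SBC
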