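import Pool.Agent.H5.SBC.Targets

/-!
Module STL: complete lists of stables.
-/

namespace SBC

open Dem Filter

theorem sbc_STL (K A : Type) [Field K] [Ring A] [Algebra K A] [Module.Finite K A]
    (hSTW : T_STW K A) : T_STL K A := by
  intro hLR f r D hf ζ
  refine ⟨?_, ?_⟩
  · -- a maximal family
    let P : ℕ → Prop := fun k => ∃ S : Fin k → FMod K A, StabFam f (wt D ζ) S
    have h0 : P 0 := ⟨Fin.elim0, fun i => i.elim0, fun i => i.elim0⟩
    have hle : ∀ k, P k → k ≤ r := fun k ⟨S, hS⟩ => (hSTW hLR f r D hf ζ k S hS).2.2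
    classical
    let k := Nat.findGreatest P r
    have hk : P k := Nat.findGreatest_spec (Nat.zero_le r) h0
    obtain ⟨S, hS⟩ := hk
    refine ⟨k, S, hS, fun C hC => ?_⟩
    by_contra hcon
    push Not at hcon
    have hcon' : ∀ i, IsEmpty (C ≃ₗ[A] S i) := hcon
    have hk1 : P (k + 1) := by
      refine ⟨Fin.cons C S, ?_, ?_⟩
      · intro i
        refine Fin.cases ?_ (fun i => ?_) i
        · simpa using hC
        · simpa using hS.1 i
      · intro i j
        refine Fin.cases ?_ (fun i => ?_) i <;> refine Fin.cases ?_ (fun j => ?_) j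
        · intro h; exact absurd rfl h
        · intro _
          exact hcon' j
        · intro _
          have : IsEmpty (S i ≃ₗ[A] C) := ⟨fun e => (hcon' i).false e.symm⟩
          exact this
        · intro h
          exact hS.2 i j (fun h' => h (by rw [h']))
    have : k + 1 ≤ k := Nat.le_findGreatest (hle _ hk1) hk1
    omega
  · intro k k' S S' hS hS'
    choose φ hφ using fun i => hS'.2 (S i) (hS.1 i)
    have hinj : Function.Injective φ := by
      intro i j hij
      by_contra hne
      obtain ⟨e⟩ := hφ i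
      obtain ⟨e'⟩ := hφ j
      rw [← hij] at e'
      exact (hS.2 i j hne).false (e.trans e'.symm)
    have hkk : k ≤ k' := by
      have := Fintype.card_le_of_injective φ hinj
      simpa using this
    refine ⟨hkk, fun h => ⟨hS, fun C hC => ?_⟩⟩
    have hbij : Function.Bijective φ := by
      rw [Fintype.bijective_iff_injective_and_card]
      exact ⟨hinj, by simp; omega⟩
    obtain ⟨i', ⟨e⟩⟩ := hS'.2 C hC
    obtain ⟨i, rfl⟩ := hbij.2 i'
    obtain ⟨e'⟩ := hφ i
    exact ⟨i, ⟨e.trans e'.symm⟩⟩

end SBC
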