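import Pool.Agent.H5.SBC.Targets

/-!
Module STO: stability is open on the zero set.
-/

namespace SBC

open Dem Filter

theorem sbc_STO (K A : Type) [Field K] [Ring A] [Algebra K A] [Module.Finite K A]
    (hBDD : T_BDD K A) : T_STO K A := by
  intro f r D k S ζ₀ hS
  obtain ⟨-, hfin⟩ := hBDD f r D
  let n : ℕ := ∑ i, Module.finrank K (S i)
  have hV := hfin n
  have hev : ∀ᶠ ζ : Fin r → ℝ in nhds ζ₀, ∀ v ∈ {v : Fin r → ℚ | ∃ X : FMod K A, InW f X ∧
      Module.finrank K X ≤ n ∧ D.d X = v}, 0 < ∑ j, ζ₀ j * (v j : ℝ) →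
        0 < ∑ j, ζ j * (v j : ℝ) := by
    rw [Filter.eventually_all_finite hV]
    intro v _
    by_cases hv : 0 < ∑ j, ζ₀ j * (v j : ℝ)
    · have hc : Continuous (fun ζ : Fin r → ℝ => ∑ j, ζ j * (v j : ℝ)) := by fun_prop
      filter_upwards [hc.continuousAt.eventually (lt_mem_nhds hv)] with ζ hζ _
      exact hζ
    · exact Filter.Eventually.of_forall fun ζ h => absurd h hv
  obtain ⟨ρ, hρ, h⟩ := Metric.eventually_nhds_iff.1 hev
  refine ⟨ρ, hρ, fun ζ hζ h0 i => ?_⟩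
  obtain ⟨h1, h2, h3, h4⟩ := hS i
  refine ⟨h1, h2, h0 i, fun X p hX hXn hp hp' => ?_⟩
  refine h (by rwa [dist_eq_norm]) (D.d X) ⟨X, hX, ?_, rfl⟩ (h4 X p hX hXn hp hp')
  refine (surj_finrank_le p hp).trans ?_
  exact Finset.single_le_sum (f := fun i => Module.finrank K (S i)) (fun _ _ => Nat.zero_le _)
    (Finset.mem_univ i)

end SBC
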