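import Pool.Agent.H5.SBC.Targets

/-!
STQ (3.3), (4.6): stable quotients and subobjects.
-/

namespace SBC

open Dem

variable {K A : Type} [Field K] [Ring A] [Algebra K A]

private theorem stq_nontriv {X Y I : FMod K A} {φ : X →ₗ[A] Y} (h : φ ≠ 0) {p : X →ₗ[A] I}
    {i : I →ₗ[A] Y} (he : i ∘ₗ p = φ) : Nontrivial I := by
  by_contra hn
  rw [not_nontrivial_iff_subsingleton] at hn
  apply h
  rw [← he]
  ext x
  change i (p x) = 0
  rw [Subsingleton.elim (p x) 0, map_zero]

private theorem stq_coker {X Y Z : FMod K A} {i : X →ₗ[A] Y} {p : Y →ₗ[A] Z}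
    (hs : SES i p) (h : ¬ Function.Surjective i) : Nontrivial Z := by
  by_contra hn
  rw [not_nontrivial_iff_subsingleton] at hn
  apply h
  intro y
  obtain ⟨x, hx⟩ := hs.exists_of_zero (y := y) (Subsingleton.elim _ _)
  exact ⟨x, hx⟩

private theorem stq_zero (hW : T_WID K A) {f : Cpx K A} {w : FMod K A → ℝ} (hw : AddOn f w)
    (X : FMod K A) (hX : Subsingleton X) : w X = 0 := by
  have h1 : InW f X := hW.2.2.2.1 f X hX
  have h2 := hw X X X LinearMap.id LinearMap.id h1 h1 h1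
    (ses_right_zero _ _ hX Function.bijective_id)
  linarith

private theorem stq_ne_zero {X Y : FMod K A} (φ : X →ₗ[A] Y) (hX : Nontrivial X)
    (hi : Function.Injective φ) : φ ≠ 0 := by
  intro h
  obtain ⟨x, hx⟩ := exists_ne (0 : X)
  apply hx
  apply hi
  rw [h, LinearMap.zero_apply, LinearMap.zero_apply]

private theorem stq_sub [Module.Finite K A] (hS : T_SST K A) {f : Cpx K A} {w : FMod K A → ℝ}
    (hw : AddOn f w) (X : FMod K A) (hX : SS f w X) (hn : Nontrivial X) :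
    ∃ (C : FMod K A) (i : C →ₗ[A] X), ST f w C ∧ Function.Injective i := by
  classical
  have hex : ∃ n : ℕ, ∃ (C : FMod K A) (i : C →ₗ[A] X), SS f w C ∧ Nontrivial C ∧
      Function.Injective i ∧ Module.finrank K C = n :=
    ⟨_, X, LinearMap.id, hX, hn, Function.injective_id, rfl⟩
  obtain ⟨C, i, hC, hCn, hi, hCd⟩ := Nat.find_spec hex
  refine ⟨C, i, ((hS f w hw).2.2.2.2.1 C).2 ⟨hC, hCn, fun X' j hX' hn' hj => ?_⟩, hi⟩
  have h1 := Nat.find_min' hex ⟨X', i ∘ₗ j, hX', hn', hi.comp hj, rfl⟩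
  have h2 := inj_finrank_le j hj
  exact surj_of_finrank_eq j hj (by omega)

private theorem stq_quo [Module.Finite K A] (hS : T_SST K A) {f : Cpx K A} {w : FMod K A → ℝ}
    (hw : AddOn f w) (X : FMod K A) (hX : SS f w X) (hn : Nontrivial X) :
    ∃ (C : FMod K A) (p : X →ₗ[A] C), ST f w C ∧ Function.Surjective p := by
  classical
  have hex : ∃ n : ℕ, ∃ (C : FMod K A) (p : X →ₗ[A] C), SS f w C ∧ Nontrivial C ∧
      Function.Surjective p ∧ Module.finrank K C = n :=
    ⟨_, X, LinearMap.id, hX, hn, Function.surjective_id, rfl⟩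
  obtain ⟨C, p, hC, hCn, hp, hCd⟩ := Nat.find_spec hex
  refine ⟨C, p, ((hS f w hw).2.2.2.2.1 C).2 ⟨hC, hCn, fun X' j hX' hn' hj => ?_⟩, hp⟩
  by_contra hs
  obtain ⟨Q, q, hq⟩ := exists_coker j hj
  have h1 := (hS f w hw).1 X' hX'
  have h2 := (((hS f w hw).2.2.1 X' C Q j q hq).1 hC h1.1 h1.2).2
  have h3 := Nat.find_min' hex ⟨Q, q ∘ₗ p, h2, stq_coker hq hs, hq.surj.comp hp, rfl⟩
  have h4 := hq.finrank
  have h5 := (nontrivial_iff X').1 hn'
  omega

theorem sbc_STQ (K A : Type) [Field K] [Ring A] [Algebra K A] [Module.Finite K A]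
    (hW : T_WID K A) (hS : T_SST K A) : T_STQ K A := by
  intro f w hw
  obtain ⟨s1, s2, s3, s4, s5, s6, s7, s8⟩ := hS f w hw
  have p2 : ∀ (C Z : FMod K A) (φ : C →ₗ[A] Z), ST f w C → FF f w Z → φ ≠ 0 →
      Function.Injective φ := by
    intro C Z φ hC hZ h0
    obtain ⟨I, p, i, hI, hp, hi, he⟩ := s4 C Z φ ((s5 C).1 hC).1.1 hZ
    have hIn : Nontrivial I := stq_nontriv h0 he
    by_cases hpi : Function.Injective p
    · rw [← he]
      exact hi.comp hpi
    · have h1 := hC.2.2.2 I p (s1 I hI).1 hIn hp hpi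
      have h2 := (s1 I hI).2
      linarith
  refine ⟨fun X hX hn => ⟨stq_quo hS hw X hX hn, stq_sub hS hw X hX hn⟩, p2, ?_, ?_, ?_, ?_⟩
  · intro Y C φ hY hC h0
    obtain ⟨I, p, i, hI, hp, hi, he⟩ := s4 Y C φ hY ((s5 C).1 hC).1.2
    have hIn : Nontrivial I := stq_nontriv h0 he
    rw [← he]
    exact (((s5 C).1 hC).2.2 I i hI hIn hi).comp hp
  · intro k S hL X hX P P0 P1 P2
    have key : ∀ n : ℕ, ∀ X : FMod K A, SS f w X → Module.finrank K X ≤ n → P X := by
      intro n
      induction n with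
      | zero =>
        intro X _ hn
        exact P0 X ((subsingleton_iff X).2 (by omega))
      | succ n ih =>
        intro X hX hn
        by_cases hx : Subsingleton X
        · exact P0 X hx
        · have hnt : Nontrivial X := not_subsingleton_iff_nontrivial.1 hx
          obtain ⟨C, p, hC, hp⟩ := stq_quo hS hw X hX hnt
          obtain ⟨N, i, hs⟩ := exists_ker p hp
          have h1 := s1 X hX
          have hN : InW f N := (hW.2.1 f N X C i p hs).2.1 h1.1 hC.1
          have h2 := hw N X C i p hN h1.1 hC.1 hs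
          have h3 := (s3 N X C i p hs).1 hX hN (by linarith [h1.2, hC.2.2.1])
          have h4 := hs.finrank
          have h5 := (nontrivial_iff C).1 hC.2.1
          obtain ⟨j, hj⟩ := hL.2 C hC
          exact P2 N X C i p hs (ih N h3.1 (by omega)) (P1 C j hj)
    exact key _ X hX le_rfl
  · intro k S hL Z
    constructor
    · intro hZ
      have hF : FF f w Z := by
        refine ⟨hZ.1, fun X i hX hi => ?_⟩
        by_cases hx : Subsingleton X
        · exact (stq_zero hW hw X hx).le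
        · exact (hZ.2 X i hX (not_subsingleton_iff_nontrivial.1 hx) hi).le
      refine ⟨hF, ?_⟩
      rintro M ⟨i, rfl⟩ φ
      by_contra h0
      have hi := hL.1.1 i
      have h1 := p2 _ Z φ hi hF h0
      have h2 := hZ.2 _ φ hi.1 hi.2.1 h1
      linarith [hi.2.2.1]
    · rintro ⟨hF, hP⟩
      refine ⟨hF.1, fun X i hX hn hi => ?_⟩
      refine lt_of_le_of_ne (hF.2 X i hX hi) fun h0 => ?_
      have h1 := s7 Z X i hF hX hi h0
      obtain ⟨C, j, hC, hj⟩ := stq_sub hS hw X h1 hn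
      obtain ⟨l, ⟨e⟩⟩ := hL.2 C hC
      have h2 := hP (S l) ⟨l, rfl⟩ ((i ∘ₗ j) ∘ₗ e.symm.toLinearMap)
      have h3 : Function.Injective ((i ∘ₗ j) ∘ₗ e.symm.toLinearMap) :=
        (hi.comp hj).comp e.symm.injective
      exact stq_ne_zero _ (hL.1.1 l).2.1 h3 h2
  · intro X Y Z i p hs hX hY
    have h1 := s1 X hX
    refine ⟨(hW.2.1 f X Y Z i p hs).2.2.2.1 h1.1.2 hY.1, fun V j hV hj => ?_⟩
    obtain ⟨Y', i', p', j', hs', hj', _, _⟩ := hs.preimage j hj
    have hY' : InW f Y' := (hW.2.1 f X Y' V i' p' hs').2.2.1 h1.1 hV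
    have h2 := hw X Y' V i' p' h1.1 hY' hV hs'
    have h3 := hY.2 Y' j' hY' hj'
    linarith [h1.2]

end SBC
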