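import Pool.Agent.H5.SBC.Targets

/-!
Stable brick conjecture, module STT: the statement `St(S)` by downward induction.
-/

namespace SBC

open Dem

theorem sbc_STT (K A : Type) [Field K] [Ring A] [Algebra K A] [Module.Finite K A]
    (hXTH : T_XTH K A) (hSTE : T_STE K A) (hSTL : T_STL K A) (hSTW : T_STW K A)
    (hDMS : T_DMS K A) (hLEC : T_LEC K A) : T_STT K A := by
  intro hLR f r D hf
  -- downward induction
  suffices H : ∀ (n k : ℕ), r ≤ k + n → ∀ S : Fin k → FMod K A, StS D S from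
    fun k S => H r k (by omega) S
  intro n
  induction n with
  | zero =>
    intro k hk S ζ₁ ζm hrat hlist hmin hle hst
    -- here `r ≤ k`, so every family of stables has exactly `k` members
    obtain ⟨hrefl, htrans, -⟩ := hLEC f r D (MemS S)
    have hmem : ζm ∈ Pcl D (MemS S) (DS D S) ζm := ⟨hmin.1, hmin.2.1, hrefl ζm⟩
    have hfam : StabFam f (wt D ζm) S := ⟨hst ζm hmem, hlist.1.2⟩
    obtain ⟨⟨k', S', hS'⟩, hcmp⟩ := hSTL hLR f r D hf ζm
    have hk' : k' ≤ r := (hSTW hLR f r D hf ζm k' S' hS'.1).2.2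
    have hlist' : StabList f (wt D ζm) S := (hcmp k k' S S' hfam hS').2 (by omega)
    obtain ⟨ζ', hrat', hne', hss', hle'⟩ := hXTH hLR f r D hf k S ζ₁ ζm hrat hlist hlist' hmin.2.1 hle
    refine ⟨ζ', ⟨hss', hne', hle'⟩, 1, one_pos, ?_⟩
    rwa [one_smul]
  | succ n ih =>
    intro k hk S ζ₁ ζm hrat hlist hmin hle hst
    obtain ⟨hrefl, htrans, -⟩ := hLEC f r D (MemS S)
    have hmem : ζm ∈ Pcl D (MemS S) (DS D S) ζm := ⟨hmin.1, hmin.2.1, hrefl ζm⟩
    -- the maximal number of stables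
    classical
    let Q : ℕ → Prop := fun j => ∃ ζ ∈ Pcl D (MemS S) (DS D S) ζm, ∃ S'' : Fin j → FMod K A,
      StabList f (wt D ζ) S''
    have hbd : ∀ j, Q j → j ≤ r := by
      rintro j ⟨ζ, -, S'', hS''⟩
      exact (hSTW hLR f r D hf ζ j S'' hS''.1).2.2
    obtain ⟨j₀, hj₀⟩ : ∃ j, Q j := by
      obtain ⟨⟨k', S', hS'⟩, -⟩ := hSTL hLR f r D hf ζm
      exact ⟨k', ζm, hmem, S', hS'⟩
    have hQmax : Q (Nat.findGreatest Q r) := Nat.findGreatest_spec (hbd j₀ hj₀) hj₀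
    have hle_max : ∀ j, Q j → j ≤ Nat.findGreatest Q r := fun j hj =>
      Nat.le_findGreatest (hbd j hj) hj
    generalize hk'def : Nat.findGreatest Q r = k' at hQmax hle_max
    obtain ⟨ζs, hζs, S', hS'⟩ := hQmax
    have hfam : StabFam f (wt D ζs) S := ⟨hst ζs hζs, hlist.1.2⟩
    obtain ⟨-, hcmp⟩ := hSTL hLR f r D hf ζs
    obtain ⟨hkk', hback⟩ := hcmp k k' S S' hfam hS'
    rcases hkk'.lt_or_eq with hlt | heq
    · -- more stables: Step E and induction
      have hdom : Dom D (MemS S) (DS D S) := hDMS f r D k S fun i => (hst ζm hmem i).1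
      refine hSTE hLR f r D (MemS S) (DS D S) hf hdom ζm hmin ?_ ζs hζs k' S' hS' ?_ ?_
      · rintro ζ hζ M ⟨i, rfl⟩
        exact hζ.1 i
      · intro ζ hζ j S'' hS''
        exact hle_max j ⟨ζ, hζ, S'', hS''⟩
      · exact ih k' (by omega) S'
    · have hlist' : StabList f (wt D ζs) S := hback (by omega)
      obtain ⟨ζ', hrat', hne', hss', hle'⟩ := hXTH hLR f r D hf k S ζ₁ ζs hrat hlist hlist' hζs.2.1
        (htrans _ _ _ hζs.2.2 hle)
      refine ⟨ζ', ⟨hss', hne', htrans _ _ _ hle' hζs.2.2⟩, 1, one_pos, ?_⟩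
      rwa [one_smul]

end SBC
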