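import Pool.Agent.H5.SBC.Targets

/-!
Module STW: stables are independent.
-/

namespace SBC

open Dem Filter

theorem sbc_STW (K A : Type) [Field K] [Ring A] [Algebra K A] [Module.Finite K A]
    (hRGG : T_RGG K A) (hSON : T_SON K A) (hRRB : T_RRB K A) (hSTO : T_STO K A) (hRAT : T_RAT)
    (hSST : T_SST K A) (hWTA : T_WTA K A) : T_STW K A := by
  intro hLR f r D hf ζ k S hS
  obtain ⟨hSt, hiso⟩ := hS
  -- the separating functionals
  have hc : ∃ c : Fin k → Fin r → ℚ, ∀ i, 0 < ∑ j, c i j * D.d (S i) j ∧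
      ∀ i', i' ≠ i → ∑ j, c i j * D.d (S i') j = 0 := by
    obtain ⟨ρ, hρ, hρ'⟩ := hSTO f r D k S ζ hSt
    obtain ⟨q, hq1, hq2, hq3⟩ := hRAT.1 r k (fun i => D.d (S i)) ζ (fun i => (hSt i).2.2.1) ρ hρ
    have hq4 := hρ' q hq3 hq2
    obtain ⟨g, m, hm, hg, hcls⟩ := hRGG hLR f r D hf q hq1
    have hm' : (0 : ℝ) < m := by exact_mod_cast hm
    obtain ⟨-, -, hSS⟩ := hRRB f g (wt D q) (1 / m) hg (by positivity) (by
      intro X hX
      rw [hcls X hX]
      field_simp)
    obtain ⟨-, -, -, -, hST, -⟩ := hSST f (wt D q) ((hWTA f r D).1 q)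
    have hsimp : ∀ i, SimpW (f.sum g) (S i) := by
      intro i
      obtain ⟨h1, h2, h3⟩ := (hST (S i)).1 (hq4 i)
      refine ⟨(hSS _).1 h1, h2, fun X j hX hXn hj => h3 X j ((hSS _).2 hX) hXn hj⟩
    have hex : ∀ i, ∃ c : Fin r → ℚ, 0 < ∑ j, c j * D.d (S i) j ∧
        ∀ i', i' ≠ i → ∑ j, c j * D.d (S i') j = 0 := by
      intro i
      obtain ⟨x, hx, hx1, hx2⟩ := hSON hLR (f.sum g) hg (S i) (hsimp i)
      obtain ⟨c, hc⟩ := D.res x hx
      refine ⟨c, ?_, fun i' hi' => ?_⟩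
      · rw [← hc (S i) (hSt i).1]
        exact_mod_cast hx1
      · rw [← hc (S i') (hSt i').1]
        rw [hx2 (S i') (hsimp i') (hiso i i' (Ne.symm hi'))]
        norm_num
    choose c hc1 hc2 using hex
    exact ⟨c, fun i => ⟨hc1 i, hc2 i⟩⟩
  refine ⟨hc, ?_⟩
  obtain ⟨c, hc⟩ := hc
  have hli : LinearIndependent ℚ (fun i => D.d (S i)) := by
    rw [Fintype.linearIndependent_iff]
    intro a ha i
    have h1 : ∑ j, c i j * (∑ i', a i' • D.d (S i')) j = 0 := by
      rw [ha]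
      simp
    have h2 : ∑ j, c i j * (∑ i', a i' • D.d (S i')) j =
        ∑ i', a i' * ∑ j, c i j * D.d (S i') j := by
      simp only [Finset.sum_apply, Pi.smul_apply, smul_eq_mul, Finset.mul_sum]
      rw [Finset.sum_comm]
      refine Finset.sum_congr rfl fun i' _ => Finset.sum_congr rfl fun j _ => ?_
      ring
    rw [h2, Finset.sum_eq_single i] at h1
    · exact (mul_eq_zero.1 h1).resolve_right (hc i).1.ne'
    · intro i' _ hi'
      rw [(hc i).2 i' hi', mul_zero]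
    · intro h
      exact absurd (Finset.mem_univ i) h
  refine ⟨hli, ?_⟩
  have := hli.fintype_card_le_finrank
  simpa using this

end SBC
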