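import Pool.Agent.H5.SBC.Targets

/-!
Module THA: a non-rigid complex gives a stable module (Theorem A).
-/

namespace SBC

open Dem

theorem sbc_THA (K A : Type) [Field K] [Ring A] [Algebra K A] [Module.Finite K A]
    (hom : T_HOM K A) : T_THA K A := by
  classical
  obtain ⟨h1, h2, h3, -, -, -, -, -⟩ := hom
  intro f hf
  -- images of nonzero maps `M_f → τ f`
  let P : ℕ → Prop := fun n => ∃ (N : FMod K A) (p : f.H →ₗ[A] N) (i : N →ₗ[A] tau f),
    Function.Surjective p ∧ Function.Injective i ∧ Nontrivial N ∧ Module.finrank K N = n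
  have himg : ∀ φ : f.H →ₗ[A] tau f, φ ≠ 0 → ∃ (N : FMod K A) (p : f.H →ₗ[A] N)
      (i : N →ₗ[A] tau f), Function.Surjective p ∧ Function.Injective i ∧ Nontrivial N := by
    intro φ hφ
    obtain ⟨I, p, i, hp, hi, hpi⟩ := exists_image φ
    refine ⟨I, p, i, hp, hi, ?_⟩
    rw [← not_subsingleton_iff_nontrivial]
    intro hs
    apply hφ
    rw [← hpi]
    refine LinearMap.ext fun x => ?_
    change i (p x) = 0
    rw [Subsingleton.elim (p x) 0, map_zero]
  have hex : ∃ n, P n := by
    have h4 : ¬ Hom0 f.H (tau f) := fun h => hf ((h3 f).2 ((h2 f f.H).2 h))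
    unfold Hom0 at h4
    push Not at h4
    obtain ⟨φ, hφ⟩ := h4
    obtain ⟨N, p, i, hp, hi, hN⟩ := himg φ hφ
    exact ⟨_, N, p, i, hp, hi, hN, rfl⟩
  obtain ⟨N, p, i, hp, hi, hN, hn⟩ := Nat.find_spec hex
  have hmin : ∀ (N' : FMod K A) (p' : f.H →ₗ[A] N') (i' : N' →ₗ[A] tau f),
      Function.Surjective p' → Function.Injective i' → Nontrivial N' →
      Module.finrank K N ≤ Module.finrank K N' := by
    intro N' p' i' hp' hi' hN'
    rw [hn]
    exact Nat.find_min' hex ⟨N', p', i', hp', hi', hN', rfl⟩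
  have hne : ∀ {X Y : FMod K A} (j : X →ₗ[A] Y), Function.Injective j → Nontrivial X →
      j ≠ 0 := by
    intro X Y j hj hX h0
    obtain ⟨a, ha⟩ := exists_ne (0 : X)
    apply ha
    apply hj
    rw [h0]
    rfl
  refine ⟨N, hN, ?_, ⟨p ∘ₗ (LinearMap.range f.d).mkQ, ?_, ?_⟩, ?_, ?_⟩
  · intro h4
    exact hne i hi hN ((h2 f N).1 h4 i)
  · exact hp.comp (LinearMap.range f.d).mkQ_surjective
  · ext x
    change p ((LinearMap.range f.d).mkQ (f.d x)) = 0
    have : (LinearMap.range f.d).mkQ (f.d x) = 0 := by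
      rw [Submodule.mkQ_apply, Submodule.Quotient.mk_eq_zero]
      exact ⟨x, rfl⟩
    rw [this, map_zero]
  · change (Module.finrank K N : ℤ) * cls f N - cls f N * (Module.finrank K N : ℤ) = 0
    ring
  · intro N' hb ht
    have hses := ses_sub N N'
    have hnt' : Nontrivial (N.sub N') := Submodule.nontrivial_iff_ne_bot.2 hb
    have hnt'' : Nontrivial (N.quo N') := Submodule.Quotient.nontrivial_iff.2 ht
    have hfr := hses.finrank
    have hpos' := (nontrivial_iff (N.sub N')).1 hnt'
    have hpos'' := (nontrivial_iff (N.quo N')).1 hnt''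
    -- hh f N' = 0
    have e1 : hh f (N.sub N') = 0 := by
      rw [h1]
      intro φ
      by_contra hφ
      obtain ⟨I, p', i', hp', hi', hpi⟩ := exists_image φ
      have hI : Nontrivial I := by
        rw [← not_subsingleton_iff_nontrivial]
        intro hs
        apply hφ
        rw [← hpi]
        refine LinearMap.ext fun x => ?_
        change i' (p' x) = 0
        rw [Subsingleton.elim (p' x) 0, map_zero]
      have hinj : Function.Injective (i ∘ₗ N'.subtype ∘ₗ i') :=
        hi.comp (N'.injective_subtype.comp hi')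
      have h5 := hmin I p' (i ∘ₗ N'.subtype ∘ₗ i') hp' hinj hI
      have h6 : Module.finrank K I ≤ Module.finrank K (N.sub N') := inj_finrank_le i' hi'
      omega
    have e2 : ee f (N.sub N') ≠ 0 := by
      intro h5
      exact hne (X := N.sub N') (i ∘ₗ N'.subtype) (hi.comp N'.injective_subtype) hnt'
        ((h2 f _).1 h5 _)
    have e3 : ee f (N.quo N') = 0 := by
      rw [h2]
      intro φ
      by_contra hφ
      obtain ⟨I, p', i', hp', hi', hpi⟩ := exists_image φ
      have hI : Nontrivial I := by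
        rw [← not_subsingleton_iff_nontrivial]
        intro hs
        apply hφ
        rw [← hpi]
        refine LinearMap.ext fun x => ?_
        change i' (p' x) = 0
        rw [Subsingleton.elim (p' x) 0, map_zero]
      have h5 := hmin I (p' ∘ₗ N'.mkQ ∘ₗ p) i' (hp'.comp (N'.mkQ_surjective.comp hp)) hi' hI
      have h6 : Module.finrank K I ≤ Module.finrank K (N.quo N') := surj_finrank_le p' hp'
      omega
    have e4 : hh f (N.quo N') ≠ 0 := by
      intro h5
      have h6 : (N'.mkQ ∘ₗ p : f.H →ₗ[A] N.quo N') = 0 := (h1 f _).1 h5 _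
      obtain ⟨a, ha⟩ := exists_ne (0 : N.quo N')
      obtain ⟨b, rfl⟩ := N'.mkQ_surjective a
      obtain ⟨c, rfl⟩ := hp b
      exact ha (LinearMap.congr_fun h6 c)
    have e5 := hh_sub_ee f (N.sub N')
    have e6 := hh_sub_ee f (N.quo N')
    have e7 := K0_exact (cls_mem_K0 f) N N'
    change (Module.finrank K N : ℤ) * cls f (N.sub N') -
      cls f N * (Module.finrank K (N.sub N') : ℤ) < 0
    rw [hfr, e7]
    have a1 : cls f (N.sub N') ≤ -1 := by omega
    have a2 : 1 ≤ cls f (N.quo N') := by omega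
    have a3 : (1 : ℤ) ≤ Module.finrank K (N.sub N') := by omega
    have a4 : (1 : ℤ) ≤ Module.finrank K (N.quo N') := by omega
    push_cast
    nlinarith

end SBC
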