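import Pool.Agent.H5.SBC.Targets

/-! TPR: the torsion pairs `(TT, FF)` and `(TB, FS)`. -/

namespace SBC

open Dem

section

variable {K A : Type} [Field K] [Ring A] [Algebra K A]

theorem tpr_min {P : FMod K A → Prop} (h : ∃ X, P X) :
    ∃ X, P X ∧ ∀ Y, P Y → Module.finrank K X ≤ Module.finrank K Y := by
  obtain ⟨X, hX, hmin⟩ := (measure (fun X : FMod K A => Module.finrank K X)).wf.has_min
    {X | P X} h
  refine ⟨X, hX, fun Y hY => ?_⟩
  by_contra hlt
  push Not at hlt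
  exact hmin Y hY hlt

theorem tpr_w_zero {f : Cpx K A} {w : FMod K A → ℝ} (hw : AddOn f w) {X : FMod K A}
    (hX : Subsingleton X) (hW : InW f X) : w X = 0 := by
  have := hw X X X _ _ hW hW hW (ses_left_zero (LinearMap.id : X →ₗ[A] X)
    (LinearMap.id : X →ₗ[A] X) hX Function.bijective_id)
  linarith

theorem tpr_sub_of_zero {X Y : FMod K A} {i : X →ₗ[A] Y} (hi : Function.Injective i)
    (h : i = 0) : Subsingleton X := by
  refine ⟨fun a b => hi ?_⟩
  rw [h]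
  rfl

theorem tpr_quo_of_zero {X Y : FMod K A} {p : X →ₗ[A] Y} (hp : Function.Surjective p)
    (h : p = 0) : Subsingleton Y := by
  refine ⟨fun a b => ?_⟩
  obtain ⟨a', rfl⟩ := hp a
  obtain ⟨b', rfl⟩ := hp b
  rw [h]
  rfl

theorem tpr_zero_of_image {X I Y : FMod K A} {p : X →ₗ[A] I} {i : I →ₗ[A] Y} {φ : X →ₗ[A] Y}
    (h : i ∘ₗ p = φ) (hI : Subsingleton I) : φ = 0 := by
  rw [← h]
  ext x
  change i (p x) = 0
  rw [Subsingleton.elim (p x) 0, map_zero]

theorem tpr_nontrivial {X : FMod K A} (h : ¬ Subsingleton X) : Nontrivial X :=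
  not_subsingleton_iff_nontrivial.1 h

end

theorem sbc_TPR (K A : Type) [Field K] [Ring A] [Algebra K A] [Module.Finite K A]
    (h1 : T_WID K A) (h2 : T_HOM K A) : T_TPR K A := by
  obtain ⟨hH, hT, hR1, hR2, -, hq, hi, h0⟩ := h2
  obtain ⟨him, hs, hiso, hz, -⟩ := h1
  intro f w hf hw
  have hRig := (hR1 f).1 hf
  have hRig' := (hR2 f).1 hf
  -- `tau f` has no nonzero subobjects in `W`
  have htau : ∀ (X : FMod K A) (i : X →ₗ[A] tau f), InW f X → Function.Injective i →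
      Subsingleton X := fun X i hX hi =>
    tpr_sub_of_zero hi ((hT f X).1 hX.2 i)
  have hHq : ∀ (X : FMod K A) (p : f.H →ₗ[A] X), InW f X → Function.Surjective p →
      Subsingleton X := fun X p hX hp =>
    tpr_quo_of_zero hp ((hH f X).1 hX.1 p)
  have hne : ∀ X : FMod K A, InW f X → w X ≠ 0 → Nontrivial X := fun X hX hwX =>
    tpr_nontrivial fun hsub => hwX (tpr_w_zero hw hsub hX)
  refine ⟨⟨?_, ?_, ?_⟩, ⟨?_, ?_, ?_⟩⟩
  · intro Y Z hY hZ φ
    obtain ⟨I, p, i, hI, hp, hj, h⟩ := him f Y Z φ hY.1 hZ.1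
    apply tpr_zero_of_image h
    by_contra hn
    have h3 := hY.2 I p hI (tpr_nontrivial hn) hp
    have h4 := hZ.2 I i hI hj
    linarith
  · intro Y hY
    have htF : FF f w (tau f) := ⟨hRig', fun X i hX hj => by
      rw [tpr_w_zero hw (htau X i hX hj) hX]⟩
    have hee : ee f Y = 0 := (hT f Y).2 (hY _ htF)
    refine ⟨hee, ?_⟩
    by_contra hcon
    push Not at hcon
    obtain ⟨X₀, p₀, hX₀, hn₀, hp₀, hw₀⟩ := hcon
    obtain ⟨X, ⟨hX, hn, ⟨p, hp⟩, hwX⟩, hmin⟩ := tpr_min (P := fun X => InW f X ∧ Nontrivial X ∧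
      (∃ p : Y →ₗ[A] X, Function.Surjective p) ∧ w X ≤ 0) ⟨X₀, hX₀, hn₀, ⟨p₀, hp₀⟩, hw₀⟩
    have hFX : FF f w X := by
      refine ⟨hX.1, fun V j hV hj => ?_⟩
      by_contra hlt
      push Not at hlt
      obtain ⟨Q, q, h3⟩ := exists_coker j hj
      have hQ : InW f Q := (hs f V X Q j q h3).1 hV hX
      have h4 := hw V X Q j q hV hX hQ h3
      have h5 : Nontrivial V := hne V hV hlt.ne'
      have h6 := hmin Q ⟨hQ, hne Q hQ (by linarith), ⟨q ∘ₗ p, h3.surj.comp hp⟩, by linarith⟩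
      have h7 := h3.finrank
      rw [nontrivial_iff] at h5
      omega
    have h8 : Subsingleton X := tpr_quo_of_zero hp (hY X hFX p)
    exact (not_nontrivial X) hn
  · intro Z hZ
    have hTH : TT f w f.H := ⟨hRig, fun X p hX hn hp => by
      have := hHq X p hX hp
      exact absurd hn (not_nontrivial X)⟩
    have hhh : hh f Z = 0 := (hH f Z).2 (hZ _ hTH)
    refine ⟨hhh, ?_⟩
    by_contra hcon
    push Not at hcon
    obtain ⟨X₀, i₀, hX₀, hi₀, hw₀⟩ := hcon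
    obtain ⟨X, ⟨hX, ⟨i, hj⟩, hwX⟩, hmin⟩ := tpr_min (P := fun X => InW f X ∧
      (∃ i : X →ₗ[A] Z, Function.Injective i) ∧ 0 < w X) ⟨X₀, hX₀, ⟨i₀, hi₀⟩, hw₀⟩
    have hTX : TT f w X := by
      refine ⟨hX.2, fun Q q hQ hn hqs => ?_⟩
      by_contra hlt
      push Not at hlt
      obtain ⟨V, j, h3⟩ := exists_ker q hqs
      have hV : InW f V := (hs f V X Q j q h3).2.1 hX hQ
      have h4 := hw V X Q j q hV hX hQ h3
      have h6 := hmin V ⟨hV, ⟨i ∘ₗ j, hj.comp h3.inj⟩, by linarith⟩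
      have h7 := h3.finrank
      rw [nontrivial_iff] at hn
      omega
    have h8 : Subsingleton X := tpr_sub_of_zero hj (hZ X hTX i)
    have h9 := tpr_w_zero hw h8 hX
    linarith
  · intro Y Z hY hZ φ
    obtain ⟨I, p, i, hI, hp, hj, h⟩ := him f Y Z φ hY.1 hZ.1
    apply tpr_zero_of_image h
    by_contra hn
    have h3 := hY.2 I p hI hp
    have h4 := hZ.2 I i hI (tpr_nontrivial hn) hj
    linarith
  · intro Y hY
    have htF : FS f w (tau f) := ⟨hRig', fun X i hX hn hj => by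
      have := htau X i hX hj
      exact absurd hn (not_nontrivial X)⟩
    have hee : ee f Y = 0 := (hT f Y).2 (hY _ htF)
    refine ⟨hee, ?_⟩
    by_contra hcon
    push Not at hcon
    obtain ⟨X₀, p₀, hX₀, hp₀, hw₀⟩ := hcon
    obtain ⟨X, ⟨hX, ⟨p, hp⟩, hwX⟩, hmin⟩ := tpr_min (P := fun X => InW f X ∧
      (∃ p : Y →ₗ[A] X, Function.Surjective p) ∧ w X < 0) ⟨X₀, hX₀, ⟨p₀, hp₀⟩, hw₀⟩
    have hFX : FS f w X := by
      refine ⟨hX.1, fun V j hV hn hj => ?_⟩
      by_contra hlt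
      push Not at hlt
      obtain ⟨Q, q, h3⟩ := exists_coker j hj
      have hQ : InW f Q := (hs f V X Q j q h3).1 hV hX
      have h4 := hw V X Q j q hV hX hQ h3
      have h6 := hmin Q ⟨hQ, ⟨q ∘ₗ p, h3.surj.comp hp⟩, by linarith⟩
      have h7 := h3.finrank
      rw [nontrivial_iff] at hn
      omega
    have h8 : Subsingleton X := tpr_quo_of_zero hp (hY X hFX p)
    have h9 := tpr_w_zero hw h8 hX
    linarith
  · intro Z hZ
    have hTH : TB f w f.H := ⟨hRig, fun X p hX hp => by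
      rw [tpr_w_zero hw (hHq X p hX hp) hX]⟩
    have hhh : hh f Z = 0 := (hH f Z).2 (hZ _ hTH)
    refine ⟨hhh, ?_⟩
    by_contra hcon
    push Not at hcon
    obtain ⟨X₀, i₀, hX₀, hn₀, hi₀, hw₀⟩ := hcon
    obtain ⟨X, ⟨hX, hn, ⟨i, hj⟩, hwX⟩, hmin⟩ := tpr_min (P := fun X => InW f X ∧ Nontrivial X ∧
      (∃ i : X →ₗ[A] Z, Function.Injective i) ∧ 0 ≤ w X) ⟨X₀, hX₀, hn₀, ⟨i₀, hi₀⟩, hw₀⟩
    have hTX : TB f w X := by
      refine ⟨hX.2, fun Q q hQ hqs => ?_⟩
      by_contra hlt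
      push Not at hlt
      obtain ⟨V, j, h3⟩ := exists_ker q hqs
      have hV : InW f V := (hs f V X Q j q h3).2.1 hX hQ
      have h4 := hw V X Q j q hV hX hQ h3
      have h5 : Nontrivial Q := hne Q hQ hlt.ne
      have h6 := hmin V ⟨hV, hne V hV (by linarith), ⟨i ∘ₗ j, hj.comp h3.inj⟩, by linarith⟩
      have h7 := h3.finrank
      rw [nontrivial_iff] at h5
      omega
    have h8 : Subsingleton X := tpr_sub_of_zero hj (hZ X hTX i)
    exact (not_nontrivial X) hn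

end SBC
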