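import Pool.Agent.H5.SBC.Targets

/-! TRT (helper56): the modules whose quotient by the trace lies in a torsion class. -/

namespace SBC

open Dem

section

variable {K A : Type} [Field K] [Ring A] [Algebra K A]

theorem trt_kills (g : Cpx K A) (L M : FMod K A) (q : L →ₗ[A] M)
    (h : ∀ φ : g.P0 →ₗ[A] L, φ ∘ₗ g.d = 0 → q ∘ₗ φ = 0) : tr g L ≤ LinearMap.ker q := by
  unfold tr
  apply iSup_le
  rintro ⟨φ, hφ⟩ _ ⟨x, rfl⟩
  exact LinearMap.congr_fun (h φ hφ) x

/-- a surjection killing the trace -/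
theorem trt_quo (g : Cpx K A) {T : FMod K A → Prop} (hT : TorsCls T) (L M : FMod K A)
    (q : L →ₗ[A] M) (hq : Function.Surjective q)
    (h : ∀ φ : g.P0 →ₗ[A] L, φ ∘ₗ g.d = 0 → q ∘ₗ φ = 0) (hL : T (L.quo (tr g L))) : T M := by
  let q' : L.quo (tr g L) →ₗ[A] M := (tr g L).liftQ q (trt_kills g L M q h)
  refine hT.quo _ _ q' ?_ hL
  intro y
  obtain ⟨x, rfl⟩ := hq y
  exact ⟨(tr g L).mkQ x, rfl⟩

theorem trt_mk_zero (g : Cpx K A) (L : FMod K A) (φ : g.P0 →ₗ[A] L) (hφ : φ ∘ₗ g.d = 0) :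
    ((tr g L).mkQ : L →ₗ[A] L.quo (tr g L)) ∘ₗ φ = 0 := by
  refine LinearMap.ext fun x => ?_
  change (tr g L).mkQ (φ x) = 0
  rw [Submodule.mkQ_apply, Submodule.Quotient.mk_eq_zero]
  exact range_le_tr g L φ hφ ⟨x, rfl⟩

end

theorem sbc_TRT (K A : Type) [Field K] [Ring A] [Algebra K A] [Module.Finite K A]
    (hlft : T_LFT K A) (hsnu : T_SNU K A) : T_TRT K A := by
  intro g T hg hT hee
  refine ⟨?_, ?_, ?_⟩
  · intro X hX
    refine hT.zero _ ?_
    exact (tr g X).mkQ_surjective.subsingleton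
  · intro X Y p hp hX
    let q : X →ₗ[A] Y.quo (tr g Y) := (tr g Y).mkQ ∘ₗ p
    refine trt_quo g hT X _ q ((tr g Y).mkQ_surjective.comp hp) ?_ hX
    intro φ hφ
    have h1 := trt_mk_zero g Y (p ∘ₗ φ) (by rw [LinearMap.comp_assoc, hφ, LinearMap.comp_zero])
    exact h1
  · intro X Y Z i p hs hX hZ
    -- `ee g X = 0`
    have heX : ee g X = 0 := by
      have h1 := (hsnu g _ _ _ _ _ (ses_sub X (tr g X))).2.2.2.1
      have h2 : ee g (X.sub (tr g X)) = 0 := (van_iff_ee g _).1 (van_tr hg X)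
      have h3 : ee g (X.quo (tr g X)) = 0 := hee _ hX
      omega
    obtain ⟨Q', Q'', i', p', a, c, hs', ha, hc, hia, hcp⟩ :=
      hs.quo (Q := Y.quo (tr g Y)) (tr g Y).mkQ (tr g Y).mkQ_surjective
    refine hT.ext Q' _ Q'' i' p' hs' ?_ ?_
    · refine trt_quo g hT X Q' a ha ?_ hX
      intro φ hφ
      have h1 := trt_mk_zero g Y (i ∘ₗ φ) (by rw [LinearMap.comp_assoc, hφ, LinearMap.comp_zero])
      refine LinearMap.ext fun x => hs'.inj ?_
      have h2 := LinearMap.congr_fun h1 x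
      have h3 := LinearMap.congr_fun hia (φ x)
      change i' (a (φ x)) = i' 0
      rw [map_zero]
      exact h3.trans h2
    · refine trt_quo g hT Z Q'' c hc ?_ hZ
      intro φ hφ
      have hb : LinearMap.range g.d ≤ LinearMap.ker φ := by
        rintro _ ⟨x, rfl⟩
        exact LinearMap.congr_fun hφ x
      obtain ⟨ψ, hψ⟩ := (hlft g X Y Z i p hs).1 heX ((LinearMap.range g.d).liftQ φ hb)
      let ψ' : g.P0 →ₗ[A] Y := ψ ∘ₗ (LinearMap.range g.d).mkQ
      have h1 : ψ' ∘ₗ g.d = 0 := by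
        refine LinearMap.ext fun x => ?_
        change ψ ((LinearMap.range g.d).mkQ (g.d x)) = 0
        have h2 : (LinearMap.range g.d).mkQ (g.d x) = 0 := by
          rw [Submodule.mkQ_apply, Submodule.Quotient.mk_eq_zero]
          exact ⟨x, rfl⟩
        rw [h2, map_zero]
      have h3 := trt_mk_zero g Y ψ' h1
      refine LinearMap.ext fun x => ?_
      have h4 : p (ψ' x) = φ x := LinearMap.congr_fun hψ ((LinearMap.range g.d).mkQ x)
      have h5 := LinearMap.congr_fun hcp (ψ' x)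
      have h6 := LinearMap.congr_fun h3 x
      change c (φ x) = 0
      rw [← h4]
      refine Eq.trans h5 ?_
      change p' ((tr g Y).mkQ (ψ' x)) = 0
      have h7 : (tr g Y).mkQ (ψ' x) = 0 := h6
      rw [h7, map_zero]

end SBC
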