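import Pool.Agent.H5.SBC.Targets

namespace SBC

open Dem

theorem sbc_VLM (K A : Type) [Field K] [Ring A] [Algebra K A] [Module.Finite K A]
    (hRAD : T_RAD K A) (hHOM : T_HOM K A) : T_VLM K A := by
  intro g F hg hF hτ Z hZ
  obtain ⟨N, Q, i, p, hs, hQ, hN⟩ := hRAD.2 F hF Z
  have h1 : ee g N = 0 := (hHOM.2.1 g N).2 (hN _ hτ)
  have h2 : hh g N = 0 := by
    have := hHOM.2.2.2.2.2.2.1 g N Z i hs.inj
    omega
  have h3 : Subsingleton N := hg.2 N h2 h1
  refine hF.sub Z Q p ?_ hQ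
  rw [← LinearMap.ker_eq_bot, ← hs.exact, LinearMap.range_eq_bot]
  refine LinearMap.ext fun x => ?_
  rw [Subsingleton.elim x 0, map_zero, map_zero]

end SBC
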