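import Pool.Agent.H5.SBC.Targets

/-! WID: `W_f` is a wide subcategory. -/

namespace SBC

open Dem

theorem sbc_WID (K A : Type) [Field K] [Ring A] [Algebra K A] [Module.Finite K A]
    (h1 : T_SNU K A) (h2 : T_HOM K A) : T_WID K A := by
  obtain ⟨-, -, -, -, -, hq, hi, h0⟩ := h2
  refine ⟨?_, ?_, ?_, ?_, ?_⟩
  · intro f X Y φ hX hY
    obtain ⟨I, p, i, hp, hj, h⟩ := exists_image φ
    refine ⟨I, p, i, ⟨?_, ?_⟩, hp, hj, h⟩
    · have := hi f I Y i hj
      omega
    · have := hq f X I p hp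
      omega
  · intro f X Y Z i p h
    obtain ⟨a1, a2, a3, a4, a5⟩ := h1 f X Y Z i p h
    have b1 := hh_sub_ee f X
    have b2 := hh_sub_ee f Y
    have b3 := hh_sub_ee f Z
    unfold InW
    refine ⟨?_, ?_, ?_, ?_, ?_⟩
    · rintro ⟨c1, c2⟩ ⟨c3, c4⟩
      constructor <;> omega
    · rintro ⟨c1, c2⟩ ⟨c3, c4⟩
      constructor <;> omega
    · rintro ⟨c1, c2⟩ ⟨c3, c4⟩
      constructor <;> omega
    · intro c1 c2
      omega
    · intro c1 c2
      omega
  · rintro f X Y ⟨e⟩ ⟨c1, c2⟩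
    have d1 := hq f X Y e.toLinearMap e.surjective
    have d2 := hi f Y X e.symm.toLinearMap e.symm.injective
    constructor <;> omega
  · intro f X hX
    exact h0 f X hX
  · intro f g X
    unfold InW
    rw [hh_sum, ee_sum]
    omega

end SBC
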