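import Pool.Agent.H5.SBC.Targets

namespace SBC

open Dem

theorem sbc_WTA (K A : Type) [Field K] [Ring A] [Algebra K A] [Module.Finite K A] :
    T_WTA K A := by
  intro f r D
  have hlin : ∀ (a b : ℝ) (ζ ξ : Fin r → ℝ) (X : FMod K A),
      wt D (a • ζ + b • ξ) X = a * wt D ζ X + b * wt D ξ X := by
    intro a b ζ ξ X
    unfold wt
    rw [Finset.mul_sum, Finset.mul_sum, ← Finset.sum_add_distrib]
    refine Finset.sum_congr rfl fun j _ => ?_
    simp only [Pi.add_apply, Pi.smul_apply, smul_eq_mul]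
    ring
  have hres : ∀ x ∈ K0 K A, ∃ ζ, IsRat ζ ∧ ∀ X, InW f X → (x X : ℝ) = wt D ζ X := by
    intro x hx
    obtain ⟨c, hc⟩ := D.res x hx
    refine ⟨fun j => (c j : ℝ), ⟨c, fun j => rfl⟩, fun X hX => ?_⟩
    have h1 := hc X hX
    have h2 : ((x X : ℚ) : ℝ) = ((∑ j, c j * D.d X j : ℚ) : ℝ) := by rw [h1]
    push_cast at h2
    exact h2
  refine ⟨?_, hlin, ?_, hres, ?_⟩
  · intro ζ X Y Z i p hX hY hZ h
    unfold wt
    rw [D.add X Y Z i p hX hY hZ h, ← Finset.sum_add_distrib]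
    refine Finset.sum_congr rfl fun j _ => ?_
    simp only [Pi.add_apply]
    push_cast
    ring
  · intro g
    exact hres _ (cls_mem_K0 g)
  · intro ζ ξ h
    have h1 : ζ - ξ = 0 := by
      apply D.nondeg
      intro X hX
      have h2 := hlin 1 (-1) ζ ξ X
      have h3 : (1 : ℝ) • ζ + (-1 : ℝ) • ξ = ζ - ξ := by
        rw [one_smul, neg_smul, one_smul, sub_eq_add_neg]
      rw [h3, h X hX] at h2
      unfold wt at h2
      rw [h2]
      ring
    exact sub_eq_zero.1 h1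

end SBC
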