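import Pool.Agent.H5.SBC.Targets

/-!
XTH (5.5), by helper74.
-/

namespace SBC

open Dem

theorem xth_gap {ι : Type*} (s : Set ι) (hs : s.Finite) (g : ι → ℝ) :
    ∃ c : ℝ, 0 < c ∧ ∀ v ∈ s, g v < 0 → g v ≤ -c := by
  induction s, hs using Set.Finite.induction_on with
  | empty => exact ⟨1, one_pos, fun v hv => absurd hv (Set.notMem_empty v)⟩
  | @insert a s _ _ ih =>
    obtain ⟨c, hc, h⟩ := ih
    by_cases ha : g a < 0
    · refine ⟨min c (-(g a)), lt_min hc (by linarith), ?_⟩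
      rintro v (rfl | hv) hv0
      · have := min_le_right c (-(g v))
        linarith
      · have := min_le_left c (-(g a))
        linarith [h v hv hv0]
    · refine ⟨c, hc, ?_⟩
      rintro v (rfl | hv) hv0
      · exact absurd hv0 ha
      · exact h v hv hv0

theorem sbc_XTH (K A : Type) [Field K] [Ring A] [Algebra K A] [Module.Finite K A]
    (hRGG : T_RGG K A) (hRRB : T_RRB K A) (hRRC : T_RRC K A) (hFUL : T_FUL K A)
    (hTPR : T_TPR K A) (hVLM : T_VLM K A) (hCLO : T_CLO K A) (hBDD : T_BDD K A)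
    (hPUN : T_PUN K A) (hSTQ : T_STQ K A) (hSST : T_SST K A) (hRAD : T_RAD K A)
    (hRAT : T_RAT) (hSTO : T_STO K A) (hWTA : T_WTA K A) (hHOM : T_HOM K A)
    (hWID : T_WID K A) : T_XTH K A := by
  intro hLR f r D hf k S ζ₁ ζ₀ hζ₁r hl1 hl0 hζ₀ hLEX
  have hadd := (hWTA f r D).1
  have hlin := (hWTA f r D).2.1
  obtain ⟨C, hC, hCb⟩ := (hBDD f r D).1
  -- the full complex
  obtain ⟨g₁, m, hm, hg₁, hg₁w⟩ := hRGG hLR f r D hf ζ₁ hζ₁r
  have hmR : (0 : ℝ) < m := by exact_mod_cast hm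
  have hB := hRRB f g₁ (wt D ζ₁) (1 / (m : ℝ)) hg₁ (by positivity) (fun X hX => by
    rw [hg₁w X hX]
    field_simp)
  obtain ⟨g', hfull, hfull'⟩ := (hRRC hLR (f.sum g₁) hg₁).1
  have hTB : ∀ Y, ee ((f.sum g₁).sum g') Y = 0 ↔ TB f (wt D ζ₁) Y := by
    intro Y
    rw [hfull' Y, hB.2.1 Y, ee_sum]
    omega
  have hFS : ∀ Z, hh ((f.sum g₁).sum g') Z = 0 ↔ FS f (wt D ζ₁) Z := by
    intro Z
    constructor
    · intro h
      refine (hTPR f (wt D ζ₁) hf (hadd ζ₁)).2.2.2 Z fun Y hY => ?_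
      exact hFUL.1 _ hfull Y Z ((hTB Y).2 hY) h
    · intro h
      refine hFUL.2.1 _ hfull Z fun Y hY => ?_
      exact (hTPR f (wt D ζ₁) hf (hadd ζ₁)).2.1 Y Z ((hTB Y).1 hY) h
  have hFS10 : ∀ Z, FS f (wt D ζ₁) Z → FS f (wt D ζ₀) Z := by
    intro Z hZ
    have h1 := ((hSTQ f (wt D ζ₁) (hadd ζ₁)).2.2.2.2.1 k S hl1 Z).1 hZ
    exact ((hSTQ f (wt D ζ₀) (hadd ζ₀)).2.2.2.2.1 k S hl0 Z).2 ⟨hLEX Z h1.1 h1.2, h1.2⟩
  let V : FMod K A := tau ((f.sum g₁).sum g')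
  have hVh : hh ((f.sum g₁).sum g') V = 0 := (hHOM.2.2.2.1 _).1 hfull.1
  have hVS : FS f (wt D ζ₀) V := hFS10 V ((hFS V).1 hVh)
  obtain ⟨c, hc, hcV⟩ := xth_gap _ ((hBDD f r D).2 (Module.finrank K V))
    (fun v : Fin r → ℚ => ∑ j, ζ₀ j * (v j : ℝ))
  obtain ⟨ρ₀, hρ₀, hρ₀'⟩ := hSTO f r D k S ζ₀ hl0.1.1
  obtain ⟨ρ, hρ, hρ'⟩ := hPUN hLR f r D hf ζ₁ hζ₁r k S hl1
  -- the small number
  let B : ℝ := ‖ζ₁‖ + ρ
  have hBpos : 0 < B := by
    have := norm_nonneg ζ₁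
    change 0 < ‖ζ₁‖ + ρ
    linarith
  let n : ℝ := (Module.finrank K V : ℝ) + 1
  have hn : 0 < n := by
    change (0 : ℝ) < (Module.finrank K V : ℝ) + 1
    positivity
  have hz0n : 0 < ‖ζ₀‖ := norm_pos_iff.2 hζ₀
  obtain ⟨ε, hε, hε1, hε2, hε3⟩ : ∃ ε : ℝ, 0 < ε ∧ ε * B < ‖ζ₀‖ ∧ ε * B < ρ₀ ∧
      ε * B * C * n < c := by
    refine ⟨min (min (‖ζ₀‖ / (2 * B)) (ρ₀ / (2 * B))) (c / (2 * (B * C * n))), ?_, ?_, ?_, ?_⟩
    · positivity
    · have h1 : min (min (‖ζ₀‖ / (2 * B)) (ρ₀ / (2 * B))) (c / (2 * (B * C * n))) * B ≤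
          ‖ζ₀‖ / (2 * B) * B :=
        mul_le_mul_of_nonneg_right ((min_le_left _ _).trans (min_le_left _ _)) hBpos.le
      have h2 : ‖ζ₀‖ / (2 * B) * B = ‖ζ₀‖ / 2 := by field_simp
      linarith
    · have h1 : min (min (‖ζ₀‖ / (2 * B)) (ρ₀ / (2 * B))) (c / (2 * (B * C * n))) * B ≤
          ρ₀ / (2 * B) * B :=
        mul_le_mul_of_nonneg_right ((min_le_left _ _).trans (min_le_right _ _)) hBpos.le
      have h2 : ρ₀ / (2 * B) * B = ρ₀ / 2 := by field_simp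
      linarith
    · have h0 : 0 < B * C * n := by positivity
      have h1 : min (min (‖ζ₀‖ / (2 * B)) (ρ₀ / (2 * B))) (c / (2 * (B * C * n))) * (B * C * n) ≤
          c / (2 * (B * C * n)) * (B * C * n) :=
        mul_le_mul_of_nonneg_right (min_le_right _ _) h0.le
      have h2 : c / (2 * (B * C * n)) * (B * C * n) = c / 2 := by field_simp
      have h3 : min (min (‖ζ₀‖ / (2 * B)) (ρ₀ / (2 * B))) (c / (2 * (B * C * n))) * B * C * n =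
          min (min (‖ζ₀‖ / (2 * B)) (ρ₀ / (2 * B))) (c / (2 * (B * C * n))) * (B * C * n) := by
        ring
      rw [h3]
      linarith
  have hw0 : ∀ i, wt D ζ₀ (S i) = 0 := fun i => (hl0.1.1 i).2.2.1
  have hw1 : ∀ i, wt D ζ₁ (S i) = 0 := fun i => (hl1.1.1 i).2.2.1
  obtain ⟨ζ', hζ'r, hζ'w, hζ'n⟩ := hRAT.1 r k (fun i => D.d (S i)) ((1 : ℝ) • ζ₀ + (-ε) • ζ₁)
    (fun i => by
      have h1 := hlin 1 (-ε) ζ₀ ζ₁ (S i)
      rw [hw0, hw1, mul_zero, mul_zero, add_zero] at h1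
      exact h1) (ε * ρ) (mul_pos hε hρ)
  let η : Fin r → ℝ := ε⁻¹ • (ζ₀ - ζ')
  have hη : ζ' = (1 : ℝ) • ζ₀ + (-ε) • η := by
    funext j
    change ζ' j = 1 * ζ₀ j + (-ε) * (ε⁻¹ * (ζ₀ j - ζ' j))
    field_simp
    ring
  have hηn : ‖η - ζ₁‖ < ρ := by
    have h1 : η - ζ₁ = (-ε⁻¹) • (ζ' - ((1 : ℝ) • ζ₀ + (-ε) • ζ₁)) := by
      funext j
      change ε⁻¹ * (ζ₀ j - ζ' j) - ζ₁ j = (-ε⁻¹) * (ζ' j - (1 * ζ₀ j + (-ε) * ζ₁ j))
      field_simp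
      ring
    rw [h1, norm_smul, norm_neg, norm_inv, Real.norm_of_nonneg hε.le]
    calc ε⁻¹ * ‖ζ' - ((1 : ℝ) • ζ₀ + (-ε) • ζ₁)‖ < ε⁻¹ * (ε * ρ) :=
          mul_lt_mul_of_pos_left hζ'n (inv_pos.2 hε)
      _ = ρ := by rw [← mul_assoc, inv_mul_cancel₀ hε.ne', one_mul]
  have hηB : ‖η‖ ≤ B := by
    have h1 : η = ζ₁ + (η - ζ₁) := by abel
    rw [h1]
    have h2 := norm_add_le ζ₁ (η - ζ₁)
    change ‖ζ₁ + (η - ζ₁)‖ ≤ ‖ζ₁‖ + ρ
    linarith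
  have hζ'ζ₀ : ‖ζ' - ζ₀‖ ≤ ε * B := by
    have h1 : ζ' - ζ₀ = (-ε) • η := by
      rw [hη, one_smul]
      abel
    rw [h1, norm_smul, norm_neg, Real.norm_of_nonneg hε.le]
    exact mul_le_mul_of_nonneg_left hηB hε.le
  have hηw : ∀ i, wt D η (S i) = 0 := by
    intro i
    have h1 := hlin 1 (-ε) ζ₀ η (S i)
    rw [← hη, hw0 i, mul_zero, zero_add] at h1
    have h2 : wt D ζ' (S i) = 0 := hζ'w i
    rw [h2] at h1
    have h3 : ε * wt D η (S i) = 0 := by linarith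
    exact (mul_eq_zero.1 h3).resolve_left hε.ne'
  have hζ'ST := hρ₀' ζ' (lt_of_le_of_lt hζ'ζ₀ hε2) hζ'w
  obtain ⟨-, hηTB, -⟩ := hρ' η hηn hηw
  have hw' : ∀ X, wt D ζ' X = wt D ζ₀ X - ε * wt D η X := by
    intro X
    conv_lhs => rw [hη]
    rw [hlin]
    ring
  -- `V` is in `FF(ζ')`
  have hV : FF f (wt D ζ') V := by
    refine ⟨hVS.1, fun X i hX hi => ?_⟩
    by_cases hnt : Nontrivial X
    · have h1 : wt D ζ₀ X < 0 := hVS.2 X i hX hnt hi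
      have hdim := inj_finrank_le i hi
      have h2 : wt D ζ₀ X ≤ -c := hcV (D.d X) ⟨X, hX, hdim, rfl⟩ h1
      have h3 := hCb X hX η
      have h4 : |wt D η X| ≤ B * C * n := by
        refine h3.trans ?_
        have h5 : (Module.finrank K X : ℝ) ≤ n := by
          have : (Module.finrank K X : ℝ) ≤ (Module.finrank K V : ℝ) := by exact_mod_cast hdim
          change (Module.finrank K X : ℝ) ≤ (Module.finrank K V : ℝ) + 1
          linarith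
        calc C * ‖η‖ * Module.finrank K X ≤ C * B * n := by gcongr
          _ = B * C * n := by ring
      rw [hw']
      have h6 : -wt D η X ≤ B * C * n := (neg_le_abs _).trans h4
      have h7 : ε * -wt D η X ≤ ε * (B * C * n) := mul_le_mul_of_nonneg_left h6 hε.le
      have h8 : ε * (B * C * n) = ε * B * C * n := by ring
      linarith
    · have h1 : Subsingleton X := not_nontrivial_iff_subsingleton.1 hnt
      have h2 : wt D ζ' X = wt D ζ' X + wt D ζ' X :=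
        hadd ζ' X X X LinearMap.id LinearMap.id hX hX hX
          (ses_left_zero _ _ h1 Function.bijective_id)
      linarith
  have hVL : ∀ Z, FS f (wt D ζ₁) Z → FF f (wt D ζ') Z := fun Z hZ =>
    hVLM _ (FF f (wt D ζ')) hfull ((hCLO.1 f (wt D ζ') (hadd ζ')).2.2.1) hV Z ((hFS Z).2 hZ)
  refine ⟨ζ', hζ'r, ?_, fun i =>
    (((hSST f (wt D ζ') (hadd ζ')).2.2.2.2.1 (S i)).1 (hζ'ST i)).1, ?_⟩
  · rintro h0
    rw [h0, zero_sub, norm_neg] at hζ'ζ₀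
    linarith
  · intro Z hZ hP
    refine ⟨hZ.1, fun N i hN hi => ?_⟩
    obtain ⟨N', Q, a, b, hab, hN', hQ⟩ := hRAD.1 (TB f (wt D ζ₁))
      (hCLO.1 f (wt D ζ₁) (hadd ζ₁)).1 N
    have hN'W : InW f N' := by
      refine ⟨?_, hN'.1⟩
      have := hHOM.2.2.2.2.2.2.1 f N' N a hab.inj
      rw [hN.1] at this
      exact Nat.le_zero.1 this
    have hQW : InW f Q := (hWID.2.1 f N' N Q a b hab).1 hN'W hN
    have hQS : FS f (wt D ζ₁) Q := (hTPR f (wt D ζ₁) hf (hadd ζ₁)).2.2.2 Q hQ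
    have h1 : wt D ζ' Q ≤ 0 := (hVL Q hQS).2 Q LinearMap.id hQW Function.injective_id
    have h2 : wt D ζ₀ N' ≤ 0 := hZ.2 N' (i ∘ₗ a) hN'W (hi.comp hab.inj)
    have h3 : 0 ≤ wt D η N' :=
      ((hηTB N').2 hN').2 N' LinearMap.id hN'W Function.surjective_id
    have h4 : wt D ζ' N' ≤ 0 := by
      rw [hw']
      have := mul_nonneg hε.le h3
      linarith
    have h5 : wt D ζ' N = wt D ζ' N' + wt D ζ' Q := hadd ζ' N' N Q a b hN'W hN hQW hab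
    rw [h5]
    linarith

end SBC
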