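import Pool.Agent.H5.SBC.CNV
import Pool.Agent.H73.SBC.Thb
import Pool.Agent.H17.SBC.IDM
import Pool.Agent.H17.SBC.NIL
import Pool.Agent.H5.SBC.BDD
import Pool.Agent.H5.SBC.BRK
import Pool.Agent.H5.SBC.CAA
import Pool.Agent.H5.SBC.CAS
import Pool.Agent.H5.SBC.CBO
import Pool.Agent.H5.SBC.CCC
import Pool.Agent.H5.SBC.CHR
import Pool.Agent.H5.SBC.CHT
import Pool.Agent.H5.SBC.CLA
import Pool.Agent.H5.SBC.CLB
import Pool.Agent.H5.SBC.CLO
import Pool.Agent.H5.SBC.CONN
import Pool.Agent.H5.SBC.CSM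
import Pool.Agent.H5.SBC.DMM
import Pool.Agent.H5.SBC.DMS
import Pool.Agent.H5.SBC.FFF
import Pool.Agent.H5.SBC.FIL
import Pool.Agent.H5.SBC.FIT
import Pool.Agent.H5.SBC.FMM
import Pool.Agent.H5.SBC.FUL
import Pool.Agent.H5.SBC.GEN
import Pool.Agent.H5.SBC.HOM
import Pool.Agent.H5.SBC.KBD
import Pool.Agent.H5.SBC.LDD
import Pool.Agent.H5.SBC.LDP
import Pool.Agent.H5.SBC.LEC
import Pool.Agent.H5.SBC.LFT
import Pool.Agent.H5.SBC.LOC
import Pool.Agent.H5.SBC.LSA
import Pool.Agent.H5.SBC.LSB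
import Pool.Agent.H5.SBC.LSC
import Pool.Agent.H5.SBC.MIN
import Pool.Agent.H5.SBC.NAP
import Pool.Agent.H5.SBC.NSR
import Pool.Agent.H5.SBC.OPN
import Pool.Agent.H5.SBC.PUN
import Pool.Agent.H5.SBC.PUR
import Pool.Agent.H5.SBC.RAD
import Pool.Agent.H5.SBC.RAT
import Pool.Agent.H5.SBC.RGG
import Pool.Agent.H5.SBC.RRA
import Pool.Agent.H5.SBC.RRB
import Pool.Agent.H5.SBC.RRC
import Pool.Agent.H5.SBC.SNU
import Pool.Agent.H5.SBC.SON
import Pool.Agent.H5.SBC.SST
import Pool.Agent.H5.SBC.STE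
import Pool.Agent.H5.SBC.STL
import Pool.Agent.H5.SBC.STO
import Pool.Agent.H5.SBC.STQ
import Pool.Agent.H5.SBC.STT
import Pool.Agent.H5.SBC.STW
import Pool.Agent.H5.SBC.THA
import Pool.Agent.H5.SBC.TPR
import Pool.Agent.H5.SBC.TRT
import Pool.Agent.H5.SBC.VLM
import Pool.Agent.H5.SBC.WID
import Pool.Agent.H5.SBC.WTA
import Pool.Agent.H5.SBC.XTH

/-!
The main results: over any field, if every class in `K₀(proj A)` is the class of a rigid two-term
complex then every torsion class generated by one module is functorially finite, and there are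
only finitely many bricks of each dimension; the stable brick conjecture.
-/

namespace SBC

open Dem

section

variable (K A : Type) [Field K] [Ring A] [Algebra K A] [Module.Finite K A]

theorem all_KBD : T_KBD K A :=
  sbc_KBD K A

theorem all_BDD : T_BDD K A :=
  sbc_BDD K A (all_KBD K A)

theorem all_HOM : T_HOM K A :=
  sbc_HOM K A

theorem all_SNU : T_SNU K A :=
  sbc_SNU K A

theorem all_WID : T_WID K A :=
  sbc_WID K A (all_SNU K A) (all_HOM K A)

theorem all_FUL : T_FUL K A :=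
  sbc_FUL K A (all_WID K A) (all_HOM K A)

theorem all_KFG : T_KFG K A :=
  Pool.Agent.H17.SBC.kfg K A

theorem all_CHT : T_CHT K A :=
  sbc_CHT K A (all_KFG K A)

theorem all_BRK : T_BRK K A :=
  sbc_BRK K A (all_HOM K A) (all_FUL K A) (all_CHT K A) (all_BDD K A)

theorem all_RRA : T_RRA K A :=
  sbc_RRA K A (all_HOM K A) (all_KBD K A)

theorem all_RGG : T_RGG K A :=
  sbc_RGG K A (all_RRA K A)

theorem all_RRB : T_RRB K A :=
  sbc_RRB K A (all_WID K A) (all_HOM K A)

theorem all_FMM : T_FMM K A :=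
  sbc_FMM K A (all_HOM K A)

theorem all_OPN : T_OPN K A :=
  sbc_OPN K A (all_RGG K A) (all_RRB K A) (all_WID K A) (all_HOM K A) (all_BDD K A)

theorem all_CSM : T_CSM K A :=
  sbc_CSM K A

theorem all_NSR : T_NSR K A :=
  sbc_NSR K A (all_HOM K A)

theorem all_WTA : T_WTA K A :=
  sbc_WTA K A

theorem all_CAS : T_CAS K A :=
  sbc_CAS K A (all_CSM K A) (all_NSR K A) (all_WTA K A)

theorem all_LFT : T_LFT K A :=
  sbc_LFT K A

theorem all_TRT : T_TRT K A :=
  sbc_TRT K A (all_LFT K A) (all_SNU K A)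

theorem all_RAD : T_RAD K A :=
  sbc_RAD K A

theorem all_CLO : T_CLO K A :=
  sbc_CLO K A (all_WID K A) (all_HOM K A)

theorem all_GEN : T_GEN K A :=
  sbc_GEN K A (all_TRT K A) (all_RAD K A) (all_CLO K A) (all_HOM K A)

theorem all_NIL : T_NIL K A :=
  Pool.Agent.H17.SBC.nil K A

theorem all_LDD : T_LDD K A :=
  sbc_LDD K A (all_CAS K A) (all_GEN K A) (all_NIL K A) (all_RRB K A) (all_HOM K A)

theorem all_LEC : T_LEC K A :=
  sbc_LEC K A

theorem all_LDP : T_LDP K A :=
  sbc_LDP K A (all_LDD K A) (all_RGG K A) (all_LEC K A) (all_RRB K A) (all_NSR K A) (all_WTA K A)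

theorem all_DMM : T_DMM K A :=
  sbc_DMM K A (all_RRB K A) (all_NSR K A)

theorem all_RAT : T_RAT := sbc_RAT

theorem all_TPR : T_TPR K A :=
  sbc_TPR K A (all_WID K A) (all_HOM K A)

theorem all_SST : T_SST K A :=
  sbc_SST K A (all_WID K A) (all_CLO K A)

theorem all_LOC : T_LOC K A :=
  sbc_LOC K A (all_TPR K A) (all_CLO K A) (all_SST K A)

theorem all_CAA : T_CAA K A :=
  sbc_CAA K A (all_RGG K A) (all_RRB K A) (all_FMM K A) (all_OPN K A) (all_LDP K A) (all_DMM K A)
    all_RAT (all_WTA K A) (all_LEC K A) (all_HOM K A) (all_WID K A) (all_SNU K A) (all_LOC K A)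

theorem all_DIM : T_DIM K A :=
  SBC.dim K A

theorem all_CBO : T_CBO K A :=
  sbc_CBO K A (all_TPR K A) (all_RAD K A) (all_FMM K A) (all_BDD K A) all_RAT (all_WTA K A)
    (all_LEC K A) (all_SST K A) (all_HOM K A) (all_CLO K A) (all_DIM K A)

theorem all_RRC : T_RRC K A :=
  sbc_RRC K A (all_RRA K A) (all_RRB K A) (all_WID K A) (all_DIM K A)

theorem all_FIT : T_FIT K A :=
  sbc_FIT K A

theorem all_SON : T_SON K A :=
  sbc_SON K A (all_RRC K A) (all_FIT K A) (all_LFT K A) (all_WID K A) (all_HOM K A)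

theorem all_CON : T_CON K A :=
  sbc_CON K A (all_RRC K A) (all_SON K A) (all_WID K A) (all_HOM K A) (all_FUL K A) (all_DIM K A)

theorem all_STO : T_STO K A :=
  sbc_STO K A (all_BDD K A)

theorem all_STW : T_STW K A :=
  sbc_STW K A (all_RGG K A) (all_SON K A) (all_RRB K A) (all_STO K A) all_RAT (all_SST K A)
    (all_WTA K A)

theorem all_STQ : T_STQ K A :=
  sbc_STQ K A (all_WID K A) (all_SST K A)

theorem all_LSA : T_LSA K A :=
  sbc_LSA K A (all_STW K A) (all_STQ K A) (all_WTA K A) (all_CLO K A) (all_WID K A)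

theorem all_NAP : T_NAP K A :=
  sbc_NAP K A (all_TPR K A) (all_RAD K A) (all_WID K A) (all_WTA K A) (all_CLO K A) (all_HOM K A)

theorem all_STL : T_STL K A :=
  sbc_STL K A (all_STW K A)

theorem all_LSB : T_LSB K A :=
  sbc_LSB K A (all_LSA K A) (all_NAP K A) (all_STO K A) (all_STL K A) (all_LEC K A) (all_WTA K A)
    (all_SST K A)

theorem all_PUR : T_PUR K A :=
  sbc_PUR K A (all_STW K A) (all_LOC K A) (all_OPN K A) (all_STL K A) (all_SST K A) (all_STQ K A)
    (all_WTA K A) (all_CLO K A) (all_WID K A)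

theorem all_CLB : T_CLB K A :=
  sbc_CLB K A (all_STQ K A) (all_CLO K A) (all_WTA K A) (all_SST K A)

theorem all_CLA : T_CLA K A :=
  sbc_CLA K A (all_BDD K A) (all_SST K A) (all_WTA K A)

theorem all_FIL : T_FIL K A :=
  sbc_FIL K A (all_WID K A) (all_CLO K A) (all_SST K A)

theorem all_LSC : T_LSC K A :=
  sbc_LSC K A (all_LSB K A) (all_STO K A) (all_PUR K A) (all_CLB K A) (all_CLA K A) (all_FIL K A)
    (all_STQ K A) (all_LEC K A) all_RAT (all_WTA K A) (all_SST K A)

theorem all_MIN : T_MIN K A :=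
  sbc_MIN K A (all_LEC K A)

theorem all_DMS : T_DMS K A :=
  sbc_DMS K A (all_RRB K A) (all_NSR K A)

theorem all_PUN : T_PUN K A :=
  sbc_PUN K A (all_OPN K A) (all_LOC K A) (all_STQ K A) (all_FIL K A) (all_SST K A) (all_WTA K A)

theorem all_STE : T_STE K A :=
  sbc_STE K A (all_LSC K A) (all_MIN K A) (all_DMS K A) (all_PUR K A) (all_PUN K A) (all_LDP K A)
    (all_CLB K A) all_RAT (all_STQ K A) (all_FIL K A) (all_LEC K A) (all_SST K A) (all_WTA K A)

theorem all_VLM : T_VLM K A :=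
  sbc_VLM K A (all_RAD K A) (all_HOM K A)

theorem all_XTH : T_XTH K A :=
  sbc_XTH K A (all_RGG K A) (all_RRB K A) (all_RRC K A) (all_FUL K A) (all_TPR K A) (all_VLM K A)
    (all_CLO K A) (all_BDD K A) (all_PUN K A) (all_STQ K A) (all_SST K A) (all_RAD K A) all_RAT
    (all_STO K A) (all_WTA K A) (all_HOM K A) (all_WID K A)

theorem all_STT : T_STT K A :=
  sbc_STT K A (all_XTH K A) (all_STE K A) (all_STL K A) (all_STW K A) (all_DMS K A) (all_LEC K A)

theorem all_CHR : T_CHR K A :=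
  sbc_CHR K A (all_WID K A)

theorem all_CCC : T_CCC K A :=
  sbc_CCC K A (all_CAA K A) (all_CON K A) (all_CBO K A) (all_STE K A) (all_STT K A) (all_MIN K A)
    (all_DMM K A) (all_CHT K A) (all_CHR K A) (all_RRC K A) (all_STL K A) (all_STW K A)
    (all_LEC K A) (all_WTA K A) (all_DIM K A)

theorem all_FFF : T_FFF K A :=
  sbc_FFF K A (all_CCC K A)

theorem all_IDM : T_IDM K A :=
  Pool.Agent.H17.SBC.idm K A

theorem all_KDF : T_KDF K A :=
  SBC.kdf K A

theorem all_THA : T_THA K A :=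
  sbc_THA K A (all_HOM K A)

theorem all_THB : T_THB K A :=
  SBC.thb K A (all_THA K A) (all_KBD K A)

/-- **Any field.** If every class in `K₀(proj A)` is the class of a rigid two-term complex then
for every module `M` there is a rigid complex `g` with `W_g = 0` such that the torsion-free class
`{Z | Hom(M, Z) = 0}` is `{Z | Hom(coker g, Z) = 0}`. -/
theorem functorially_finite (h : LR K A) (M : FMod K A) :
    ∃ g : Cpx K A, Full g ∧ ∀ Z, hh g Z = 0 ↔ Hom0 M Z := all_FFF K A h M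

/-- **Any field.** If every class in `K₀(proj A)` is the class of a rigid two-term complex then
there are only finitely many bricks of each dimension. -/
theorem finitely_many_bricks (h : LR K A) (n : ℕ) :
    ∃ l : List (FMod K A), ∀ B : FMod K A, Brick B → Module.finrank K B = n →
      ∃ N ∈ l, Nonempty (B ≃ₗ[A] N) := all_BRK K A (all_FFF K A h) n

end

end SBC
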