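import Pool.Agent.H5.SBC.Targets

/-!
STE (section 8, Step E), by helper74.
-/

namespace SBC

open Dem

theorem sbc_STE (K A : Type) [Field K] [Ring A] [Algebra K A] [Module.Finite K A]
    (hLSC : T_LSC K A) (hMIN : T_MIN K A) (hDMS : T_DMS K A) (hPUR : T_PUR K A)
    (hPUN : T_PUN K A) (hLDP : T_LDP K A) (hCLB : T_CLB K A) (hRAT : T_RAT)
    (hSTQ : T_STQ K A) (hFIL : T_FIL K A) (hLEC : T_LEC K A) (hSST : T_SST K A)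
    (hWTA : T_WTA K A) : T_STE K A := by
  intro hLR f r D 𝒳 DD hf hdom ζm hm hss ζ₀ hζ₀ k' S' hS' hmax hSt
  by_cases hray : RayRat ζ₀
  · exact ⟨ζ₀, hζ₀, hray⟩
  have hadd := (hWTA f r D).1
  obtain ⟨-, hLtr, -, -, -, -, -⟩ := hLEC f r D 𝒳
  obtain ⟨hMre, hMtr, -, -, hMsm, -, hMsc⟩ := hLEC f r D (MemS S')
  obtain ⟨ζ₁, hζ₁r, -, hζ₁l, hζ₁s⟩ := hLSC hLR f r D 𝒳 DD hf hdom ζm hm hss ζ₀ hζ₀ k' S' hS' hmax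
  have hw0 : ∀ i, wt D ζ₀ (S' i) = 0 := fun i => (hS'.1.1 i).2.2.1
  have hSW : ∀ i, InW f (S' i) := fun i => (hS'.1.1 i).1
  have hfilt : ∀ ζ, StabList f (wt D ζ) S' → ∀ X, SS f (wt D ζ) X → Filt S' X := fun ζ hζ X hX =>
    (hSTQ f (wt D ζ) (hadd ζ)).2.2.2.1 k' S' hζ X hX
  -- weights with the list `S'` are nonzero
  have hne : ∀ ζ, StabList f (wt D ζ) S' → ζ ≠ 0 := by
    rintro ζ hζ rfl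
    apply hζ₀.2.1
    apply D.nondeg
    intro X hX
    have h1 : SS f (wt D 0) X := by
      have h0 : ∀ Y, wt D 0 Y = 0 := fun Y => by
        unfold wt
        simp
      refine ⟨⟨hX.2, fun Y p _ _ => (h0 Y).ge⟩, ⟨hX.1, fun Y i _ _ => (h0 Y).le⟩⟩
    exact ((hFIL f (wt D ζ₀) (hadd ζ₀) k' S').2.1 hSW hw0 X (hfilt 0 hζ X h1)).2
  have hSTSS : ∀ ζ, (∀ i, ST f (wt D ζ) (S' i)) → ∀ i, SS f (wt D ζ) (S' i) := fun ζ h i =>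
    (((hSST f (wt D ζ) (hadd ζ)).2.2.2.2.1 (S' i)).1 (h i)).1
  have hD' : Dom D (MemS S') (DS D S') := hDMS f r D k' S' hSW
  obtain ⟨ζm', hm', hm'l⟩ := hMIN f r D (MemS S') (DS D S') hD'.closed hD'.smul ζ₁
    (hSTSS ζ₁ hζ₁l.1.1) (hne ζ₁ hζ₁l)
  have hP'ST : ∀ ζ ∈ Pcl D (MemS S') (DS D S') ζm', ∀ i, ST f (wt D ζ) (S' i) := by
    intro ζ hζ
    exact hζ₁s ζ hζ.2.1 hζ.1 (hMtr _ _ _ hζ.2.2 hm'l)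
  obtain ⟨ζr', hζr', c, hc, hcr⟩ := hSt ζ₁ ζm' hζ₁r hζ₁l hm' hm'l hP'ST
  -- a rational point
  obtain ⟨ζr, hζr, hζrr⟩ : ∃ ζr ∈ Pcl D (MemS S') (DS D S') ζm', IsRat ζr := by
    refine ⟨c • ζr', ⟨hD'.smul c hc.le _ hζr'.1, ?_, hMsm _ _ _ hc.le hζr'.2.2⟩, hcr⟩
    rw [Ne, smul_eq_zero]
    push Not
    exact ⟨hc.ne', hζr'.2.1⟩
  obtain ⟨ζ₂, hζ₂r, -, hζ₂l, hζ₂F⟩ := hPUR hLR f r D hf ζr hζrr k' S'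
    ⟨hP'ST ζr hζr, hS'.1.2⟩ 1 one_pos
  obtain ⟨ρ, hρ, hρ'⟩ := hPUN hLR f r D hf ζ₂ hζ₂r k' S' hζ₂l
  have hnear : ∀ ζ', ‖ζ' - ζ₂‖ < ρ → (∀ i, wt D ζ' (S' i) = 0) →
      ζ' ∈ Pcl D (MemS S') (DS D S') ζm' := by
    intro ζ' h1 h2
    obtain ⟨h3, -, h4⟩ := hρ' ζ' h1 h2
    refine ⟨hSTSS ζ' h4.1.1, hne ζ' h4, hMtr _ _ _ ?_ hζr.2.2⟩
    intro Z hZ _
    exact (h3 Z).2 ((hζ₂F Z).2 hZ)
  have hw2 : ∀ i, wt D ζ₂ (S' i) = 0 := fun i => (hζ₂l.1.1 i).2.2.1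
  have hζ₂P : ζ₂ ∈ Pcl D (MemS S') (DS D S') ζm' := by
    refine hnear ζ₂ ?_ hw2
    rw [sub_self, norm_zero]
    exact hρ
  obtain ⟨q, hq, hqw, hqn, hqi⟩ := hRAT.2.1 r k' (fun i => D.d (S' i)) ζ₀ hw0 hray ζ₂ hζ₂r
    (hne ζ₂ hζ₂l) hw2 ρ hρ
  have hqP := hnear q hqn hqw
  have hD := hLDP hLR f r D (MemS S') (DS D S') hf hD' ζm' hm'
    ⟨ζ₂, q, hζ₂P, hqP, hζ₂r, hq, hqi⟩ ζr hζr
  have hL1 : LEX D (MemS S') ζr ζ₀ := fun Z hZ hp => hD Z hZ.1 hp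
  have hFF := hCLB f r D k' S' ζ₀ ζr hS'.1.1 (hSTSS ζr (hP'ST ζr hζr)) hL1
  refine ⟨ζr, ⟨hdom.ss ζr fun M hM => ?_, hζr.2.1, hLtr _ _ _ (fun Z hZ _ => hFF Z hZ)
    hζ₀.2.2⟩, 1, one_pos, ?_⟩
  · exact (hFIL f (wt D ζr) (hadd ζr) k' S').1 (hSTSS ζr (hP'ST ζr hζr)) M
      (hfilt ζ₀ hS' M (hss ζ₀ hζ₀ M hM))
  · rw [one_smul]
    exact hζrr

end SBC
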