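import Pool.Agent.H5.SBC.Main

/-!
Semibricks: if every torsion class `T(M)` is functorially finite then every semibrick has at most
as many members as there are simple modules. Torsion classes `T(M) = Fac U`.
-/

namespace SBC

open Dem

section

variable {K A : Type} [Field K] [Ring A] [Algebra K A]

/-- `Y` is in the smallest torsion class containing `M` -/
def InTors (M Y : FMod K A) : Prop := ∀ T : FMod K A → Prop, TorsCls T → T M → T Y

/-- `Y` is a quotient of a finite direct sum of copies of `U` -/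
def InFac (U Y : FMod K A) : Prop :=
  ∃ (m : ℕ) (p : (Fin m → U) →ₗ[A] Y), Function.Surjective p

/-- a finite semibrick: pairwise Hom-orthogonal bricks -/
def Semibrick {k : ℕ} (B : Fin k → FMod K A) : Prop :=
  (∀ i, Brick (B i)) ∧ ∀ i j, i ≠ j → ∀ φ : B i →ₗ[A] B j, φ = 0

/-- the direct sum of a finite family -/
@[reducible] def piMod {k : ℕ} (B : Fin k → FMod K A) : FMod K A :=
  { carrier := ∀ i, B i }

theorem hom0_pi {k : ℕ} (B : Fin k → FMod K A) (Z : FMod K A) :
    Hom0 (piMod B) Z ↔ ∀ i, Hom0 (B i) Z := by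
  classical
  constructor
  · intro h i φ
    have h1 := h (φ ∘ₗ (LinearMap.proj i : (∀ i, B i) →ₗ[A] B i))
    refine LinearMap.ext fun x => ?_
    have h2 := LinearMap.congr_fun h1 (Pi.single i x)
    change φ ((Pi.single i x : ∀ i, B i) i) = 0 at h2
    rw [Pi.single_eq_same] at h2
    exact h2
  · intro h φ
    refine LinearMap.pi_ext fun i x => ?_
    have h1 := h i (φ ∘ₗ (LinearMap.single A (fun i => (B i : Type)) i))
    exact LinearMap.congr_fun h1 x

variable {k : ℕ} {B : Fin k → FMod K A}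

/-- the torsion class of a semibrick -/
def TS (B : Fin k → FMod K A) (Y : FMod K A) : Prop := ∀ Z, (∀ i, Hom0 (B i) Z) → Hom0 Y Z

theorem ts_mem (i : Fin k) : TS B (B i) := fun _ h => h i

theorem ts_quo {X Y : FMod K A} (p : X →ₗ[A] Y) (hp : Function.Surjective p) (h : TS B X) :
    TS B Y := fun Z hZ => Hom0.of_surj p hp (h Z hZ)

theorem ts_exists {Y : FMod K A} (h : TS B Y) (hY : Nontrivial Y) :
    ∃ (i : Fin k) (φ : B i →ₗ[A] Y), φ ≠ 0 := by
  by_contra hno
  push Not at hno
  exact not_subsingleton_iff_nontrivial.2 hY (Hom0.self (h Y fun i φ => hno i φ))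

theorem nontrivial_of_surj_ne {X Y I : FMod K A} {φ : X →ₗ[A] Y} (hφ : φ ≠ 0)
    (p : X →ₗ[A] I) (i : I →ₗ[A] Y) (hip : i ∘ₗ p = φ) : Nontrivial I := by
  rcases subsingleton_or_nontrivial I with hs | hn
  · exfalso
    apply hφ
    rw [← hip]
    refine LinearMap.ext fun x => ?_
    change i (p x) = 0
    rw [Subsingleton.elim (p x) 0, map_zero]
  · exact hn

theorem comp_ne_of_inj {X Y Z : FMod K A} {φ : X →ₗ[A] Y} (hφ : φ ≠ 0) (i : Y →ₗ[A] Z)
    (hi : Function.Injective i) : i ∘ₗ φ ≠ 0 := by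
  intro h
  apply hφ
  refine LinearMap.ext fun x => hi ?_
  rw [LinearMap.zero_apply, map_zero]
  exact LinearMap.congr_fun h x

theorem semi_eq (hB : Semibrick B) {i j : Fin k} (φ : B i →ₗ[A] B j) (hφ : φ ≠ 0) :
    i = j := by
  by_contra hne
  exact hφ (hB.2 i j hne φ)

theorem semi_bij (hB : Semibrick B) {i : Fin k} (φ : B i →ₗ[A] B i) (hφ : φ ≠ 0) :
    Function.Bijective φ := by
  rcases (hB.1 i).2 φ with h | h
  · exact absurd h hφ
  · exact h

theorem ts_surj (hB : Semibrick B) {Y : FMod K A} (hY : TS B Y) {i : Fin k}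
    (φ : Y →ₗ[A] B i) (hφ : φ ≠ 0) : Function.Surjective φ := by
  obtain ⟨I, p, j, hp, hj, hjp⟩ := exists_image φ
  have hn := nontrivial_of_surj_ne hφ p j hjp
  obtain ⟨l, ψ, hψ⟩ := ts_exists (ts_quo p hp hY) hn
  have h1 := comp_ne_of_inj hψ j hj
  have h2 := semi_eq hB _ h1
  subst h2
  have h3 := semi_bij hB _ h1
  have h4 : Function.Surjective j := Function.Surjective.of_comp h3.2
  rw [← hjp]
  exact h4.comp hp

theorem ts_ker (hRAD : ∀ T : FMod K A → Prop, TorsCls T → ∀ L : FMod K A,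
      ∃ (N Q : FMod K A) (i : N →ₗ[A] L) (p : L →ₗ[A] Q), SES i p ∧ T N ∧ ∀ Y, T Y → Hom0 Y Q)
    (hT : TorsCls (TS B)) (hB : Semibrick B) {L Y : FMod K A} {i : Fin k} (u : L →ₗ[A] Y)
    (φ : Y →ₗ[A] B i) (hs : SES u φ) (hY : TS B Y) : TS B L := by
  obtain ⟨N, Q, v, q, hN, hTN, hQ⟩ := hRAD _ hT L
  obtain ⟨Y', u', φ', q', hs', hq', e1, e2⟩ := hs.pushout q hN.surj
  have hY' : TS B Y' := ts_quo q' hq' hY
  have hn' : Nontrivial Y' := by
    have := (hB.1 i).1
    obtain ⟨b, hb⟩ := exists_ne (0 : B i)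
    obtain ⟨y, rfl⟩ := hs'.surj b
    refine ⟨y, 0, fun h => hb ?_⟩
    rw [h, map_zero]
  have hQs : Subsingleton Q := by
    obtain ⟨l, ψ, hψ⟩ := ts_exists hY' hn'
    have h1 : φ' ∘ₗ ψ ≠ 0 := by
      intro h0
      obtain ⟨χ, hχ⟩ := hs'.lift ψ h0
      have h2 : χ = 0 := hQ (B l) (ts_mem l) χ
      apply hψ
      rw [← hχ, h2, LinearMap.comp_zero]
    have h2 := semi_eq hB _ h1
    subst h2
    have h3 := semi_bij hB _ h1
    let e := LinearEquiv.ofBijective (φ' ∘ₗ ψ) h3
    let s : B l →ₗ[A] Y' := ψ ∘ₗ e.symm.toLinearMap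
    have hs1 : ∀ b, φ' (s b) = b := fun b => e.apply_symm_apply b
    let r0 : Y' →ₗ[A] Y' := LinearMap.id - s ∘ₗ φ'
    have hr0 : φ' ∘ₗ r0 = 0 := by
      refine LinearMap.ext fun y => ?_
      change φ' (y - s (φ' y)) = 0
      rw [map_sub, hs1, sub_self]
    obtain ⟨r, hr⟩ := hs'.lift r0 hr0
    have hrs : Function.Surjective r := by
      intro x
      refine ⟨u' x, hs'.inj ?_⟩
      have h4 : u' (r (u' x)) = r0 (u' x) := LinearMap.congr_fun hr _
      rw [h4]
      change u' x - s (φ' (u' x)) = u' x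
      rw [hs'.comp, map_zero, sub_zero]
    exact Hom0.self (hQ Q (ts_quo r hrs hY'))
  have hv : Function.Surjective v := by
    intro x
    exact hN.exists_of_zero (Subsingleton.elim _ _)
  exact ts_quo v hv hTN

theorem ts_pair (hB : Semibrick B) {Y : FMod K A} (hY : TS B Y) {i j : Fin k} (hij : i ≠ j)
    (a : Y →ₗ[A] B i) (b : Y →ₗ[A] B j) (ha : a ≠ 0) (hb : b ≠ 0) :
    Function.Surjective (LinearMap.prod a b : Y →ₗ[A] (B i).prod (B j)) := by
  have hsa := ts_surj hB hY a ha
  have hsb := ts_surj hB hY b hb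
  obtain ⟨I, p, c, hp, hc, hcp⟩ :=
    exists_image (Y := (B i).prod (B j)) (LinearMap.prod a b : Y →ₗ[A] (B i).prod (B j))
  have hne : (LinearMap.prod a b : Y →ₗ[A] (B i).prod (B j)) ≠ 0 := by
    intro h0
    apply ha
    refine LinearMap.ext fun x => ?_
    exact congrArg Prod.fst (LinearMap.congr_fun h0 x)
  have hn := nontrivial_of_surj_ne hne p c hcp
  obtain ⟨l, ψ, hψ⟩ := ts_exists (ts_quo p hp hY) hn
  have h1 := comp_ne_of_inj hψ c hc
  have hca : ∀ y, (c (p y)).1 = a y := fun y => congrArg Prod.fst (LinearMap.congr_fun hcp y)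
  have hcb : ∀ y, (c (p y)).2 = b y := fun y => congrArg Prod.snd (LinearMap.congr_fun hcp y)
  have hcs : Function.Surjective c := by
    by_cases hli : l = i
    · subst hli
      have h2 : LinearMap.snd A (B l) (B j) ∘ₗ (c ∘ₗ ψ) = 0 := hB.2 l j hij _
      have h3 : LinearMap.fst A (B l) (B j) ∘ₗ (c ∘ₗ ψ) ≠ 0 := by
        intro h0
        apply h1
        refine LinearMap.ext fun x => Prod.ext ?_ ?_
        · exact LinearMap.congr_fun h0 x
        · exact LinearMap.congr_fun h2 x
      have h4 := semi_bij hB _ h3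
      rintro ⟨x, y⟩
      obtain ⟨z, hz⟩ := hsb y
      obtain ⟨w, hw⟩ := h4.2 (x - a z)
      refine ⟨p z + ψ w, ?_⟩
      rw [map_add]
      refine Prod.ext ?_ ?_
      · change (c (p z)).1 + (c (ψ w)).1 = x
        rw [hca]
        have h5 : (c (ψ w)).1 = x - a z := hw
        rw [h5]
        abel
      · change (c (p z)).2 + (c (ψ w)).2 = y
        rw [hcb, hz]
        have h5 : (c (ψ w)).2 = 0 := LinearMap.congr_fun h2 w
        rw [h5, add_zero]
    · have h2 : LinearMap.fst A (B i) (B j) ∘ₗ (c ∘ₗ ψ) = 0 := hB.2 l i hli _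
      have h3 : LinearMap.snd A (B i) (B j) ∘ₗ (c ∘ₗ ψ) ≠ 0 := by
        intro h0
        apply h1
        refine LinearMap.ext fun x => Prod.ext ?_ ?_
        · exact LinearMap.congr_fun h2 x
        · exact LinearMap.congr_fun h0 x
      have hlj := semi_eq hB _ h3
      subst hlj
      have h4 := semi_bij hB _ h3
      rintro ⟨x, y⟩
      obtain ⟨z, hz⟩ := hsa x
      obtain ⟨w, hw⟩ := h4.2 (y - b z)
      refine ⟨p z + ψ w, ?_⟩
      rw [map_add]
      refine Prod.ext ?_ ?_
      · change (c (p z)).1 + (c (ψ w)).1 = x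
        rw [hca, hz]
        have h5 : (c (ψ w)).1 = 0 := LinearMap.congr_fun h2 w
        rw [h5, add_zero]
      · change (c (p z)).2 + (c (ψ w)).2 = y
        rw [hcb]
        have h5 : (c (ψ w)).2 = y - b z := hw
        rw [h5]
        abel
  rw [← hcp]
  exact hcs.comp hp

end

section

variable (K A : Type) [Field K] [Ring A] [Algebra K A] [Module.Finite K A]

/-- the separating classes of a semibrick -/
theorem semi_sep {k : ℕ} (B : Fin k → FMod K A) (hB : Semibrick B) (g : Cpx K A) (hg : Full g)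
    (hgB : ∀ Z, hh g Z = 0 ↔ Hom0 (piMod B) Z) (i : Fin k) :
    ∃ x ∈ K0 K A, 0 < x (B i) ∧ ∀ j, j ≠ i → x (B j) = 0 := by
  obtain ⟨hom1, hom2, hom3, hom4, hom5, hom6, hom7, hom8⟩ := all_HOM K A
  have hgB' : ∀ Z, hh g Z = 0 ↔ ∀ i, Hom0 (B i) Z := fun Z => (hgB Z).trans (hom0_pi B Z)
  have hTS : ∀ Y, TS B Y → ee g Y = 0 := fun Y hY =>
    (all_FUL K A).2.2 g hg Y fun Z hZ => hY Z ((hgB' Z).1 hZ)
  have hT : TorsCls (TS B) := (all_CLO K A).2.2.2.1 (fun Z => ∀ i, Hom0 (B i) Z)
  let Q : Cpx K A → Prop := fun h => (∀ Z, hh g Z = 0 → hh h Z = 0) ∧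
    (∀ Y, ee g Y = 0 → ee h Y = 0)
  have hQ : ∀ h h₁ h₂ : Cpx K A, NSplit h h₁ h₂ → Q h → Q h₁ ∧ Q h₂ := by
    intro h h₁ h₂ hs hq
    refine ⟨⟨fun Z hZ => ?_, fun Y hY => ?_⟩, ⟨fun Z hZ => ?_, fun Y hY => ?_⟩⟩
    · have := hs.hh_eq Z
      rw [hq.1 Z hZ] at this
      omega
    · have := hs.ee_eq Y
      rw [hq.2 Y hY] at this
      omega
    · have := hs.hh_eq Z
      rw [hq.1 Z hZ] at this
      omega
    · have := hs.ee_eq Y
      rw [hq.2 Y hY] at this
      omega
  have hC0 : hh g (B i) ≠ 0 := by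
    intro h0
    have h1 := (hgB' (B i)).1 h0 i
    exact not_subsingleton_iff_nontrivial.2 (hB.1 i).1 (Hom0.self h1)
  have hex : ∃ n, ∃ h : Cpx K A, Q h ∧ hh h (B i) ≠ 0 ∧ size h = n :=
    ⟨_, g, ⟨fun _ h => h, fun _ h => h⟩, hC0, rfl⟩
  classical
  obtain ⟨h, hqh, hhC, hsize⟩ := Nat.find_spec hex
  have hmin : ∀ h' : Cpx K A, Q h' → size h' < size h → hh h' (B i) = 0 := by
    intro h' hq' hlt
    by_contra hne
    exact Nat.find_min hex (hsize ▸ hlt) ⟨h', hq', hne, rfl⟩
  refine ⟨cls h, cls_mem_K0 h, ?_, ?_⟩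
  · have h1 := hh_sub_ee h (B i)
    have h2 : ee h (B i) = 0 := hqh.2 _ (hTS _ (ts_mem i))
    omega
  · intro j hji
    have h2 : ee h (B j) = 0 := hqh.2 _ (hTS _ (ts_mem j))
    have h1 := hh_sub_ee h (B j)
    by_contra hne
    have hh' : hh h (B j) ≠ 0 := by
      intro h0
      apply hne
      omega
    have ha : ∃ a : h.H →ₗ[A] B i, a ≠ 0 := by
      by_contra hno
      push Not at hno
      exact hhC ((hom1 h (B i)).2 hno)
    have hb : ∃ b : h.H →ₗ[A] B j, b ≠ 0 := by
      by_contra hno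
      push Not at hno
      exact hh' ((hom1 h (B j)).2 hno)
    obtain ⟨a, ha⟩ := ha
    obtain ⟨b, hb⟩ := hb
    have hhT : TS B h.H := fun Z hZ => (hom1 h Z).1 (hqh.1 Z ((hgB' Z).2 hZ))
    have hab := ts_pair hB hhT (Ne.symm hji) a b ha hb
    let ab : h.H →ₗ[A] (B i).prod (B j) := LinearMap.prod a b
    obtain ⟨L, l, hL⟩ := exists_ker (Z := (B i).prod (B j)) ab hab
    -- the kernel is in the torsion class
    have hLT : TS B L := by
      obtain ⟨L₁, l₁, hL₁⟩ := exists_ker a (ts_surj hB hhT a ha)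
      have hL₁T : TS B L₁ := ts_ker (all_RAD K A).1 hT hB l₁ a hL₁ hhT
      obtain ⟨m, hm⟩ := hL₁.lift l (by
        refine LinearMap.ext fun x => ?_
        exact congrArg Prod.fst (hL.comp x))
      have hses : SES m (b ∘ₗ l₁) := by
        refine ⟨?_, ?_, ?_⟩
        · intro x y hxy
          apply hL.inj
          have h3 := LinearMap.congr_fun hm x
          have h4 := LinearMap.congr_fun hm y
          rw [← h3, ← h4]
          change l₁ (m x) = l₁ (m y)
          rw [hxy]
        · intro y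
          obtain ⟨z, hz⟩ := hab (0, y)
          have hz1 : a z = 0 := congrArg Prod.fst hz
          obtain ⟨w, rfl⟩ := hL₁.exists_of_zero hz1
          exact ⟨w, congrArg Prod.snd hz⟩
        · ext y
          constructor
          · rintro ⟨x, rfl⟩
            have h3 : l₁ (m x) = l x := LinearMap.congr_fun hm x
            change b (l₁ (m x)) = 0
            rw [h3]
            exact congrArg Prod.snd (hL.comp x)
          · intro hy
            have hy1 : b (l₁ y) = 0 := hy
            have hy2 : ab (l₁ y) = 0 := Prod.ext (hL₁.comp y) hy1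
            obtain ⟨x, hx⟩ := hL.exists_of_zero hy2
            refine ⟨x, hL₁.inj ?_⟩
            have h3 : l₁ (m x) = l x := LinearMap.congr_fun hm x
            rw [h3, hx]
      exact ts_ker (all_RAD K A).1 hT hB m (b ∘ₗ l₁) hses hL₁T
    have hhL : ee h L = 0 := hqh.2 L (hTS L hLT)
    obtain ⟨ψ, hψ⟩ := (all_LFT K A h L h.H ((B i).prod (B j)) l ab hL).1 hhL
      (LinearMap.prod a 0)
    have ea : a ∘ₗ ψ = a := by
      refine LinearMap.ext fun x => ?_
      exact congrArg Prod.fst (LinearMap.congr_fun hψ x)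
    have eb : b ∘ₗ ψ = 0 := by
      refine LinearMap.ext fun x => ?_
      exact congrArg Prod.snd (LinearMap.congr_fun hψ x)
    rcases all_FIT K A h ψ with hbij | hnil | ⟨h₁, h₂, hs, hl1, hl2⟩
    · apply hb
      refine LinearMap.ext fun x => ?_
      obtain ⟨y, rfl⟩ := hbij.2 x
      exact LinearMap.congr_fun eb y
    · obtain ⟨n, hn⟩ := hnil
      apply ha
      have : ∀ m : ℕ, ∀ x, a ((ψ ^ m) x) = a x := by
        intro m
        induction m with
        | zero => intro x; rfl
        | succ m ih =>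
          intro x
          rw [pow_succ']
          change a (ψ ((ψ ^ m) x)) = a x
          rw [← ih x]
          exact LinearMap.congr_fun ea _
      refine LinearMap.ext fun x => ?_
      rw [← this n x, hn]
      change a 0 = 0
      rw [map_zero]
    · have q := hQ h h₁ h₂ hs hqh
      have m1 := hmin h₁ q.1 hl1
      have m2 := hmin h₂ q.2 hl2
      have := hs.hh_eq (B i)
      rw [m1, m2] at this
      exact hhC this

/-- **Any field.** Semibricks have at most as many members as there are simple modules. -/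
theorem semibrick_card (h : LR K A) {n : ℕ} (S : Fin n → FMod K A)
    (hS : ∀ S' : FMod K A, IsSimpleModule A S' → ∃ i, Nonempty (S' ≃ₗ[A] S i)) {k : ℕ}
    (B : Fin k → FMod K A) (hB : Semibrick B) : k ≤ n := by
  obtain ⟨g, hg, hgB⟩ := functorially_finite K A h (piMod B)
  choose x hx hpos hzero using fun i => semi_sep K A B hB g hg hgB i
  have hli : LinearIndependent ℤ (fun i : Fin k => fun l : Fin n => x i (S l)) := by
    rw [Fintype.linearIndependent_iff]
    intro c hc j
    have h1 : (∑ i, c i • x i) ∈ K0 K A :=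
      (K0 K A).sum_mem fun i _ => (K0 K A).zsmul_mem (hx i) (c i)
    have h2 : ∀ S' : FMod K A, IsSimpleModule A S' → (∑ i, c i • x i) S' = 0 := by
      intro S' hS'
      obtain ⟨l, ⟨e⟩⟩ := hS S' hS'
      rw [K0_congr h1 e]
      have h3 := congrFun hc l
      simp only [Finset.sum_apply, Pi.smul_apply, Pi.zero_apply] at h3 ⊢
      exact h3
    have h4 := K0_eq_zero h1 h2 _ (B j) le_rfl
    simp only [Finset.sum_apply, Pi.smul_apply, smul_eq_mul] at h4
    rw [Finset.sum_eq_single j] at h4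
    · have h5 := hpos j
      rcases mul_eq_zero.1 h4 with h6 | h6
      · exact h6
      · omega
    · intro i _ hij
      rw [hzero i j (Ne.symm hij), mul_zero]
    · intro hj
      exact absurd (Finset.mem_univ j) hj
  have := hli.fintype_card_le_finrank
  simpa using this

/-- **Any field.** Every torsion class `T(M)` is of the form `Fac U`. -/
theorem tors_eq_fac (h : LR K A) (M : FMod K A) :
    ∃ U : FMod K A, ∀ Y : FMod K A, InTors M Y ↔ InFac U Y := by
  obtain ⟨g, hg, hgM⟩ := functorially_finite K A h M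
  obtain ⟨hom1, hom2, hom3, hom4, hom5, hom6, hom7, hom8⟩ := all_HOM K A
  have hTI : ∀ Y, InTors M Y ↔ ∀ Z, Hom0 M Z → Hom0 Y Z := by
    intro Y
    constructor
    · intro hY
      exact hY (fun Y => ∀ Z, Hom0 M Z → Hom0 Y Z) ((all_CLO K A).2.2.2.1 (Hom0 M))
        fun Z hZ => hZ
    · intro hY T hT hM
      obtain ⟨N, Q, i, p, hs, hN, hQ⟩ := (all_RAD K A).1 T hT Y
      have h1 : Hom0 Y Q := hY Q (hQ M hM)
      have h2 : Function.Surjective i := by
        intro y
        apply hs.exists_of_zero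
        rw [h1 p]
        rfl
      exact hT.quo N Y i h2 hN
  refine ⟨g.H, fun Y => ?_⟩
  rw [hTI]
  constructor
  · intro hY
    have hee : ee g Y = 0 := (all_FUL K A).2.2 g hg Y fun Z hZ => hY Z ((hgM Z).1 hZ)
    -- the images of a basis of `Hom(g.H, Y)` generate `Y`
    let b := Module.finBasis K (g.H →ₗ[A] Y)
    let n := Module.finrank K (g.H →ₗ[A] Y)
    let p : (Fin n → g.H) →ₗ[A] Y := ∑ i, (b i) ∘ₗ (LinearMap.proj i)
    have hp : ∀ x, p x = ∑ i, b i (x i) := fun x => by
      simp only [p, LinearMap.sum_apply]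
      rfl
    refine ⟨n, p, ?_⟩
    obtain ⟨Q, q, hs⟩ := exists_coker (Y := Y) (LinearMap.range p).subtype
      (X := Y.sub (LinearMap.range p)) (LinearMap.range p).injective_subtype
    have hQ1 : ee g Q = 0 := by
      have := hom6 g Y Q q hs.surj
      omega
    have hmem : ∀ (φ : g.H →ₗ[A] Y) (x : g.H), φ x ∈ LinearMap.range p := by
      intro φ x
      have e1 : φ = ∑ i, (b.repr φ i) • b i := (b.sum_repr φ).symm
      rw [e1, LinearMap.sum_apply]
      refine Submodule.sum_mem _ fun i _ => ?_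
      have e2 : ((b.repr φ i) • b i) x = (algebraMap K A (b.repr φ i)) • (b i x) := by
        rw [algebraMap_smul]
        rfl
      rw [e2]
      refine Submodule.smul_mem _ _ ?_
      refine ⟨Pi.single i x, ?_⟩
      rw [hp, Finset.sum_eq_single i]
      · rw [Pi.single_eq_same]
      · intro j _ hj
        rw [Pi.single_eq_of_ne hj, map_zero]
      · intro hi
        exact absurd (Finset.mem_univ i) hi
    have hRp : ee g (Y.sub (LinearMap.range p)) = 0 := by
      -- quotient of a power of `g.H`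
      have h3 : ee g g.H = 0 := (hom3 g).1 hg.1
      refine (hom2 g _).2 fun φ => ?_
      have h4 : ∀ i : Fin n, (φ ∘ₗ p.rangeRestrict) ∘ₗ
          (LinearMap.single A (fun _ : Fin n => (g.H : Type)) i) = 0 :=
        fun i => (hom2 g g.H).1 h3 _
      have h5 : φ ∘ₗ p.rangeRestrict = 0 := by
        refine LinearMap.pi_ext fun i x => ?_
        exact LinearMap.congr_fun (h4 i) x
      refine LinearMap.ext fun y => ?_
      obtain ⟨x, rfl⟩ := p.surjective_rangeRestrict y
      exact LinearMap.congr_fun h5 x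
    have hQ2 : hh g Q = 0 := by
      refine (hom1 g Q).2 fun φ => ?_
      obtain ⟨ψ, hψ⟩ := (all_LFT K A g _ Y Q _ q hs).1 hRp φ
      rw [← hψ]
      refine LinearMap.ext fun x => ?_
      exact hs.comp ⟨ψ x, hmem ψ x⟩
    have hQ3 : Subsingleton Q := hg.2 Q hQ2 hQ1
    intro y
    obtain ⟨⟨z, hz⟩, hzy⟩ := hs.exists_of_zero (y := y) (Subsingleton.elim _ _)
    obtain ⟨x, hx⟩ := hz
    exact ⟨x, hx.trans hzy⟩
  · rintro ⟨m, p, hp⟩ Z hZ φ
    have h1 : Hom0 g.H Z := (hom1 g Z).1 ((hgM Z).2 hZ)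
    have h2 : φ ∘ₗ p = 0 := by
      refine LinearMap.pi_ext fun i x => ?_
      exact LinearMap.congr_fun
        (h1 ((φ ∘ₗ p) ∘ₗ (LinearMap.single A (fun _ : Fin m => (g.H : Type)) i))) x
    refine LinearMap.ext fun y => ?_
    obtain ⟨x, rfl⟩ := hp y
    exact LinearMap.congr_fun h2 x

end

end SBC
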