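import Pool.Agent.H5.SBC.Basic

/-!
Targets (closed propositions depending on `K` and `A`) for the modules of the stable brick
conjecture. The numbers refer to /team-store/H5_SBC_proof.md.
-/

namespace SBC

open Dem Filter

section

variable (K A : Type) [Field K] [Ring A] [Algebra K A] [Module.Finite K A]

/-! ### A. exact sequences, torsion classes -/

/-- SNU (1.1) numerics of a short exact sequence -/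
def T_SNU : Prop :=
  ∀ (f : Cpx K A) (X Y Z : FMod K A) (i : X →ₗ[A] Y) (p : Y →ₗ[A] Z), SES i p →
    hh f X ≤ hh f Y ∧ hh f Y ≤ hh f X + hh f Z ∧ ee f Z ≤ ee f Y ∧ ee f Y ≤ ee f X + ee f Z ∧
      cls f Y = cls f X + cls f Z

/-- LFT (1.1) lifting of maps from the cokernel -/
def T_LFT : Prop :=
  ∀ (f : Cpx K A) (X Y Z : FMod K A) (i : X →ₗ[A] Y) (p : Y →ₗ[A] Z), SES i p →
    (ee f X = 0 → ∀ φ : f.H →ₗ[A] Z, ∃ ψ : f.H →ₗ[A] Y, p ∘ₗ ψ = φ) ∧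
    ((∀ φ : f.H →ₗ[A] Z, ∃ ψ : f.H →ₗ[A] Y, p ∘ₗ ψ = φ) → ee f Y = 0 → ee f X = 0)

/-- HOM (1.2) `hh` and `ee` as Hom spaces -/
def T_HOM : Prop :=
  (∀ (f : Cpx K A) (Z : FMod K A), hh f Z = 0 ↔ Hom0 f.H Z) ∧
  (∀ (f : Cpx K A) (Y : FMod K A), ee f Y = 0 ↔ Hom0 Y (tau f)) ∧
  (∀ f : Cpx K A, f.Rigid ↔ ee f f.H = 0) ∧
  (∀ f : Cpx K A, f.Rigid ↔ hh f (tau f) = 0) ∧
  (∀ f g : Cpx K A, ee f g.H = hh g (tau f)) ∧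
  (∀ (f : Cpx K A) (X Y : FMod K A) (p : X →ₗ[A] Y), Function.Surjective p → ee f Y ≤ ee f X) ∧
  (∀ (f : Cpx K A) (X Y : FMod K A) (i : X →ₗ[A] Y), Function.Injective i → hh f X ≤ hh f Y) ∧
  (∀ (f : Cpx K A) (X : FMod K A), Subsingleton X → hh f X = 0 ∧ ee f X = 0)

/-- WID (1.3) `W_f` is a wide subcategory -/
def T_WID : Prop :=
  (∀ (f : Cpx K A) (X Y : FMod K A) (φ : X →ₗ[A] Y), ee f X = 0 → hh f Y = 0 →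
    ∃ (I : FMod K A) (p : X →ₗ[A] I) (i : I →ₗ[A] Y), InW f I ∧ Function.Surjective p ∧
      Function.Injective i ∧ i ∘ₗ p = φ) ∧
  (∀ (f : Cpx K A) (X Y Z : FMod K A) (i : X →ₗ[A] Y) (p : Y →ₗ[A] Z), SES i p →
    (InW f X → InW f Y → InW f Z) ∧ (InW f Y → InW f Z → InW f X) ∧
    (InW f X → InW f Z → InW f Y) ∧ (ee f X = 0 → hh f Y = 0 → hh f Z = 0) ∧
    (hh f Z = 0 → ee f Y = 0 → ee f X = 0)) ∧
  (∀ (f : Cpx K A) (X Y : FMod K A), Nonempty (X ≃ₗ[A] Y) → InW f X → InW f Y) ∧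
  (∀ (f : Cpx K A) (X : FMod K A), Subsingleton X → InW f X) ∧
  (∀ (f g : Cpx K A) (X : FMod K A), InW (f.sum g) X ↔ InW f X ∧ InW g X)

/-- RAD (1.4) torsion radicals -/
def T_RAD : Prop :=
  (∀ T : FMod K A → Prop, TorsCls T → ∀ L : FMod K A, ∃ (N Q : FMod K A) (i : N →ₗ[A] L)
    (p : L →ₗ[A] Q), SES i p ∧ T N ∧ ∀ Y, T Y → Hom0 Y Q) ∧
  (∀ F : FMod K A → Prop, TFCls F → ∀ L : FMod K A, ∃ (N Q : FMod K A) (i : N →ₗ[A] L)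
    (p : L →ₗ[A] Q), SES i p ∧ F Q ∧ ∀ Z, F Z → Hom0 N Z)

/-- CLO (3.1) closure properties -/
def T_CLO : Prop :=
  (∀ (f : Cpx K A) (w : FMod K A → ℝ), AddOn f w →
    TorsCls (TB f w) ∧ TorsCls (TT f w) ∧ TFCls (FF f w) ∧ TFCls (FS f w)) ∧
  (∀ f : Cpx K A, TorsCls (fun Y => ee f Y = 0) ∧ TFCls (fun Z => hh f Z = 0)) ∧
  (∀ 𝒳 : FMod K A → Prop, TFCls (Perp 𝒳)) ∧
  (∀ F : FMod K A → Prop, TorsCls (fun Y => ∀ Z, F Z → Hom0 Y Z)) ∧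
  (∀ (f : Cpx K A) (w : FMod K A → ℝ), AddOn f w → ∀ X Y : FMod K A, Nonempty (X ≃ₗ[A] Y) →
    (w X = w Y ∨ ¬ InW f X) ∧ (SS f w X → SS f w Y) ∧ (ST f w X → ST f w Y))

/-! ### B. relative stability -/

/-- TPR (3.2) the torsion pairs `(TT, FF)` and `(TB, FS)` -/
def T_TPR : Prop :=
  ∀ (f : Cpx K A) (w : FMod K A → ℝ), f.Rigid → AddOn f w →
    ((∀ Y Z, TT f w Y → FF f w Z → Hom0 Y Z) ∧
      (∀ Y, (∀ Z, FF f w Z → Hom0 Y Z) → TT f w Y) ∧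
      (∀ Z, (∀ Y, TT f w Y → Hom0 Y Z) → FF f w Z)) ∧
    ((∀ Y Z, TB f w Y → FS f w Z → Hom0 Y Z) ∧
      (∀ Y, (∀ Z, FS f w Z → Hom0 Y Z) → TB f w Y) ∧
      (∀ Z, (∀ Y, TB f w Y → Hom0 Y Z) → FS f w Z))

/-- SST (3.3) semistable and stable objects -/
def T_SST : Prop :=
  ∀ (f : Cpx K A) (w : FMod K A → ℝ), AddOn f w →
    (∀ C, SS f w C → InW f C ∧ w C = 0) ∧
    (∀ C : FMod K A, Subsingleton C → SS f w C) ∧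
    (∀ (X Y Z : FMod K A) (i : X →ₗ[A] Y) (p : Y →ₗ[A] Z), SES i p →
      (SS f w Y → InW f X → w X = 0 → SS f w X ∧ SS f w Z) ∧
      (SS f w X → SS f w Z → SS f w Y)) ∧
    (∀ (X Y : FMod K A) (φ : X →ₗ[A] Y), TB f w X → FF f w Y →
      ∃ (I : FMod K A) (p : X →ₗ[A] I) (i : I →ₗ[A] Y), SS f w I ∧ Function.Surjective p ∧
        Function.Injective i ∧ i ∘ₗ p = φ) ∧
    (∀ C, ST f w C ↔ SS f w C ∧ Nontrivial C ∧ ∀ (X : FMod K A) (i : X →ₗ[A] C), SS f w X →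
      Nontrivial X → Function.Injective i → Function.Surjective i) ∧
    (∀ C, ST f w C → ∀ (X : FMod K A) (i : X →ₗ[A] C), InW f X → Nontrivial X →
      Function.Injective i → ¬ Function.Surjective i → w X < 0) ∧
    (∀ (Z X : FMod K A) (i : X →ₗ[A] Z), FF f w Z → InW f X → Function.Injective i → w X = 0 →
      SS f w X) ∧
    (∀ (Y X : FMod K A) (p : Y →ₗ[A] X), TB f w Y → InW f X → Function.Surjective p → w X = 0 →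
      SS f w X)

/-- STQ (3.3), (4.6) stable quotients and subobjects -/
def T_STQ : Prop :=
  ∀ (f : Cpx K A) (w : FMod K A → ℝ), AddOn f w →
    (∀ X : FMod K A, SS f w X → Nontrivial X →
      (∃ (C : FMod K A) (p : X →ₗ[A] C), ST f w C ∧ Function.Surjective p) ∧
      (∃ (C : FMod K A) (i : C →ₗ[A] X), ST f w C ∧ Function.Injective i)) ∧
    (∀ (C Z : FMod K A) (φ : C →ₗ[A] Z), ST f w C → FF f w Z → φ ≠ 0 → Function.Injective φ) ∧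
    (∀ (Y C : FMod K A) (φ : Y →ₗ[A] C), TB f w Y → ST f w C → φ ≠ 0 → Function.Surjective φ) ∧
    (∀ (k : ℕ) (S : Fin k → FMod K A), StabList f w S → ∀ X, SS f w X → Filt S X) ∧
    (∀ (k : ℕ) (S : Fin k → FMod K A), StabList f w S → ∀ Z,
      (FS f w Z ↔ FF f w Z ∧ Perp (MemS S) Z)) ∧
    (∀ (X Y Z : FMod K A) (i : X →ₗ[A] Y) (p : Y →ₗ[A] Z), SES i p → SS f w X → FF f w Y →
      FF f w Z)

/-- FIL filtered objects: `Filt S` inside the semistables and inside the perpendicular -/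
def T_FIL : Prop :=
  ∀ (f : Cpx K A) (w : FMod K A → ℝ), AddOn f w → ∀ (k : ℕ) (S : Fin k → FMod K A),
    ((∀ i, SS f w (S i)) → ∀ X, Filt S X → SS f w X) ∧
    ((∀ i, InW f (S i)) → (∀ i, w (S i) = 0) → ∀ X, Filt S X → InW f X ∧ w X = 0) ∧
    (∀ X, Filt S X → ∀ Z, Perp (MemS S) Z → Hom0 X Z)

/-- RRA (3.4) -/
def T_RRA : Prop :=
  LR K A → ∀ f : Cpx K A, f.Rigid → ∀ x ∈ K0 K A, ∃ g : Cpx K A, (f.sum g).Rigid ∧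
    ∀ X, InW f X → cls g X = x X

/-- RRB (3.5) -/
def T_RRB : Prop :=
  ∀ (f g : Cpx K A) (w : FMod K A → ℝ) (m : ℝ), (f.sum g).Rigid → 0 < m →
    (∀ X, InW f X → w X = m * (cls g X : ℝ)) →
    (∀ Z, FF f w Z ↔ hh f Z = 0 ∧ hh g Z = 0) ∧
    (∀ Y, TB f w Y ↔ ee f Y = 0 ∧ ee g Y = 0) ∧
    (∀ X, SS f w X ↔ InW (f.sum g) X)

/-- FUL (3.6) -/
def T_FUL : Prop :=
  (∀ g : Cpx K A, Full g → ∀ Y Z, ee g Y = 0 → hh g Z = 0 → Hom0 Y Z) ∧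
  (∀ g : Cpx K A, Full g → ∀ Z, (∀ Y, ee g Y = 0 → Hom0 Y Z) → hh g Z = 0) ∧
  (∀ g : Cpx K A, Full g → ∀ Y, (∀ Z, hh g Z = 0 → Hom0 Y Z) → ee g Y = 0)

/-- RRC (3.6) the full complexes `g_+`, `g_-` -/
def T_RRC : Prop :=
  LR K A → ∀ f : Cpx K A, f.Rigid →
    (∃ g : Cpx K A, Full (f.sum g) ∧ ∀ Y, ee (f.sum g) Y = 0 ↔ ee f Y = 0) ∧
    (∃ g : Cpx K A, Full (f.sum g) ∧ ∀ Z, hh (f.sum g) Z = 0 ↔ hh f Z = 0)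

/-- VLM (3.7) -/
def T_VLM : Prop :=
  ∀ (g : Cpx K A) (F : FMod K A → Prop), Full g → TFCls F → F (tau g) → ∀ Z, hh g Z = 0 → F Z

/-- FMM (3.8) -/
def T_FMM : Prop :=
  ∀ (f g : Cpx K A) (M : FMod K A), f.Rigid → ee f M = 0 → Full g →
    (∀ Z, hh g Z = 0 ↔ hh f Z = 0 ∧ Hom0 M Z) → (f.sum g).Rigid ∧ ee g M = 0

/-! ### C. charts -/

/-- DIM the dimension is in `K₀(proj A)` -/
def T_DIM : Prop := (fun L : FMod K A => (Module.finrank K L : ℤ)) ∈ K0 K A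

/-- KFG `K₀(proj A)` is finitely generated -/
def T_KFG : Prop :=
  ∃ (n : ℕ) (x : Fin n → (FMod K A → ℤ)), (∀ i, x i ∈ K0 K A) ∧
    ∀ y ∈ K0 K A, ∃ c : Fin n → ℤ, ∀ L, y L = ∑ i, c i * x i L

/-- KBD elements of `K₀(proj A)` are bounded by the dimension -/
def T_KBD : Prop := ∀ x ∈ K0 K A, ∃ C : ℕ, ∀ L : FMod K A, |x L| ≤ C * Module.finrank K L

/-- KDF elements of `K₀(proj A)` are differences -/
def T_KDF : Prop :=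
  ∀ x ∈ K0 K A, ∃ P1 P0 : FMod K A, Module.Projective A P1 ∧ Module.Projective A P0 ∧
    ∀ L, x L = (hd P0 L : ℤ) - hd P1 L

/-- CHT every complex has a chart -/
def T_CHT : Prop := ∀ f : Cpx K A, ∃ r : ℕ, Nonempty (Chart f r)

/-- CHR reduction of charts -/
def T_CHR : Prop :=
  ∀ (f g : Cpx K A) (r : ℕ), Chart f r → (∃ X, InW f X ∧ cls g X ≠ 0) →
    ∃ r' : ℕ, r' < r ∧ Nonempty (Chart (f.sum g) r')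

/-- BDD bounds -/
def T_BDD : Prop :=
  ∀ (f : Cpx K A) (r : ℕ) (D : Chart f r),
    (∃ C : ℝ, 0 < C ∧ ∀ X, InW f X → ∀ ζ : Fin r → ℝ,
      |wt D ζ X| ≤ C * ‖ζ‖ * Module.finrank K X) ∧
    ∀ n : ℕ, {v : Fin r → ℚ | ∃ X : FMod K A, InW f X ∧ Module.finrank K X ≤ n ∧
      D.d X = v}.Finite

/-- WTA weights -/
def T_WTA : Prop :=
  ∀ (f : Cpx K A) (r : ℕ) (D : Chart f r),
    (∀ ζ, AddOn f (wt D ζ)) ∧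
    (∀ (a b : ℝ) (ζ ξ : Fin r → ℝ) (X : FMod K A),
      wt D (a • ζ + b • ξ) X = a * wt D ζ X + b * wt D ξ X) ∧
    (∀ g : Cpx K A, ∃ ζ, IsRat ζ ∧ ∀ X, InW f X → (cls g X : ℝ) = wt D ζ X) ∧
    (∀ x ∈ K0 K A, ∃ ζ, IsRat ζ ∧ ∀ X, InW f X → (x X : ℝ) = wt D ζ X) ∧
    (∀ ζ ξ, (∀ X, InW f X → wt D ζ X = wt D ξ X) → ζ = ξ)

/-- RGG rational weights come from rigid complexes -/
def T_RGG : Prop :=
  LR K A → ∀ (f : Cpx K A) (r : ℕ) (D : Chart f r), f.Rigid → ∀ ζ, IsRat ζ →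
    ∃ (g : Cpx K A) (m : ℕ), 0 < m ∧ (f.sum g).Rigid ∧
      ∀ X, InW f X → (cls g X : ℝ) = m * wt D ζ X

/-! ### D. openness, stables -/

/-- OPN (3.9) -/
def T_OPN : Prop :=
  LR K A → ∀ (f : Cpx K A) (r : ℕ) (D : Chart f r), f.Rigid → ∀ ζ₁, IsRat ζ₁ →
    ∃ ρ : ℝ, 0 < ρ ∧ ∀ ζ', ‖ζ' - ζ₁‖ < ρ →
      (∀ Z, FF f (wt D ζ') Z → FF f (wt D ζ₁) Z) ∧ (∀ Y, TB f (wt D ζ') Y → TB f (wt D ζ₁) Y)

/-- LOC (3.9) local description -/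
def T_LOC : Prop :=
  ∀ (f : Cpx K A) (w₁ w' : FMod K A → ℝ), f.Rigid → AddOn f w₁ → AddOn f w' →
    (∀ Z, FF f w' Z → FF f w₁ Z) → (∀ Y, TB f w' Y → TB f w₁ Y) →
    (∀ Z, FF f w' Z ↔ FF f w₁ Z ∧ ∀ (X : FMod K A) (i : X →ₗ[A] Z), SS f w₁ X →
      Function.Injective i → w' X ≤ 0) ∧
    (∀ Z, FS f w' Z ↔ FF f w₁ Z ∧ ∀ (X : FMod K A) (i : X →ₗ[A] Z), SS f w₁ X → Nontrivial X →
      Function.Injective i → w' X < 0) ∧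
    (∀ Y, TB f w' Y ↔ TB f w₁ Y ∧ ∀ (X : FMod K A) (p : Y →ₗ[A] X), SS f w₁ X →
      Function.Surjective p → 0 ≤ w' X) ∧
    (∀ Y, TT f w' Y ↔ TB f w₁ Y ∧ ∀ (X : FMod K A) (p : Y →ₗ[A] X), SS f w₁ X → Nontrivial X →
      Function.Surjective p → 0 < w' X)

/-- FIT (4.1) -/
def T_FIT : Prop :=
  ∀ (h : Cpx K A) (φ : Module.End A h.H), Function.Bijective φ ∨ IsNilpotent φ ∨
    ∃ h₁ h₂ : Cpx K A, NSplit h h₁ h₂ ∧ size h₁ < size h ∧ size h₂ < size h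

/-- CSM (4.2) -/
def T_CSM : Prop :=
  ∀ (ga gb : Cpx K A) (α : ga.H →ₗ[A] gb.H) (β : gb.H →ₗ[A] ga.H),
    ¬ IsNilpotent (β ∘ₗ α : Module.End A ga.H) →
    ∃ h a' b' : Cpx K A, NSplit ga h a' ∧ NSplit gb h b' ∧ 0 < size h

/-- NSR (4.3) -/
def T_NSR : Prop :=
  (∀ f g h h' : Cpx K A, (f.sum g).Rigid → NSplit g h h' → (f.sum h).Rigid) ∧
  (∀ g h h' : Cpx K A, NSplit g h h' → NSplit g h' h) ∧
  (∀ g h h' : Cpx K A, NSplit g h h' → ∀ L, cls g L = cls h L + cls h' L) ∧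
  (∀ g h h' : Cpx K A, NSplit g h h' → ∀ Z, hh g Z = 0 → Hom0 h.H Z) ∧
  (∀ g : Cpx K A, size g = 0 → ∀ L, hh g L = 0 ∧ ee g L = 0 ∧ cls g L = 0) ∧
  (∀ g h h' h₁ h₂ : Cpx K A, NSplit g h h' → NSplit h h₁ h₂ → ∃ h'', NSplit g h₁ h'')

/-- SON (4.4) the separating class of a simple object -/
def T_SON : Prop :=
  LR K A → ∀ f : Cpx K A, f.Rigid → ∀ C, SimpW f C → ∃ x ∈ K0 K A, 0 < x C ∧
    ∀ C', SimpW f C' → IsEmpty (C ≃ₗ[A] C') → x C' = 0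

/-- STO stability is open on the zero set -/
def T_STO : Prop :=
  ∀ (f : Cpx K A) (r : ℕ) (D : Chart f r) (k : ℕ) (S : Fin k → FMod K A) (ζ₀ : Fin r → ℝ),
    (∀ i, ST f (wt D ζ₀) (S i)) → ∃ ρ : ℝ, 0 < ρ ∧ ∀ ζ, ‖ζ - ζ₀‖ < ρ →
      (∀ i, wt D ζ (S i) = 0) → ∀ i, ST f (wt D ζ) (S i)

/-- STW (4.5) stables are independent -/
def T_STW : Prop :=
  LR K A → ∀ (f : Cpx K A) (r : ℕ) (D : Chart f r), f.Rigid → ∀ (ζ : Fin r → ℝ) (k : ℕ)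
    (S : Fin k → FMod K A), StabFam f (wt D ζ) S →
    (∃ c : Fin k → Fin r → ℚ, ∀ i, 0 < ∑ j, c i j * D.d (S i) j ∧
      ∀ i', i' ≠ i → ∑ j, c i j * D.d (S i') j = 0) ∧
    LinearIndependent ℚ (fun i => D.d (S i)) ∧ k ≤ r

/-- STL (4.5) complete lists of stables; comparison of lists -/
def T_STL : Prop :=
  LR K A → ∀ (f : Cpx K A) (r : ℕ) (D : Chart f r), f.Rigid → ∀ ζ : Fin r → ℝ,
    (∃ (k : ℕ) (S : Fin k → FMod K A), StabList f (wt D ζ) S) ∧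
    (∀ (k k' : ℕ) (S : Fin k → FMod K A) (S' : Fin k' → FMod K A),
      StabFam f (wt D ζ) S → StabList f (wt D ζ) S' →
      k ≤ k' ∧ (k' ≤ k → StabList f (wt D ζ) S))

/-- PUR (4.7) -/
def T_PUR : Prop :=
  LR K A → ∀ (f : Cpx K A) (r : ℕ) (D : Chart f r), f.Rigid → ∀ ζ₁, IsRat ζ₁ → ∀ (k : ℕ)
    (S : Fin k → FMod K A), StabFam f (wt D ζ₁) S → ∀ ρ : ℝ, 0 < ρ →
    ∃ ζ₂, IsRat ζ₂ ∧ ‖ζ₂ - ζ₁‖ < ρ ∧ StabList f (wt D ζ₂) S ∧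
      ∀ Z, FF f (wt D ζ₂) Z ↔ FF f (wt D ζ₁) Z

/-- PUN (4.8) -/
def T_PUN : Prop :=
  LR K A → ∀ (f : Cpx K A) (r : ℕ) (D : Chart f r), f.Rigid → ∀ ζ₁, IsRat ζ₁ → ∀ (k : ℕ)
    (S : Fin k → FMod K A), StabList f (wt D ζ₁) S →
    ∃ ρ : ℝ, 0 < ρ ∧ ∀ ζ', ‖ζ' - ζ₁‖ < ρ → (∀ i, wt D ζ' (S i) = 0) →
      (∀ Z, FF f (wt D ζ') Z ↔ FF f (wt D ζ₁) Z) ∧
      (∀ Y, TB f (wt D ζ') Y ↔ TB f (wt D ζ₁) Y) ∧ StabList f (wt D ζ') S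

/-! ### E. the order -/

/-- LEC properties of `≤`, scaling -/
def T_LEC : Prop :=
  ∀ (f : Cpx K A) (r : ℕ) (D : Chart f r) (𝒳 : FMod K A → Prop),
    (∀ ζ, LEX D 𝒳 ζ ζ) ∧
    (∀ a b c, LEX D 𝒳 a b → LEX D 𝒳 b c → LEX D 𝒳 a c) ∧
    (∀ ζ, IsClosed {ζ' | LEX D 𝒳 ζ' ζ}) ∧
    (∀ a b ζ, LEX D 𝒳 a ζ → LEX D 𝒳 b ζ → LEX D 𝒳 (a + b) ζ) ∧
    (∀ (c : ℝ) a ζ, 0 ≤ c → LEX D 𝒳 a ζ → LEX D 𝒳 (c • a) ζ) ∧
    (∀ (c : ℝ) a ζ, 0 < c → (LEX D 𝒳 a (c • ζ) ↔ LEX D 𝒳 a ζ)) ∧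
    (∀ (c : ℝ) (ζ : Fin r → ℝ) (Z : FMod K A), 0 < c →
      (FF f (wt D (c • ζ)) Z ↔ FF f (wt D ζ) Z) ∧ (TB f (wt D (c • ζ)) Z ↔ TB f (wt D ζ) Z) ∧
      (SS f (wt D (c • ζ)) Z ↔ SS f (wt D ζ) Z) ∧ (ST f (wt D (c • ζ)) Z ↔ ST f (wt D ζ) Z))

/-- MIN (5.1) -/
def T_MIN : Prop :=
  ∀ (f : Cpx K A) (r : ℕ) (D : Chart f r) (𝒳 : FMod K A → Prop) (DD : Set (Fin r → ℝ)),
    IsClosed DD → (∀ (c : ℝ), 0 ≤ c → ∀ a ∈ DD, c • a ∈ DD) → ∀ ζ₀ ∈ DD, ζ₀ ≠ 0 →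
    ∃ ζm, MinPt D 𝒳 DD ζm ∧ LEX D 𝒳 ζm ζ₀

/-- DMM the cone `D⁺(M)` -/
def T_DMM : Prop :=
  ∀ (f : Cpx K A) (r : ℕ) (D : Chart f r) (M : FMod K A), InW f M →
    Dom D (fun N => N = M) (DM D M)

/-- DMS the cone `D(S)` -/
def T_DMS : Prop :=
  ∀ (f : Cpx K A) (r : ℕ) (D : Chart f r) (k : ℕ) (S : Fin k → FMod K A), (∀ i, InW f (S i)) →
    Dom D (MemS S) (DS D S)

/-- NAP (5.2) no antipodes -/
def T_NAP : Prop :=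
  ∀ (f : Cpx K A) (r : ℕ) (D : Chart f r) (𝒳 : FMod K A → Prop) (DD : Set (Fin r → ℝ)),
    f.Rigid → Dom D 𝒳 DD → ∀ ζm, MinPt D 𝒳 DD ζm → ∀ ζ ∈ Pcl D 𝒳 DD ζm, -ζ ∉ Pcl D 𝒳 DD ζm

/-- CLA (5.3) Claim A -/
def T_CLA : Prop :=
  ∀ (f : Cpx K A) (r : ℕ) (D : Chart f r) (𝒳 : FMod K A → Prop) (ζ₀ ξ₀ : Fin r → ℝ)
    (ζ ξ : ℕ → Fin r → ℝ), Tendsto ζ atTop (nhds ζ₀) →
    (∀ j X, SS f (wt D ζ₀) X → wt D (ζ j) X = 0) → (∀ j, LEX D 𝒳 (ξ j) (ζ j)) →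
    Tendsto ξ atTop (nhds ξ₀) → LEX D 𝒳 ξ₀ ζ₀

/-- CLB (5.4) Claim B -/
def T_CLB : Prop :=
  ∀ (f : Cpx K A) (r : ℕ) (D : Chart f r) (k : ℕ) (S : Fin k → FMod K A) (ζ₁ ξ : Fin r → ℝ),
    (∀ i, ST f (wt D ζ₁) (S i)) → (∀ i, SS f (wt D ξ) (S i)) → LEX D (MemS S) ξ ζ₁ →
    ∀ Z, FF f (wt D ζ₁) Z → FF f (wt D ξ) Z

/-- XTH (5.5) -/
def T_XTH : Prop :=
  LR K A → ∀ (f : Cpx K A) (r : ℕ) (D : Chart f r), f.Rigid → ∀ (k : ℕ)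
    (S : Fin k → FMod K A) (ζ₁ ζ₀ : Fin r → ℝ), IsRat ζ₁ → StabList f (wt D ζ₁) S →
    StabList f (wt D ζ₀) S → ζ₀ ≠ 0 → LEX D (MemS S) ζ₀ ζ₁ →
    ∃ ζ', IsRat ζ' ∧ ζ' ≠ 0 ∧ (∀ i, SS f (wt D ζ') (S i)) ∧ LEX D (MemS S) ζ' ζ₀

/-! ### F. Lemma D -/

/-- TRT (6.1) -/
def T_TRT : Prop :=
  ∀ (g : Cpx K A) (T : FMod K A → Prop), g.Rigid → TorsCls T → (∀ Y, T Y → ee g Y = 0) →
    TorsCls (fun Y => T (Y.quo (tr g Y)))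

/-- GEN (section 6): `M_a / tr_b M_a` is in `T'` -/
def T_GEN : Prop :=
  ∀ (f ga gb : Cpx K A) (𝒳 : FMod K A → Prop), (f.sum gb).Rigid →
    (∀ M, 𝒳 M → ee gb M = 0) →
    (∀ Z, hh f Z = 0 → hh gb Z = 0 → Perp 𝒳 Z → hh ga Z = 0) →
    ∀ Z, hh f Z = 0 → Perp 𝒳 Z → Hom0 (ga.H.quo (tr gb ga.H)) Z

/-- NIL (6.2) -/
def T_NIL : Prop :=
  ∀ (ga gb : Cpx K A) (Z : FMod K A), Hom0 (ga.H.quo (tr gb ga.H)) Z →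
    Hom0 (gb.H.quo (tr ga gb.H)) Z →
    (∀ (α : ga.H →ₗ[A] gb.H) (β : gb.H →ₗ[A] ga.H),
      IsNilpotent (β ∘ₗ α : Module.End A ga.H)) →
    Hom0 ga.H Z

/-- `a` is in `P` and the class of `ga`, compatible with `f` -/
def Adm {K A : Type} [Field K] [Ring A] [Algebra K A] {f : Cpx K A} {r : ℕ} (D : Chart f r)
    (P : Set (Fin r → ℝ)) (a : Fin r → ℝ) (ga : Cpx K A) : Prop :=
  (f.sum ga).Rigid ∧ a ∈ P ∧ ∀ X, InW f X → (cls ga X : ℝ) = wt D a X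

/-- summand-closed sets of weights -/
def SumCl {K A : Type} [Field K] [Ring A] [Algebra K A] {f : Cpx K A} {r : ℕ} (D : Chart f r)
    (P : Set (Fin r → ℝ)) : Prop :=
  ∀ ζ ∈ P, ∀ (g h h' : Cpx K A) (ξ : Fin r → ℝ), (f.sum g).Rigid → NSplit g h h' →
    (∀ X, InW f X → (cls g X : ℝ) = wt D ζ X) → (∀ X, InW f X → (cls h X : ℝ) = wt D ξ X) →
    ξ ≠ 0 → ξ ∈ P

/-- CAS (section 6, case 1) a minimal pair has only nilpotent compositions -/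
def T_CAS : Prop :=
  ∀ (f : Cpx K A) (r : ℕ) (D : Chart f r) (P : Set (Fin r → ℝ)), SumCl D P →
    ∀ (a b : Fin r → ℝ) (ga gb : Cpx K A), Adm D P a ga → Adm D P b gb →
    LinearIndependent ℝ ![a, b] →
    (∀ (a' b' : Fin r → ℝ) (ga' gb' : Cpx K A), Adm D P a' ga' → Adm D P b' gb' →
      LinearIndependent ℝ ![a', b'] → size ga + size gb ≤ size ga' + size gb') →
    ∀ (α : ga.H →ₗ[A] gb.H) (β : gb.H →ₗ[A] ga.H), IsNilpotent (β ∘ₗ α : Module.End A ga.H)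

/-- LDD (section 6) Lemma D -/
def T_LDD : Prop :=
  ∀ (f : Cpx K A) (r : ℕ) (D : Chart f r) (𝒳 : FMod K A → Prop) (P : Set (Fin r → ℝ)),
    f.Rigid → (∀ M, 𝒳 M → InW f M) → (∀ ζ ∈ P, ∀ ζ' ∈ P, LEX D 𝒳 ζ' ζ) →
    (∀ ζ ∈ P, ∀ M, 𝒳 M → TB f (wt D ζ) M) → SumCl D P →
    (∃ (a b : Fin r → ℝ) (ga gb : Cpx K A), Adm D P a ga ∧ Adm D P b gb ∧
      LinearIndependent ℝ ![a, b]) →
    ∀ ζ ∈ P, ∀ Z, hh f Z = 0 → Perp 𝒳 Z → FF f (wt D ζ) Z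

/-- LDP (section 6, 9.1) Lemma D for the class of a minimal point -/
def T_LDP : Prop :=
  LR K A → ∀ (f : Cpx K A) (r : ℕ) (D : Chart f r) (𝒳 : FMod K A → Prop)
    (DD : Set (Fin r → ℝ)), f.Rigid → Dom D 𝒳 DD → ∀ ζm, MinPt D 𝒳 DD ζm →
    (∃ a b, a ∈ Pcl D 𝒳 DD ζm ∧ b ∈ Pcl D 𝒳 DD ζm ∧ IsRat a ∧ IsRat b ∧
      LinearIndependent ℝ ![a, b]) →
    ∀ ζ ∈ Pcl D 𝒳 DD ζm, ∀ Z, hh f Z = 0 → Perp 𝒳 Z → FF f (wt D ζ) Z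

/-! ### G. Lemma 7 -/

/-- LSA (7.1) -/
def T_LSA : Prop :=
  LR K A → ∀ (f : Cpx K A) (r : ℕ) (D : Chart f r), f.Rigid → ∀ (k' k'' : ℕ)
    (S' : Fin k' → FMod K A) (S'' : Fin k'' → FMod K A) (ζ₀ ζ : Fin r → ℝ),
    StabFam f (wt D ζ₀) S' → StabList f (wt D ζ) S'' → k'' ≤ k' →
    (∀ i, SS f (wt D ζ) (S' i)) → ∀ i, ST f (wt D ζ) (S' i)

/-- LSB (7.2) -/
def T_LSB : Prop :=
  LR K A → ∀ (f : Cpx K A) (r : ℕ) (D : Chart f r) (𝒳 : FMod K A → Prop)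
    (DD : Set (Fin r → ℝ)), f.Rigid → Dom D 𝒳 DD → ∀ ζm, MinPt D 𝒳 DD ζm →
    ∀ ζ₀ ∈ Pcl D 𝒳 DD ζm, ∀ (k' : ℕ) (S' : Fin k' → FMod K A), StabList f (wt D ζ₀) S' →
    (∀ ζ ∈ Pcl D 𝒳 DD ζm, ∀ (k : ℕ) (S : Fin k → FMod K A), StabList f (wt D ζ) S → k ≤ k') →
    ∀ ζ ∈ Pcl D 𝒳 DD ζm, (∀ i, wt D ζ (S' i) = 0) → ∀ i, ST f (wt D ζ) (S' i)

/-- LSC (7.3) -/
def T_LSC : Prop :=
  LR K A → ∀ (f : Cpx K A) (r : ℕ) (D : Chart f r) (𝒳 : FMod K A → Prop)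
    (DD : Set (Fin r → ℝ)), f.Rigid → Dom D 𝒳 DD → ∀ ζm, MinPt D 𝒳 DD ζm →
    (∀ ζ ∈ Pcl D 𝒳 DD ζm, ∀ M, 𝒳 M → SS f (wt D ζ) M) →
    ∀ ζ₀ ∈ Pcl D 𝒳 DD ζm, ∀ (k' : ℕ) (S' : Fin k' → FMod K A), StabList f (wt D ζ₀) S' →
    (∀ ζ ∈ Pcl D 𝒳 DD ζm, ∀ (k : ℕ) (S : Fin k → FMod K A), StabList f (wt D ζ) S → k ≤ k') →
    ∃ ζ₁, IsRat ζ₁ ∧ ζ₁ ≠ 0 ∧ StabList f (wt D ζ₁) S' ∧ ∀ ξ, ξ ≠ 0 →
      (∀ i, SS f (wt D ξ) (S' i)) → LEX D (MemS S') ξ ζ₁ → ∀ i, ST f (wt D ξ) (S' i)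

/-! ### H. Step E and St -/

/-- the statement `St(S)` (section 8) -/
def StS {K A : Type} [Field K] [Ring A] [Algebra K A] {f : Cpx K A} {r : ℕ} (D : Chart f r)
    {k : ℕ} (S : Fin k → FMod K A) : Prop :=
  ∀ ζ₁ ζm : Fin r → ℝ, IsRat ζ₁ → StabList f (wt D ζ₁) S → MinPt D (MemS S) (DS D S) ζm →
    LEX D (MemS S) ζm ζ₁ →
    (∀ ζ ∈ Pcl D (MemS S) (DS D S) ζm, ∀ i, ST f (wt D ζ) (S i)) →
    ∃ ζ ∈ Pcl D (MemS S) (DS D S) ζm, RayRat ζ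

/-- STE (section 8) Step E -/
def T_STE : Prop :=
  LR K A → ∀ (f : Cpx K A) (r : ℕ) (D : Chart f r) (𝒳 : FMod K A → Prop)
    (DD : Set (Fin r → ℝ)), f.Rigid → Dom D 𝒳 DD → ∀ ζm, MinPt D 𝒳 DD ζm →
    (∀ ζ ∈ Pcl D 𝒳 DD ζm, ∀ M, 𝒳 M → SS f (wt D ζ) M) →
    ∀ ζ₀ ∈ Pcl D 𝒳 DD ζm, ∀ (k' : ℕ) (S' : Fin k' → FMod K A), StabList f (wt D ζ₀) S' →
    (∀ ζ ∈ Pcl D 𝒳 DD ζm, ∀ (k : ℕ) (S : Fin k → FMod K A), StabList f (wt D ζ) S → k ≤ k') →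
    StS D S' → ∃ ζ ∈ Pcl D 𝒳 DD ζm, RayRat ζ

/-- STT (section 8) -/
def T_STT : Prop :=
  LR K A → ∀ (f : Cpx K A) (r : ℕ) (D : Chart f r), f.Rigid → ∀ (k : ℕ)
    (S : Fin k → FMod K A), StS D S

/-! ### I. Theorem C -/

/-- the conclusion of Theorem C for `f` and `M` -/
def Cst {K A : Type} [Field K] [Ring A] [Algebra K A] (f : Cpx K A) (M : FMod K A) : Prop :=
  ∃ g : Cpx K A, Full g ∧ ∀ Z, hh g Z = 0 ↔ hh f Z = 0 ∧ Hom0 M Z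

/-- CAA (section 9, (A)) -/
def T_CAA : Prop :=
  LR K A → ∀ (f : Cpx K A) (r : ℕ) (D : Chart f r), 2 ≤ r → f.Rigid → ∀ M : FMod K A,
    InW f M → Nontrivial M → ∀ ζm, MinPt D (fun N => N = M) (DM D M) ζm →
    (∃ ζ ∈ Pcl D (fun N => N = M) (DM D M) ζm, RayRat ζ) →
    (∀ g : Cpx K A, (f.sum g).Rigid → (∃ X, InW f X ∧ cls g X ≠ 0) →
      ∀ Q, InW (f.sum g) Q → Cst (f.sum g) Q) →
    Cst f M

/-- CON (section 9, r = 1) -/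
def T_CON : Prop :=
  LR K A → ∀ (f : Cpx K A), Chart f 1 → f.Rigid → ∀ M : FMod K A, InW f M → Nontrivial M →
    Cst f M

/-- CBO (section 9, (B1)) -/
def T_CBO : Prop :=
  LR K A → ∀ (f : Cpx K A) (r : ℕ) (D : Chart f r), f.Rigid → ∀ M : FMod K A, InW f M →
    ∀ ζm, MinPt D (fun N => N = M) (DM D M) ζm →
    (∃ ζ ∈ Pcl D (fun N => N = M) (DM D M) ζm, ¬ SS f (wt D ζ) M) →
    (∀ Q : FMod K A, InW f Q → Module.finrank K Q < Module.finrank K M → Cst f Q) →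
    ∃ ζ ∈ Pcl D (fun N => N = M) (DM D M) ζm, RayRat ζ

/-- CCC (section 9) Theorem C -/
def T_CCC : Prop := LR K A → ∀ f : Cpx K A, f.Rigid → ∀ M : FMod K A, InW f M → Cst f M

/-- FFF every torsion class `T(M)` is functorially finite -/
def T_FFF : Prop :=
  LR K A → ∀ M : FMod K A, ∃ g : Cpx K A, Full g ∧ ∀ Z, hh g Z = 0 ↔ Hom0 M Z

/-! ### J. the end -/

/-- BRK (section 10) -/
def T_BRK : Prop :=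
  (∀ M : FMod K A, ∃ g : Cpx K A, Full g ∧ ∀ Z, hh g Z = 0 ↔ Hom0 M Z) →
    ∀ n : ℕ, ∃ l : List (FMod K A), ∀ B : FMod K A, Brick B → Module.finrank K B = n →
      ∃ N ∈ l, Nonempty (B ≃ₗ[A] N)

/-- THA (section 2) Theorem A -/
def T_THA : Prop :=
  ∀ f : Cpx K A, ¬ f.Rigid → ∃ N : FMod K A, Nontrivial N ∧ ee f N ≠ 0 ∧
    (∃ π : f.P0 →ₗ[A] N, Function.Surjective π ∧ π ∘ₗ f.d = 0) ∧
    Stab (fun L : FMod K A => (Module.finrank K N : ℤ) * cls f L -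
      cls f N * (Module.finrank K L : ℤ)) N

/-- THB (section 2) Theorem B -/
def T_THB : Prop := Infinite K → FinStab K A → LR K A

/-- IDM classes in terms of idempotents -/
def T_IDM : Prop :=
  ∀ x ∈ K0 K A, ∃ (N : ℕ) (m : ℕ) (e : Fin m → A) (c : Fin m → ℤ), 0 < N ∧
    (∀ j, IsIdempotentElem (e j)) ∧ ∀ L : FMod K A, (N : ℤ) * x L =
      ∑ j, c j * (Module.finrank K (LinearMap.range (Algebra.lsmul K K L (e j))) : ℤ)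

end

/-! ### linear algebra -/

/-- RKA -/
def T_RKA (K : Type) [Field K] : Prop :=
  ∀ (U W : Type) [AddCommGroup U] [Module K U] [Module.Finite K U] [AddCommGroup W] [Module K W]
    [Module.Finite K W] (a b : U →ₗ[K] W),
    {t : K | Module.finrank K (LinearMap.range (a + t • b)) <
      Module.finrank K (LinearMap.range a)}.Finite

/-- RKB -/
def T_RKB (K : Type) [Field K] : Prop :=
  Infinite K → ∀ (U W : Type) [AddCommGroup U] [Module K U] [Module.Finite K U]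
    [AddCommGroup W] [Module K W] [Module.Finite K W] (a b : U →ₗ[K] W),
    (∀ t : K, Module.finrank K (LinearMap.range (a + t • b)) ≤
      Module.finrank K (LinearMap.range a)) →
    ∀ u, a u = 0 → b u ∈ LinearMap.range a

/-- RKC -/
def T_RKC (K : Type) [Field K] : Prop :=
  Infinite K → ∀ (V : Type) [AddCommGroup V] [Module K V] (m : ℕ) (U W : Fin m → Type)
    [∀ j, AddCommGroup (U j)] [∀ j, Module K (U j)] [∀ j, Module.Finite K (U j)]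
    [∀ j, AddCommGroup (W j)] [∀ j, Module K (W j)] [∀ j, Module.Finite K (W j)]
    (L : ∀ j, V →ₗ[K] (U j →ₗ[K] W j)),
    ∃ v₀ : V, ∀ j v, Module.finrank K (LinearMap.range (L j v)) ≤
      Module.finrank K (LinearMap.range (L j v₀))

/-- RAT rational approximation -/
def T_RAT : Prop :=
  (∀ (r k : ℕ) (v : Fin k → Fin r → ℚ) (ζ : Fin r → ℝ), (∀ i, ∑ j, ζ j * (v i j : ℝ) = 0) →
    ∀ ε : ℝ, 0 < ε → ∃ q : Fin r → ℝ, IsRat q ∧ (∀ i, ∑ j, q j * (v i j : ℝ) = 0) ∧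
      ‖q - ζ‖ < ε) ∧
  (∀ (r k : ℕ) (v : Fin k → Fin r → ℚ) (ζ : Fin r → ℝ), (∀ i, ∑ j, ζ j * (v i j : ℝ) = 0) →
    ¬ RayRat ζ → ∀ ζ₁ : Fin r → ℝ, IsRat ζ₁ → ζ₁ ≠ 0 → (∀ i, ∑ j, ζ₁ j * (v i j : ℝ) = 0) →
    ∀ ε : ℝ, 0 < ε → ∃ q : Fin r → ℝ, IsRat q ∧ (∀ i, ∑ j, q j * (v i j : ℝ) = 0) ∧
      ‖q - ζ₁‖ < ε ∧ LinearIndependent ℝ ![ζ₁, q]) ∧
  (∀ (r : ℕ), 2 ≤ r → ∀ ζ₁ : Fin r → ℝ, IsRat ζ₁ → ζ₁ ≠ 0 → ∀ ε : ℝ, 0 < ε →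
    ∃ q : Fin r → ℝ, IsRat q ∧ ‖q - ζ₁‖ < ε ∧ LinearIndependent ℝ ![ζ₁, q])

end SBC
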